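import Pool.Agent.NUP1.Hom

/-!
# The row functions near coinciding rows: uniform bounds and limits
-/

set_option autoImplicit false
set_option linter.unusedSectionVars false

noncomputable section

open Complex MeasureTheory Filter Topology

namespace NUP1.Bd

/-- One body function of a species: rows `x` of the species, rows `y` of the other one. -/
def GR (c : ℂ) (β : ℝ) {m : ℕ} (x y : Fin m → ℂ) (u : ℂ) : ℂ :=
  c * (∏ i, 1 / sin (u - x i)) * (∏ i, 1 / sin (u - x i - 2 * l)) *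
    (∏ j, sin (u - y j + 3 * l) ^ 2) * phi β (List.ofFn x) u

theorem cosh_le_exp_mul (a b : ℝ) : Real.cosh a ≤ Real.exp |a - b| * Real.cosh b := by
  have h1 : Real.sinh (a - b) * Real.sinh b ≤ |Real.sinh (a - b)| * Real.cosh b := by
    refine (le_abs_self _).trans ?_
    rw [abs_mul]
    refine mul_le_mul_of_nonneg_left ?_ (abs_nonneg _)
    rw [Real.abs_sinh, ← Real.cosh_abs]
    exact (Real.sinh_lt_cosh _).le
  have h2 : Real.cosh (a - b) + |Real.sinh (a - b)| = Real.exp |a - b| := by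
    rw [Real.abs_sinh, ← Real.cosh_abs (a - b), Real.cosh_add_sinh]
  calc Real.cosh a = Real.cosh (a - b) * Real.cosh b + Real.sinh (a - b) * Real.sinh b := by
        rw [← Real.cosh_add]
        congr 1
        ring
    _ ≤ Real.cosh (a - b) * Real.cosh b + |Real.sinh (a - b)| * Real.cosh b := by gcongr
    _ = _ := by rw [← add_mul, h2]

/-- bound of the factor of a pair of rows on a vertical line -/
theorem norm_pair_le {x y u : ℂ} (hx : x.re = 0) {r : ℝ} (hxy : |x.im - y.im| ≤ r)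
    (h1 : Real.sin u.re ≠ 0) (h2 : Real.sin (u.re - 2 * l) ≠ 0) :
    ‖1 / sin (u - x) * (1 / sin (u - x - 2 * l)) * sin (u - y + 3 * l) ^ 2‖ ≤
      Real.exp r ^ 2 / (|Real.sin u.re| * |Real.sin (u.re - 2 * l)|) := by
  have a1 : |Real.sin u.re| * Real.cosh (u.im - x.im) ≤ ‖sin (u - x)‖ := by
    have := le_norm_sin (u - x)
    rwa [sub_re, hx, sub_zero, sub_im] at this
  have a2 : |Real.sin (u.re - 2 * l)| * Real.cosh (u.im - x.im) ≤ ‖sin (u - x - 2 * l)‖ := by
    have := le_norm_sin (u - x - 2 * l)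
    have e1 : (u - x - 2 * l : ℂ).re = u.re - 2 * l := by simp [hx]
    have e2 : (u - x - 2 * l : ℂ).im = u.im - x.im := by simp
    rwa [e1, e2] at this
  have a3 : ‖sin (u - y + 3 * l)‖ ≤ Real.cosh (u.im - y.im) := by
    have := norm_sin_le (u - y + 3 * l)
    have e2 : (u - y + 3 * l : ℂ).im = u.im - y.im := by simp
    rwa [e2] at this
  have a4 : Real.cosh (u.im - y.im) ≤ Real.exp r * Real.cosh (u.im - x.im) := by
    refine (cosh_le_exp_mul _ (u.im - x.im)).trans ?_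
    gcongr
    rwa [show u.im - y.im - (u.im - x.im) = x.im - y.im by ring]
  have c0 := Real.cosh_pos (u.im - x.im)
  have p1 := abs_pos.2 h1
  have p2 := abs_pos.2 h2
  rw [norm_mul, norm_mul, norm_div, norm_div, norm_one, norm_pow]
  calc _ ≤ 1 / (|Real.sin u.re| * Real.cosh (u.im - x.im)) *
        (1 / (|Real.sin (u.re - 2 * l)| * Real.cosh (u.im - x.im))) *
        (Real.exp r * Real.cosh (u.im - x.im)) ^ 2 := by
        gcongr
        exact a3.trans a4
    _ = _ := by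
        field_simp

/-- the row function as a product over pairs -/
theorem GR_pairs (c : ℂ) (β : ℝ) {m : ℕ} (x y : Fin m → ℂ) (u : ℂ) :
    GR c β x y u = c * (∏ i, (1 / sin (u - x i) * (1 / sin (u - x i - 2 * l)) *
      sin (u - y i + 3 * l) ^ 2)) * phi β (List.ofFn x) u := by
  unfold GR
  rw [Finset.prod_mul_distrib, Finset.prod_mul_distrib]
  ring

/-- **Uniform bound of the row functions.** -/
theorem norm_GR_le (c : ℂ) {β s : ℝ} (h : Adm β s) {m : ℕ} {x y : Fin m → ℂ} {r : ℝ}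
    (hx : ∀ i, (x i).re = 0) (hxr : ∀ i, |(x i).im| ≤ r) (hyr : ∀ i, |(y i).im| ≤ r) {u : ℂ}
    (hu : |u.re + l / 2| ≤ s) (h1 : Real.sin u.re ≠ 0) (h2 : Real.sin (u.re - 2 * l) ≠ 0) :
    ‖GR c β x y u‖ ≤ ‖c‖ * (Real.exp (2 * r) ^ 2 / (|Real.sin u.re| * |Real.sin (u.re - 2 * l)|)) ^ m *
      (4 / kap β s * (m * Real.exp (2 * β * r))) * Real.exp (-(2 * β * |u.im|)) := by
  rw [GR_pairs, norm_mul, norm_mul, norm_prod, mul_assoc (‖c‖ * _)]
  have b1 : ∀ i, ‖1 / sin (u - x i) * (1 / sin (u - x i - 2 * l)) * sin (u - y i + 3 * l) ^ 2‖ ≤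
      Real.exp (2 * r) ^ 2 / (|Real.sin u.re| * |Real.sin (u.re - 2 * l)|) := fun i =>
    norm_pair_le (hx i) (by
      have := abs_le.1 (hxr i)
      have := abs_le.1 (hyr i)
      exact abs_le.2 ⟨by linarith, by linarith⟩) h1 h2
  have b2 : ‖phi β (List.ofFn x) u‖ ≤
      4 / kap β s * (m * Real.exp (2 * β * r)) * Real.exp (-(2 * β * |u.im|)) := by
    have := norm_phi_le' (X := List.ofFn x) (u := u) h (by
      intro z hz
      obtain ⟨i, rfl⟩ := List.mem_ofFn.1 hz
      rwa [sub_re, hx i, sub_zero]) (r := r) (by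
      intro z hz
      obtain ⟨i, rfl⟩ := List.mem_ofFn.1 hz
      exact hxr i)
    rwa [List.length_ofFn, neg_mul] at this
  refine mul_le_mul ?_ b2 (norm_nonneg _) (by positivity)
  refine mul_le_mul_of_nonneg_left ?_ (norm_nonneg _)
  refine (Finset.prod_le_prod (fun i _ => norm_nonneg _) fun i _ => b1 i).trans ?_
  rw [Finset.prod_const, Finset.card_univ, Fintype.card_fin]

theorem measurable_psi (β : ℝ) (x : ℂ) : Measurable fun u => psi β (u - x) := by
  unfold psi
  fun_prop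

theorem measurable_phi (β : ℝ) (X : List ℂ) : Measurable (phi β X) := by
  unfold phi
  refine Measurable.const_sub ?_ 1
  induction X with
  | nil => simp
  | cons x X ih =>
    simp only [List.map_cons, List.prod_cons]
    exact (measurable_psi β x).mul ih

theorem measurable_GR (c : ℂ) (β : ℝ) {m : ℕ} (x y : Fin m → ℂ) : Measurable (GR c β x y) := by
  unfold GR
  have := measurable_phi β (List.ofFn x)
  fun_prop

/-- the cutoff is continuous in the rows -/
theorem tendsto_phi {ι : Type*} {L : Filter ι} {β s : ℝ} (h : Adm β s) {m : ℕ}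
    {x : ι → Fin m → ℂ} {x₀ : Fin m → ℂ} (hx : Tendsto x L (𝓝 x₀)) {u : ℂ}
    (hu : ∀ i, |(u - x₀ i).re + l / 2| ≤ s) :
    Tendsto (fun i => phi β (List.ofFn (x i)) u) L (𝓝 (phi β (List.ofFn x₀) u)) := by
  have e : ∀ z : Fin m → ℂ, phi β (List.ofFn z) u = 1 - ∏ i, psi β (u - z i) := by
    intro z
    unfold phi
    rw [List.map_ofFn, List.prod_ofFn]
    rfl
  simp only [e]
  refine tendsto_const_nhds.sub (tendsto_finsetProd _ fun i _ => ?_)
  have h1 : ContinuousAt (psi β) (u - x₀ i) := (differentiableAt_psi h (hu i)).continuousAt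
  exact h1.tendsto.comp (tendsto_const_nhds.sub (tendsto_pi_nhds.1 hx i))

theorem sin_ne_zero_of_re {z : ℂ} (h : Real.sin z.re ≠ 0) : sin z ≠ 0 := by
  intro h0
  have := le_norm_sin z
  rw [h0, norm_zero] at this
  have := mul_pos (abs_pos.2 h) (Real.cosh_pos z.im)
  linarith

/-- the row functions are continuous in the rows -/
theorem tendsto_GR {ι : Type*} {L : Filter ι} (c : ℂ) {β s : ℝ} (h : Adm β s) {m : ℕ}
    {x y : ι → Fin m → ℂ} {x₀ y₀ : Fin m → ℂ} (hx : Tendsto x L (𝓝 x₀)) (hy : Tendsto y L (𝓝 y₀))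
    (hx0 : ∀ i, (x₀ i).re = 0) {u : ℂ} (hu : |u.re + l / 2| ≤ s) (h1 : Real.sin u.re ≠ 0)
    (h2 : Real.sin (u.re - 2 * l) ≠ 0) :
    Tendsto (fun i => GR c β (x i) (y i) u) L (𝓝 (GR c β x₀ y₀ u)) := by
  have k1 : ∀ i, sin (u - x₀ i) ≠ 0 := fun i => sin_ne_zero_of_re (by
    rwa [sub_re, hx0 i, sub_zero])
  have k2 : ∀ i, sin (u - x₀ i - 2 * l) ≠ 0 := fun i => sin_ne_zero_of_re (by
    have e1 : (u - x₀ i - 2 * l : ℂ).re = u.re - 2 * l := by simp [hx0 i]
    rwa [e1])
  have hx' := tendsto_pi_nhds.1 hx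
  have hy' := tendsto_pi_nhds.1 hy
  unfold GR
  refine Tendsto.mul (Tendsto.mul (Tendsto.mul (Tendsto.mul tendsto_const_nhds ?_) ?_) ?_) ?_
  · refine tendsto_finsetProd _ fun i _ => Tendsto.div tendsto_const_nhds ?_ (k1 i)
    exact (continuous_sin.tendsto _).comp (tendsto_const_nhds.sub (hx' i))
  · refine tendsto_finsetProd _ fun i _ => Tendsto.div tendsto_const_nhds ?_ (k2 i)
    exact (continuous_sin.tendsto _).comp ((tendsto_const_nhds.sub (hx' i)).sub tendsto_const_nhds)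
  · refine tendsto_finsetProd _ fun i _ => Tendsto.pow ?_ 2
    exact (continuous_sin.tendsto _).comp ((tendsto_const_nhds.sub (hy' i)).add tendsto_const_nhds)
  · exact tendsto_phi h hx fun i => by rwa [sub_re, hx0 i, sub_zero]

/-- The admissible lines: `β₀` = line L, `α` = line A, cutoff rate `β`, half width `s`. -/
structure Lines (α β₀ β s : ℝ) : Prop where
  adm : Adm β s
  lo : l < α - β₀
  hi : α - β₀ < 3 * l
  a1 : 0 < α
  a2 : α < 2 * l
  b1 : -(2 * l) ≤ β₀
  b2 : β₀ < -l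
  as : α + l / 2 ≤ s
  bs : -(β₀ + l / 2) ≤ s

theorem Lines.s1 {α β₀ β s : ℝ} (h : Lines α β₀ β s) {z : ℂ} (hz : OnL α β₀ z) :
    |z.re + l / 2| ≤ s := by
  have := l_pos
  have h1 := h.as
  have h2 := h.bs
  have h3 := h.a1
  have h4 := h.b2
  rcases hz with hz | hz | hz <;> rw [hz, abs_le] <;> constructor <;> linarith

theorem l_lt : l < Real.pi / 4 := by unfold l; linarith [Real.pi_pos]

theorem Lines.s2 {α β₀ β s : ℝ} (h : Lines α β₀ β s) {z : ℂ} (hz : OnL α β₀ z) :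
    Real.sin z.re ≠ 0 := by
  have hl := l_pos
  have hp : Real.pi = 8 * l := by unfold l; ring
  have h1 := h.a1
  have h2 := h.a2
  have h3 := h.b1
  have h4 := h.b2
  rcases hz with hz | hz | hz <;> rw [hz]
  · exact (Real.sin_pos_of_pos_of_lt_pi h1 (by linarith)).ne'
  · exact (Real.sin_neg_of_neg_of_neg_pi_lt (by linarith) (by linarith)).ne
  · exact (Real.sin_neg_of_neg_of_neg_pi_lt (by linarith) (by linarith)).ne

theorem Lines.s3 {α β₀ β s : ℝ} (h : Lines α β₀ β s) {z : ℂ} (hz : OnL α β₀ z) :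
    Real.sin (z.re - 2 * l) ≠ 0 := by
  have hl := l_pos
  have hp : Real.pi = 8 * l := by unfold l; ring
  have h1 := h.a1
  have h2 := h.a2
  have h3 := h.b1
  have h4 := h.b2
  rcases hz with hz | hz | hz <;> rw [hz]
  all_goals exact (Real.sin_neg_of_neg_of_neg_pi_lt (by linarith) (by linarith)).ne

/-- one constant for the three lines -/
theorem Lines.bound {α β₀ β s : ℝ} (h : Lines α β₀ β s) (c : ℂ) (m : ℕ) (r : ℝ) :
    ∃ D, ∀ x y : Fin m → ℂ, (∀ i, (x i).re = 0) → (∀ i, |(x i).im| ≤ r) → (∀ i, |(y i).im| ≤ r) →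
      ∀ z, OnL α β₀ z → ‖GR c β x y z‖ ≤ D * Real.exp (-(2 * β * |z.im|)) := by
  have hk := h.adm.kap_pos
  set E : ℝ → ℝ := fun t => ‖c‖ * (Real.exp (2 * r) ^ 2 / (|Real.sin t| * |Real.sin (t - 2 * l)|)) ^ m *
      (4 / kap β s * (m * Real.exp (2 * β * r))) with hE
  have hE0 : ∀ t, 0 ≤ E t := fun t => by positivity
  refine ⟨E α + E β₀ + E (β₀ + l), fun x y hx hxr hyr z hz => ?_⟩
  refine (norm_GR_le c h.adm hx hxr hyr (h.s1 hz) (h.s2 hz) (h.s3 hz)).trans ?_
  refine mul_le_mul_of_nonneg_right ?_ (Real.exp_pos _).le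
  have g1 := hE0 α
  have g2 := hE0 β₀
  have g3 := hE0 (β₀ + l)
  show E z.re ≤ _
  rcases hz with hz | hz | hz <;> rw [hz] <;> linarith

/-- **The homogeneous limit of the joint integral.** -/
theorem Lines.tendsto_Z2_rows {ι : Type*} {L : Filter ι} [L.IsCountablyGenerated] {α β₀ β s : ℝ}
    (h : Lines α β₀ β s) (c : ℂ) {m : ℕ} {x y : ι → Fin m → ℂ} {x₀ y₀ : Fin m → ℂ}
    (hx : Tendsto x L (𝓝 x₀)) (hy : Tendsto y L (𝓝 y₀))
    (hxr : ∀ᶠ i in L, ∀ j, (x i j).re = 0) (hyr : ∀ᶠ i in L, ∀ j, (y i j).re = 0)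
    (hx0 : ∀ i, (x₀ i).re = 0) (hy0 : ∀ i, (y₀ i).re = 0) (n : ℕ) :
    Tendsto (fun i => Z2 α β₀ n (GR c β (x i) (y i)) (GR c β (y i) (x i))) L
      (𝓝 (Z2 α β₀ n (GR c β x₀ y₀) (GR c β y₀ x₀))) := by
  obtain ⟨R, hR⟩ : ∃ R : ℝ, (∀ j, |(x₀ j).im| < R) ∧ ∀ j, |(y₀ j).im| < R := by
    refine ⟨1 + ∑ j, |(x₀ j).im| + ∑ j, |(y₀ j).im|, fun j => ?_, fun j => ?_⟩
    · have h1 := Finset.single_le_sum (f := fun j => |(x₀ j).im|) (fun i _ => abs_nonneg _)
        (Finset.mem_univ j)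
      have h2 := Finset.sum_nonneg (s := Finset.univ) (f := fun j => |(y₀ j).im|)
        (fun i _ => abs_nonneg _)
      linarith
    · have h1 := Finset.single_le_sum (f := fun j => |(y₀ j).im|) (fun i _ => abs_nonneg _)
        (Finset.mem_univ j)
      have h2 := Finset.sum_nonneg (s := Finset.univ) (f := fun j => |(x₀ j).im|)
        (fun i _ => abs_nonneg _)
      linarith
  have ex : ∀ᶠ i in L, ∀ j, |(x i j).im| ≤ R := by
    rw [eventually_all]
    intro j
    have h1 : Tendsto (fun i => |(x i j).im|) L (𝓝 |(x₀ j).im|) :=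
      ((continuous_im.tendsto _).comp (tendsto_pi_nhds.1 hx j)).abs
    filter_upwards [h1.eventually_lt_const (hR.1 j)] with i hi using hi.le
  have ey : ∀ᶠ i in L, ∀ j, |(y i j).im| ≤ R := by
    rw [eventually_all]
    intro j
    have h1 : Tendsto (fun i => |(y i j).im|) L (𝓝 |(y₀ j).im|) :=
      ((continuous_im.tendsto _).comp (tendsto_pi_nhds.1 hy j)).abs
    filter_upwards [h1.eventually_lt_const (hR.2 j)] with i hi using hi.le
  obtain ⟨D, hD⟩ := h.bound c m R
  refine tendsto_Z2 h.lo h.hi (κ := 2 * β) (D := D) (by have := h.adm.pos; linarith) ?_ ?_ ?_ ?_ ?_ ?_ n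
  · exact Filter.Eventually.of_forall fun i => measurable_GR c β _ _
  · exact Filter.Eventually.of_forall fun i => measurable_GR c β _ _
  · filter_upwards [hxr, ex, ey] with i h1 h2 h3 z hz
    exact hD _ _ h1 h2 h3 z hz
  · filter_upwards [hyr, ex, ey] with i h1 h2 h3 z hz
    exact hD _ _ h1 h3 h2 z hz
  · exact fun z hz => tendsto_GR c h.adm hx hy hx0 (h.s1 hz) (h.s2 hz) (h.s3 hz)
  · exact fun z hz => tendsto_GR c h.adm hy hx hy0 (h.s1 hz) (h.s2 hz) (h.s3 hz)

end NUP1.Bd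

end
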