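import Pool.Agent.NUP1.Assem
import Pool.Agent.NUP1.HomB

/-!
# The sum over the states of imaginary rows, with the analytic cutoff
-/

set_option autoImplicit false

noncomputable section

open Complex MeasureTheory

namespace NUP1

open Bd (qg Z2 GR Lines)

/-- one body function without the sites and without the cutoff -/
def hh (c : ℂ) {m : ℕ} (x y : Fin m → ℂ) (u : ℂ) : ℂ :=
  c * (∏ i, 1 / sin (u - x i - 2 * l)) * ∏ j, sin (u - y j + 3 * l) ^ 2

theorem sp_im {x y : ℂ} (hx : x.re = 0) (hy : y.re = 0) (h : x ≠ y) : Sp x y := by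
  have him : (x - y).im ≠ 0 := by
    rw [sub_im, sub_ne_zero]
    intro h'
    exact h (Complex.ext (by rw [hx, hy]) h')
  have k : ∀ c : ℂ, c.im = 0 → sin (x - y + c) ≠ 0 := fun c hc => by
    apply sin_ne_im
    rw [add_im, hc, add_zero]
    exact him
  refine ⟨sin_ne_im him, k l (by simp), ?_, k (2 * l) (by simp), ?_⟩
  · simpa [sub_eq_add_neg] using k (-l) (by simp)
  · simpa [sub_eq_add_neg] using k (-(2 * l)) (by simp)

theorem sta_congr {m : ℕ} {x : Fin m → ℂ} {h k : ℂ → ℂ} (h1 : ∀ i, h (x i) = k (x i))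
    (h2 : ∀ i, h (x i - l) = k (x i - l)) (a : Fin m → SignType) : sta x h a = sta x k a := by
  unfold sta
  congr 1
  refine Finset.prod_congr rfl fun i _ => ?_
  cases a i
  · exact h1 i
  · simp only [sw, h1, h2]
  · rfl

theorem GR_eq (c : ℂ) (β : ℝ) {m : ℕ} {x : Fin m → ℂ} (y : Fin m → ℂ)
    (hx : ∀ i j, i ≠ j → Sp (x i) (x j)) :
    Gf (rows x) (fun u => hh c x y u * phi β (List.ofFn x) u) = GR c β x y := by
  funext u
  rw [Gf_rows hx]
  unfold hh GR
  ring

variable {α β₀ β s : ℝ}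

theorem Ok_im (h : Lines α β₀ β s) (h2 : α < l) (h3 : -(2 * l) < β₀) {x : ℂ} (hx : x.re = 0) :
    Ok α β₀ (Kd.R0, x) := by
  have := h.b2
  have := h.a1
  refine ⟨?_, ?_, ?_, ?_⟩ <;> rw [hx] <;> linarith

theorem hh_diff (h : Lines α β₀ β s) (c : ℂ) {m : ℕ} {x : Fin m → ℂ} (y : Fin m → ℂ)
    (hx : ∀ i, (x i).re = 0) {z : ℂ} (h1 : β₀ ≤ z.re) (h2 : z.re ≤ α) :
    DifferentiableAt ℂ (fun u => hh c x y u * phi β (List.ofFn x) u) z := by
  have hl := lpos
  have k1 := h.a2
  have k2 := h.b1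
  have k3 := h.as
  have k4 := h.bs
  refine DifferentiableAt.mul ?_ ?_
  · have hne : ∀ i, sin (z - x i - 2 * l) ≠ 0 := fun i => by
      refine sin_ne_re' ?_ ?_ ?_ <;> simp [hx i] <;> linarith
    have d1 := DifferentiableAt.fun_finsetProd (𝕜 := ℂ) (u := Finset.univ)
      (f := fun (i : Fin m) u => 1 / sin (u - x i - 2 * l)) (x := z) (fun i _ => by
        have := hne i
        fun_prop (disch := exact this))
    have d2 := DifferentiableAt.fun_finsetProd (𝕜 := ℂ) (u := Finset.univ)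
      (f := fun (j : Fin m) u => sin (u - y j + 3 * l) ^ 2) (x := z) (fun i _ => by fun_prop)
    exact ((differentiableAt_const c).mul d1).mul d2
  · refine differentiableAt_phi h.adm fun w hw => ?_
    obtain ⟨i, rfl⟩ := List.mem_ofFn.1 hw
    rw [sub_re, hx i, sub_zero, abs_le]
    constructor <;> linarith

theorem hh_meas (c : ℂ) {m : ℕ} (x y : Fin m → ℂ) :
    Measurable (fun u => hh c x y u * phi β (List.ofFn x) u) := by
  refine Measurable.mul ?_ (Bd.measurable_phi β _)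
  unfold hh
  fun_prop

theorem GR_gr (h : Lines α β₀ β s) (c : ℂ) {m : ℕ} {x : Fin m → ℂ} (y : Fin m → ℂ)
    (hx : ∀ i, (x i).re = 0) : Gr α β₀ (-(2 * β)) (GR c β x y) := by
  have hl := lpos
  have k1 := h.a2
  have k2 := h.b1
  have k3 := h.as
  have k4 := h.bs
  have g1 := Gr.finProd (α := α) (β := β₀) (fun (i : Fin m) z => (sin (z - x i))⁻¹)
    (fun _ => -1) fun i => Gr.inv_sin _
  have g2 := Gr.finProd (α := α) (β := β₀) (fun (i : Fin m) z => (sin (z - (x i + 2 * l)))⁻¹)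
    (fun _ => -1) fun i => Gr.inv_sin _
  have g3 := Gr.finProd (α := α) (β := β₀) (fun (i : Fin m) z =>
    sin (z - (y i - 3 * l)) * sin (z - (y i - 3 * l))) (fun _ => 1 + 1) fun i =>
      (Gr.sin _).mul (Gr.sin _)
  obtain ⟨R, hR⟩ : ∃ R : ℝ, ∀ i, |(x i).im| ≤ R := by
    refine ⟨∑ j, |(x j).im|, fun i => ?_⟩
    exact Finset.single_le_sum (f := fun j => |(x j).im|) (fun i _ => abs_nonneg _)
      (Finset.mem_univ i)
  have g4 : Gr α β₀ (-(2 * β)) (phi β (List.ofFn x)) := by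
    have := h.adm.kap_pos
    refine ⟨4 / kap β s * ((List.ofFn x).length * Real.exp (2 * β * R)), 0, by positivity,
      fun z h1 h2 _ => ?_⟩
    exact norm_phi_le' h.adm (fun w hw => by
      obtain ⟨i, rfl⟩ := List.mem_ofFn.1 hw
      rw [sub_re, hx i, sub_zero, abs_le]
      constructor <;> linarith) fun w hw => by
      obtain ⟨i, rfl⟩ := List.mem_ofFn.1 hw
      exact hR i
  have g5 := ((((g1.mul g2).mul g3).cmul c).mul g4).congr (g := GR c β x y) 0 fun z _ _ _ => by
    unfold GR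
    have e1 : ∀ i, (sin (z - (x i + 2 * l)))⁻¹ = 1 / sin (z - x i - 2 * l) := fun i => by
      rw [one_div, sub_sub]
    have e2 : ∀ i, sin (z - (y i - 3 * l)) * sin (z - (y i - 3 * l)) = sin (z - y i + 3 * l) ^ 2 :=
      fun i => by rw [show z - (y i - 3 * l) = z - y i + 3 * l by ring, sq]
    simp only [e1, e2, one_div]
    ring
  refine g5.mono (le_of_eq ?_)
  simp only [Finset.sum_const, Finset.card_univ, Fintype.card_fin, nsmul_eq_mul]
  ring

/-- **Distinct imaginary rows: the sum over the states is the joint contour integral, with the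
analytic cutoff.** -/
theorem assem_GR (h : Lines α β₀ β s) (h1 : β₀ + 2 * l < α) (h2 : α < l) (h3 : -(2 * l) < β₀)
    (c c' : ℂ) {m : ℕ} {x y : Fin m → ℂ} (hx0 : ∀ i, (x i).re = 0) (hy0 : ∀ i, (y i).re = 0)
    (hx : Function.Injective x) (hy : Function.Injective y) (n : ℕ) :
    ∑ a ∈ St m n, ∑ b ∈ St m n, sta x (hh c x y) a * sta y (hh c' y x) b * crq x y a b =
      Z2 α β₀ n (GR c β x y) (GR c' β y x) := by
  have hw : Wd α β₀ := ⟨h1, by linarith [h.hi]⟩
  have sx : ∀ i j, i ≠ j → Sp (x i) (x j) := fun i j hij => sp_im (hx0 i) (hx0 j) (hx.ne hij)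
  have sy : ∀ i j, i ≠ j → Sp (y i) (y j) := fun i j hij => sp_im (hy0 i) (hy0 j) (hy.ne hij)
  have key := assem hw sx sy (fun i => Ok_im h h2 h3 (hx0 i)) (fun i => Ok_im h h2 h3 (hy0 i))
    (hX := fun u => hh c x y u * phi β (List.ofFn x) u)
    (hY := fun u => hh c' y x u * phi β (List.ofFn y) u)
    (fun z h1 h2 => hh_diff h c y hx0 h1 h2) (fun z h1 h2 => hh_diff h c' x hy0 h1 h2)
    (hh_meas c x y) (hh_meas c' y x) (κ := 2 * β) (by have := h.adm.pos; linarith)
    (by rw [GR_eq c β y sx]; exact GR_gr h c y hx0) (by rw [GR_eq c' β x sy]; exact GR_gr h c' x hy0) n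
  rw [GR_eq c β y sx, GR_eq c' β x sy] at key
  rw [← key]
  have e1 : ∀ (c : ℂ) {x : Fin m → ℂ} (y : Fin m → ℂ) (a : Fin m → SignType),
      sta x (hh c x y) a = sta x (fun u => hh c x y u * phi β (List.ofFn x) u) a := by
    intro c x y a
    refine sta_congr (fun i => ?_) (fun i => ?_) a
    · rw [phi_row (List.mem_ofFn.2 ⟨i, rfl⟩), mul_one]
    · rw [phi_row_sub (List.mem_ofFn.2 ⟨i, rfl⟩), mul_one]
  refine Finset.sum_congr rfl fun a _ => Finset.sum_congr rfl fun b _ => ?_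
  rw [e1 c y a, e1 c' x b]

end NUP1

end
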