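import Pool.Agent.NUP1.Glue
import Pool.Agent.NUP1.AssemGR

/-!
# The charge sum for distinct imaginary rows is a sum of joint contour integrals
-/

set_option autoImplicit false
set_option linter.unusedSectionVars false

noncomputable section

open Complex MeasureTheory

namespace NUP1.Mu

open Bd (Lines Z2 GR)

theorem hrow_eq (σ : ℂ) {m : ℕ} (x y : Fin m → ℂ) :
    hrow σ x y = hh (-2 * sin (2 * l) / σ) x y := by
  funext u
  unfold hrow hh
  simp only [one_div]
  ring

theorem XG_eq_crq {m m' : ℕ} (x : Fin m → ℂ) (y : Fin m' → ℂ) (a : Fin m → SignType)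
    (b : Fin m' → SignType) : XG x y a b = crq x y a b := by
  unfold XG crq QG
  simp only [qn_eq]

theorem Gn_im {z : ℂ} (h : z.im ≠ 0) : Gn z := by
  intro k h0
  rw [Complex.sin_eq_zero_iff] at h0
  obtain ⟨n, hn⟩ := h0
  have := congrArg Complex.im hn
  simp at this
  exact h this

theorem Gc_re {z : ℂ} (h : z.re = 0) : Gc z := by
  intro k h1 h2 h0
  rw [Complex.sin_eq_zero_iff] at h0
  obtain ⟨n, hn⟩ := h0
  have hre := congrArg Complex.re hn
  have him := congrArg Complex.im hn
  simp [h] at hre him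
  have h3 : (k : ℝ) * l = n * (8 * l) := by
    rw [hre]
    unfold l
    ring
  have hl : l ≠ 0 := by
    unfold l
    positivity
  have h4 : (k : ℝ) = n * 8 := by
    have : ((k : ℝ) - n * 8) * l = 0 := by linarith
    rcases mul_eq_zero.1 this with h | h
    · linarith
    · exact absurd h hl
  have h5 : (k : ℤ) = n * 8 := by exact_mod_cast h4
  omega

/-- **Exact contour formula for distinct imaginary rows.** -/
theorem N_eq_Z2 {α β₀ β s : ℝ} (h : Lines α β₀ β s) (h1 : β₀ + 2 * l < α) (h2 : α < l)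
    (h3 : -(2 * l) < β₀) {σ : ℂ} (hσ0 : σ ≠ 0) (hσ : σ ^ 2 = 4 * sin l ^ 2) (om : ℂ) {m : ℕ}
    {x y : Fin m → ℂ} (hx0 : ∀ i, (x i).re = 0) (hy0 : ∀ i, (y i).re = 0)
    (hx : Function.Injective x) (hy : Function.Injective y) :
    NUGas.N et σ om (List.ofFn fun i => E (x i)) (List.ofFn fun i => E (y i)) =
      Apre σ x * Apre σ y * ∑ n ∈ Finset.range (2 * m + 1), om ^ ((m : ℤ) - n) *
        Z2 α β₀ n (GR (-2 * sin (2 * l) / σ) β x y) (GR (-2 * sin (2 * l) / σ) β y x) := by
  have gn : ∀ z : Fin m → ℂ, (∀ i, (z i).re = 0) → Function.Injective z →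
      ∀ i j, i ≠ j → Gn (z i - z j) := by
    intro z hz hi i j hij
    apply Gn_im
    intro h0
    apply hi.ne hij
    apply Complex.ext
    · rw [hz, hz]
    · rw [sub_im] at h0
      linarith
  have gc : ∀ i j, Gc (x i - y j) := fun i j => Gc_re (by rw [sub_re, hx0, hy0, sub_zero])
  rw [N_eq_sum hσ0 hσ om x y (gn x hx0 hx) (gn y hy0 hy) gc]
  congr 1
  refine Finset.sum_congr rfl fun n _ => ?_
  congr 1
  rw [← assem_GR h h1 h2 h3 _ _ hx0 hy0 hx hy n]
  unfold St
  rw [Finset.sum_filter]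
  refine Finset.sum_congr rfl fun a _ => ?_
  split_ifs with ha
  · rw [Finset.mul_sum, Finset.sum_filter]
    refine Finset.sum_congr rfl fun b _ => ?_
    split_ifs with hb
    · rw [hrow_eq, hrow_eq, XG_eq_crq]
      ring
    · ring
  · rfl

end NUP1.Mu

end
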