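import Mathlib

/-!
# Quanta: definitions for the exact contour identity (one species)

`l = π/8`.  Rows `x`; a quantum has the one body weight `1 / sin (u - x)` (times an analytic
factor), pair weight `q`.  A string is a pair of quanta at `w`, `w - l`.
The vertical lines are `Re u = α` (line A), `Re u = β` (line L) and `Re w = β + l` (line M, strings).
-/

set_option autoImplicit false

noncomputable section

open Complex MeasureTheory

namespace NUP1

/-- `λ = π / 8` -/
def l : ℝ := Real.pi / 8

/-- pair weight of two quanta -/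
def q (z : ℂ) : ℂ :=
  -(sin z ^ 2 * sin (z + 2 * l) * sin (z - 2 * l)) / (sin (z + l) * sin (z - l))

/-- quantum - string, `q z * q (z + l)` without the removable poles (`z = u - w`) -/
def q1 (z : ℂ) : ℂ := sin z * sin (z + l) * sin (z - 2 * l) * sin (z + 3 * l)

/-- string - string -/
def q2 (z : ℂ) : ℂ := q1 z * q1 (z - l)

/-- one body weight of a row which carries one quantum: `q z / sin z` -/
def f1 (z : ℂ) : ℂ := -(sin z * sin (z + 2 * l) * sin (z - 2 * l)) / (sin (z + l) * sin (z - l))

/-- one body weight of a row which carries a string: `q1 z / sin z` -/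
def f2 (z : ℂ) : ℂ := sin (z + l) * sin (z - 2 * l) * sin (z + 3 * l)

/-- the residue constant -/
def rho : ℂ := sin l ^ 3 * sin (3 * l) / sin (2 * l)

/-- kinds of active sites: empty row, row with one quantum, quantum on line A, quantum on line L -/
inductive Kd
  | R0 | R1 | VA | VL
  deriving DecidableEq

/-- an active site -/
abbrev Site := Kd × ℂ

/-- one body factor of a site -/
def fac : Site → ℂ → ℂ
  | (.R0, x), u => 1 / sin (u - x)
  | (.R1, x), u => f1 (u - x)
  | (.VA, v), u => q (u - v)
  | (.VL, v), u => q (u - v)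

/-- the pole of the one body factor of a site between the lines -/
def pole : Site → ℂ
  | (.R0, x) => x
  | (.R1, x) => x - l
  | (.VA, v) => v - l
  | (.VL, v) => v + l

/-- residue constant of a site -/
def rc : Kd → ℂ
  | .R0 => 1
  | .R1 => rho / sin l
  | .VA => -rho
  | .VL => rho

/-- the other sites after the site has received a quantum -/
def nxt : Site → Finset Site → Finset Site
  | (.R0, x), S => insert (.R1, x) S
  | (.R1, _), S => S
  | (.VA, _), S => S
  | (.VL, _), S => S

/-- analytic factor of a site which becomes inactive -/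
def ent : Site → ℂ → ℂ
  | (.R0, _), _ => 1
  | (.R1, x), u => f2 (u - x)
  | (.VA, v), u => q1 (u - v)
  | (.VL, v), u => q1 (u - v - l)

/-- full one body function of the family `(S, g)` -/
def Gf (S : Finset Site) (g : ℂ → ℂ) (u : ℂ) : ℂ := g u * ∏ b ∈ S, fac b u

/-- weight of one more quantum on the site `a` (`S` = the other sites) -/
def rw (a : Site) (S : Finset Site) (g : ℂ → ℂ) : ℂ := rc a.1 * Gf S g (pole a)

/-- weight of a string on the empty row `x` (`S` = the other sites) -/
def dw (x : ℂ) (S : Finset Site) (g : ℂ → ℂ) : ℂ := rho / sin l * (Gf S g x * Gf S g (x - l))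

/-- The finite sum, by recursion on the number of quanta. -/
def T : ℕ → Finset Site → (ℂ → ℂ) → ℂ
  | 0, _, _ => 1
  | 1, S, g => ∑ a ∈ S, rw a (S.erase a) g
  | (n + 2), S, g => ((n : ℂ) + 2)⁻¹ *
      (∑ a ∈ S, rw a (S.erase a) g * T (n + 1) (nxt a (S.erase a)) (fun u => g u * ent a u) +
       ∑ a ∈ S.filter (fun a => a.1 = Kd.R0), dw a.2 (S.erase a) g *
          T n (S.erase a) (fun u => g u * f2 (u - a.2)))

/-- point of a vertical line -/
def vl (σ t : ℝ) : ℂ := (σ : ℂ) + t * I

/-- normalised integral over a vertical line, `du / (2 π i)` -/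
def LI (σ : ℝ) (f : ℂ → ℂ) : ℂ := (2 * Real.pi : ℂ)⁻¹ * ∫ t : ℝ, f (vl σ t)

/-- The contour side, by recursion on the number of quanta. -/
def K (α β : ℝ) : ℕ → (ℂ → ℂ) → ℂ
  | 0, _ => 1
  | 1, G => LI α G - LI β G
  | (n + 2), G => ((n : ℂ) + 2)⁻¹ *
      (LI α (fun v => G v * K α β (n + 1) (fun u => G u * q (u - v))) -
       LI β (fun v => G v * K α β (n + 1) (fun u => G u * q (u - v))) +
       2 * rho * LI (β + l) (fun w => G w * G (w - l) * K α β n (fun u => G u * q1 (u - w))))

end NUP1

end
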