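import Pool.Agent.NUP1.LineRes

/-!
# The exact analytic cutoff of the quanta

`psi β z = -tan (β z) tan (β (z + l)) = (cos (2 β z + β l) - cos (β l)) / (cos (2 β z + β l) + cos (β l))`,
`phi β X u = 1 - ∏ x ∈ X, psi β (u - x)`.

* `phi = 1` at `u = x` and at `u = x - l` (`x ∈ X`): the two places where the quanta of a row sit,
  so a weight `phi` for every quantum changes nothing in the charge sum;
* `‖psi‖ < 1` on the strip `|re (z + l / 2)| < π / (4 β)`; for `β = (4 / 3) (1 - ε)` it contains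
  `-2 l ≤ re z ≤ l`, i.e. all the lines of the contour identity;
* `‖phi - 1‖ ≤ exp (- c ∑ exp (-2 β |im (u - x)|))` and `‖phi‖ ≤ C ∑ exp (-2 β |im (u - x)|)`.
-/

open Complex

noncomputable section

namespace NUP1

lemma l_pos : 0 < l := by unfold l; positivity

/-- `-tan (β z) tan (β (z + l))` -/
def psi (β : ℝ) (z : ℂ) : ℂ :=
  (cos (2 * β * z + β * l) - cos (β * l)) / (cos (2 * β * z + β * l) + cos (β * l))

@[simp] lemma psi_zero (β : ℝ) : psi β 0 = 0 := by simp [psi]

@[simp] lemma psi_neg_l (β : ℝ) : psi β (-l) = 0 := by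
  unfold psi
  rw [show (2 * β * -(l : ℂ) + β * l) = -(β * l : ℂ) by ring, Complex.cos_neg, sub_self, zero_div]

/-- the other form -/
lemma psi_eq_tan {β : ℝ} {z : ℂ} (h1 : cos (β * z) ≠ 0) (h2 : cos (β * (z + l)) ≠ 0) :
    psi β z = -(tan (β * z) * tan (β * (z + l))) := by
  have e1 : cos (2 * β * z + β * l) = cos (β * z) * cos (β * (z + l)) - sin (β * z) * sin (β * (z + l)) := by
    rw [← Complex.cos_add]; ring_nf
  have e2 : cos (β * l : ℂ) = cos (β * z) * cos (β * (z + l)) + sin (β * z) * sin (β * (z + l)) := by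
    rw [show (β * l : ℂ) = β * (z + l) - β * z by ring, Complex.cos_sub]; ring
  have h3 : cos (β * z) * cos (β * (z + l)) ≠ 0 := mul_ne_zero h1 h2
  unfold psi
  rw [e1, e2, Complex.tan, Complex.tan]
  field_simp
  ring

/-- conditions on the parameters: `s` = half width of the strip around `re z = -l / 2` -/
structure Adm (β s : ℝ) : Prop where
  pos : 0 < β
  snn : 0 ≤ s
  sl : 2 * β * s < Real.pi / 2
  bl : β * l < Real.pi / 2

/-- `cos (2 β s)` -/
def kap (β s : ℝ) : ℝ := Real.cos (2 * β * s)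

/-- `cos (β l)` -/
def cl (β : ℝ) : ℝ := Real.cos (β * l)

lemma Adm.kap_pos {β s : ℝ} (h : Adm β s) : 0 < kap β s :=
  Real.cos_pos_of_mem_Ioo ⟨by
    have := mul_nonneg (mul_nonneg two_pos.le h.pos.le) h.snn
    linarith [Real.pi_pos], h.sl⟩

lemma Adm.cl_pos {β s : ℝ} (h : Adm β s) : 0 < cl β :=
  Real.cos_pos_of_mem_Ioo ⟨by
    have := mul_nonneg h.pos.le l_pos.le
    linarith [Real.pi_pos], h.bl⟩

lemma cl_le_one (β : ℝ) : cl β ≤ 1 := Real.cos_le_one _

/-- the cosine in rectangular form -/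
lemma cos_form (β : ℝ) (z : ℂ) : cos (2 * β * z + β * l) =
    ((Real.cos (2 * β * (z.re + l / 2)) * Real.cosh (2 * β * z.im) : ℝ) : ℂ) +
    ((-(Real.sin (2 * β * (z.re + l / 2)) * Real.sinh (2 * β * z.im)) : ℝ) : ℂ) * I := by
  have e : (2 * β * z + β * l : ℂ) = ((2 * β * (z.re + l / 2) : ℝ) : ℂ) + ((2 * β * z.im : ℝ) : ℂ) * I := by
    apply Complex.ext <;> (simp; try ring)
  rw [e, Complex.cos_add_mul_I, ← ofReal_cos, ← ofReal_cosh, ← ofReal_sin, ← ofReal_sinh]
  push_cast; ring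

section
variable {β s : ℝ} {z : ℂ}

lemma re_cos_ge (h : Adm β s) (hz : |z.re + l / 2| ≤ s) :
    kap β s * Real.cosh (2 * β * z.im) ≤ (cos (2 * β * z + β * l)).re := by
  rw [cos_form, vl_re]
  refine mul_le_mul_of_nonneg_right ?_ (Real.cosh_pos _).le
  unfold kap
  rw [← Real.cos_abs (2 * β * (z.re + l / 2))]
  have h2 : |2 * β * (z.re + l / 2)| ≤ 2 * β * s := by
    rw [abs_mul, abs_of_pos (by linarith [h.pos] : 0 < 2 * β)]
    exact mul_le_mul_of_nonneg_left hz (by linarith [h.pos])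
  exact Real.cos_le_cos_of_nonneg_of_le_pi (abs_nonneg _) (by linarith [h.sl, Real.pi_pos]) h2

lemma norm_cos_le (w : ℂ) : ‖cos w‖ ≤ Real.cosh w.im := by
  have e : w = ((w.re : ℝ) : ℂ) + ((w.im : ℝ) : ℂ) * I := (re_add_im w).symm
  have h1 : ‖cos w‖ ^ 2 = Real.cos w.re ^ 2 + Real.sinh w.im ^ 2 := by
    conv_lhs => rw [e]
    rw [Complex.cos_add_mul_I, ← ofReal_cos, ← ofReal_cosh, ← ofReal_sin, ← ofReal_sinh]
    rw [show ((Real.cos w.re : ℝ) : ℂ) * (Real.cosh w.im : ℝ) - (Real.sin w.re : ℝ) * (Real.sinh w.im : ℝ) * I =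
      ((Real.cos w.re * Real.cosh w.im : ℝ) : ℂ) + ((-(Real.sin w.re * Real.sinh w.im) : ℝ) : ℂ) * I by
        push_cast; ring, ← Complex.normSq_eq_norm_sq, Complex.normSq_add_mul_I]
    have h1 := Real.sin_sq_add_cos_sq w.re
    have h2 := Real.cosh_sq w.im
    linear_combination (Real.cos w.re) ^ 2 * h2 + (Real.sinh w.im) ^ 2 * h1
  refine le_of_sq_le_sq ?_ (Real.cosh_pos _).le
  rw [h1, Real.cosh_sq]
  have := Real.cos_sq_le_one w.re
  linarith

lemma im_arg (β : ℝ) (z : ℂ) : (2 * β * z + β * l : ℂ).im = 2 * β * z.im := by simp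

/-- the denominator -/
lemma den_re (h : Adm β s) (hz : |z.re + l / 2| ≤ s) :
    kap β s * Real.cosh (2 * β * z.im) + cl β ≤ (cos (2 * β * z + β * l) + cos (β * l)).re := by
  rw [add_re, show (cos (β * l : ℂ)).re = cl β by unfold cl; rw [← ofReal_mul, ← ofReal_cos, ofReal_re]]
  linarith [re_cos_ge h hz]

lemma den_ne (h : Adm β s) (hz : |z.re + l / 2| ≤ s) : cos (2 * β * z + β * l) + cos (β * l) ≠ 0 := by
  intro h0
  have := den_re h hz
  rw [h0, zero_re] at this
  have h1 := mul_pos h.kap_pos (Real.cosh_pos (2 * β * z.im))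
  linarith [h.cl_pos]

lemma cosh_ge (x : ℝ) : Real.exp |x| / 2 ≤ Real.cosh x := by
  rw [← Real.cosh_abs, Real.cosh_eq]
  have := Real.exp_pos (-|x|)
  linarith

lemma cosh_le_exp (x : ℝ) : Real.cosh x ≤ Real.exp |x| := by
  rw [← Real.cosh_abs, Real.cosh_eq]
  have : Real.exp (-|x|) ≤ Real.exp |x| := Real.exp_le_exp.2 (by linarith [abs_nonneg x])
  linarith

lemma abs_arg (h : Adm β s) (t : ℝ) : |2 * β * t| = 2 * β * |t| := by
  rw [abs_mul, abs_of_pos (by linarith [h.pos] : 0 < 2 * β)]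

/-- `‖1 - psi‖ ≤ (4 / κ) exp (-2 β |t|)` -/
lemma norm_one_sub_psi (h : Adm β s) (hz : |z.re + l / 2| ≤ s) :
    ‖1 - psi β z‖ ≤ 4 / kap β s * Real.exp (-(2 * β) * |z.im|) := by
  have hd := den_ne h hz
  have hk := h.kap_pos
  have e : 1 - psi β z = 2 * cos (β * l) / (cos (2 * β * z + β * l) + cos (β * l)) := by
    unfold psi
    rw [eq_div_iff hd, sub_mul, div_mul_cancel₀ _ hd]
    ring
  have hn : ‖(2 : ℂ) * cos (β * l)‖ ≤ 2 := by
    rw [norm_mul, ← ofReal_mul, ← ofReal_cos, Complex.norm_real, Complex.norm_two]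
    have := Real.abs_cos_le_one (β * l)
    rw [Real.norm_eq_abs]; linarith
  have hden : kap β s * (Real.exp (2 * β * |z.im|) / 2) ≤ ‖cos (2 * β * z + β * l) + cos (β * l)‖ := by
    refine le_trans ?_ ((den_re h hz).trans (re_le_norm _))
    have := cosh_ge (2 * β * z.im)
    rw [abs_arg h] at this
    have := mul_le_mul_of_nonneg_left this hk.le
    linarith [h.cl_pos]
  have hpos : 0 < kap β s * (Real.exp (2 * β * |z.im|) / 2) := by positivity
  rw [e, norm_div]
  refine (div_le_div₀ (by norm_num) hn hpos hden).trans (le_of_eq ?_)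
  rw [neg_mul, Real.exp_neg]
  field_simp
  ring

/-- `‖psi‖ ≤ exp (-(c κ / 2) exp (-2 β |t|))` -/
lemma norm_psi (h : Adm β s) (hz : |z.re + l / 2| ≤ s) :
    ‖psi β z‖ ≤ Real.exp (-(cl β * kap β s / 2 * Real.exp (-(2 * β) * |z.im|))) := by
  have hd := den_ne h hz
  have hk := h.kap_pos
  have hc := h.cl_pos
  obtain ⟨C, hC⟩ : ∃ C, C = cos (2 * β * z + β * l) := ⟨_, rfl⟩
  have hcr : cos (β * l : ℂ) = ((cl β : ℝ) : ℂ) := by unfold cl; push_cast; rfl
  have hre := re_cos_ge h hz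
  rw [← hC] at hre
  have hch := Real.one_le_cosh (2 * β * z.im)
  have hch0 := Real.cosh_pos (2 * β * z.im)
  have hCn : ‖C‖ ≤ Real.cosh (2 * β * z.im) := by
    have := norm_cos_le (2 * β * z + β * l)
    rwa [im_arg, ← hC] at this
  -- `‖C - c‖² = ‖C + c‖² - 4 c re C`
  have hid : ‖C - (cl β : ℝ)‖ ^ 2 = ‖C + (cl β : ℝ)‖ ^ 2 - 4 * cl β * C.re := by
    rw [← Complex.normSq_eq_norm_sq, ← Complex.normSq_eq_norm_sq, Complex.normSq_apply, Complex.normSq_apply]
    simp only [sub_re, add_re, sub_im, add_im, ofReal_re, ofReal_im]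
    ring
  have hden0 : 0 < ‖C + (cl β : ℝ)‖ := by
    rw [norm_pos_iff, ← hcr, hC]; exact hd
  have hden2 : ‖C + (cl β : ℝ)‖ ≤ 2 * Real.cosh (2 * β * z.im) := by
    refine (norm_add_le _ _).trans ?_
    rw [Complex.norm_real, Real.norm_of_nonneg hc.le]
    linarith [cl_le_one β]
  have hpsi : ‖psi β z‖ ^ 2 = 1 - 4 * cl β * C.re / ‖C + (cl β : ℝ)‖ ^ 2 := by
    unfold psi
    rw [← hC, hcr, norm_div, div_pow, hid, sub_div, div_self (by positivity)]
  have hge : cl β * kap β s * Real.exp (-(2 * β) * |z.im|) ≤ 4 * cl β * C.re / ‖C + (cl β : ℝ)‖ ^ 2 := by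
    rw [le_div_iff₀ (by positivity)]
    have h1 : ‖C + (cl β : ℝ)‖ ^ 2 ≤ 4 * Real.cosh (2 * β * z.im) ^ 2 := by nlinarith
    have h2 : Real.exp (-(2 * β) * |z.im|) * Real.cosh (2 * β * z.im) ≤ 1 := by
      have := cosh_le_exp (2 * β * z.im)
      rw [abs_arg h] at this
      calc _ ≤ Real.exp (-(2 * β) * |z.im|) * Real.exp (2 * β * |z.im|) :=
            mul_le_mul_of_nonneg_left this (Real.exp_pos _).le
        _ = 1 := by rw [← Real.exp_add]; simp
    have he := Real.exp_pos (-(2 * β) * |z.im|)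
    calc _ ≤ cl β * kap β s * Real.exp (-(2 * β) * |z.im|) * (4 * Real.cosh (2 * β * z.im) ^ 2) :=
          mul_le_mul_of_nonneg_left h1 (by positivity)
      _ = 4 * cl β * (kap β s * Real.cosh (2 * β * z.im)) *
          (Real.exp (-(2 * β) * |z.im|) * Real.cosh (2 * β * z.im)) := by ring
      _ ≤ 4 * cl β * (kap β s * Real.cosh (2 * β * z.im)) * 1 :=
          mul_le_mul_of_nonneg_left h2 (by positivity)
      _ ≤ 4 * cl β * C.re := by
          rw [mul_one]; exact mul_le_mul_of_nonneg_left hre (by positivity)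
  have hsq : ‖psi β z‖ ^ 2 ≤ Real.exp (-(cl β * kap β s / 2 * Real.exp (-(2 * β) * |z.im|))) ^ 2 := by
    rw [hpsi, ← Real.exp_nat_mul]
    have h1 := Real.one_sub_le_exp_neg (cl β * kap β s * Real.exp (-(2 * β) * |z.im|))
    have h2 : ((2 : ℕ) : ℝ) * -(cl β * kap β s / 2 * Real.exp (-(2 * β) * |z.im|)) =
        -(cl β * kap β s * Real.exp (-(2 * β) * |z.im|)) := by push_cast; ring
    rw [h2]
    linarith
  exact le_of_sq_le_sq hsq (Real.exp_pos _).le

lemma norm_psi_le_one (h : Adm β s) (hz : |z.re + l / 2| ≤ s) : ‖psi β z‖ ≤ 1 := by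
  refine (norm_psi h hz).trans (Real.exp_le_one_iff.2 ?_)
  have := h.kap_pos
  have := h.cl_pos
  have : 0 ≤ cl β * kap β s / 2 * Real.exp (-(2 * β) * |z.im|) := by positivity
  linarith

lemma differentiableAt_psi (h : Adm β s) (hz : |z.re + l / 2| ≤ s) : DifferentiableAt ℂ (psi β) z := by
  unfold psi
  refine DifferentiableAt.div (by fun_prop) (by fun_prop) (den_ne h hz)

end

/-! ### the cutoff of a list of rows -/

/-- the cutoff of the rows `X` -/
def phi (β : ℝ) (X : List ℂ) (u : ℂ) : ℂ := 1 - (X.map fun x => psi β (u - x)).prod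

lemma phi_row {β : ℝ} {X : List ℂ} {x : ℂ} (hx : x ∈ X) : phi β X x = 1 := by
  unfold phi
  rw [List.prod_eq_zero (List.mem_map.2 ⟨x, hx, by simp⟩), sub_zero]

lemma phi_row_sub {β : ℝ} {X : List ℂ} {x : ℂ} (hx : x ∈ X) : phi β X (x - l) = 1 := by
  unfold phi
  rw [List.prod_eq_zero (List.mem_map.2 ⟨x, hx, by
    rw [show x - l - x = -(l : ℂ) by ring, psi_neg_l]⟩), sub_zero]

lemma phi_replicate (β : ℝ) (m : ℕ) (x u : ℂ) : phi β (List.replicate m x) u = 1 - psi β (u - x) ^ m := by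
  simp [phi]

section
variable {β s : ℝ} {X : List ℂ} {u : ℂ}

lemma norm_prod_psi (h : Adm β s) (hu : ∀ x ∈ X, |(u - x).re + l / 2| ≤ s) :
    ‖(X.map fun x => psi β (u - x)).prod‖ ≤
      Real.exp (-(cl β * kap β s / 2 * (X.map fun x => Real.exp (-(2 * β) * |(u - x).im|)).sum)) := by
  induction X with
  | nil => simp
  | cons x X ih =>
    rw [List.map_cons, List.prod_cons, List.map_cons, List.sum_cons, norm_mul, mul_add, neg_add, Real.exp_add]
    exact mul_le_mul (norm_psi h (hu x (by simp))) (ih fun y hy => hu y (by simp [hy])) (norm_nonneg _)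
      (Real.exp_pos _).le

/-- the cutoff is `1` up to a super-exponentially small error inside -/
theorem norm_phi_sub_one (h : Adm β s) (hu : ∀ x ∈ X, |(u - x).re + l / 2| ≤ s) :
    ‖phi β X u - 1‖ ≤
      Real.exp (-(cl β * kap β s / 2 * (X.map fun x => Real.exp (-(2 * β) * |(u - x).im|)).sum)) := by
  unfold phi
  rw [sub_sub_cancel_left, norm_neg]
  exact norm_prod_psi h hu

lemma norm_prod_psi_le_one (h : Adm β s) (hu : ∀ x ∈ X, |(u - x).re + l / 2| ≤ s) :
    ‖(X.map fun x => psi β (u - x)).prod‖ ≤ 1 := by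
  induction X with
  | nil => simp
  | cons x X ih =>
    rw [List.map_cons, List.prod_cons, norm_mul]
    exact mul_le_one₀ (norm_psi_le_one h (hu x (by simp))) (norm_nonneg _) (ih fun y hy => hu y (by simp [hy]))

theorem norm_phi_le_two (h : Adm β s) (hu : ∀ x ∈ X, |(u - x).re + l / 2| ≤ s) : ‖phi β X u‖ ≤ 2 := by
  unfold phi
  refine (norm_sub_le _ _).trans ?_
  rw [norm_one]
  linarith [norm_prod_psi_le_one h hu]

/-- the cutoff is exponentially small far away -/
theorem norm_phi_le (h : Adm β s) (hu : ∀ x ∈ X, |(u - x).re + l / 2| ≤ s) :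
    ‖phi β X u‖ ≤ 4 / kap β s * (X.map fun x => Real.exp (-(2 * β) * |(u - x).im|)).sum := by
  induction X with
  | nil => simp [phi]
  | cons x X ih =>
    have e : phi β (x :: X) u = (1 - psi β (u - x)) + psi β (u - x) * phi β X u := by
      unfold phi
      rw [List.map_cons, List.prod_cons]; ring
    rw [e, List.map_cons, List.sum_cons, mul_add]
    refine (norm_add_le _ _).trans (add_le_add (norm_one_sub_psi h (hu x (by simp))) ?_)
    rw [norm_mul]
    exact (mul_le_of_le_one_left (norm_nonneg _) (norm_psi_le_one h (hu x (by simp)))).trans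
      (ih fun y hy => hu y (by simp [hy]))

/-- the cutoff in terms of `|im u|` if the rows lie in `|im x| ≤ r` -/
theorem norm_phi_le' (h : Adm β s) (hu : ∀ x ∈ X, |(u - x).re + l / 2| ≤ s) {r : ℝ} (hr : ∀ x ∈ X, |x.im| ≤ r) :
    ‖phi β X u‖ ≤ 4 / kap β s * (X.length * Real.exp (2 * β * r)) * Real.exp (-(2 * β) * |u.im|) := by
  refine (norm_phi_le h hu).trans ?_
  rw [mul_assoc]
  refine mul_le_mul_of_nonneg_left ?_ (by have := h.kap_pos; positivity)
  clear hu
  induction X with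
  | nil => simp
  | cons x X ih =>
    rw [List.map_cons, List.sum_cons, List.length_cons]
    have h1 := ih fun y hy => hr y (by simp [hy])
    have h2 : Real.exp (-(2 * β) * |(u - x).im|) ≤ Real.exp (2 * β * r) * Real.exp (-(2 * β) * |u.im|) := by
      rw [← Real.exp_add]
      refine Real.exp_le_exp.2 ?_
      have h3 : |u.im| - |x.im| ≤ |(u - x).im| := by rw [sub_im]; exact abs_sub_abs_le_abs_sub _ _
      have h4 := hr x (by simp)
      nlinarith [h.pos]
    push_cast
    linarith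

theorem differentiableAt_phi (h : Adm β s) (hu : ∀ x ∈ X, |(u - x).re + l / 2| ≤ s) :
    DifferentiableAt ℂ (phi β X) u := by
  have e : phi β X = fun u => 1 - (X.map fun x => psi β (u - x)).prod := rfl
  rw [e]
  refine DifferentiableAt.const_sub ?_ 1
  induction X with
  | nil => simp
  | cons x X ih =>
    have h1 : DifferentiableAt ℂ (fun u => psi β (u - x)) u := by
      have h3 := differentiableAt_psi (z := u - x) h (hu x (by simp))
      exact h3.comp u (differentiableAt_id.sub_const x)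
    have h2 := ih (fun y hy => hu y (by simp [hy])) rfl
    have h4 := h1.mul h2
    refine h4.congr_of_eventuallyEq (Filter.Eventually.of_forall fun v => ?_)
    simp [List.map_cons, List.prod_cons]

end

/-! ### the standard choice `β = (4 / 3) (1 - ε)` -/

lemma adm {ε r : ℝ} (h0 : 0 < ε) (h1 : ε < 1) (hr0 : 0 ≤ r) (hr : r ≤ ε / 2) :
    Adm (4 / 3 * (1 - ε)) (3 * l / 2 + r) where
  pos := by nlinarith
  snn := by have := l_pos; positivity
  sl := by
    unfold l
    have h3 : (3 : ℝ) < Real.pi := Real.pi_gt_three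
    nlinarith
  bl := by
    unfold l
    have := Real.pi_pos
    nlinarith

/-- the strip which contains all the lines -/
lemma strip {u x : ℂ} {r : ℝ} (h1 : -(2 * l) ≤ u.re) (h2 : u.re ≤ l) (hx : |x.re| ≤ r) :
    |(u - x).re + l / 2| ≤ 3 * l / 2 + r := by
  obtain ⟨h3, h4⟩ := abs_le.1 hx
  rw [sub_re, abs_le]
  constructor <;> linarith

end NUP1

end
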