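import Pool.Agent.NUP1.Line
import Pool.Agent.NUP1.Defs

/-!
The residue theorem on two vertical lines, in the normalisation of `NUP1.LI`.
-/

open Complex MeasureTheory Set Filter Topology

noncomputable section

namespace NUP1

lemma vl_eq (σ t : ℝ) : vl σ t = (σ : ℂ) + t * I := rfl
lemma re_vl (σ t : ℝ) : (vl σ t).re = σ := vl_re σ t
lemma im_vl (σ t : ℝ) : (vl σ t).im = t := vl_im σ t

/-- residue theorem on two vertical lines, with integrability on both lines -/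
theorem line_res' {a b : ℝ} (hba : b ≤ a) (hw : a - b < Real.pi) (B : Finset ℂ)
    (hB : ∀ x ∈ B, b < x.re ∧ x.re < a) (H : ℂ → ℂ) (hH : ContinuousOn H (CS b a))
    (hHd : DifferentiableOn ℂ H (OS b a))
    (hdec : ∃ C c R : ℝ, 0 < c ∧ ∀ z : ℂ, b ≤ z.re → z.re ≤ a → R ≤ |z.im| →
      ‖H z * ∏ x ∈ B, (sin (z - x))⁻¹‖ ≤ C * Real.exp (-c * |z.im|)) :
    Integrable (fun t : ℝ => H (vl a t) * ∏ x ∈ B, (sin (vl a t - x))⁻¹) ∧
    Integrable (fun t : ℝ => H (vl b t) * ∏ x ∈ B, (sin (vl b t - x))⁻¹) ∧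
    LI a (fun z => H z * ∏ x ∈ B, (sin (z - x))⁻¹) - LI b (fun z => H z * ∏ x ∈ B, (sin (z - x))⁻¹) =
      ∑ x ∈ B, H x * ∏ y ∈ B.erase x, (sin (x - y))⁻¹ := by
  obtain ⟨C, c, R, hc, h⟩ := hdec
  obtain ⟨i1, i2, e⟩ := line_shift (f := fun z => H z * ∏ x ∈ B, (sin (z - x))⁻¹) hba hw B hB hH hHd
    (fun u _ _ => by rw [Finset.prod_inv_distrib, div_eq_mul_inv]) hc (C := C) (t₀ := R)
    (fun s t h1 h2 h3 => by
      have := h ((s : ℂ) + t * I) (by rw [vl_re]; exact h1) (by rw [vl_re]; exact h2) (by rw [vl_im]; exact h3)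
      rwa [vl_im] at this)
  refine ⟨i2, i1, ?_⟩
  have hpi : (2 * Real.pi : ℂ) ≠ 0 := by
    have := Real.pi_pos
    norm_cast; positivity
  unfold LI
  simp only [vl_eq]
  rw [← mul_sub, e, ← mul_assoc, inv_mul_cancel₀ hpi, one_mul]
  refine Finset.sum_congr rfl fun p _ => ?_
  rw [res, Finset.prod_inv_distrib, div_eq_mul_inv]

/-- **Residue theorem on two vertical lines.** -/
theorem line_res {a b : ℝ} (hba : b < a) (hw : a - b < Real.pi) (B : Finset ℂ)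
    (hB : ∀ x ∈ B, b < x.re ∧ x.re < a) (H : ℂ → ℂ)
    (hH : ∀ z : ℂ, b ≤ z.re → z.re ≤ a → DifferentiableAt ℂ H z)
    (hdec : ∃ C c R : ℝ, 0 < c ∧ ∀ z : ℂ, b ≤ z.re → z.re ≤ a → R ≤ |z.im| →
      ‖H z * ∏ x ∈ B, (sin (z - x))⁻¹‖ ≤ C * Real.exp (-c * |z.im|)) :
    LI a (fun z => H z * ∏ x ∈ B, (sin (z - x))⁻¹) - LI b (fun z => H z * ∏ x ∈ B, (sin (z - x))⁻¹) =
      ∑ x ∈ B, H x * ∏ y ∈ B.erase x, (sin (x - y))⁻¹ :=
  (line_res' hba.le hw B hB H (fun z hz => (hH z hz.1 hz.2).continuousAt.continuousWithinAt)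
    (fun z hz => (hH z hz.1.le hz.2.le).differentiableWithinAt) hdec).2.2

/-- no poles: the integral does not depend on the line -/
theorem LI_shift {a b : ℝ} (hba : b ≤ a) (H : ℂ → ℂ) (hH : ContinuousOn H (CS b a))
    (hHd : DifferentiableOn ℂ H (OS b a))
    (hdec : ∃ C c R : ℝ, 0 < c ∧ ∀ z : ℂ, b ≤ z.re → z.re ≤ a → R ≤ |z.im| →
      ‖H z‖ ≤ C * Real.exp (-c * |z.im|)) : LI a H = LI b H := by
  obtain ⟨C, c, R, hc, h⟩ := hdec
  unfold LI
  congr 1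
  exact line_shift0 hba hH hHd hc (C := C) (t₀ := R) (fun s t h1 h2 h3 => by
      have := h ((s : ℂ) + t * I) (by rw [vl_re]; exact h1) (by rw [vl_re]; exact h2) (by rw [vl_im]; exact h3)
      rwa [vl_im] at this)

end NUP1

end
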