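import Pool.Agent.NUP1.Two

/-!
# Two species of objects of any finite set of kinds: joint integrals, splitting of a kind
-/

set_option autoImplicit false
set_option linter.unusedSectionVars false

noncomputable section

open MeasureTheory

namespace NUP1.Grand2

open Grand (f P)

variable {κ E : Type*} [Fintype κ] [DecidableEq κ] [MeasurableSpace E] (μ : Measure E)
  [SigmaFinite μ] (chg : κ → ℕ) (wt : κ → ℂ) (pw cw : κ → κ → E → E → ℂ)

/-- product of the cross weights -/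
def X {r r' : ℕ} (k : Fin r → κ) (k' : Fin r' → κ) (t : Fin r → E) (t' : Fin r' → E) : ℂ :=
  ∏ i, ∏ j, cw (k i) (k' j) (t i) (t' j)

/-- joint integrand -/
def F (hX hY : κ → E → ℂ) {r r' : ℕ} (k : Fin r → κ) (k' : Fin r' → κ)
    (p : (Fin r → E) × (Fin r' → E)) : ℂ :=
  f pw k hX p.1 * f pw k' hY p.2 * X cw k k' p.1 p.2

/-- joint integral -/
def J (hX hY : κ → E → ℂ) {r r' : ℕ} (k : Fin r → κ) (k' : Fin r' → κ) : ℂ :=
  ∫ p, F pw cw hX hY k k' p ∂((Measure.pi fun _ => μ).prod (Measure.pi fun _ => μ))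

/-- grand canonical joint sum -/
def Z2 (n : ℕ) (hX hY : κ → E → ℂ) : ℂ :=
  ∑ r' ∈ Finset.range (n + 1), ((r'.factorial : ℕ) : ℂ)⁻¹ * ∑ k' : Fin r' → κ,
    if ∑ i, chg (k' i) = n then (∏ i, wt (k' i)) *
      ∑ r ∈ Finset.range (n + 1), ((r.factorial : ℕ) : ℂ)⁻¹ * ∑ k : Fin r → κ,
        if ∑ i, chg (k i) = n then (∏ i, wt (k i)) * J μ pw cw hX hY k k' else 0
    else 0

/-! ## splitting of kinds -/

variable {κ' : Type*} [Fintype κ'] [DecidableEq κ']

/-- a product of sums over fibres -/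
theorem prod_fiber {r : ℕ} (π : κ' → κ) (g : Fin r → κ' → ℂ) (k : Fin r → κ) :
    ∏ i, ∑ a ∈ Finset.univ.filter (fun a => π a = k i), g i a =
      ∑ c ∈ Finset.univ.filter (fun c : Fin r → κ' => ∀ i, π (c i) = k i), ∏ i, g i (c i) := by
  rw [Finset.prod_univ_sum]
  refine Finset.sum_congr ?_ fun _ _ => rfl
  ext c
  simp [Fintype.mem_piFinset]

theorem f_split {r : ℕ} (π : κ' → κ) {h : κ → E → ℂ} {h' : κ' → E → ℂ}
    (hh : ∀ k t, h k t = ∑ a ∈ Finset.univ.filter (fun a => π a = k), h' a t) (k : Fin r → κ)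
    (t : Fin r → E) : f pw k h t =
      ∑ c ∈ Finset.univ.filter (fun c : Fin r → κ' => ∀ i, π (c i) = k i),
        f (fun a b => pw (π a) (π b)) c h' t := by
  unfold f
  simp_rw [hh]
  rw [prod_fiber π (fun i a => h' a (t i)) k, Finset.sum_mul]
  refine Finset.sum_congr rfl fun c hc => ?_
  have hc' := (Finset.mem_filter.1 hc).2
  simp only [hc']

theorem F_split {r r' : ℕ} (π : κ' → κ) {hX hY : κ → E → ℂ} {hX' hY' : κ' → E → ℂ}
    (hhX : ∀ k t, hX k t = ∑ a ∈ Finset.univ.filter (fun a => π a = k), hX' a t)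
    (hhY : ∀ k t, hY k t = ∑ a ∈ Finset.univ.filter (fun a => π a = k), hY' a t)
    (k : Fin r → κ) (k' : Fin r' → κ) (p : (Fin r → E) × (Fin r' → E)) :
    F pw cw hX hY k k' p =
      ∑ c ∈ Finset.univ.filter (fun c : Fin r → κ' => ∀ i, π (c i) = k i),
        ∑ c' ∈ Finset.univ.filter (fun c : Fin r' → κ' => ∀ i, π (c i) = k' i),
          F (fun a b => pw (π a) (π b)) (fun a b => cw (π a) (π b)) hX' hY' c c' p := by
  unfold F
  rw [f_split pw π hhX k, f_split pw π hhY k', Finset.sum_mul_sum, Finset.sum_mul]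
  refine Finset.sum_congr rfl fun c hc => ?_
  rw [Finset.sum_mul]
  refine Finset.sum_congr rfl fun c' hc' => ?_
  have hc1 := (Finset.mem_filter.1 hc).2
  have hc2 := (Finset.mem_filter.1 hc').2
  unfold X
  simp only [hc1, hc2]

theorem J_split {r r' : ℕ} (π : κ' → κ) {hX hY : κ → E → ℂ} {hX' hY' : κ' → E → ℂ}
    (hhX : ∀ k t, hX k t = ∑ a ∈ Finset.univ.filter (fun a => π a = k), hX' a t)
    (hhY : ∀ k t, hY k t = ∑ a ∈ Finset.univ.filter (fun a => π a = k), hY' a t)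
    (k : Fin r → κ) (k' : Fin r' → κ)
    (hI : ∀ (c : Fin r → κ') (c' : Fin r' → κ'), (∀ i, π (c i) = k i) → (∀ i, π (c' i) = k' i) →
      Integrable (F (fun a b => pw (π a) (π b)) (fun a b => cw (π a) (π b)) hX' hY' c c')
        ((Measure.pi fun _ => μ).prod (Measure.pi fun _ => μ))) :
    J μ pw cw hX hY k k' =
      ∑ c ∈ Finset.univ.filter (fun c : Fin r → κ' => ∀ i, π (c i) = k i),
        ∑ c' ∈ Finset.univ.filter (fun c : Fin r' → κ' => ∀ i, π (c i) = k' i),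
          J μ (fun a b => pw (π a) (π b)) (fun a b => cw (π a) (π b)) hX' hY' c c' := by
  unfold J
  simp_rw [F_split pw cw π hhX hhY k k']
  rw [integral_finsetSum]
  · refine Finset.sum_congr rfl fun c hc => ?_
    rw [integral_finsetSum]
    intro c' hc'
    exact hI c c' (Finset.mem_filter.1 hc).2 (Finset.mem_filter.1 hc').2
  · intro c hc
    refine integrable_finsetSum _ fun c' hc' => ?_
    exact hI c c' (Finset.mem_filter.1 hc).2 (Finset.mem_filter.1 hc').2

/-- sum over words of `κ` of sums over the fibres = sum over words of `κ'` -/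
theorem sum_fiber {r : ℕ} (π : κ' → κ) (g : (Fin r → κ) → (Fin r → κ') → ℂ) :
    ∑ k : Fin r → κ, ∑ c ∈ Finset.univ.filter (fun c : Fin r → κ' => ∀ i, π (c i) = k i), g k c =
      ∑ c : Fin r → κ', g (fun i => π (c i)) c := by
  simp_rw [Finset.sum_filter]
  rw [Finset.sum_comm]
  refine Finset.sum_congr rfl fun c _ => ?_
  rw [Finset.sum_eq_single (fun i => π (c i))]
  · simp
  · intro k _ hk
    rw [if_neg]
    intro h
    exact hk (funext fun i => (h i).symm)
  · intro h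
    exact absurd (Finset.mem_univ _) h

/-- **Splitting of kinds.** -/
theorem Z2_split (π : κ' → κ) {hX hY : κ → E → ℂ} {hX' hY' : κ' → E → ℂ}
    (hhX : ∀ k t, hX k t = ∑ a ∈ Finset.univ.filter (fun a => π a = k), hX' a t)
    (hhY : ∀ k t, hY k t = ∑ a ∈ Finset.univ.filter (fun a => π a = k), hY' a t) (n : ℕ)
    (hI : ∀ (r r' : ℕ) (c : Fin r → κ') (c' : Fin r' → κ'), ∑ i, chg (π (c i)) = n →
      ∑ i, chg (π (c' i)) = n →
      Integrable (F (fun a b => pw (π a) (π b)) (fun a b => cw (π a) (π b)) hX' hY' c c')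
        ((Measure.pi fun _ => μ).prod (Measure.pi fun _ => μ))) :
    Z2 μ chg wt pw cw n hX hY =
      Z2 μ (fun a => chg (π a)) (fun a => wt (π a)) (fun a b => pw (π a) (π b))
        (fun a b => cw (π a) (π b)) n hX' hY' := by
  unfold Z2
  refine Finset.sum_congr rfl fun r' _ => ?_
  congr 1
  rw [← sum_fiber π (fun k' c' => if ∑ i, chg (k' i) = n then (∏ i, wt (k' i)) *
      ∑ r ∈ Finset.range (n + 1), ((r.factorial : ℕ) : ℂ)⁻¹ * ∑ c : Fin r → κ',
        if ∑ i, chg (π (c i)) = n then (∏ i, wt (π (c i))) *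
          J μ (fun a b => pw (π a) (π b)) (fun a b => cw (π a) (π b)) hX' hY' c c' else 0
    else 0)]
  refine Finset.sum_congr rfl fun k' _ => ?_
  split_ifs with hk'
  · rw [← Finset.mul_sum, Finset.sum_comm]
    congr 1
    refine Finset.sum_congr rfl fun r _ => ?_
    rw [← Finset.mul_sum, Finset.sum_comm]
    congr 1
    rw [← sum_fiber π (fun k c => ∑ c' ∈ Finset.univ.filter
      (fun c' : Fin r' → κ' => ∀ i, π (c' i) = k' i), if ∑ i, chg (k i) = n then
        (∏ i, wt (k i)) *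
          J μ (fun a b => pw (π a) (π b)) (fun a b => cw (π a) (π b)) hX' hY' c c' else 0)]
    refine Finset.sum_congr rfl fun k _ => ?_
    by_cases hk : ∑ i, chg (k i) = n
    · simp only [if_pos hk]
      rw [J_split μ pw cw π hhX hhY k k', Finset.mul_sum]
      · refine Finset.sum_congr rfl fun c _ => ?_
        rw [Finset.mul_sum]
      · intro c c' h1 h2
        refine hI r r' c c' ?_ ?_
        · rw [← hk]
          exact Finset.sum_congr rfl fun i _ => by rw [h1 i]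
        · rw [← hk']
          exact Finset.sum_congr rfl fun i _ => by rw [h2 i]
    · simp only [if_neg hk]
      simp
  · simp

/-! ## integrability -/

section Integ

variable {κ : Type*} {chg : κ → ℕ} {pw cw : κ → κ → ℝ → ℝ → ℂ}

theorem f_norm_le {C : ℝ} (hC : 1 ≤ C)
    (hp : ∀ k k' t t', ‖pw k k' t t'‖ ≤ C * Real.exp (2 * (chg k * chg k' * |t - t'|)))
    {D κ₀ : ℝ} (h : κ → ℝ → ℂ) (hh : ∀ k t, ‖h k t‖ ≤ D * Real.exp (-(κ₀ * chg k * |t|)))
    {r : ℕ} (k : Fin r → κ) (t : Fin r → ℝ) :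
    ‖f pw k h t‖ ≤ D ^ r * C ^ (r * r) *
      ((∏ i, Real.exp (-(κ₀ * chg (k i) * |t i|))) *
        Real.exp (∑ a, ∑ b, (chg (k a) * chg (k b) * |t a - t b| : ℝ))) := by
  unfold f
  rw [norm_mul, norm_prod]
  have h1 : ∏ i, ‖h (k i) (t i)‖ ≤ D ^ r * ∏ i, Real.exp (-(κ₀ * chg (k i) * |t i|)) := by
    calc _ ≤ ∏ i : Fin r, (D * Real.exp (-(κ₀ * chg (k i) * |t i|))) :=
          Finset.prod_le_prod (fun i _ => norm_nonneg _) fun i _ => hh _ _
      _ = _ := by
          rw [Finset.prod_mul_distrib, Finset.prod_const, Finset.card_univ, Fintype.card_fin]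
  have h2 : ‖P (fun i j => pw (k i) (k j) (t i) (t j))‖ ≤
      C ^ (r * r) * Real.exp (∑ a, ∑ b, (chg (k a) * chg (k b) * |t a - t b| : ℝ)) := by
    refine Bd.P_norm_le _ (fun a b => (chg (k a) * chg (k b) * |t a - t b| : ℝ)) ?_ ?_ hC ?_
    · intro a b
      rw [abs_sub_comm]
      ring
    · intro a
      simp
    · intro a b
      exact hp _ _ _ _
  calc _ ≤ (D ^ r * ∏ i, Real.exp (-(κ₀ * chg (k i) * |t i|))) *
        (C ^ (r * r) * Real.exp (∑ a, ∑ b, (chg (k a) * chg (k b) * |t a - t b| : ℝ))) :=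
        mul_le_mul h1 h2 (norm_nonneg _)
          ((Finset.prod_nonneg fun i _ => norm_nonneg _).trans h1)
    _ = _ := by ring

theorem X_norm_le {C : ℝ}
    (hc : ∀ k k' t t', ‖cw k k' t t'‖ ≤ C * Real.exp (-(2 * (chg k * chg k' * |t - t'|))))
    {r r' : ℕ} (k : Fin r → κ) (k' : Fin r' → κ) (t : Fin r → ℝ) (t' : Fin r' → ℝ) :
    ‖X cw k k' t t'‖ ≤ C ^ (r' * r) *
      Real.exp (-(2 * ∑ i, ∑ j, (chg (k i) * chg (k' j) * |t i - t' j| : ℝ))) := by
  unfold X
  rw [norm_prod]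
  simp_rw [norm_prod]
  calc _ ≤ ∏ i : Fin r, ∏ j : Fin r',
        (C * Real.exp (-(2 * (chg (k i) * chg (k' j) * |t i - t' j|)))) :=
        Finset.prod_le_prod (fun a _ => Finset.prod_nonneg fun b _ => norm_nonneg _)
          fun a _ => Finset.prod_le_prod (fun b _ => norm_nonneg _) fun b _ => hc _ _ _ _
    _ = _ := by
        simp_rw [Finset.prod_mul_distrib, ← Real.exp_sum, Finset.prod_const, Finset.card_univ,
          Fintype.card_fin]
        rw [← pow_mul, Finset.mul_sum, ← Finset.sum_neg_distrib]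
        congr 2
        refine Finset.sum_congr rfl fun i _ => ?_
        rw [Finset.mul_sum, ← Finset.sum_neg_distrib]

/-- the neutral energy inequality for two families -/
theorem energy_two {r r' : ℕ} (k : Fin r → κ) (k' : Fin r' → κ) (t : Fin r → ℝ)
    (t' : Fin r' → ℝ) (h : ∑ i, chg (k i) = ∑ j, chg (k' j)) :
    ∑ a, ∑ b, (chg (k a) * chg (k b) * |t a - t b| : ℝ) +
      ∑ a, ∑ b, (chg (k' a) * chg (k' b) * |t' a - t' b| : ℝ) -
      2 * ∑ i, ∑ j, (chg (k i) * chg (k' j) * |t i - t' j| : ℝ) ≤ 0 := by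
  have h' : ∑ i, (chg (k i) : ℝ) = ∑ j, (chg (k' j) : ℝ) := by exact_mod_cast h
  have := Bd.energy_nonpos (Finset.univ : Finset (Fin r ⊕ Fin r'))
    (Sum.elim (fun i => (chg (k i) : ℝ)) (fun j => -(chg (k' j) : ℝ))) (Sum.elim t t') (by
      rw [Fintype.sum_sum_type]
      simp only [Sum.elim_inl, Sum.elim_inr, Finset.sum_neg_distrib]
      linarith)
  rw [Fintype.sum_sum_type] at this
  simp only [Fintype.sum_sum_type, Sum.elim_inl, Sum.elim_inr, Finset.sum_add_distrib] at this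
  have e1 : ∑ i, ∑ j, (chg (k i) : ℝ) * -(chg (k' j) : ℝ) * |t i - t' j| =
      -∑ i, ∑ j, (chg (k i) * chg (k' j) * |t i - t' j| : ℝ) := by
    rw [← Finset.sum_neg_distrib]
    refine Finset.sum_congr rfl fun i _ => ?_
    rw [← Finset.sum_neg_distrib]
    refine Finset.sum_congr rfl fun j _ => ?_
    ring
  have e2 : ∑ j, ∑ i, -(chg (k' j) : ℝ) * (chg (k i) : ℝ) * |t' j - t i| =
      -∑ i, ∑ j, (chg (k i) * chg (k' j) * |t i - t' j| : ℝ) := by
    rw [Finset.sum_comm, ← Finset.sum_neg_distrib]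
    refine Finset.sum_congr rfl fun i _ => ?_
    rw [← Finset.sum_neg_distrib]
    refine Finset.sum_congr rfl fun j _ => ?_
    rw [abs_sub_comm]
    ring
  have e3 : ∑ i, ∑ j, -(chg (k' i) : ℝ) * -(chg (k' j) : ℝ) * |t' i - t' j| =
      ∑ a, ∑ b, (chg (k' a) * chg (k' b) * |t' a - t' b| : ℝ) := by
    refine Finset.sum_congr rfl fun i _ => Finset.sum_congr rfl fun j _ => ?_
    ring
  rw [e1, e2, e3] at this
  linarith

theorem measurable_f (hpm : ∀ k k', Measurable fun p : ℝ × ℝ => pw k k' p.1 p.2)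
    {h : κ → ℝ → ℂ} (hm : ∀ k, Measurable (h k)) {r : ℕ}
    (k : Fin r → κ) : Measurable (f pw k h) := by
  unfold f
  refine Measurable.mul ?_ ?_
  · exact Finset.measurable_prod _ fun i _ => (hm (k i)).comp (measurable_pi_apply i)
  · refine Bd.measurable_P (fun i j (t : Fin r → ℝ) => pw (k i) (k j) (t i) (t j)) ?_
    intro i j
    have h1 : Measurable fun t : Fin r → ℝ => (t i, t j) :=
      (measurable_pi_apply i).prodMk (measurable_pi_apply j)
    exact (hpm (k i) (k j)).comp h1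

theorem measurable_X (hcm : ∀ k k', Measurable fun p : ℝ × ℝ => cw k k' p.1 p.2)
    {r r' : ℕ} (k : Fin r → κ) (k' : Fin r' → κ) :
    Measurable fun p : (Fin r → ℝ) × (Fin r' → ℝ) => X cw k k' p.1 p.2 := by
  unfold X
  refine Finset.measurable_prod _ fun i _ => Finset.measurable_prod _ fun j _ => ?_
  have h1 : Measurable fun p : (Fin r → ℝ) × (Fin r' → ℝ) => (p.1 i, p.2 j) :=
    ((measurable_pi_apply i).comp measurable_fst).prodMk
      ((measurable_pi_apply j).comp measurable_snd)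
  exact (hcm (k i) (k' j)).comp h1

theorem measurable_F (hpm : ∀ k k', Measurable fun p : ℝ × ℝ => pw k k' p.1 p.2)
    (hcm : ∀ k k', Measurable fun p : ℝ × ℝ => cw k k' p.1 p.2)
    {hX hY : κ → ℝ → ℂ} (hmX : ∀ k, Measurable (hX k)) (hmY : ∀ k, Measurable (hY k))
    {r r' : ℕ} (k : Fin r → κ) (k' : Fin r' → κ) : Measurable (F pw cw hX hY k k') :=
  (((measurable_f hpm hmX k).comp measurable_fst).mul
      ((measurable_f hpm hmY k').comp measurable_snd)).mul (measurable_X hcm k k')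

/-- **The joint integrand is dominated by an integrable product.** -/
theorem F_norm_le {C : ℝ} (hC : 1 ≤ C)
    (hp : ∀ k k' t t', ‖pw k k' t t'‖ ≤ C * Real.exp (2 * (chg k * chg k' * |t - t'|)))
    (hc : ∀ k k' t t', ‖cw k k' t t'‖ ≤ C * Real.exp (-(2 * (chg k * chg k' * |t - t'|))))
    {D κ₀ : ℝ} {hX hY : κ → ℝ → ℂ}
    (hhX : ∀ k t, ‖hX k t‖ ≤ D * Real.exp (-(κ₀ * chg k * |t|)))
    (hhY : ∀ k t, ‖hY k t‖ ≤ D * Real.exp (-(κ₀ * chg k * |t|)))
    {r r' : ℕ} (k : Fin r → κ) (k' : Fin r' → κ) (hk : ∑ i, chg (k i) = ∑ j, chg (k' j))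
    (p : (Fin r → ℝ) × (Fin r' → ℝ)) :
    ‖F pw cw hX hY k k' p‖ ≤ (D ^ r * C ^ (r * r) * (D ^ r' * C ^ (r' * r')) * C ^ (r' * r)) *
          ((∏ i, Real.exp (-(κ₀ * chg (k i) * |p.1 i|))) *
            (∏ i, Real.exp (-(κ₀ * chg (k' i) * |p.2 i|)))) := by
  have hC0 : 0 ≤ C := zero_le_one.trans hC
  have b1 := f_norm_le hC hp hX hhX k p.1
  have b2 := f_norm_le hC hp hY hhY k' p.2
  have b3 := X_norm_le hc k k' p.1 p.2
  have b4 := energy_two k k' p.1 p.2 hk
  have g1 : 0 ≤ D ^ r := by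
    rcases r with _ | r
    · simp
    · have h0 := (norm_nonneg _).trans (hhX (k 0) 0)
      have : 0 ≤ D := by simpa using h0
      positivity
  have g2 : 0 ≤ D ^ r' := by
    rcases r' with _ | r'
    · simp
    · have h0 := (norm_nonneg _).trans (hhY (k' 0) 0)
      have : 0 ≤ D := by simpa using h0
      positivity
  unfold F
  rw [norm_mul, norm_mul]
  have e1 : 0 ≤ ∏ i, Real.exp (-(κ₀ * chg (k i) * |p.1 i|)) :=
    Finset.prod_nonneg fun i _ => (Real.exp_pos _).le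
  have e2 : 0 ≤ ∏ i, Real.exp (-(κ₀ * chg (k' i) * |p.2 i|)) :=
    Finset.prod_nonneg fun i _ => (Real.exp_pos _).le
  calc _ ≤ (D ^ r * C ^ (r * r) * ((∏ i, Real.exp (-(κ₀ * chg (k i) * |p.1 i|))) *
          Real.exp (∑ a, ∑ b, (chg (k a) * chg (k b) * |p.1 a - p.1 b| : ℝ)))) *
        (D ^ r' * C ^ (r' * r') * ((∏ i, Real.exp (-(κ₀ * chg (k' i) * |p.2 i|))) *
          Real.exp (∑ a, ∑ b, (chg (k' a) * chg (k' b) * |p.2 a - p.2 b| : ℝ)))) *
        (C ^ (r' * r) *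
          Real.exp (-(2 * ∑ i, ∑ j, (chg (k i) * chg (k' j) * |p.1 i - p.2 j| : ℝ)))) := by
        gcongr
    _ = (D ^ r * C ^ (r * r) * (D ^ r' * C ^ (r' * r')) * C ^ (r' * r)) *
        ((∏ i, Real.exp (-(κ₀ * chg (k i) * |p.1 i|))) *
          (∏ i, Real.exp (-(κ₀ * chg (k' i) * |p.2 i|)))) *
        Real.exp (∑ a, ∑ b, (chg (k a) * chg (k b) * |p.1 a - p.1 b| : ℝ) +
          ∑ a, ∑ b, (chg (k' a) * chg (k' b) * |p.2 a - p.2 b| : ℝ) -
          2 * ∑ i, ∑ j, (chg (k i) * chg (k' j) * |p.1 i - p.2 j| : ℝ)) := by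
        rw [sub_eq_add_neg, Real.exp_add, Real.exp_add]
        ring
    _ ≤ _ := by
        refine mul_le_of_le_one_right ?_ (Real.exp_le_one_iff.2 b4)
        positivity

/-- **Integrability of the joint integrand.** -/
theorem integrable_F (hpos : ∀ k, 0 < chg k) {C : ℝ} (hC : 1 ≤ C)
    (hp : ∀ k k' t t', ‖pw k k' t t'‖ ≤ C * Real.exp (2 * (chg k * chg k' * |t - t'|)))
    (hc : ∀ k k' t t', ‖cw k k' t t'‖ ≤ C * Real.exp (-(2 * (chg k * chg k' * |t - t'|))))
    (hpm : ∀ k k', Measurable fun p : ℝ × ℝ => pw k k' p.1 p.2)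
    (hcm : ∀ k k', Measurable fun p : ℝ × ℝ => cw k k' p.1 p.2)
    {D κ₀ : ℝ} (hκ : 0 < κ₀) {hX hY : κ → ℝ → ℂ}
    (hmX : ∀ k, Measurable (hX k)) (hmY : ∀ k, Measurable (hY k))
    (hhX : ∀ k t, ‖hX k t‖ ≤ D * Real.exp (-(κ₀ * chg k * |t|)))
    (hhY : ∀ k t, ‖hY k t‖ ≤ D * Real.exp (-(κ₀ * chg k * |t|)))
    {r r' : ℕ} (k : Fin r → κ) (k' : Fin r' → κ) (hk : ∑ i, chg (k i) = ∑ j, chg (k' j)) :
    Integrable (F pw cw hX hY k k')
      ((Measure.pi fun _ => volume).prod (Measure.pi fun _ => volume)) := by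
  have i1 := Bd.integrable_prod_exp (fun i : Fin r => κ₀ * chg (k i))
    (fun i => mul_pos hκ (by exact_mod_cast hpos (k i)))
  have i2 := Bd.integrable_prod_exp (fun i : Fin r' => κ₀ * chg (k' i))
    (fun i => mul_pos hκ (by exact_mod_cast hpos (k' i)))
  have i3 := (i1.mul_prod i2).const_mul
    (D ^ r * C ^ (r * r) * (D ^ r' * C ^ (r' * r')) * C ^ (r' * r))
  refine i3.mono' (measurable_F hpm hcm hmX hmY k k').aestronglyMeasurable
    (Filter.Eventually.of_forall fun p => F_norm_le hC hp hc hhX hhY k k' hk p)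

end Integ

end NUP1.Grand2

end
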