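import Pool.Agent.NUP1.ExactW

/-!
# Vanishing beyond `2 m` quanta, exponential form, and the entire functions of the number of rows
-/

set_option autoImplicit false
set_option linter.unusedSectionVars false

noncomputable section

open Complex MeasureTheory Filter Topology

namespace NUP1.ExM

open Bd (Lines Z2)

variable {α β₀ β s : ℝ}

theorem nq_sum_le {m : ℕ} (a : Fin m → SignType) : ∑ i, nq (a i) ≤ 2 * m := by
  have h2 : ∀ s : SignType, nq s ≤ 2 := by decide
  have h3 := Finset.sum_le_card_nsmul Finset.univ (fun i => nq (a i)) 2 (fun i _ => h2 _)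
  simpa [mul_comm] using h3

theorem St_empty {m n : ℕ} (h : 2 * m < n) : St m n = ∅ := by
  unfold St
  refine Finset.filter_eq_empty_iff.2 fun a _ ha => ?_
  have := nq_sum_le a
  omega

/-- **No state of `m` rows has more than `2 m` quanta.** -/
theorem Z2_eq_zero (h : Lines α β₀ β s) (h1 : β₀ + 2 * l < α) (h2 : α < l)
    (h3 : -(2 * l) < β₀) (c : ℂ) {m M : ℕ} (hM : m ≤ M) {n : ℕ} (hn : 2 * m < n) :
    Z2 α β₀ n
      (GC c β (fun _ : Fin m => 0) (fun _ => 0) (fun _ : Fin M => 0))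
      (GC c β (fun _ : Fin m => 0) (fun _ => 0) (fun _ : Fin M => 0)) = 0 := by
  set x : Fin m → ℂ := fun i => I * ((i : ℕ) : ℂ) with hx
  set W : Fin M → ℂ := fun i => I * ((i : ℕ) : ℂ) with hW
  have x0 : ∀ i, (x i).re = 0 := fun i => by simp [hx]
  have W0 : ∀ i, (W i).re = 0 := fun i => by simp [hW]
  have re0 : ∀ {k : ℕ} {z : Fin k → ℂ}, (∀ i, (z i).re = 0) → ∀ (ε : ℝ) (i : Fin k),
      ((ε : ℂ) * z i).re = 0 := fun hz ε i => by simp [hz i]
  have tR := tendsto_Z2_scale h c (x := x) (y := x) (W := W) (W' := W) x0 x0 W0 W0 n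
  refine tendsto_nhds_unique tR (tendsto_const_nhds.congr' ?_)
  filter_upwards [self_mem_nhdsWithin] with ε hε
  have hε0 : (0 : ℝ) < ε := hε
  have inj : Function.Injective fun i => (ε : ℂ) * x i := by
    intro i j hij
    have h4 : (ε : ℂ) * x i = (ε : ℂ) * x j := hij
    have h5 := mul_left_cancel₀ (by exact_mod_cast hε0.ne') h4
    have h6 : I * ((i : ℕ) : ℂ) = I * ((j : ℕ) : ℂ) := h5
    have h7 := mul_left_cancel₀ I_ne_zero h6
    exact Fin.ext (by exact_mod_cast h7)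
  have key := assem_GC h h1 h2 h3 c c (x := fun i => (ε : ℂ) * x i)
    (y := fun i => (ε : ℂ) * x i) (W := fun i => (ε : ℂ) * W i) (W' := fun i => (ε : ℂ) * W i)
    (re0 x0 ε) (re0 x0 ε) (re0 W0 ε) (re0 W0 ε)
    (fun i => ⟨⟨i, i.2.trans_le hM⟩, rfl⟩) (fun i => ⟨⟨i, i.2.trans_le hM⟩, rfl⟩) inj inj n
  rw [St_empty hn] at key
  exact key

/-- the exact formula with any range of the number of quanta -/
theorem Wd_eq_range (h : Lines α β₀ β s) (h1 : β₀ + 2 * l < α) (h2 : α < l)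
    (h3 : -(2 * l) < β₀) {σ om : ℂ} (hσ : σ ^ 2 = 2 - NUMv.eta + NUMv.eta ^ 3) (hom : om ≠ 0)
    {m M : ℕ} (hM : m ≤ M) {K : ℕ} (hK : 2 * m < K) :
    (Pool.Agent.NUF.near_WW (om + om⁻¹)).Wd (List.replicate m 1) (List.replicate m 1) =
      A0 σ m * A0 σ m * ∑ n ∈ Finset.range K, om ^ ((m : ℤ) - n) *
        Z2 α β₀ n
          (GC (-2 * sin (2 * l) / σ) β (fun _ : Fin m => 0) (fun _ => 0) (fun _ : Fin M => 0))
          (GC (-2 * sin (2 * l) / σ) β (fun _ : Fin m => 0) (fun _ => 0) (fun _ : Fin M => 0)) := by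
  rw [Wd_eq h h1 h2 h3 hσ hom hM]
  congr 1
  refine Finset.sum_subset (Finset.range_subset_range.2 (by omega)) fun n _ hn => ?_
  rw [Z2_eq_zero h h1 h2 h3 _ hM (by simpa using hn), mul_zero]

/-- the exact formula with `n' = 2 cosh b` -/
theorem Wd_cosh (h : Lines α β₀ β s) (h1 : β₀ + 2 * l < α) (h2 : α < l)
    (h3 : -(2 * l) < β₀) {σ : ℂ} (hσ : σ ^ 2 = 2 - NUMv.eta + NUMv.eta ^ 3) (b : ℂ)
    {m M : ℕ} (hM : m ≤ M) {K : ℕ} (hK : 2 * m < K) :
    (Pool.Agent.NUF.near_WW (2 * cosh b)).Wd (List.replicate m 1) (List.replicate m 1) =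
      A0 σ m * A0 σ m * ∑ n ∈ Finset.range K, exp (b * ((m : ℂ) - n)) *
        Z2 α β₀ n
          (GC (-2 * sin (2 * l) / σ) β (fun _ : Fin m => 0) (fun _ => 0) (fun _ : Fin M => 0))
          (GC (-2 * sin (2 * l) / σ) β (fun _ : Fin m => 0) (fun _ => 0) (fun _ : Fin M => 0)) := by
  have e1 : 2 * cosh b = exp b + (exp b)⁻¹ := by
    rw [Complex.cosh, exp_neg]
    ring
  rw [e1, Wd_eq_range h h1 h2 h3 hσ (exp_ne_zero b) hM hK]
  congr 1
  refine Finset.sum_congr rfl fun n _ => ?_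
  rw [← exp_int_mul]
  congr 2
  push_cast
  ring

/-! ## entire functions of the number of rows -/

/-- **An integral with a complex power of a bounded function is entire.** -/
theorem entire_int {Ω : Type*} [MeasurableSpace Ω] {μ : Measure Ω} {G g : Ω → ℂ}
    (hG : Integrable G μ) (hg : AEStronglyMeasurable g μ) {B : ℝ} (hB : ∀ᵐ ω ∂μ, ‖g ω‖ ≤ B) :
    Differentiable ℂ fun s : ℂ => ∫ ω, G ω * exp (s * g ω) ∂μ := by
  intro s₀
  have hgm : ∀ s : ℂ, AEStronglyMeasurable (fun ω => exp (s * g ω)) μ := fun s =>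
    continuous_exp.comp_aestronglyMeasurable (hg.const_mul s)
  have hb : ∀ s : ℂ, s ∈ Metric.ball s₀ 1 → ∀ ω, ‖g ω‖ ≤ B →
      ‖exp (s * g ω)‖ ≤ Real.exp ((‖s₀‖ + 1) * B) := by
    intro s hs ω hω
    rw [norm_exp]
    refine Real.exp_le_exp.2 ((re_le_norm _).trans ?_)
    rw [norm_mul]
    have h1 : ‖s‖ ≤ ‖s₀‖ + 1 := by
      have h2 : ‖s - s₀‖ < 1 := by simpa [dist_eq_norm] using hs
      have := norm_le_norm_add_norm_sub' s s₀
      linarith
    exact mul_le_mul h1 hω (norm_nonneg _) (by positivity)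
  have key := hasDerivAt_integral_of_dominated_loc_of_deriv_le (μ := μ) (𝕜 := ℂ)
    (F := fun s ω => G ω * exp (s * g ω)) (F' := fun s ω => G ω * (exp (s * g ω) * g ω))
    (x₀ := s₀) (bound := fun ω => ‖G ω‖ * (Real.exp ((‖s₀‖ + 1) * B) * B))
    (s := Metric.ball s₀ 1) (Metric.ball_mem_nhds s₀ one_pos)
    (Filter.Eventually.of_forall fun s => hG.1.mul (hgm s))
    (by
      refine (hG.norm.mul_const (Real.exp (‖s₀‖ * B))).mono' (hG.1.mul (hgm s₀)) ?_
      filter_upwards [hB] with ω hω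
      rw [norm_mul]
      refine mul_le_mul_of_nonneg_left ?_ (norm_nonneg _)
      rw [norm_exp]
      refine Real.exp_le_exp.2 ((re_le_norm _).trans ?_)
      rw [norm_mul]
      exact mul_le_mul_of_nonneg_left hω (norm_nonneg _))
    (hG.1.mul ((hgm s₀).mul hg))
    (by
      filter_upwards [hB] with ω hω s hs
      rw [norm_mul, norm_mul]
      refine mul_le_mul_of_nonneg_left ?_ (norm_nonneg _)
      exact mul_le_mul (hb s hs ω hω) hω (norm_nonneg _) (Real.exp_pos _).le)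
    (hG.norm.mul_const _)
    (by
      filter_upwards with ω s _
      have h1 : HasDerivAt (fun s : ℂ => exp (s * g ω)) (exp (s * g ω) * g ω) s := by
        have := ((hasDerivAt_id s).mul_const (g ω)).cexp
        simpa using this
      exact h1.const_mul (G ω))
  exact key.2.differentiableAt

/-- at an integer: the power -/
theorem exp_nat_log {g F : ℂ} (h : exp g = F) (J : ℕ) : exp ((J : ℂ) * g) = F ^ J := by
  rw [← h, ← exp_nat_mul]

end NUP1.ExM

end
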