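import Mathlib

/-!
NU34 [P2-1]: shifting a vertical line across finitely many simple poles.

`f u = H u / ∏ p ∈ B, sin (u - p)` with exponential decay at both ends of the strip `a ≤ re u ≤ b`:
`∫ f (b + i t) dt - ∫ f (a + i t) dt = 2 π ∑ residues`.
-/

open Complex MeasureTheory Set Filter Topology

noncomputable section

namespace NUP1

/-- closed vertical strip -/
def CS (a b : ℝ) : Set ℂ := {u | a ≤ u.re ∧ u.re ≤ b}

/-- open vertical strip -/
def OS (a b : ℝ) : Set ℂ := {u | a < u.re ∧ u.re < b}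

lemma isOpen_OS (a b : ℝ) : IsOpen (OS a b) :=
  (isOpen_lt continuous_const continuous_re).inter (isOpen_lt continuous_re continuous_const)

lemma isClosed_CS (a b : ℝ) : IsClosed (CS a b) :=
  (isClosed_le continuous_const continuous_re).inter (isClosed_le continuous_re continuous_const)

lemma OS_sub_CS (a b : ℝ) : OS a b ⊆ CS a b := fun _ h => ⟨h.1.le, h.2.le⟩

lemma vl_re (s t : ℝ) : ((s : ℂ) + t * I).re = s := by simp
lemma vl_im (s t : ℝ) : ((s : ℂ) + t * I).im = t := by simp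

lemma integrable_exp_neg_abs {δ : ℝ} (hδ : 0 < δ) : Integrable (fun t : ℝ => Real.exp (-δ * |t|)) := by
  rw [← integrableOn_univ, ← Iic_union_Ioi (a := (0 : ℝ)), integrableOn_union]
  constructor
  · refine (integrableOn_exp_mul_Iic hδ 0).congr_fun (fun x hx => ?_) measurableSet_Iic
    rw [abs_of_nonpos hx]; ring_nf
  · refine (integrableOn_exp_mul_Ioi (a := -δ) (by linarith) 0).congr_fun (fun x hx => ?_) measurableSet_Ioi
    have hx' : 0 < x := hx
    simp only [abs_of_pos hx']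

/-- a continuous function with exponentially small tails is below a multiple of `exp (-δ |t|)` -/
lemma exists_bound {f : ℝ → ℂ} (hf : Continuous f) {C δ t₀ : ℝ}
    (h : ∀ t : ℝ, t₀ ≤ |t| → ‖f t‖ ≤ C * Real.exp (-δ * |t|)) :
    ∃ M : ℝ, 0 ≤ M ∧ ∀ t, ‖f t‖ ≤ M * Real.exp (-δ * |t|) := by
  obtain ⟨K, hK⟩ := (isCompact_Icc (a := -|t₀|) (b := |t₀|)).exists_bound_of_continuousOn
    (f := fun t => f t * Real.exp (δ * |t|)) (by fun_prop)
  refine ⟨max (max C K) 0, le_max_right _ _, fun t => ?_⟩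
  have he : 0 < Real.exp (-δ * |t|) := Real.exp_pos _
  by_cases ht : t₀ ≤ |t|
  · exact (h t ht).trans (mul_le_mul_of_nonneg_right ((le_max_left _ _).trans (le_max_left _ _)) he.le)
  · have ht' : t ∈ Icc (-|t₀|) |t₀| := by
      have := (not_le.1 ht).le.trans (le_abs_self t₀)
      exact abs_le.1 this
    have h1 := hK t ht'
    rw [norm_mul, Complex.norm_real, Real.norm_of_nonneg (Real.exp_pos _).le] at h1
    have h2 : ‖f t‖ = ‖f t‖ * Real.exp (δ * |t|) * Real.exp (-δ * |t|) := by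
      rw [mul_assoc, ← Real.exp_add]; simp
    rw [h2]
    exact mul_le_mul_of_nonneg_right (h1.trans ((le_max_right C K).trans (le_max_left _ _))) he.le

lemma integrable_of_decay {f : ℝ → ℂ} (hf : Continuous f) {C δ t₀ : ℝ} (hδ : 0 < δ)
    (h : ∀ t : ℝ, t₀ ≤ |t| → ‖f t‖ ≤ C * Real.exp (-δ * |t|)) : Integrable f := by
  obtain ⟨M, -, hM⟩ := exists_bound hf h
  exact ((integrable_exp_neg_abs hδ).const_mul M).mono' hf.aestronglyMeasurable
    (Eventually.of_forall hM)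

lemma continuous_line {a b s : ℝ} (hs : a ≤ s ∧ s ≤ b) {G : ℂ → ℂ} (hG : ContinuousOn G (CS a b)) :
    Continuous (fun t : ℝ => G (s + t * I)) := by
  rw [← continuousOn_univ]
  refine hG.comp (t := CS a b) (by fun_prop) fun t _ => ?_
  show a ≤ ((s : ℂ) + t * I).re ∧ ((s : ℂ) + t * I).re ≤ b
  rw [vl_re]; exact hs

/-- no poles -/
theorem line_shift0 {a b : ℝ} (hab : a ≤ b) {G : ℂ → ℂ} (hc : ContinuousOn G (CS a b))
    (hd : DifferentiableOn ℂ G (OS a b)) {C δ t₀ : ℝ} (hδ : 0 < δ)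
    (h : ∀ s t : ℝ, a ≤ s → s ≤ b → t₀ ≤ |t| → ‖G (s + t * I)‖ ≤ C * Real.exp (-δ * |t|)) :
    ∫ t : ℝ, G (b + t * I) = ∫ t : ℝ, G (a + t * I) := by
  have ia : Integrable (fun t : ℝ => G (a + t * I)) :=
    integrable_of_decay (continuous_line ⟨le_rfl, hab⟩ hc) hδ (h a · le_rfl hab)
  have ib : Integrable (fun t : ℝ => G (b + t * I)) :=
    integrable_of_decay (continuous_line ⟨hab, le_rfl⟩ hc) hδ (h b · hab le_rfl)
  have ta := intervalIntegral_tendsto_integral ia tendsto_neg_atTop_atBot tendsto_id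
  have tb := intervalIntegral_tendsto_integral ib tendsto_neg_atTop_atBot tendsto_id
  have key : ∀ R : ℝ, 0 ≤ R → (∫ t : ℝ in (-R)..R, G (b + t * I)) - (∫ t : ℝ in (-R)..R, G (a + t * I)) =
      -I * ((∫ x : ℝ in a..b, G (x + R * I)) - (∫ x : ℝ in a..b, G (x + (-R : ℝ) * I))) := by
    intro R hR
    have h1 := Complex.integral_boundary_rect_eq_zero_of_continuousOn_of_differentiableOn G
      ((a : ℂ) + (-R : ℝ) * I) ((b : ℂ) + R * I) ?_ ?_
    · rw [vl_re, vl_re, vl_im, vl_im] at h1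
      simp only [smul_eq_mul] at h1
      have hI : I * I = -1 := I_mul_I
      linear_combination (-I) * h1 + ((∫ t : ℝ in (-R)..R, G (b + t * I)) -
        (∫ t : ℝ in (-R)..R, G (a + t * I))) * hI
    · rw [vl_re, vl_re, vl_im, vl_im, uIcc_of_le hab]
      exact hc.mono fun u hu => (mem_reProdIm.1 hu).1
    · rw [vl_re, vl_re, vl_im, vl_im, min_eq_left hab, max_eq_right hab]
      exact hd.mono fun u hu => (mem_reProdIm.1 hu).1
  have hor : ∀ ε : ℝ → ℝ, (∀ R, |ε R| = |R|) →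
      Tendsto (fun R : ℝ => ∫ x : ℝ in a..b, G (x + (ε R : ℝ) * I)) atTop (𝓝 0) := by
    intro ε hε
    rw [tendsto_zero_iff_norm_tendsto_zero]
    have h0 : Tendsto (fun R : ℝ => |C| * Real.exp (-δ * R) * |b - a|) atTop (𝓝 0) := by
      have : Tendsto (fun R : ℝ => Real.exp (-δ * R)) atTop (𝓝 0) :=
        Real.tendsto_exp_atBot.comp (tendsto_id.const_mul_atTop_of_neg (by linarith))
      simpa using (this.const_mul |C|).mul_const |b - a|
    refine squeeze_zero' (Eventually.of_forall fun _ => norm_nonneg _) ?_ h0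
    filter_upwards [eventually_ge_atTop (max t₀ 0)] with R hR
    have hR0 : 0 ≤ R := (le_max_right _ _).trans hR
    refine intervalIntegral.norm_integral_le_of_norm_le_const fun x hx => ?_
    rw [uIoc_of_le hab] at hx
    have h1 := h x (ε R) hx.1.le hx.2 (by rw [hε, abs_of_nonneg hR0]; exact (le_max_left _ _).trans hR)
    rw [hε, abs_of_nonneg hR0] at h1
    exact h1.trans (mul_le_mul_of_nonneg_right (le_abs_self C) (Real.exp_pos _).le)
  have t1 := hor (fun R => R) (fun R => rfl)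
  have t2 := hor (fun R => -R) (fun R => abs_neg R)
  have t3 : Tendsto (fun R : ℝ => (∫ t : ℝ in (-R)..R, G (b + t * I)) -
      (∫ t : ℝ in (-R)..R, G (a + t * I))) atTop (𝓝 0) := by
    have h0 := (t1.sub t2).const_mul (-I)
    simp only [sub_zero, mul_zero] at h0
    refine h0.congr' ?_
    filter_upwards [eventually_ge_atTop 0] with R hR using (key R hR).symm
  have t4 := tb.sub ta
  simp only [id_eq] at t4
  exact sub_eq_zero.1 (tendsto_nhds_unique t4 t3)

/-! ### the kernel `1 / sin` -/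

lemma norm_sin_sq (z : ℂ) : ‖sin z‖ ^ 2 = Real.sin z.re ^ 2 + Real.sinh z.im ^ 2 := by
  rw [Complex.sin_eq, ← Complex.normSq_eq_norm_sq, ← ofReal_sin, ← ofReal_cosh, ← ofReal_cos, ← ofReal_sinh]
  rw [show ((Real.sin z.re : ℝ) : ℂ) * (Real.cosh z.im : ℝ) + (Real.cos z.re : ℝ) * (Real.sinh z.im : ℝ) * I =
    ((Real.sin z.re * Real.cosh z.im : ℝ) : ℂ) + ((Real.cos z.re * Real.sinh z.im : ℝ) : ℂ) * I by push_cast; ring]
  rw [Complex.normSq_add_mul_I]
  have h1 := Real.sin_sq_add_cos_sq z.re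
  have h2 := Real.cosh_sq z.im
  linear_combination (Real.sin z.re) ^ 2 * h2 + (Real.sinh z.im) ^ 2 * h1

lemma abs_sinh_le_norm_sin (z : ℂ) : |Real.sinh z.im| ≤ ‖sin z‖ := by
  refine abs_le_of_sq_le_sq ?_ (norm_nonneg _)
  rw [norm_sin_sq]; nlinarith [sq_nonneg (Real.sin z.re)]

lemma exp_le_norm_sin {z : ℂ} (hz : 1 ≤ |z.im|) : Real.exp |z.im| / 4 ≤ ‖sin z‖ := by
  refine le_trans ?_ (abs_sinh_le_norm_sin z)
  rw [Real.abs_sinh, Real.sinh_eq]
  have h1 : Real.exp (-|z.im|) ≤ 1 := Real.exp_le_one_iff.2 (by linarith)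
  have h2 : 2 ≤ Real.exp |z.im| := by
    have := Real.add_one_le_exp |z.im|
    linarith
  linarith

lemma norm_inv_sin_le {z : ℂ} (hz : 1 ≤ |z.im|) : ‖(sin z)⁻¹‖ ≤ 4 * Real.exp (-1 * |z.im|) := by
  rw [norm_inv, inv_le_comm₀ (lt_of_lt_of_le (by positivity) (exp_le_norm_sin hz)) (by positivity)]
  refine le_trans (le_of_eq ?_) (exp_le_norm_sin hz)
  rw [neg_one_mul, Real.exp_neg]; field_simp

lemma sin_ne {u : ℂ} (h1 : -Real.pi < u.re) (h2 : u.re < Real.pi) (h0 : u ≠ 0) : sin u ≠ 0 := by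
  intro h
  obtain ⟨k, hk⟩ := Complex.sin_eq_zero_iff.1 h
  have hk0 : k ≠ 0 := by
    rintro rfl
    apply h0; rw [hk]; simp
  have hre : u.re = k * Real.pi := by
    rw [hk]; simp
  have hpi := Real.pi_pos
  rw [hre] at h1 h2
  have h3 : (-1 : ℝ) < k := by
    by_contra hc
    push Not at hc
    nlinarith
  have h4 : (k : ℝ) < 1 := by
    by_contra hc
    push Not at hc
    nlinarith
  have h5 : (-1 : ℤ) < k := by exact_mod_cast h3
  have h6 : k < (1 : ℤ) := by exact_mod_cast h4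
  omega

lemma tendsto_sinh_top : Tendsto Real.sinh atTop atTop := by
  refine tendsto_atTop_mono' _ ?_ tendsto_id
  filter_upwards [eventually_ge_atTop 0] with x hx
  exact Real.self_le_sinh_iff.2 hx

lemma tendsto_sinh_bot : Tendsto Real.sinh atBot atBot := by
  have h := tendsto_neg_atTop_atBot.comp (tendsto_sinh_top.comp tendsto_neg_atBot_atTop)
  refine h.congr fun x => ?_
  simp

lemma integral_sech : ∫ t : ℝ, (Real.cosh t)⁻¹ = Real.pi := by
  have h : ∀ x : ℝ, HasDerivAt (fun t => Real.arctan (Real.sinh t)) (Real.cosh x)⁻¹ x := by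
    intro x
    have h1 := (Real.hasDerivAt_sinh x).arctan
    convert h1 using 1
    have h2 := Real.cosh_sq x
    have h3 := Real.cosh_pos x
    rw [add_comm, ← h2]; field_simp
  have hi : Integrable (fun t : ℝ => (Real.cosh t)⁻¹) := by
    refine ((integrable_exp_neg_abs one_pos).const_mul 2).mono'
      (Real.continuous_cosh.inv₀ fun x => (Real.cosh_pos x).ne').aestronglyMeasurable
      (Eventually.of_forall fun t => ?_)
    rw [Real.norm_of_nonneg (inv_nonneg.2 (Real.cosh_pos t).le), inv_le_comm₀ (Real.cosh_pos t) (by positivity)]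
    rw [← Real.cosh_abs, Real.cosh_eq, neg_one_mul, Real.exp_neg, mul_inv, inv_inv]
    have := Real.exp_pos (-|t|)
    rw [Real.exp_neg] at this
    linarith
  have h1 : Tendsto (fun t => Real.arctan (Real.sinh t)) atBot (𝓝 (-(Real.pi / 2))) :=
    (Real.tendsto_arctan_atBot.mono_right nhdsWithin_le_nhds).comp tendsto_sinh_bot
  have h2 : Tendsto (fun t => Real.arctan (Real.sinh t)) atTop (𝓝 (Real.pi / 2)) :=
    (Real.tendsto_arctan_atTop.mono_right nhdsWithin_le_nhds).comp tendsto_sinh_top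
  rw [integral_of_hasDerivAt_of_tendsto h hi h1 h2]; ring

lemma integral_inv_sin_pos {s : ℝ} (h0 : 0 < s) (h1 : s < Real.pi) :
    ∫ t : ℝ, (sin ((s : ℂ) + t * I))⁻¹ = Real.pi := by
  have hpi := Real.pi_pos
  have key : ∀ a b : ℝ, a ≤ b → 0 < a → b < Real.pi →
      ∫ t : ℝ, (sin ((b : ℂ) + t * I))⁻¹ = ∫ t : ℝ, (sin ((a : ℂ) + t * I))⁻¹ := by
    intro a b hab ha hb
    have hne : ∀ u ∈ CS a b, sin u ≠ 0 := fun u hu => sin_ne (by linarith [hu.1]) (by linarith [hu.2])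
      (by rintro rfl; have := hu.1; simp at this; linarith)
    refine line_shift0 hab (G := fun u => (sin u)⁻¹) ?_ ?_ one_pos (C := 4) (t₀ := 1) ?_
    · exact continuous_sin.continuousOn.inv₀ hne
    · exact differentiable_sin.differentiableOn.inv fun u hu => hne u (OS_sub_CS _ _ hu)
    · intro s t _ _ ht
      have := norm_inv_sin_le (z := (s : ℂ) + t * I) (by rwa [vl_im])
      rwa [vl_im] at this
  have hmid : ∫ t : ℝ, (sin (((Real.pi / 2 : ℝ) : ℂ) + t * I))⁻¹ = Real.pi := by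
    have : ∀ t : ℝ, (sin (((Real.pi / 2 : ℝ) : ℂ) + t * I))⁻¹ = (((Real.cosh t)⁻¹ : ℝ) : ℂ) := by
      intro t
      rw [add_comm, show (t : ℂ) * I + ((Real.pi / 2 : ℝ) : ℂ) = (t : ℂ) * I + Real.pi / 2 by push_cast; ring,
        Complex.sin_add_pi_div_two, Complex.cos_mul_I]
      push_cast; rfl
    simp_rw [this]
    rw [integral_complex_ofReal, integral_sech]
  rcases le_total s (Real.pi / 2) with h | h
  · rw [← key s (Real.pi / 2) h h0 (by linarith), hmid]
  · rw [key (Real.pi / 2) s h (by linarith) h1, hmid]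

lemma integral_inv_sin_neg {s : ℝ} (h0 : -Real.pi < s) (h1 : s < 0) :
    ∫ t : ℝ, (sin ((s : ℂ) + t * I))⁻¹ = -Real.pi := by
  have h2 := integral_inv_sin_pos (s := -s) (by linarith) (by linarith)
  rw [← integral_neg_eq_self] at h2
  rw [← h2, ← integral_neg]
  congr 1; ext t
  rw [show ((-s : ℝ) : ℂ) + ((-t : ℝ) : ℂ) * I = -((s : ℂ) + t * I) by push_cast; ring, Complex.sin_neg,
    inv_neg, neg_neg]

/-! ### division -/

lemma sin_sub_ne {a b : ℝ} (hab : b - a < Real.pi) {u c : ℂ} (hu : u ∈ CS a b) (hc : c ∈ OS a b) (h : u ≠ c) :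
    sin (u - c) ≠ 0 := by
  refine sin_ne ?_ ?_ (sub_ne_zero.2 h)
  · rw [sub_re]; linarith [hu.1, hc.2]
  · rw [sub_re]; linarith [hu.2, hc.1]

lemma CS_nhds {a b : ℝ} {c : ℂ} (hc : c ∈ OS a b) : CS a b ∈ 𝓝 c :=
  mem_of_superset ((isOpen_OS a b).mem_nhds hc) (OS_sub_CS a b)

/-- division by `sin (u - c)` -/
lemma div_one {a b : ℝ} (hab : b - a < Real.pi) {c : ℂ} (hc : c ∈ OS a b) {N : ℂ → ℂ}
    (hN : ContinuousOn N (CS a b)) (hNd : DifferentiableOn ℂ N (OS a b)) (h0 : N c = 0) :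
    ∃ G : ℂ → ℂ, ContinuousOn G (CS a b) ∧ DifferentiableOn ℂ G (OS a b) ∧
      ∀ u ∈ CS a b, N u = G u * sin (u - c) := by
  obtain ⟨S, hS⟩ : ∃ S : ℂ → ℂ, S = fun z => sin (z - c) := ⟨_, rfl⟩
  have hSd : Differentiable ℂ S := by rw [hS]; fun_prop
  have hS0 : S c = 0 := by rw [hS]; simp
  have hD : ∀ u ∈ CS a b, dslope S c u ≠ 0 := by
    intro u hu
    by_cases h : u = c
    · rw [h, dslope_same]
      have : HasDerivAt S (cos (c - c)) c := by
        rw [hS]
        simpa using ((hasDerivAt_id c).sub_const c).csin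
      rw [this.deriv]; simp
    · rw [dslope_of_ne _ h, slope_def_field, hS0, sub_zero]
      refine div_ne_zero ?_ (sub_ne_zero.2 h)
      rw [hS]; exact sin_sub_ne hab hu hc h
  have hnb : CS a b ∈ 𝓝 c := CS_nhds hc
  refine ⟨fun u => dslope N c u / dslope S c u, ?_, ?_, ?_⟩
  · refine ContinuousOn.div ?_ ?_ hD
    · rw [continuousOn_dslope hnb]
      exact ⟨hN, (hNd c hc).differentiableAt ((isOpen_OS a b).mem_nhds hc)⟩
    · rw [continuousOn_dslope hnb]
      exact ⟨hSd.continuous.continuousOn, hSd c⟩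
  · refine DifferentiableOn.div ?_ ?_ fun u hu => hD u (OS_sub_CS _ _ hu)
    · exact (Complex.differentiableOn_dslope ((isOpen_OS a b).mem_nhds hc)).2 hNd
    · exact (Complex.differentiableOn_dslope ((isOpen_OS a b).mem_nhds hc)).2 hSd.differentiableOn
  · intro u hu
    have h1 := sub_smul_dslope N c u
    have h2 := sub_smul_dslope S c u
    rw [h0, sub_zero, smul_eq_mul] at h1
    rw [hS0, sub_zero, smul_eq_mul] at h2
    have h3 : sin (u - c) = S u := by rw [hS]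
    have h4 := hD u hu
    rw [h3, ← h1, ← h2]; field_simp

/-- division by a product of sines -/
lemma div_prod {a b : ℝ} (hab : b - a < Real.pi) (B : Finset ℂ) (hB : ∀ p ∈ B, p ∈ OS a b) {N : ℂ → ℂ}
    (hN : ContinuousOn N (CS a b)) (hNd : DifferentiableOn ℂ N (OS a b)) (h0 : ∀ p ∈ B, N p = 0) :
    ∃ G : ℂ → ℂ, ContinuousOn G (CS a b) ∧ DifferentiableOn ℂ G (OS a b) ∧
      ∀ u ∈ CS a b, N u = G u * ∏ p ∈ B, sin (u - p) := by
  classical
  induction B using Finset.induction_on generalizing N with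
  | empty => exact ⟨N, hN, hNd, fun u _ => by simp⟩
  | insert c B hcB ih =>
    obtain ⟨N₁, h1, h2, h3⟩ := div_one hab (hB c (by simp)) hN hNd (h0 c (by simp))
    obtain ⟨G, g1, g2, g3⟩ := ih (fun p hp => hB p (by simp [hp])) h1 h2 (fun p hp => by
      have hpc : p ≠ c := by rintro rfl; exact hcB hp
      have h4 := h3 p (OS_sub_CS _ _ (hB p (by simp [hp])))
      rw [h0 p (by simp [hp])] at h4
      exact (mul_eq_zero.1 h4.symm).resolve_right
        (sin_sub_ne hab (OS_sub_CS _ _ (hB p (by simp [hp]))) (hB c (by simp)) hpc))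
    refine ⟨G, g1, g2, fun u hu => ?_⟩
    rw [h3 u hu, g3 u hu, Finset.prod_insert hcB]; ring

/-- the residues of `H u / ∏ p ∈ B, sin (u - p)` -/
def res (B : Finset ℂ) (H : ℂ → ℂ) (p : ℂ) : ℂ := H p / ∏ p' ∈ B.erase p, sin (p - p')

/-- partial fractions -/
theorem decomp {a b : ℝ} (hab : b - a < Real.pi) (B : Finset ℂ) (hB : ∀ p ∈ B, p ∈ OS a b) {H : ℂ → ℂ}
    (hH : ContinuousOn H (CS a b)) (hHd : DifferentiableOn ℂ H (OS a b)) :
    ∃ G : ℂ → ℂ, ContinuousOn G (CS a b) ∧ DifferentiableOn ℂ G (OS a b) ∧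
      ∀ u ∈ CS a b, u ∉ B → H u / ∏ p ∈ B, sin (u - p) = G u + ∑ p ∈ B, res B H p * (sin (u - p))⁻¹ := by
  classical
  have k1 : ContinuousOn (fun u => H u - ∑ p ∈ B, res B H p * ∏ p' ∈ B.erase p, sin (u - p')) (CS a b) :=
    hH.sub (Continuous.continuousOn (by fun_prop))
  have k2 : DifferentiableOn ℂ (fun u => H u - ∑ p ∈ B, res B H p * ∏ p' ∈ B.erase p, sin (u - p')) (OS a b) :=
    hHd.sub (Differentiable.differentiableOn (by fun_prop))
  have k3 : ∀ p ∈ B, H p - ∑ q ∈ B, res B H q * ∏ p' ∈ B.erase q, sin (p - p') = 0 := by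
    intro p hp
    rw [Finset.sum_eq_single_of_mem p hp]
    · unfold res
      have h6 : ∏ p' ∈ B.erase p, sin (p - p') ≠ 0 := Finset.prod_ne_zero_iff.2 fun q hq =>
        sin_sub_ne hab (OS_sub_CS _ _ (hB p hp)) (hB q (Finset.mem_of_mem_erase hq))
          (Finset.ne_of_mem_erase hq).symm
      field_simp
      simp
    · intro q _ hqp
      rw [Finset.prod_eq_zero (i := p) (Finset.mem_erase.2 ⟨hqp.symm, hp⟩) (by simp), mul_zero]
  obtain ⟨G, h1, h2, h3⟩ := div_prod hab B hB k1 k2 k3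
  refine ⟨G, h1, h2, fun u hu huB => ?_⟩
  have hne : ∀ p ∈ B, sin (u - p) ≠ 0 := fun p hp =>
    sin_sub_ne hab hu (hB p hp) (by rintro rfl; exact huB hp)
  have hP : ∏ p ∈ B, sin (u - p) ≠ 0 := Finset.prod_ne_zero_iff.2 hne
  have h4 := h3 u hu
  have h5 : H u = G u * ∏ p ∈ B, sin (u - p) + ∑ p ∈ B, res B H p * ∏ p' ∈ B.erase p, sin (u - p') := by
    linear_combination h4
  rw [h5, add_div, mul_div_assoc, div_self hP, mul_one, Finset.sum_div]
  congr 1
  refine Finset.sum_congr rfl fun p hp => ?_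
  rw [← Finset.mul_prod_erase B _ hp]
  have := hne p hp
  have h6 : ∏ p' ∈ B.erase p, sin (u - p') ≠ 0 :=
    Finset.prod_ne_zero_iff.2 fun q hq => hne q (Finset.mem_of_mem_erase hq)
  field_simp

/-- `1 / sin (u - p)` on a vertical line -/
lemma continuous_inv_sin {p : ℂ} {s : ℝ} (h1 : s - p.re < Real.pi) (h2 : -Real.pi < s - p.re)
    (h3 : s ≠ p.re) : Continuous (fun t : ℝ => (sin ((s : ℂ) + t * I - p))⁻¹) := by
  refine Continuous.inv₀ (by fun_prop) fun t => ?_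
  refine sin_ne ?_ ?_ ?_
  · rw [sub_re, vl_re]; exact h2
  · rw [sub_re, vl_re]; exact h1
  · intro h
    have := congrArg Complex.re h
    rw [sub_re, vl_re, zero_re] at this
    exact h3 (sub_eq_zero.1 this)

lemma norm_inv_sin_sub_le {p u : ℂ} (h : 1 + |p.im| ≤ |u.im|) :
    ‖(sin (u - p))⁻¹‖ ≤ 4 * Real.exp |p.im| * Real.exp (-1 * |u.im|) := by
  have h1 : |u.im| - |p.im| ≤ |(u - p).im| := by rw [sub_im]; exact abs_sub_abs_le_abs_sub _ _
  refine (norm_inv_sin_le (by linarith)).trans ?_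
  rw [mul_assoc, ← Real.exp_add]
  gcongr; linarith

lemma integrable_inv_sin {p : ℂ} {s : ℝ} (h1 : s - p.re < Real.pi) (h2 : -Real.pi < s - p.re)
    (h3 : s ≠ p.re) : Integrable (fun t : ℝ => (sin ((s : ℂ) + t * I - p))⁻¹) := by
  refine integrable_of_decay (continuous_inv_sin h1 h2 h3) one_pos (C := 4 * Real.exp |p.im|)
    (t₀ := 1 + |p.im|) fun t ht => ?_
  have := norm_inv_sin_sub_le (p := p) (u := (s : ℂ) + t * I) (by rwa [vl_im])
  rwa [vl_im] at this

lemma integral_inv_sin_shift (p : ℂ) (s : ℝ) :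
    ∫ t : ℝ, (sin ((s : ℂ) + t * I - p))⁻¹ = ∫ t : ℝ, (sin (((s - p.re : ℝ) : ℂ) + t * I))⁻¹ := by
  rw [← integral_sub_right_eq_self (fun t : ℝ => (sin (((s - p.re : ℝ) : ℂ) + t * I))⁻¹) p.im]
  congr 1; ext t
  congr 2
  apply Complex.ext <;> simp

/-- **Shifting a vertical line across finitely many simple poles.** -/
theorem line_shift {a b : ℝ} (hab : a ≤ b) (hpi : b - a < Real.pi) (B : Finset ℂ)
    (hB : ∀ p ∈ B, p ∈ OS a b) {f H : ℂ → ℂ} (hH : ContinuousOn H (CS a b))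
    (hHd : DifferentiableOn ℂ H (OS a b)) (hf : ∀ u ∈ CS a b, u ∉ B → f u = H u / ∏ p ∈ B, sin (u - p))
    {C δ t₀ : ℝ} (hδ : 0 < δ)
    (h : ∀ s t : ℝ, a ≤ s → s ≤ b → t₀ ≤ |t| → ‖f (s + t * I)‖ ≤ C * Real.exp (-δ * |t|)) :
    Integrable (fun t : ℝ => f (a + t * I)) ∧ Integrable (fun t : ℝ => f (b + t * I)) ∧
      (∫ t : ℝ, f (b + t * I)) - (∫ t : ℝ, f (a + t * I)) = 2 * Real.pi * ∑ p ∈ B, res B H p := by
  classical
  obtain ⟨G, g1, g2, g3⟩ := decomp hpi B hB hH hHd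
  have hfG : ∀ u ∈ CS a b, u ∉ B → f u = G u + ∑ p ∈ B, res B H p * (sin (u - p))⁻¹ :=
    fun u hu huB => (hf u hu huB).trans (g3 u hu huB)
  -- the two lines contain no pole
  have hline : ∀ s : ℝ, (a ≤ s ∧ s ≤ b) → (∀ p ∈ B, s ≠ p.re) → ∀ t : ℝ,
      f (s + t * I) = G (s + t * I) + ∑ p ∈ B, res B H p * (sin ((s : ℂ) + t * I - p))⁻¹ := by
    intro s hs hsB t
    refine hfG _ ?_ ?_
    · show a ≤ ((s : ℂ) + t * I).re ∧ ((s : ℂ) + t * I).re ≤ b
      rw [vl_re]; exact hs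
    · intro hm
      exact hsB _ hm (by rw [vl_re])
  have ha' : ∀ p ∈ B, a ≠ p.re := fun p hp => (hB p hp).1.ne
  have hb' : ∀ p ∈ B, b ≠ p.re := fun p hp => (hB p hp).2.ne'
  -- decay of `G`
  obtain ⟨t₁, ht₁⟩ : ∃ t₁ : ℝ, t₀ ≤ t₁ ∧ 0 ≤ t₁ ∧ ∀ p ∈ B, 1 + |p.im| ≤ t₁ := by
    obtain ⟨M, hM⟩ := (B.image fun p => 1 + |p.im|).bddAbove
    refine ⟨max (max t₀ 0) M, (le_max_left _ _).trans (le_max_left _ _),
      (le_max_right _ _).trans (le_max_left _ _), fun p hp => ?_⟩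
    exact (hM (by simpa using ⟨p, hp, rfl⟩)).trans (le_max_right _ _)
  have hGd : ∀ s t : ℝ, a ≤ s → s ≤ b → t₁ ≤ |t| → ‖G (s + t * I)‖ ≤
      (|C| + ∑ p ∈ B, ‖res B H p‖ * (4 * Real.exp |p.im|)) * Real.exp (-(min δ 1) * |t|) := by
    intro s t hs1 hs2 ht
    have hu : ((s : ℂ) + t * I) ∈ CS a b := by
      show a ≤ ((s : ℂ) + t * I).re ∧ ((s : ℂ) + t * I).re ≤ b
      rw [vl_re]; exact ⟨hs1, hs2⟩
    have huB : ((s : ℂ) + t * I) ∉ B := by
      intro hm
      have := ht₁.2.2 _ hm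
      rw [vl_im] at this
      linarith
    have e1 : G (s + t * I) = f (s + t * I) - ∑ p ∈ B, res B H p * (sin ((s : ℂ) + t * I - p))⁻¹ := by
      rw [hfG _ hu huB]; ring
    have hexp1 : Real.exp (-δ * |t|) ≤ Real.exp (-(min δ 1) * |t|) :=
      Real.exp_le_exp.2 (by nlinarith [abs_nonneg t, min_le_left δ 1])
    have hexp2 : Real.exp (-1 * |t|) ≤ Real.exp (-(min δ 1) * |t|) :=
      Real.exp_le_exp.2 (by nlinarith [abs_nonneg t, min_le_right δ 1])
    rw [e1, add_mul, Finset.sum_mul]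
    refine (norm_sub_le _ _).trans (add_le_add ?_ ((norm_sum_le _ _).trans (Finset.sum_le_sum fun p hp => ?_)))
    · refine (h s t hs1 hs2 (ht₁.1.trans ht)).trans ?_
      exact (mul_le_mul_of_nonneg_right (le_abs_self C) (Real.exp_pos _).le).trans
        (mul_le_mul_of_nonneg_left hexp1 (abs_nonneg C))
    · rw [norm_mul, mul_assoc]
      refine mul_le_mul_of_nonneg_left ?_ (norm_nonneg _)
      have h5 := norm_inv_sin_sub_le (p := p) (u := (s : ℂ) + t * I)
        (by rw [vl_im]; exact (ht₁.2.2 p hp).trans ht)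
      rw [vl_im] at h5
      exact h5.trans (mul_le_mul_of_nonneg_left hexp2 (by positivity))
  have hδ' : 0 < min δ 1 := lt_min hδ one_pos
  have h0 := line_shift0 hab g1 g2 hδ' hGd
  have iG : ∀ s : ℝ, (a ≤ s ∧ s ≤ b) → Integrable (fun t : ℝ => G (s + t * I)) := fun s hs =>
    integrable_of_decay (continuous_line hs g1) hδ' (hGd s · hs.1 hs.2)
  have is : ∀ s : ℝ, (a ≤ s ∧ s ≤ b) → (∀ p ∈ B, s ≠ p.re) → ∀ p ∈ B,
      Integrable (fun t : ℝ => res B H p * (sin ((s : ℂ) + t * I - p))⁻¹) := fun s hs hsB p hp =>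
    (integrable_inv_sin (by linarith [hs.2, (hB p hp).1]) (by linarith [hs.1, (hB p hp).2]) (hsB p hp)).const_mul _
  have key : ∀ s : ℝ, (a ≤ s ∧ s ≤ b) → (∀ p ∈ B, s ≠ p.re) →
      Integrable (fun t : ℝ => f (s + t * I)) ∧ ∫ t : ℝ, f (s + t * I) = (∫ t : ℝ, G (s + t * I)) +
        ∑ p ∈ B, res B H p * ∫ t : ℝ, (sin (((s - p.re : ℝ) : ℂ) + t * I))⁻¹ := by
    intro s hs hsB
    have e : (fun t : ℝ => f (s + t * I)) = fun t : ℝ => G (s + t * I) +
        ∑ p ∈ B, res B H p * (sin ((s : ℂ) + t * I - p))⁻¹ := funext (hline s hs hsB)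
    have i1 := iG s hs
    have i2 := integrable_finsetSum B (is s hs hsB)
    rw [e]
    refine ⟨i1.add i2, ?_⟩
    rw [integral_add i1 i2, integral_finsetSum B (is s hs hsB)]
    congr 1
    refine Finset.sum_congr rfl fun p hp => ?_
    rw [integral_const_mul, integral_inv_sin_shift]
  obtain ⟨ja, ea⟩ := key a ⟨le_rfl, hab⟩ ha'
  obtain ⟨jb, eb⟩ := key b ⟨hab, le_rfl⟩ hb'
  refine ⟨ja, jb, ?_⟩
  rw [ea, eb, h0, add_sub_add_left_eq_sub, ← Finset.sum_sub_distrib, Finset.mul_sum]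
  refine Finset.sum_congr rfl fun p hp => ?_
  have hp1 := (hB p hp).1
  have hp2 := (hB p hp).2
  rw [integral_inv_sin_pos (s := b - p.re) (by linarith) (by linarith),
    integral_inv_sin_neg (s := a - p.re) (by linarith) (by linarith)]
  ring

end NUP1

end
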