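import Pool.Agent.NUP1.Cutoff

/-!
# `|psi β z|` is increasing in `β`
-/

set_option autoImplicit false

open Complex

noncomputable section

namespace NUP1

section mono
variable {w τ : ℝ}

/-- `(cosh² + cos² + cos² - 1) / (cos cos cosh)` -/
def gq (w τ b : ℝ) : ℝ :=
  (Real.cosh (b * τ) ^ 2 + Real.cos (b * l) ^ 2 + Real.cos (b * w) ^ 2 - 1) /
    (Real.cos (b * l) * Real.cos (b * w) * Real.cosh (b * τ))

lemma gq_deriv {b : ℝ} (hA : 0 < Real.cos (b * l)) (hB : 0 < Real.cos (b * w)) :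
    HasDerivAt (gq w τ)
      ((Real.cos (b * w) * Real.cosh (b * τ) * (l * Real.sin (b * l)) *
          (Real.sinh (b * τ) ^ 2 + Real.sin (b * l) ^ 2 - Real.sin (b * w) ^ 2) +
        Real.cos (b * l) * Real.cosh (b * τ) * (w * Real.sin (b * w)) *
          (Real.sinh (b * τ) ^ 2 + Real.sin (b * w) ^ 2 - Real.sin (b * l) ^ 2) +
        Real.cos (b * l) * Real.cos (b * w) * (τ * Real.sinh (b * τ)) *
          (Real.sinh (b * τ) ^ 2 + Real.sin (b * l) ^ 2 + Real.sin (b * w) ^ 2)) /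
        (Real.cos (b * l) * Real.cos (b * w) * Real.cosh (b * τ)) ^ 2) b := by
  have hC := Real.cosh_pos (b * τ)
  have e0 : ∀ c : ℝ, HasDerivAt (fun b : ℝ => b * c) c b := fun c => by
    simpa using (hasDerivAt_id b).mul_const c
  have dA := (e0 l).cos
  have dB := (e0 w).cos
  have dC := (e0 τ).cosh
  have dN := (((dC.pow 2).add (dA.pow 2)).add (dB.pow 2)).sub_const 1
  have dD := (dA.mul dB).mul dC
  have hD : Real.cos (b * l) * Real.cos (b * w) * Real.cosh (b * τ) ≠ 0 := by positivity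
  have := dN.div dD hD
  refine this.congr_deriv ?_
  have s1 := Real.sin_sq_add_cos_sq (b * l)
  have s2 := Real.sin_sq_add_cos_sq (b * w)
  have s3 := Real.cosh_sq (b * τ)
  congr 1
  simp only [Pi.mul_apply, Pi.add_apply, Pi.pow_apply]
  generalize Real.cos (b * l) = A at *
  generalize Real.cos (b * w) = B at *
  generalize Real.cosh (b * τ) = C at *
  generalize Real.sin (b * l) = a at *
  generalize Real.sin (b * w) = b' at *
  generalize Real.sinh (b * τ) = S at *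
  have hS : S ^ 2 = C ^ 2 - 1 := by linarith
  have ha : a ^ 2 = 1 - A ^ 2 := by linarith
  have hb : b' ^ 2 = 1 - B ^ 2 := by linarith
  rw [hS, ha, hb]
  push_cast
  ring

lemma gq_mono_aux {b : ℝ} (hb : 0 < b) (hw : 0 ≤ w) (h1 : b * l < Real.pi / 2) (h2 : b * w < Real.pi / 2) :
    0 ≤ Real.cos (b * w) * Real.cosh (b * τ) * (l * Real.sin (b * l)) *
          (Real.sinh (b * τ) ^ 2 + Real.sin (b * l) ^ 2 - Real.sin (b * w) ^ 2) +
        Real.cos (b * l) * Real.cosh (b * τ) * (w * Real.sin (b * w)) *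
          (Real.sinh (b * τ) ^ 2 + Real.sin (b * w) ^ 2 - Real.sin (b * l) ^ 2) +
        Real.cos (b * l) * Real.cos (b * w) * (τ * Real.sinh (b * τ)) *
          (Real.sinh (b * τ) ^ 2 + Real.sin (b * l) ^ 2 + Real.sin (b * w) ^ 2) := by
  have hl := l_pos
  have hpi := Real.pi_pos
  have hbl : 0 < b * l := by positivity
  have hbw : 0 ≤ b * w := by positivity
  have hA : 0 < Real.cos (b * l) := Real.cos_pos_of_mem_Ioo ⟨by linarith, h1⟩
  have hB : 0 < Real.cos (b * w) := Real.cos_pos_of_mem_Ioo ⟨by linarith, h2⟩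
  have hC := Real.cosh_pos (b * τ)
  have ha : 0 ≤ Real.sin (b * l) := Real.sin_nonneg_of_nonneg_of_le_pi hbl.le (by linarith)
  have hb' : 0 ≤ Real.sin (b * w) := Real.sin_nonneg_of_nonneg_of_le_pi hbw (by linarith)
  have hS : 0 ≤ τ * Real.sinh (b * τ) := by
    rcases le_total 0 τ with h | h
    · exact mul_nonneg h (Real.sinh_nonneg_iff.2 (by positivity))
    · exact mul_nonneg_of_nonpos_of_nonpos h (Real.sinh_nonpos_iff.2 (mul_nonpos_of_nonneg_of_nonpos hb.le h))
  have key : 0 ≤ (Real.sin (b * l) ^ 2 - Real.sin (b * w) ^ 2) *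
      (Real.cos (b * w) * (l * Real.sin (b * l)) - Real.cos (b * l) * (w * Real.sin (b * w))) := by
    rcases le_total w l with h | h
    · have hwl : b * w ≤ b * l := mul_le_mul_of_nonneg_left h hb.le
      have i1 : Real.sin (b * w) ≤ Real.sin (b * l) :=
        Real.sin_le_sin_of_le_of_le_pi_div_two (by linarith) (by linarith) hwl
      have i2 : Real.cos (b * l) ≤ Real.cos (b * w) :=
        Real.cos_le_cos_of_nonneg_of_le_pi hbw (by linarith) hwl
      refine mul_nonneg ?_ ?_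
      · nlinarith
      · have i3 : w * Real.sin (b * w) ≤ l * Real.sin (b * l) := mul_le_mul h i1 hb' hl.le
        have i4 : Real.cos (b * l) * (w * Real.sin (b * w)) ≤ Real.cos (b * w) * (l * Real.sin (b * l)) :=
          mul_le_mul i2 i3 (by positivity) hB.le
        linarith
    · have hwl : b * l ≤ b * w := mul_le_mul_of_nonneg_left h hb.le
      have i1 : Real.sin (b * l) ≤ Real.sin (b * w) :=
        Real.sin_le_sin_of_le_of_le_pi_div_two (by linarith) (by linarith) hwl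
      have i2 : Real.cos (b * w) ≤ Real.cos (b * l) :=
        Real.cos_le_cos_of_nonneg_of_le_pi hbl.le (by linarith) hwl
      refine mul_nonneg_of_nonpos_of_nonpos ?_ ?_
      · nlinarith
      · have i3 : l * Real.sin (b * l) ≤ w * Real.sin (b * w) := mul_le_mul h i1 ha hw
        have i4 : Real.cos (b * w) * (l * Real.sin (b * l)) ≤ Real.cos (b * l) * (w * Real.sin (b * w)) :=
          mul_le_mul i2 i3 (by positivity) hA.le
        linarith
  generalize Real.cos (b * l) = A at *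
  generalize Real.cos (b * w) = B at *
  generalize Real.cosh (b * τ) = C at *
  generalize Real.sin (b * l) = a at *
  generalize Real.sin (b * w) = b' at *
  generalize hSS : Real.sinh (b * τ) = S at *
  have e : B * C * (l * a) * (S ^ 2 + a ^ 2 - b' ^ 2) + A * C * (w * b') * (S ^ 2 + b' ^ 2 - a ^ 2) +
      A * B * (τ * S) * (S ^ 2 + a ^ 2 + b' ^ 2) =
      S ^ 2 * (B * C * (l * a) + A * C * (w * b')) + A * B * (τ * S) * (S ^ 2 + a ^ 2 + b' ^ 2) +
      C * ((a ^ 2 - b' ^ 2) * (B * (l * a) - A * (w * b'))) := by ring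
  rw [e]
  have t1 : 0 ≤ S ^ 2 * (B * C * (l * a) + A * C * (w * b')) := by positivity
  have t2 : 0 ≤ A * B * (τ * S) * (S ^ 2 + a ^ 2 + b' ^ 2) := by positivity
  have t3 : 0 ≤ C * ((a ^ 2 - b' ^ 2) * (B * (l * a) - A * (w * b'))) := mul_nonneg hC.le key
  linarith

/-- monotonicity in the rate -/
theorem gq_mono {b c : ℝ} (hb : 0 < b) (hbc : b ≤ c) (hw : 0 ≤ w) (h1 : c * l < Real.pi / 2)
    (h2 : c * w < Real.pi / 2) : gq w τ b ≤ gq w τ c := by
  have hl := l_pos
  have hpi := Real.pi_pos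
  have hin : ∀ x ∈ Set.Icc b c, 0 < x ∧ x * l < Real.pi / 2 ∧ x * w < Real.pi / 2 := by
    intro x hx
    have hx0 : 0 < x := lt_of_lt_of_le hb hx.1
    exact ⟨hx0, lt_of_le_of_lt (mul_le_mul_of_nonneg_right hx.2 hl.le) h1,
      lt_of_le_of_lt (mul_le_mul_of_nonneg_right hx.2 hw) h2⟩
  have hcos : ∀ x ∈ Set.Icc b c, 0 < Real.cos (x * l) ∧ 0 < Real.cos (x * w) := by
    intro x hx
    obtain ⟨x0, x1, x2⟩ := hin x hx
    have y1 : 0 < x * l := by positivity
    have y2 : 0 ≤ x * w := by positivity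
    exact ⟨Real.cos_pos_of_mem_Ioo ⟨by linarith, x1⟩, Real.cos_pos_of_mem_Ioo ⟨by linarith, x2⟩⟩
  have hm : MonotoneOn (gq w τ) (Set.Icc b c) := by
    apply monotoneOn_of_deriv_nonneg (convex_Icc b c)
    · intro x hx
      exact (gq_deriv (hcos x hx).1 (hcos x hx).2).continuousAt.continuousWithinAt
    · intro x hx
      have hx' := interior_subset hx
      exact (gq_deriv (hcos x hx').1 (hcos x hx').2).differentiableAt.differentiableWithinAt
    · intro x hx
      have hx' := interior_subset hx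
      rw [(gq_deriv (hcos x hx').1 (hcos x hx').2).deriv]
      obtain ⟨x0, x1, x2⟩ := hin x hx'
      exact div_nonneg (gq_mono_aux x0 hw x1 x2) (sq_nonneg _)
  exact hm ⟨le_rfl, hbc⟩ ⟨hbc, le_rfl⟩ hbc

lemma gq_abs (b : ℝ) : gq |w| τ b = gq w τ b := by
  unfold gq
  have : Real.cos (b * |w|) = Real.cos (b * w) := by
    rcases abs_choice w with h | h
    · rw [h]
    · rw [h, mul_neg, Real.cos_neg]
  rw [this]

end mono

/-- the square of the modulus -/
theorem norm_psi_sq {β : ℝ} {z : ℂ} (hA : 0 < Real.cos (β * l))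
    (hB : 0 < Real.cos (β * (2 * (z.re + l / 2)))) :
    2 ≤ gq (2 * (z.re + l / 2)) (2 * z.im) β ∧
    ‖psi β z‖ ^ 2 = (gq (2 * (z.re + l / 2)) (2 * z.im) β - 2) /
      (gq (2 * (z.re + l / 2)) (2 * z.im) β + 2) := by
  have hC := Real.cosh_pos (β * (2 * z.im))
  have hcl : cos (β * l : ℂ) = ((Real.cos (β * l) : ℝ) : ℂ) := by push_cast; rfl
  have hs := Real.sin_sq_add_cos_sq (β * (2 * (z.re + l / 2)))
  have hh := Real.cosh_sq (β * (2 * z.im))
  have hcf := cos_form β z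
  rw [show 2 * β * (z.re + l / 2) = β * (2 * (z.re + l / 2)) by ring,
    show 2 * β * z.im = β * (2 * z.im) by ring] at hcf
  unfold psi gq
  rw [hcf, hcl]
  generalize Real.cos (β * l) = A at *
  generalize Real.cos (β * (2 * (z.re + l / 2))) = B at *
  generalize Real.sin (β * (2 * (z.re + l / 2))) = b at *
  generalize Real.cosh (β * (2 * z.im)) = C at *
  generalize Real.sinh (β * (2 * z.im)) = S at *
  have hD : 0 < A * B * C := by positivity
  have n1 : ‖((B * C : ℝ) : ℂ) + ((-(b * S) : ℝ) : ℂ) * I - (A : ℂ)‖ ^ 2 =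
      C ^ 2 + A ^ 2 + B ^ 2 - 1 - 2 * (A * B * C) := by
    rw [show ((B * C : ℝ) : ℂ) + ((-(b * S) : ℝ) : ℂ) * I - (A : ℂ) =
      ((B * C - A : ℝ) : ℂ) + ((-(b * S) : ℝ) : ℂ) * I by push_cast; ring, ← normSq_eq_norm_sq,
      normSq_add_mul_I]
    have hb : b ^ 2 = 1 - B ^ 2 := by linarith
    have hS : S ^ 2 = C ^ 2 - 1 := by linarith
    have : (-(b * S)) ^ 2 = b ^ 2 * S ^ 2 := by ring
    rw [this, hb, hS]
    ring
  have n2 : ‖((B * C : ℝ) : ℂ) + ((-(b * S) : ℝ) : ℂ) * I + (A : ℂ)‖ ^ 2 =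
      C ^ 2 + A ^ 2 + B ^ 2 - 1 + 2 * (A * B * C) := by
    rw [show ((B * C : ℝ) : ℂ) + ((-(b * S) : ℝ) : ℂ) * I + (A : ℂ) =
      ((B * C + A : ℝ) : ℂ) + ((-(b * S) : ℝ) : ℂ) * I by push_cast; ring, ← normSq_eq_norm_sq,
      normSq_add_mul_I]
    have hb : b ^ 2 = 1 - B ^ 2 := by linarith
    have hS : S ^ 2 = C ^ 2 - 1 := by linarith
    have : (-(b * S)) ^ 2 = b ^ 2 * S ^ 2 := by ring
    rw [this, hb, hS]
    ring
  have hnn := sq_nonneg ‖((B * C : ℝ) : ℂ) + ((-(b * S) : ℝ) : ℂ) * I - (A : ℂ)‖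
  rw [n1] at hnn
  constructor
  · rw [le_div_iff₀ hD]
    linarith
  · rw [norm_div, div_pow, n1, n2]
    have hN : 0 < C ^ 2 + A ^ 2 + B ^ 2 - 1 + 2 * (A * B * C) := by linarith
    have e : (C ^ 2 + A ^ 2 + B ^ 2 - 1) / (A * B * C) + 2 =
        (C ^ 2 + A ^ 2 + B ^ 2 - 1 + 2 * (A * B * C)) / (A * B * C) := by
      field_simp
    have e' : (C ^ 2 + A ^ 2 + B ^ 2 - 1) / (A * B * C) - 2 =
        (C ^ 2 + A ^ 2 + B ^ 2 - 1 - 2 * (A * B * C)) / (A * B * C) := by
      field_simp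
    rw [e, e', div_div_div_cancel_right₀ hD.ne']

/-- **`|psi β z|` is increasing in `β`.** -/
theorem norm_psi_mono {b c : ℝ} {z : ℂ} (hb : 0 < b) (hbc : b ≤ c) (h1 : c * l < Real.pi / 2)
    (h2 : c * (2 * |z.re + l / 2|) < Real.pi / 2) : ‖psi b z‖ ≤ ‖psi c z‖ := by
  have hl := l_pos
  have hpi := Real.pi_pos
  have hcos : ∀ x, 0 < x → x ≤ c → 0 < Real.cos (x * l) ∧ 0 < Real.cos (x * (2 * (z.re + l / 2))) := by
    intro x x0 xc
    have y1 : 0 < x * l := by positivity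
    have y2 : x * l ≤ c * l := mul_le_mul_of_nonneg_right xc hl.le
    have y3 : |x * (2 * (z.re + l / 2))| ≤ c * (2 * |z.re + l / 2|) := by
      rw [abs_mul, abs_of_pos x0, abs_mul, abs_two]
      gcongr
    refine ⟨Real.cos_pos_of_mem_Ioo ⟨by linarith, by linarith⟩, ?_⟩
    have := abs_lt.1 (lt_of_le_of_lt y3 h2)
    exact Real.cos_pos_of_mem_Ioo ⟨this.1, this.2⟩
  obtain ⟨p1, p2⟩ := hcos b hb hbc
  obtain ⟨p3, p4⟩ := hcos c (lt_of_lt_of_le hb hbc) le_rfl
  obtain ⟨q1, q2⟩ := norm_psi_sq p1 p2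
  obtain ⟨q3, q4⟩ := norm_psi_sq p3 p4
  have hm := gq_mono (w := |2 * (z.re + l / 2)|) (τ := 2 * z.im) hb hbc (abs_nonneg _) h1 (by
    rwa [abs_mul, abs_two])
  rw [gq_abs, gq_abs] at hm
  refine abs_le_of_sq_le_sq' ?_ (norm_nonneg _) |>.2
  rw [q2, q4, div_le_div_iff₀ (by linarith) (by linarith)]
  nlinarith

end NUP1

end
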