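import Pool.Agent.NUP1.ExactM
import Pool.Agent.NUF.FNz

/-!
# The disc function at equal points as a sum of joint contour integrals
-/

set_option autoImplicit false
set_option linter.unusedSectionVars false

noncomputable section

open Complex MeasureTheory Filter Topology

namespace NUP1.ExM

open Bd (Lines Z2)
open Mu (Apre E et)
open Grand (P)

theorem et_eq_eta : et = NUMv.eta := by
  unfold et NUMv.eta NUMv.el l
  rfl

theorem sigma_sq {σ : ℂ} (hσ : σ ^ 2 = 2 - NUMv.eta + NUMv.eta ^ 3) : σ ^ 2 = 4 * sin l ^ 2 := by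
  have h8 := Mu.r8
  have he : NUMv.eta = exp (I * (l : ℂ)) ^ 2 := by rw [← et_eq_eta, Mu.et_eq]
  have h1 : exp (-(I * (l : ℂ))) * exp (I * (l : ℂ)) = 1 := by
    rw [← exp_add, neg_add_cancel, exp_zero]
  set r := exp (I * (l : ℂ)) with hr
  set r' := exp (-(I * (l : ℂ))) with hr'
  have hs : sin (l : ℂ) = (r' - r) * I / 2 := by
    rw [Complex.sin, hr, hr']
    congr 3
    · congr 1
      ring
    · congr 1
      ring
  have hr0 : r ≠ 0 := exp_ne_zero _
  have h2 : r ^ 6 = -r' ^ 2 := by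
    have : r' = r⁻¹ := eq_inv_of_mul_eq_one_left h1
    rw [this]
    field_simp
    linear_combination h8
  rw [hσ, hs, he]
  linear_combination h2 - 2 * h1 - (r' - r) ^ 2 * I_sq

/-- value of the prefactor at equal rows -/
def A0 (σ : ℂ) (m : ℕ) : ℂ := Apre σ (fun _ : Fin m => 0)

theorem tendsto_pt_map {J : Type*} (L : List J) {g : ℝ → J → ℂ} {F : Filter ℝ}
    (hg : ∀ j, Tendsto (fun ε => g ε j) F (𝓝 1)) :
    Tendsto (fun ε => NUMv.pt (L.map (g ε))) F (𝓝 (NUMv.pt (L.map fun _ => (1 : ℂ)))) := by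
  induction L with
  | nil => exact tendsto_const_nhds
  | cons j L ih => exact NUMv.tendsto_pt_cons (hg j) ih

theorem tendsto_Apre (σ : ℂ) {m : ℕ} (x : Fin m → ℂ) :
    Tendsto (fun ε : ℝ => Apre σ (fun i => (ε : ℂ) * x i)) (𝓝[>] 0) (𝓝 (A0 σ m)) := by
  have hc : Continuous fun ε : ℝ => Apre σ (fun i => (ε : ℂ) * x i) := by
    unfold Apre P E NUGas.F NUGas.lin
    refine Continuous.mul ?_ ?_
    · fun_prop
    · refine continuous_finsetProd _ fun a _ => continuous_finsetProd _ fun b _ => ?_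
      split_ifs
      · fun_prop
      · exact continuous_const
  have h1 := hc.tendsto 0
  simp only [ofReal_zero, zero_mul] at h1
  exact h1.mono_left nhdsWithin_le_nhds

variable {α β₀ β s : ℝ}

/-- **The disc function at equal points as a sum of joint contour integrals**, with a cutoff of any
number `M ≥ m` of points. -/
theorem Wd_eq (h : Lines α β₀ β s) (h1 : β₀ + 2 * l < α) (h2 : α < l)
    (h3 : -(2 * l) < β₀) {σ om : ℂ} (hσ : σ ^ 2 = 2 - NUMv.eta + NUMv.eta ^ 3) (hom : om ≠ 0)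
    {m M : ℕ} (hM : m ≤ M) :
    (Pool.Agent.NUF.near_WW (om + om⁻¹)).Wd (List.replicate m 1) (List.replicate m 1) =
      A0 σ m * A0 σ m * ∑ n ∈ Finset.range (2 * m + 1), om ^ ((m : ℤ) - n) *
        Z2 α β₀ n
          (GC (-2 * sin (2 * l) / σ) β (fun _ : Fin m => 0) (fun _ => 0) (fun _ : Fin M => 0))
          (GC (-2 * sin (2 * l) / σ) β (fun _ : Fin m => 0) (fun _ => 0) (fun _ : Fin M => 0)) := by
  have hσ' := sigma_sq hσ
  have hσ0 : σ ≠ 0 := by
    intro h0
    rw [h0] at hσ'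
    have := Mu.sin1_ne
    have h4 : (0 : ℂ) = 4 * sin l ^ 2 := by simpa using hσ'
    exact (mul_ne_zero (by norm_num) (pow_ne_zero 2 this)) h4.symm
  set c := -2 * sin (2 * l) / σ with hc
  -- the rows
  set x : Fin m → ℂ := fun i => I * ((i : ℕ) : ℂ) with hx
  set W : Fin M → ℂ := fun i => I * ((i : ℕ) : ℂ) with hW
  have x0 : ∀ i, (x i).re = 0 := fun i => by simp [hx]
  have W0 : ∀ i, (W i).re = 0 := fun i => by simp [hW]
  have re0 : ∀ {k : ℕ} {z : Fin k → ℂ}, (∀ i, (z i).re = 0) → ∀ (ε : ℝ) (i : Fin k),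
      ((ε : ℂ) * z i).re = 0 := fun hz ε i => by simp [hz i]
  -- the left side
  have eL : ∀ ε : ℝ, (List.ofFn fun i => E ((ε : ℂ) * x i)) =
      (List.finRange m).map fun i => E ((ε : ℂ) * x i) := fun ε => by
    rw [List.ofFn_eq_map]
  have Et : ∀ j : Fin m, Tendsto (fun ε : ℝ => E ((ε : ℂ) * x j)) (𝓝[>] 0) (𝓝 1) := by
    intro j
    have hcont : Continuous fun ε : ℝ => E ((ε : ℂ) * x j) := by
      unfold E
      fun_prop
    have h0 := hcont.tendsto 0
    have e0 : E (((0 : ℝ) : ℂ) * x j) = 1 := by simp [E]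
    rw [e0] at h0
    exact h0.mono_left nhdsWithin_le_nhds
  have tL : Tendsto (fun ε : ℝ => (Pool.Agent.NUF.near_WW (om + om⁻¹)).Wd
      (List.ofFn fun i => E ((ε : ℂ) * x i)) (List.ofFn fun i => E ((ε : ℂ) * x i))) (𝓝[>] 0)
      (𝓝 ((Pool.Agent.NUF.near_WW (om + om⁻¹)).Wd (List.replicate m 1) (List.replicate m 1))) := by
    refine (Pool.Agent.NUF.near_WW (om + om⁻¹)).Wd_tendsto (by simp) (by simp) ?_
    simp only [eL]
    have e1 : ∀ ε : ℝ, ((List.finRange m).map fun i => E ((ε : ℂ) * x i)) ++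
        ((List.finRange m).map fun i => E ((ε : ℂ) * x i)) =
        (List.finRange m ++ List.finRange m).map fun i => E ((ε : ℂ) * x i) := fun ε => by
      rw [List.map_append]
    have e2 : List.replicate m (1 : ℂ) ++ List.replicate m 1 =
        (List.finRange m ++ List.finRange m).map fun _ => (1 : ℂ) := by
      rw [List.map_append, List.map_const', List.length_finRange]
    simp only [e1]
    rw [e2]
    exact tendsto_pt_map _ Et
  -- the right side
  have tR := (tendsto_finsetSum (Finset.range (2 * m + 1)) fun n _ =>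
    (tendsto_Z2_scale h c (x := x) (y := x) (W := W) (W' := W) x0 x0 W0 W0 n).const_mul
      (om ^ ((m : ℤ) - n)))
  have tR' := ((tendsto_Apre σ x).mul (tendsto_Apre σ x)).mul tR
  refine tendsto_nhds_unique (tL.congr' ?_) tR'
  filter_upwards [self_mem_nhdsWithin] with ε hε
  have hε0 : (0 : ℝ) < ε := hε
  have inj : Function.Injective fun i => (ε : ℂ) * x i := by
    intro i j hij
    have h4 : (ε : ℂ) * x i = (ε : ℂ) * x j := hij
    have h5 := mul_left_cancel₀ (by exact_mod_cast hε0.ne') h4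
    have h6 : I * ((i : ℕ) : ℂ) = I * ((j : ℕ) : ℂ) := h5
    have h7 := mul_left_cancel₀ I_ne_zero h6
    exact Fin.ext (by exact_mod_cast h7)
  have hgen : NUGas.Gen NUMv.eta (List.ofFn fun i => E ((ε : ℂ) * x i)) := by
    have eE : ∀ i : Fin m, E ((ε : ℂ) * x i) = ((Real.exp (-2 * ε * (i : ℕ)) : ℝ) : ℂ) := by
      intro i
      unfold E
      rw [hx]
      push_cast
      congr 1
      linear_combination (2 * (ε : ℂ) * ((i : ℕ) : ℂ)) * I_sq
    refine NUMv.gen_pos ?_ ?_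
    · intro z hz
      obtain ⟨i, rfl⟩ := List.mem_ofFn.1 hz
      exact ⟨Real.exp (-2 * ε * (i : ℕ)), Real.exp_pos _, (eE i).symm⟩
    · rw [List.nodup_ofFn]
      intro i j hij
      simp only [eE] at hij
      have h4 : Real.exp (-2 * ε * (i : ℕ)) = Real.exp (-2 * ε * (j : ℕ)) := by
        exact_mod_cast hij
      have h5 := Real.exp_injective h4
      have h6 : ((i : ℕ) : ℝ) = ((j : ℕ) : ℝ) := by
        have : -2 * ε ≠ 0 := by
          apply mul_ne_zero (by norm_num) hε0.ne'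
        exact mul_left_cancel₀ this h5
      exact Fin.ext (by exact_mod_cast h6)
  rw [Pool.Agent.NUF.Wd_formula hσ hom hgen hgen, ← et_eq_eta]
  have key := N_eq_Z2 h h1 h2 h3 hσ0 hσ' om (x := fun i => (ε : ℂ) * x i)
    (y := fun i => (ε : ℂ) * x i) (W := fun i => (ε : ℂ) * W i) (W' := fun i => (ε : ℂ) * W i)
    (re0 x0 ε) (re0 x0 ε) (re0 W0 ε) (re0 W0 ε)
    (fun i => ⟨⟨i, i.2.trans_le hM⟩, rfl⟩) (fun i => ⟨⟨i, i.2.trans_le hM⟩, rfl⟩) inj inj
  exact key

/-! ## the prefactor -/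

theorem P_const_sq (a : ℂ) (m : ℕ) :
    P (fun _ _ : Fin m => a) ^ 2 = a ^ (m * (m - 1)) := by
  induction m with
  | zero => simp [Grand.P_zero]
  | succ m ih =>
    rw [Mu.P_cons, mul_pow, ih, Finset.prod_const, Finset.card_univ, Fintype.card_fin, ← pow_mul,
      ← pow_add, Nat.add_sub_cancel]
    congr 1
    rcases m with _ | m
    · rfl
    · rw [Nat.add_sub_cancel]
      ring

theorem F_one_one : NUGas.F et .pos .pos (E 0) (E 0) = 4 + 2 * NUMv.rt := by
  have hrt := NUMv.rt_eta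
  have h4 := NUMv.eta4
  have hE : E 0 = 1 := by simp [E]
  rw [et_eq_eta, hE]
  show (NUMv.eta ^ 2 * 1 - 1) * (NUMv.eta ^ 3 * 1 - 1) * (NUMv.eta ^ 5 * 1 - 1) *
    (NUMv.eta ^ 6 * 1 - 1) = _
  rw [hrt]
  linear_combination (-3 - 2 * NUMv.eta - NUMv.eta ^ 2 + NUMv.eta ^ 3 + 3 * NUMv.eta ^ 4 +
    2 * NUMv.eta ^ 5 - NUMv.eta ^ 8 - NUMv.eta ^ 9 - NUMv.eta ^ 10 + NUMv.eta ^ 12) * h4

/-- `A0 ^ 2 = (2 - √2) ^ m (4 + 2 √2) ^ (m (m - 1))` -/
theorem A0_sq {σ : ℂ} (hσ : σ ^ 2 = 2 - NUMv.eta + NUMv.eta ^ 3) (m : ℕ) :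
    A0 σ m * A0 σ m = (2 - NUMv.rt) ^ m * (4 + 2 * NUMv.rt) ^ (m * (m - 1)) := by
  have hrt := NUMv.rt_eta
  have hE : E 0 = 1 := by simp [E]
  have h0 : A0 σ m = (∏ _i : Fin m, σ * E 0) *
      P (fun _ _ : Fin m => NUGas.F et .pos .pos (E 0) (E 0)) := rfl
  rw [h0, F_one_one, hE, mul_one, Finset.prod_const, Finset.card_univ, Fintype.card_fin,
    mul_mul_mul_comm, ← sq, ← sq, P_const_sq, ← pow_mul, mul_comm m 2, pow_mul, hσ]
  congr 2
  linear_combination hrt

end NUP1.ExM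

end
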