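import Pool.Agent.NUP1.Exact
import Pool.Agent.NUF.FNz

/-!
# The exact contour formula at equal rows
-/

set_option autoImplicit false
set_option linter.unusedSectionVars false

noncomputable section

open Complex MeasureTheory Filter Topology

namespace NUP1.Mu

open Bd (Lines Z2 GR)

theorem et_eta : et = NUMv.eta := rfl

theorem four_sin_sq : 4 * sin (l : ℂ) ^ 2 = 2 - NUMv.eta + NUMv.eta ^ 3 := by
  have h0 : NUMv.eta = exp (2 * I * l) := rfl
  have h8 : exp (2 * I * l) * exp (2 * I * l) * (exp (2 * I * l) * exp (2 * I * l)) = -1 := by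
    rw [← exp_add, ← exp_add, ← exp_pi_mul_I]
    congr 1
    unfold l
    push_cast
    ring
  have h1 : exp (2 * I * l) * exp (-(2 * I * l)) = 1 := by rw [← exp_add, add_neg_cancel, exp_zero]
  have h3 : exp (2 * I * l) ^ 3 = -exp (-(2 * I * l)) := by
    have h2 : exp (2 * I * l) ^ 3 * exp (2 * I * l) = -exp (-(2 * I * l)) * exp (2 * I * l) := by
      linear_combination h8 + h1
    exact mul_right_cancel₀ (exp_ne_zero _) h2
  rw [h0, h3, Complex.sin]
  have e1 : exp (-(l : ℂ) * I) ^ 2 = exp (-(2 * I * l)) := by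
    rw [← exp_nat_mul]; congr 1; push_cast; ring
  have e2 : exp ((l : ℂ) * I) ^ 2 = exp (2 * I * l) := by
    rw [← exp_nat_mul]; congr 1; push_cast; ring
  have e3 : exp (-(l : ℂ) * I) * exp ((l : ℂ) * I) = 1 := by
    rw [← exp_add]
    simp
  rw [← e1, ← e2]
  linear_combination ((exp (-(l : ℂ) * I) - exp ((l : ℂ) * I)) ^ 2) * I_sq + 2 * e3

/-- the imaginary rows -/
def rw0 (m : ℕ) (ε : ℝ) (i : Fin m) : ℂ := ((-(ε * (i : ℕ)) : ℝ) : ℂ) * I

theorem E_rw0 (m : ℕ) (ε : ℝ) (i : Fin m) : E (rw0 m ε i) = ((Real.exp (2 * (ε * (i : ℕ))) : ℝ) : ℂ) := by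
  unfold E rw0
  rw [Complex.ofReal_exp]
  congr 1
  push_cast
  linear_combination (-(2 * ε * (i : ℕ)) : ℂ) * I_mul_I

theorem rw0_re (m : ℕ) (ε : ℝ) (i : Fin m) : (rw0 m ε i).re = 0 := by simp [rw0]

theorem rw0_inj (m : ℕ) {ε : ℝ} (hε : 0 < ε) : Function.Injective (rw0 m ε) := by
  intro i j hij
  have h1 := congrArg Complex.im hij
  simp only [rw0, mul_im, ofReal_re, I_im, mul_one, ofReal_im, I_re, mul_zero, add_zero, neg_inj] at h1
  have h2 := mul_left_cancel₀ hε.ne' h1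
  exact Fin.ext (by exact_mod_cast h2)

theorem tendsto_rw0 (m : ℕ) : Tendsto (rw0 m) (𝓝[>] 0) (𝓝 fun _ => 0) := by
  refine Tendsto.mono_left ?_ nhdsWithin_le_nhds
  rw [tendsto_pi_nhds]
  intro i
  have hc : Continuous fun ε : ℝ => rw0 m ε i := by unfold rw0; fun_prop
  have := hc.tendsto 0
  simpa [rw0] using this

theorem cont_F (m : ℕ) (i j : Fin m) :
    Continuous fun z : Fin m → ℂ => NUGas.F et .pos .pos (E (z i)) (E (z j)) := by
  have e : (fun z : Fin m → ℂ => NUGas.F et .pos .pos (E (z i)) (E (z j))) = fun z =>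
      NUGas.lin et 2 (E (z i)) (E (z j)) * NUGas.lin et 3 (E (z i)) (E (z j)) *
      NUGas.lin et 5 (E (z i)) (E (z j)) * NUGas.lin et 6 (E (z i)) (E (z j)) := rfl
  rw [e]
  unfold NUGas.lin E
  fun_prop

theorem tendsto_Apre (σ : ℂ) {ι : Type*} {L : Filter ι} {m : ℕ} {x : ι → Fin m → ℂ} {x₀ : Fin m → ℂ}
    (hx : Tendsto x L (𝓝 x₀)) : Tendsto (fun i => Apre σ (x i)) L (𝓝 (Apre σ x₀)) := by
  have hc : Continuous fun z : Fin m → ℂ => Apre σ z := by
    unfold Apre Grand.P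
    refine Continuous.mul ?_ ?_
    · unfold E
      fun_prop
    · refine continuous_finsetProd _ fun i _ => continuous_finsetProd _ fun j _ => ?_
      split_ifs
      · exact cont_F m i j
      · exact continuous_const
  exact (hc.tendsto x₀).comp hx

theorem tendsto_pt_rw0 (m : ℕ) : Tendsto (fun ε : ℝ => NUMv.pt
      ((List.ofFn fun i => E (rw0 m ε i)) ++ List.ofFn fun i => E (rw0 m ε i))) (𝓝[>] 0)
    (𝓝 (NUMv.pt (List.replicate m 1 ++ List.replicate m 1))) := by
  refine Tendsto.mono_left ?_ nhdsWithin_le_nhds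
  rw [tendsto_pi_nhds]
  intro k
  have hl : ∀ ε : ℝ, (List.ofFn fun i => E (rw0 m ε i)).length = m := fun ε => List.length_ofFn
  have key : ∀ ε : ℝ, NUMv.pt ((List.ofFn fun i => E (rw0 m ε i)) ++ List.ofFn fun i => E (rw0 m ε i)) k =
      if k < m then ((Real.exp (2 * (ε * (k : ℕ))) : ℝ) : ℂ) else
      if k - m < m then ((Real.exp (2 * (ε * ((k - m : ℕ) : ℝ))) : ℝ) : ℂ) else 0 := by
    intro ε
    show List.getD _ k 0 = _
    split_ifs with h1 h2
    · rw [List.getD_append _ _ _ _ (by rw [hl]; exact h1), List.getD_eq_getElem _ _ (by rw [hl]; exact h1),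
        List.getElem_ofFn, E_rw0]
    · rw [List.getD_append_right _ _ _ _ (by rw [hl]; omega), hl,
        List.getD_eq_getElem _ _ (by rw [hl]; exact h2), List.getElem_ofFn, E_rw0]
    · rw [List.getD_eq_default]
      rw [List.length_append, hl]
      omega
  have key0 : NUMv.pt (List.replicate m (1 : ℂ) ++ List.replicate m 1) k =
      if k < m then ((Real.exp (2 * ((0:ℝ) * (k : ℕ))) : ℝ) : ℂ) else
      if k - m < m then ((Real.exp (2 * ((0:ℝ) * ((k - m : ℕ) : ℝ))) : ℝ) : ℂ) else 0 := by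
    show List.getD _ k 0 = _
    rw [zero_mul, mul_zero, Real.exp_zero, zero_mul, mul_zero, Real.exp_zero]
    split_ifs with h1 h2
    · rw [List.getD_append _ _ _ _ (by rw [List.length_replicate]; exact h1),
        List.getD_eq_getElem _ _ (by rw [List.length_replicate]; exact h1), List.getElem_replicate, ofReal_one]
    · rw [List.getD_append_right _ _ _ _ (by rw [List.length_replicate]; omega), List.length_replicate,
        List.getD_eq_getElem _ _ (by rw [List.length_replicate]; exact h2), List.getElem_replicate, ofReal_one]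
    · rw [List.getD_eq_default]
      rw [List.length_append, List.length_replicate]
      omega
  simp only [key, key0]
  split_ifs
  · have hc : Continuous fun ε : ℝ => ((Real.exp (2 * (ε * (k : ℕ))) : ℝ) : ℂ) := by fun_prop
    exact hc.tendsto 0
  · have hc : Continuous fun ε : ℝ => ((Real.exp (2 * (ε * ((k - m : ℕ) : ℝ))) : ℝ) : ℂ) := by fun_prop
    exact hc.tendsto 0
  · exact tendsto_const_nhds

/-- **The exact contour formula at equal rows.** -/
theorem Wd_eq {α β₀ β s : ℝ} (h : Lines α β₀ β s) (h1 : β₀ + 2 * l < α) (h2 : α < l)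
    (h3 : -(2 * l) < β₀) {σ : ℂ} (hσ0 : σ ≠ 0) (hσ : σ ^ 2 = 4 * sin l ^ 2) {om : ℂ} (hom : om ≠ 0)
    (m : ℕ) :
    (Pool.Agent.NUF.near_WW (om + om⁻¹)).Wd (List.replicate m 1) (List.replicate m 1) =
      Apre σ (fun _ : Fin m => 0) ^ 2 * ∑ n ∈ Finset.range (2 * m + 1), om ^ ((m : ℤ) - n) *
        Z2 α β₀ n (GR (-2 * sin (2 * l) / σ) β (fun _ : Fin m => 0) fun _ => 0)
          (GR (-2 * sin (2 * l) / σ) β (fun _ : Fin m => 0) fun _ => 0) := by
  set c : ℂ := -2 * sin (2 * l) / σ with hc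
  have hW := (Pool.Agent.NUF.near_WW (om + om⁻¹)).Wd_tendsto
    (x := fun ε : ℝ => List.ofFn fun i => E (rw0 m ε i)) (y := fun ε : ℝ => List.ofFn fun i => E (rw0 m ε i))
    (x₀ := List.replicate m 1) (y₀ := List.replicate m 1) (l := 𝓝[>] 0)
    (fun ε => by rw [List.length_ofFn, List.length_replicate])
    (fun ε => by rw [List.length_ofFn, List.length_replicate]) (tendsto_pt_rw0 m)
  have hx := tendsto_rw0 m
  have hA := tendsto_Apre σ hx
  have hZ : ∀ n, Tendsto (fun ε : ℝ => Z2 α β₀ n (GR c β (rw0 m ε) (rw0 m ε)) (GR c β (rw0 m ε) (rw0 m ε)))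
      (𝓝[>] 0) (𝓝 (Z2 α β₀ n (GR c β (fun _ : Fin m => 0) fun _ => 0)
        (GR c β (fun _ : Fin m => 0) fun _ => 0))) := fun n =>
    h.tendsto_Z2_rows c hx hx (Filter.Eventually.of_forall fun ε => rw0_re m ε)
      (Filter.Eventually.of_forall fun ε => rw0_re m ε) (fun _ => rfl) (fun _ => rfl) n
  have hR : Tendsto (fun ε : ℝ => Apre σ (rw0 m ε) * Apre σ (rw0 m ε) *
      ∑ n ∈ Finset.range (2 * m + 1), om ^ ((m : ℤ) - n) *
        Z2 α β₀ n (GR c β (rw0 m ε) (rw0 m ε)) (GR c β (rw0 m ε) (rw0 m ε))) (𝓝[>] 0)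
      (𝓝 (Apre σ (fun _ : Fin m => 0) * Apre σ (fun _ : Fin m => 0) *
        ∑ n ∈ Finset.range (2 * m + 1), om ^ ((m : ℤ) - n) *
        Z2 α β₀ n (GR c β (fun _ : Fin m => 0) fun _ => 0) (GR c β (fun _ : Fin m => 0) fun _ => 0))) :=
    (hA.mul hA).mul (tendsto_finsetSum _ fun n _ => (hZ n).const_mul _)
  rw [sq]
  refine tendsto_nhds_unique hW (hR.congr' ?_)
  filter_upwards [self_mem_nhdsWithin] with ε hε
  have hε' : (0 : ℝ) < ε := hε
  have hi := rw0_inj m hε'
  rw [← N_eq_Z2 h h1 h2 h3 hσ0 hσ om (rw0_re m ε) (rw0_re m ε) hi hi]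
  have hg : NUGas.Gen NUMv.eta (List.ofFn fun i => E (rw0 m ε i)) := by
    apply NUMv.gen_pos
    · intro z hz
      obtain ⟨i, rfl⟩ := List.mem_ofFn.1 hz
      rw [E_rw0]
      exact ⟨_, Real.exp_pos _, rfl⟩
    · rw [List.nodup_ofFn]
      intro i j hij
      simp only [E_rw0] at hij
      have h4 : Real.exp (2 * (ε * (i : ℕ))) = Real.exp (2 * (ε * (j : ℕ))) := Complex.ofReal_injective hij
      have h5 := Real.exp_injective h4
      have h6 : ε * ((i : ℕ) : ℝ) = ε * ((j : ℕ) : ℝ) := by linarith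
      have h7 := mul_left_cancel₀ hε'.ne' h6
      exact Fin.ext (by exact_mod_cast h7)
  rw [et_eta]
  exact (Pool.Agent.NUF.Wd_formula (by rw [hσ, four_sin_sq]) hom hg hg).symm

end NUP1.Mu

end
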