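import Pool.Agent.NUP1.Defs

/-!
# Basic facts on the factors of the sites
-/

set_option autoImplicit false

noncomputable section

open Complex MeasureTheory

namespace NUP1

theorem lpos : 0 < l := by unfold l; positivity

theorem pi_eq : Real.pi = 8 * l := by unfold l; ring

/-- `sin` has no zero off the real axis -/
theorem sin_ne_im {z : ℂ} (h : z.im ≠ 0) : sin z ≠ 0 := by
  intro h0
  obtain ⟨k, hk⟩ := Complex.sin_eq_zero_iff.1 h0
  apply h
  rw [hk]
  simp

/-- `sin` has only the zero `0` in the strip `|Re z| < π` -/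
theorem sin_ne_re {z : ℂ} (h1 : -(8 * l) < z.re) (h2 : z.re < 8 * l) (h0 : z ≠ 0) : sin z ≠ 0 := by
  intro hs
  obtain ⟨k, hk⟩ := Complex.sin_eq_zero_iff.1 hs
  have hre : z.re = k * Real.pi := by rw [hk]; simp
  have hp := Real.pi_pos
  rw [← pi_eq] at h1 h2
  have h3 : (-1 : ℝ) < k := by
    rw [hre] at h1
    by_contra hcon
    push Not at hcon
    nlinarith
  have h4 : (k : ℝ) < 1 := by
    rw [hre] at h2
    by_contra hcon
    push Not at hcon
    nlinarith
  have h5 : -1 < k := by exact_mod_cast h3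
  have h6 : k < 1 := by exact_mod_cast h4
  have h7 : k = 0 := by omega
  apply h0
  rw [hk, h7]
  simp

/-- `sin` has no zero if the real part is not `0` and less than `π` in modulus -/
theorem sin_ne_re' {z : ℂ} (h1 : -(8 * l) < z.re) (h2 : z.re < 8 * l) (h0 : z.re ≠ 0) :
    sin z ≠ 0 :=
  sin_ne_re h1 h2 fun h => h0 (by rw [h]; simp)

theorem sin_l_ne : sin (l : ℂ) ≠ 0 := by
  have := lpos
  refine sin_ne_re' ?_ ?_ ?_
  · simp; linarith
  · simp; linarith
  · simp; linarith

theorem sin_2l_ne : sin (2 * l : ℂ) ≠ 0 := by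
  have := lpos
  refine sin_ne_re' ?_ ?_ ?_
  · simp; linarith
  · simp; linarith
  · simp; linarith

theorem q_neg (z : ℂ) : q (-z) = q z := by
  unfold q
  have e1 : sin (-z) = -sin z := Complex.sin_neg z
  have e2 : sin (-z + 2 * l) = -sin (z - 2 * l) := by rw [← Complex.sin_neg]; ring_nf
  have e3 : sin (-z - 2 * l) = -sin (z + 2 * l) := by rw [← Complex.sin_neg]; ring_nf
  have e4 : sin (-z + l) = -sin (z - l) := by rw [← Complex.sin_neg]; ring_nf
  have e5 : sin (-z - l) = -sin (z + l) := by rw [← Complex.sin_neg]; ring_nf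
  rw [e1, e2, e3, e4, e5]
  congr 1
  · ring
  · ring

theorem q_comm (a b : ℂ) : q (a - b) = q (b - a) := by rw [← q_neg]; congr 1; ring

/-- `q1` is the product of two `q`'s -/
theorem q1_eq {z : ℂ} (h0 : sin z ≠ 0) (h1 : sin (z + l) ≠ 0) (h2 : sin (z - l) ≠ 0)
    (h3 : sin (z + 2 * l) ≠ 0) : q z * q (z + l) = q1 z := by
  unfold q q1
  have e1 : z + l + 2 * l = z + 3 * l := by ring
  have e2 : z + l - 2 * l = z - l := by ring
  have e3 : z + l + l = z + 2 * l := by ring
  have e4 : z + l - l = z := by ring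
  rw [e1, e2, e3, e4]
  field_simp

theorem f1_eq {z : ℂ} (h0 : sin z ≠ 0) : 1 / sin z * q z = f1 z := by
  unfold q f1
  rw [show -(sin z ^ 2 * sin (z + 2 * l) * sin (z - 2 * l)) / (sin (z + l) * sin (z - l)) =
    sin z * (-(sin z * sin (z + 2 * l) * sin (z - 2 * l)) / (sin (z + l) * sin (z - l))) by ring]
  rw [← mul_assoc, one_div, inv_mul_cancel₀ h0, one_mul]

theorem f2_eq {z : ℂ} (h0 : sin z ≠ 0) (h1 : sin (z + l) ≠ 0) (h2 : sin (z - l) ≠ 0)
    (h3 : sin (z + 2 * l) ≠ 0) : f1 z * q (z + l) = f2 z := by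
  unfold q f1 f2
  have e1 : z + l + 2 * l = z + 3 * l := by ring
  have e2 : z + l - 2 * l = z - l := by ring
  have e3 : z + l + l = z + 2 * l := by ring
  have e4 : z + l - l = z := by ring
  rw [e1, e2, e3, e4]
  field_simp

theorem q1_f2 (z : ℂ) : q1 z = sin z * f2 z := by unfold q1 f2; ring

theorem q1_zero : q1 0 = 0 := by unfold q1; simp

theorem f2_q1 {z : ℂ} (h0 : sin z ≠ 0) : 1 / sin z * q1 z = f2 z := by
  rw [q1_f2, ← mul_assoc, one_div, inv_mul_cancel₀ h0, one_mul]

/-- the two one body weights of a row with a quantum at both points of a string -/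
theorem f1_f1 {z : ℂ} (h0 : sin z ≠ 0) (h1 : sin (z + l) ≠ 0) (h2 : sin (z - l) ≠ 0)
    (h3 : sin (z - 2 * l) ≠ 0) : f1 z * f1 (z - l) = sin (z + 2 * l) * sin (z - 3 * l) := by
  unfold f1
  have e1 : z - l + 2 * l = z + l := by ring
  have e2 : z - l - 2 * l = z - 3 * l := by ring
  have e3 : z - l + l = z := by ring
  have e4 : z - l - l = z - 2 * l := by ring
  rw [e1, e2, e3, e4]
  field_simp

theorem rho_div : rho / sin l = sin l ^ 2 * sin (3 * l) / sin (2 * l) := by
  unfold rho
  have h1 := sin_l_ne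
  field_simp

/-- admissible positions of the sites -/
def Ok (α β : ℝ) : Site → Prop
  | (.R0, x) => β + l < x.re ∧ x.re < α ∧ α < x.re + l ∧ x.re - 2 * l < β
  | (.R1, x) => β + l < x.re ∧ x.re < α ∧ α < x.re + l ∧ x.re - 2 * l < β
  | (.VA, v) => v.re = α
  | (.VL, v) => v.re = β

/-- the possible places of quanta of a site -/
def pts : Site → Finset ℂ
  | (.R0, x) => {x, x - l}
  | (.R1, x) => {x - l}
  | (.VA, v) => {v - l}
  | (.VL, v) => {v + l}

/-- admissible families -/
structure Good (α β : ℝ) (S : Finset Site) (g : ℂ → ℂ) : Prop where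
  ok : ∀ a ∈ S, Ok α β a
  dis : ∀ a ∈ S, ∀ b ∈ S, a ≠ b → Disjoint (pts a) (pts b)
  an : ∀ z : ℂ, β ≤ z.re → z.re ≤ α → DifferentiableAt ℂ g z

theorem pole_mem (a : Site) : pole a ∈ pts a := by
  rcases a with ⟨_ | _ | _ | _, x⟩ <;> simp [pole, pts]

theorem pole_im (a : Site) : (pole a).im = a.2.im := by
  rcases a with ⟨_ | _ | _ | _, x⟩ <;> simp [pole]

theorem pts_im {a : Site} {p : ℂ} (h : p ∈ pts a) : p.im = a.2.im := by
  rcases a with ⟨_ | _ | _ | _, x⟩
  · simp only [pts, Finset.mem_insert, Finset.mem_singleton] at h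
    rcases h with rfl | rfl <;> simp
  · simp only [pts, Finset.mem_singleton] at h
    rw [h]; simp
  · simp only [pts, Finset.mem_singleton] at h
    rw [h]; simp
  · simp only [pts, Finset.mem_singleton] at h
    rw [h]; simp

/-- the width conditions of the strip -/
structure Wd (α β : ℝ) : Prop where
  lo : β + 2 * l < α
  hi : α < β + 3 * l

variable {α β : ℝ}

theorem pts_re (hw : Wd α β) {a : Site} (ha : Ok α β a) {p : ℂ} (h : p ∈ pts a) :
    β < p.re ∧ p.re < α := by
  have hl := lpos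
  have h1 := hw.lo
  rcases a with ⟨_ | _ | _ | _, x⟩
  · obtain ⟨h2, h3, h4, h5⟩ := ha
    simp only [pts, Finset.mem_insert, Finset.mem_singleton] at h
    rcases h with rfl | rfl
    · constructor <;> linarith
    · constructor <;> simp <;> linarith
  · obtain ⟨h2, h3, h4, h5⟩ := ha
    simp only [pts, Finset.mem_singleton] at h
    rw [h]
    constructor <;> simp <;> linarith
  · have h2 : x.re = α := ha
    simp only [pts, Finset.mem_singleton] at h
    rw [h]
    constructor <;> simp <;> linarith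
  · have h2 : x.re = β := ha
    simp only [pts, Finset.mem_singleton] at h
    rw [h]
    constructor <;> simp <;> linarith

/-- numerators: `fac b u = num b u / sin (u - pole b)` -/
def num : Site → ℂ → ℂ
  | (.R0, _), _ => 1
  | (.R1, x), u => -(sin (u - x) * sin (u - x + 2 * l) * sin (u - x - 2 * l)) / sin (u - x - l)
  | (.VA, v), u => -(sin (u - v) ^ 2 * sin (u - v + 2 * l) * sin (u - v - 2 * l)) / sin (u - v - l)
  | (.VL, v), u => -(sin (u - v) ^ 2 * sin (u - v + 2 * l) * sin (u - v - 2 * l)) / sin (u - v + l)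

theorem fac_eq (b : Site) (u : ℂ) : fac b u = num b u / sin (u - pole b) := by
  rcases b with ⟨_ | _ | _ | _, x⟩
  · rfl
  · show f1 (u - x) = _ / sin (u - (x - l))
    rw [show u - (x - l) = u - x + l by ring]
    unfold f1 num
    rw [div_div, mul_comm (sin (u - x - l))]
  · show q (u - x) = _ / sin (u - (x - l))
    rw [show u - (x - l) = u - x + l by ring]
    unfold q num
    rw [div_div, mul_comm (sin (u - x - l))]
  · show q (u - x) = _ / sin (u - (x + l))
    rw [show u - (x + l) = u - x - l by ring]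
    unfold q num
    rw [div_div]

theorem num_pole (b : Site) : num b (pole b) = rc b.1 := by
  have h1 := sin_l_ne
  have h2 := sin_2l_ne
  rcases b with ⟨_ | _ | _ | _, x⟩
  · rfl
  · show -(sin (x - l - x) * sin (x - l - x + 2 * l) * sin (x - l - x - 2 * l)) / sin (x - l - x - l)
      = rho / sin l
    have e1 : (x - l - x : ℂ) = -l := by ring
    have e2 : (x - l - x + 2 * l : ℂ) = l := by ring
    have e3 : (x - l - x - 2 * l : ℂ) = -(3 * l) := by ring
    have e4 : (x - l - x - l : ℂ) = -(2 * l) := by ring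
    rw [e2, e3, e4, e1, Complex.sin_neg, Complex.sin_neg, Complex.sin_neg, rho_div]
    field_simp
  · show -(sin (x - l - x) ^ 2 * sin (x - l - x + 2 * l) * sin (x - l - x - 2 * l)) /
      sin (x - l - x - l) = -rho
    have e1 : (x - l - x : ℂ) = -l := by ring
    have e2 : (x - l - x + 2 * l : ℂ) = l := by ring
    have e3 : (x - l - x - 2 * l : ℂ) = -(3 * l) := by ring
    have e4 : (x - l - x - l : ℂ) = -(2 * l) := by ring
    rw [e2, e3, e4, e1, Complex.sin_neg, Complex.sin_neg, Complex.sin_neg]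
    unfold rho
    field_simp
  · show -(sin (x + l - x) ^ 2 * sin (x + l - x + 2 * l) * sin (x + l - x - 2 * l)) /
      sin (x + l - x + l) = rho
    have e1 : (x + l - x : ℂ) = l := by ring
    have e2 : (x + l - x + 2 * l : ℂ) = 3 * l := by ring
    have e3 : (x + l - x - 2 * l : ℂ) = -l := by ring
    have e4 : (x + l - x + l : ℂ) = 2 * l := by ring
    rw [e2, e3, e4, e1, Complex.sin_neg]
    unfold rho
    field_simp

theorem num_diff (hw : Wd α β) {b : Site} (hb : Ok α β b) {u : ℂ} (h1 : β ≤ u.re) (h2 : u.re ≤ α) :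
    DifferentiableAt ℂ (num b) u := by
  have hl := lpos
  have h5 := hw.lo
  have h6 := hw.hi
  rcases b with ⟨_ | _ | _ | _, x⟩
  · exact differentiableAt_const _
  · obtain ⟨h7, h8, h9, h10⟩ := hb
    have hne : sin (u - x - l) ≠ 0 := by
      refine sin_ne_re' ?_ ?_ ?_ <;> simp <;> linarith
    show DifferentiableAt ℂ (fun u => -(sin (u - x) * sin (u - x + 2 * l) * sin (u - x - 2 * l)) /
      sin (u - x - l)) u
    fun_prop (disch := exact hne)
  · have h7 : x.re = α := hb
    have hne : sin (u - x - l) ≠ 0 := by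
      refine sin_ne_re' ?_ ?_ ?_ <;> simp <;> linarith
    show DifferentiableAt ℂ (fun u => -(sin (u - x) ^ 2 * sin (u - x + 2 * l) *
      sin (u - x - 2 * l)) / sin (u - x - l)) u
    fun_prop (disch := exact hne)
  · have h7 : x.re = β := hb
    have hne : sin (u - x + l) ≠ 0 := by
      refine sin_ne_re' ?_ ?_ ?_ <;> simp <;> linarith
    show DifferentiableAt ℂ (fun u => -(sin (u - x) ^ 2 * sin (u - x + 2 * l) *
      sin (u - x - 2 * l)) / sin (u - x + l)) u
    fun_prop (disch := exact hne)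

/-- two different points of the open strip -/
theorem sin_sub_ne' (hw : Wd α β) {a b : ℂ} (ha : β ≤ a.re ∧ a.re ≤ α) (hb : β ≤ b.re ∧ b.re ≤ α)
    (h : a ≠ b) : sin (a - b) ≠ 0 := by
  have hl := lpos
  have h5 := hw.lo
  have h6 := hw.hi
  refine sin_ne_re ?_ ?_ (sub_ne_zero.2 h)
  · simp; linarith [ha.1, hb.2]
  · simp; linarith [ha.2, hb.1]

theorem fac_diff (hw : Wd α β) {b : Site} (hb : Ok α β b) {u : ℂ} (h1 : β ≤ u.re) (h2 : u.re ≤ α)
    (h3 : u ≠ pole b) : DifferentiableAt ℂ (fac b) u := by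
  have e : fac b = fun u => num b u / sin (u - pole b) := funext fun u => fac_eq b u
  have h4 := num_diff hw hb h1 h2
  obtain ⟨h5, h6⟩ := pts_re hw hb (pole_mem b)
  have h7 := sin_sub_ne' hw ⟨h1, h2⟩ ⟨h5.le, h6.le⟩ h3
  rw [e]
  exact h4.div (by fun_prop) h7

end NUP1

end
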