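import Pool.Agent.NUP1.Objects

/-!
# Integrability of the integrands (one species, two species)
-/

set_option autoImplicit false
set_option linter.unusedSectionVars false

noncomputable section

open Complex MeasureTheory

namespace NUP1.Bd

/-! ## measurability -/

theorem measurable_sin_add (a : ℂ) : Measurable fun z : ℂ => sin (z + a) :=
  Complex.measurable_sin.comp (measurable_id.add_const a)

theorem measurable_sin_sub (a : ℂ) : Measurable fun z : ℂ => sin (z - a) :=
  Complex.measurable_sin.comp (measurable_id.sub_const a)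

theorem measurable_q : Measurable q := by
  unfold q
  exact ((((Complex.measurable_sin.pow_const 2).mul (measurable_sin_add _)).mul
    (measurable_sin_sub _)).neg).div ((measurable_sin_add _).mul (measurable_sin_sub _))

theorem measurable_q1 : Measurable q1 := by
  unfold q1
  exact ((Complex.measurable_sin.mul (measurable_sin_add _)).mul (measurable_sin_sub _)).mul
    (measurable_sin_add _)

theorem measurable_q2 : Measurable q2 := by
  unfold q2
  exact measurable_q1.mul (measurable_q1.comp (measurable_id.sub_const _))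

theorem measurable_qg : Measurable qg := by
  unfold qg
  exact (Complex.measurable_cos.pow_const 2).div
    (((measurable_sin_add _).pow_const 2).mul ((measurable_sin_sub _).pow_const 2))

theorem measurable_pwz (k k' : Ob) : Measurable (pwz k k') := by
  cases k <;> cases k' <;>
    first
    | exact measurable_q
    | exact measurable_q1
    | exact measurable_q2
    | exact measurable_q1.comp measurable_neg

theorem measurable_cwz (k k' : Ob) : Measurable (cwz k k') := by
  have h1 := measurable_qg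
  have h2 : Measurable fun z : ℂ => qg (z + l) := measurable_qg.comp (measurable_id.add_const _)
  have h3 : Measurable fun z : ℂ => qg (z - l) := measurable_qg.comp (measurable_id.sub_const _)
  cases k <;> cases k' <;>
    first
    | exact h1
    | exact h1.mul h2
    | exact h1.mul h3
    | exact (h1.mul h1).mul (h2.mul h3)

theorem measurable_pt (α β : ℝ) (k : Ob) : Measurable (pt α β k) := by
  unfold pt vl
  fun_prop

/-! ## bounds of the pair weights on the lines -/

theorem l_pos : 0 < l := by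
  unfold l
  positivity

theorem pi_eq : Real.pi = 8 * l := by
  unfold l
  ring

theorem sin_pos_of {x : ℝ} (h0 : 0 < x) (h1 : x < 8 * l) : 0 < Real.sin x :=
  Real.sin_pos_of_pos_of_lt_pi h0 (by rw [pi_eq]; exact h1)

theorem abs_sin_pos {x : ℝ} (h0 : 0 < |x|) (h1 : |x| < 8 * l) : 0 < |Real.sin x| := by
  rcases le_total 0 x with h | h
  · rw [abs_of_nonneg h] at h0 h1
    exact abs_pos.2 (sin_pos_of h0 h1).ne'
  · rw [abs_of_nonpos h] at h0 h1
    have := sin_pos_of h0 h1
    rw [Real.sin_neg] at this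
    exact abs_pos.2 (by linarith : Real.sin x < 0).ne

theorem cosh_pow_le (y : ℝ) (n : ℕ) : Real.cosh y ^ n ≤ Real.exp (n * |y|) := by
  rw [Real.exp_nat_mul]
  exact pow_le_pow_left₀ (Real.cosh_pos y).le (cosh_le_exp y) n

theorem q_bound' (x : ℝ) (h1 : 0 < |Real.sin (x + l)|) (h2 : 0 < |Real.sin (x - l)|) :
    ∃ C : ℝ, 0 ≤ C ∧ ∀ z : ℂ, z.re = x → ‖q z‖ ≤ C * Real.exp (2 * |z.im|) := by
  refine ⟨((min |Real.sin (x + l)| |Real.sin (x - l)|)⁻¹) ^ 2, by positivity, fun z hz => ?_⟩
  subst hz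
  refine (q_bound z (lt_min h1 h2) (min_le_left _ _) (min_le_right _ _)).trans ?_
  have := cosh_pow_le z.im 2
  push_cast at this
  gcongr

theorem qg_bound' (x : ℝ) (h : |x| < 3 * l) :
    ∃ C : ℝ, 0 ≤ C ∧ ∀ z : ℂ, z.re = x → ‖qg z‖ ≤ C * Real.exp (-(2 * |z.im|)) := by
  have hx := abs_lt.1 h
  have h1 : 0 < |Real.sin (x + 3 * l)| := abs_sin_pos (by
    rw [abs_of_pos (by linarith)]
    linarith) (by
    rw [abs_of_pos (by linarith)]
    linarith [l_pos])
  have h2 : 0 < |Real.sin (x - 3 * l)| := abs_sin_pos (by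
    rw [abs_of_neg (by linarith)]
    linarith) (by
    rw [abs_of_neg (by linarith)]
    linarith [l_pos])
  refine ⟨4 * ((min |Real.sin (x + 3 * l)| |Real.sin (x - 3 * l)|)⁻¹) ^ 4, by positivity,
    fun z hz => ?_⟩
  subst hz
  refine (qg_bound z (lt_min h1 h2) (min_le_left _ _) (min_le_right _ _)).trans ?_
  have h3 : (Real.cosh z.im ^ 2)⁻¹ ≤ 4 * Real.exp (-(2 * |z.im|)) := by
    have h4 := exp_le_cosh z.im
    rw [Real.exp_neg, show 2 * |z.im| = |z.im| + |z.im| by ring, Real.exp_add,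
      ← div_eq_mul_inv, inv_eq_one_div, div_le_div_iff₀ (by positivity) (by positivity)]
    nlinarith [Real.exp_pos |z.im|, Real.cosh_pos z.im]
  calc _ ≤ ((min |Real.sin (z.re + 3 * l)| |Real.sin (z.re - 3 * l)|)⁻¹) ^ 4 *
        (4 * Real.exp (-(2 * |z.im|))) := by gcongr
    _ = _ := by ring

theorem pwz_bound {α β : ℝ} (h1 : l < α - β) (h2 : α - β < 3 * l) (k k' : Ob) :
    ∃ C : ℝ, 0 ≤ C ∧ ∀ z : ℂ, z.re = rl α β k - rl α β k' →
      ‖pwz k k' z‖ ≤ C * Real.exp (2 * (chg k * chg k' * |z.im|)) := by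
  have hl := l_pos
  have hq : ∀ x : ℝ, (x = 0 ∨ x = α - β ∨ x = β - α) →
      ∃ C : ℝ, 0 ≤ C ∧ ∀ z : ℂ, z.re = x → ‖q z‖ ≤ C * Real.exp (2 * |z.im|) := by
    intro x hx
    refine q_bound' x ?_ ?_
    · refine abs_sin_pos ?_ ?_
      · rcases hx with rfl | rfl | rfl
        · simpa using hl.ne'
        · exact abs_pos.2 (by linarith)
        · exact abs_pos.2 (by linarith)
      · rw [abs_lt]
        rcases hx with rfl | rfl | rfl <;> constructor <;> linarith
    · refine abs_sin_pos ?_ ?_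
      · rcases hx with rfl | rfl | rfl
        · simpa using hl.ne'
        · exact abs_pos.2 (by linarith)
        · exact abs_pos.2 (by linarith)
      · rw [abs_lt]
        rcases hx with rfl | rfl | rfl <;> constructor <;> linarith
  have hq1 : ∀ z : ℂ, ‖q1 z‖ ≤ 1 * Real.exp (2 * (2 * |z.im|)) := by
    intro z
    have h := (q1_bound z).trans (cosh_pow_le z.im 4)
    rw [one_mul]
    refine h.trans (le_of_eq ?_)
    push_cast
    ring_nf
  have hq1n : ∀ z : ℂ, ‖q1 (-z)‖ ≤ 1 * Real.exp (2 * (2 * |z.im|)) := by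
    intro z
    have h := hq1 (-z)
    rwa [neg_im, abs_neg] at h
  have hq2 : ∀ z : ℂ, ‖q2 z‖ ≤ 1 * Real.exp (2 * (4 * |z.im|)) := by
    intro z
    have h := (q2_bound z).trans (cosh_pow_le z.im 8)
    rw [one_mul]
    refine h.trans (le_of_eq ?_)
    push_cast
    ring_nf
  cases k <;> cases k'
  · obtain ⟨C, hC, h⟩ := hq (rl α β .A - rl α β .A) (by simp)
    refine ⟨C, hC, fun z hz => (h z hz).trans (le_of_eq ?_)⟩
    simp [chg]
  · obtain ⟨C, hC, h⟩ := hq (rl α β .A - rl α β .L) (by simp [rl])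
    refine ⟨C, hC, fun z hz => (h z hz).trans (le_of_eq ?_)⟩
    simp [chg]
  · refine ⟨1, zero_le_one, fun z _ => (hq1 z).trans (le_of_eq ?_)⟩
    simp [chg]
  · obtain ⟨C, hC, h⟩ := hq (rl α β .L - rl α β .A) (by simp [rl])
    refine ⟨C, hC, fun z hz => (h z hz).trans (le_of_eq ?_)⟩
    simp [chg]
  · obtain ⟨C, hC, h⟩ := hq (rl α β .L - rl α β .L) (by simp)
    refine ⟨C, hC, fun z hz => (h z hz).trans (le_of_eq ?_)⟩
    simp [chg]
  · refine ⟨1, zero_le_one, fun z _ => (hq1 z).trans (le_of_eq ?_)⟩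
    simp [chg]
  · refine ⟨1, zero_le_one, fun z _ => (hq1n z).trans (le_of_eq ?_)⟩
    simp [chg]
  · refine ⟨1, zero_le_one, fun z _ => (hq1n z).trans (le_of_eq ?_)⟩
    simp [chg]
  · refine ⟨1, zero_le_one, fun z _ => (hq2 z).trans (le_of_eq ?_)⟩
    simp only [chg]
    push_cast
    ring_nf

theorem mul_bound {f g : ℂ → ℂ} {x : ℝ} {y : ℝ} {C D a b : ℝ} (hC : 0 ≤ C)
    (hf : ∀ z : ℂ, z.re = x → ‖f z‖ ≤ C * Real.exp (-(a * |z.im|)))
    (hg : ∀ z : ℂ, z.re = x + y → ‖g z‖ ≤ D * Real.exp (-(b * |z.im|))) :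
    ∀ z : ℂ, z.re = x → ‖f z * g (z + y)‖ ≤ C * D * Real.exp (-((a + b) * |z.im|)) := by
  intro z hz
  have h1 := hf z hz
  have h2 := hg (z + y) (by rw [add_re, ofReal_re, hz])
  rw [add_im, ofReal_im, add_zero] at h2
  rw [norm_mul]
  calc _ ≤ (C * Real.exp (-(a * |z.im|))) * (D * Real.exp (-(b * |z.im|))) :=
        mul_le_mul h1 h2 (norm_nonneg _) (by positivity)
    _ = _ := by
        rw [show -((a + b) * |z.im|) = -(a * |z.im|) + -(b * |z.im|) by ring, Real.exp_add]
        ring

theorem cwz_bound {α β : ℝ} (h1 : l < α - β) (h2 : α - β < 3 * l) (k k' : Ob) :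
    ∃ C : ℝ, 0 ≤ C ∧ ∀ z : ℂ, z.re = rl α β k - rl α β k' →
      ‖cwz k k' z‖ ≤ C * Real.exp (-(2 * (chg k * chg k' * |z.im|))) := by
  have hl := l_pos
  have two : ∀ (x y : ℝ), |x| < 3 * l → |x + y| < 3 * l →
      ∃ C : ℝ, 0 ≤ C ∧ ∀ z : ℂ, z.re = x → ‖qg z * qg (z + y)‖ ≤
        C * Real.exp (-(2 * (2 * |z.im|))) := by
    intro x y hx hy
    obtain ⟨C, hC, hf⟩ := qg_bound' x hx
    obtain ⟨D, hD, hg⟩ := qg_bound' (x + y) hy
    refine ⟨C * D, mul_nonneg hC hD, fun z hz => ?_⟩
    have := mul_bound (a := 2) (b := 2) hC hf hg z hz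
    refine this.trans (le_of_eq ?_)
    ring_nf
  have twop : ∀ x : ℝ, |x| < 3 * l → |x + l| < 3 * l →
      ∃ C : ℝ, 0 ≤ C ∧ ∀ z : ℂ, z.re = x → ‖qg z * qg (z + l)‖ ≤
        C * Real.exp (-(2 * (2 * |z.im|))) := fun x hx hy => two x l hx hy
  have twom : ∀ x : ℝ, |x| < 3 * l → |x - l| < 3 * l →
      ∃ C : ℝ, 0 ≤ C ∧ ∀ z : ℂ, z.re = x → ‖qg z * qg (z - l)‖ ≤
        C * Real.exp (-(2 * (2 * |z.im|))) := by
    intro x hx hy
    obtain ⟨C, hC, h⟩ := two x (-l) hx (by rwa [← sub_eq_add_neg])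
    refine ⟨C, hC, fun z hz => ?_⟩
    have := h z hz
    rwa [ofReal_neg, ← sub_eq_add_neg] at this
  cases k <;> cases k'
  · obtain ⟨C, hC, h⟩ := qg_bound' (rl α β .A - rl α β .A) (by simp [hl])
    refine ⟨C, hC, fun z hz => (h z hz).trans (le_of_eq ?_)⟩
    simp [chg]
  · obtain ⟨C, hC, h⟩ := qg_bound' (rl α β .A - rl α β .L) (by
      simp only [rl]
      rw [abs_lt]
      constructor <;> linarith)
    refine ⟨C, hC, fun z hz => (h z hz).trans (le_of_eq ?_)⟩
    simp [chg]
  · obtain ⟨C, hC, h⟩ := twop (rl α β .A - rl α β .S) (by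
      simp only [rl]
      rw [abs_lt]
      constructor <;> linarith) (by
      simp only [rl]
      rw [abs_lt]
      constructor <;> linarith)
    refine ⟨C, hC, fun z hz => (h z hz).trans (le_of_eq ?_)⟩
    simp [chg]
  · obtain ⟨C, hC, h⟩ := qg_bound' (rl α β .L - rl α β .A) (by
      simp only [rl]
      rw [abs_lt]
      constructor <;> linarith)
    refine ⟨C, hC, fun z hz => (h z hz).trans (le_of_eq ?_)⟩
    simp [chg]
  · obtain ⟨C, hC, h⟩ := qg_bound' (rl α β .L - rl α β .L) (by simp [hl])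
    refine ⟨C, hC, fun z hz => (h z hz).trans (le_of_eq ?_)⟩
    simp [chg]
  · obtain ⟨C, hC, h⟩ := twop (rl α β .L - rl α β .S) (by
      simp only [rl]
      rw [abs_lt]
      constructor <;> linarith) (by
      simp only [rl]
      rw [abs_lt]
      constructor <;> linarith)
    refine ⟨C, hC, fun z hz => (h z hz).trans (le_of_eq ?_)⟩
    simp [chg]
  · obtain ⟨C, hC, h⟩ := twom (rl α β .S - rl α β .A) (by
      simp only [rl]
      rw [abs_lt]
      constructor <;> linarith) (by
      simp only [rl]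
      rw [abs_lt]
      constructor <;> linarith)
    refine ⟨C, hC, fun z hz => (h z hz).trans (le_of_eq ?_)⟩
    simp [chg]
  · obtain ⟨C, hC, h⟩ := twom (rl α β .S - rl α β .L) (by
      simp only [rl]
      rw [abs_lt]
      constructor <;> linarith) (by
      simp only [rl]
      rw [abs_lt]
      constructor <;> linarith)
    refine ⟨C, hC, fun z hz => (h z hz).trans (le_of_eq ?_)⟩
    simp [chg]
  · obtain ⟨C, hC, h⟩ := twop (rl α β .S - rl α β .S) (by simp [hl]) (by
      simp only [sub_self, zero_add]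
      rw [abs_of_pos hl]
      linarith)
    obtain ⟨D, hD, h'⟩ := twom (rl α β .S - rl α β .S) (by simp [hl]) (by
      simp only [sub_self, zero_sub, abs_neg]
      rw [abs_of_pos hl]
      linarith)
    refine ⟨C * D, mul_nonneg hC hD, fun z hz => ?_⟩
    have e : cwz .S .S z = (qg z * qg (z + l)) * (qg z * qg (z - l)) := by
      simp only [cwz]
      ring
    rw [e, norm_mul]
    calc _ ≤ (C * Real.exp (-(2 * (2 * |z.im|)))) * (D * Real.exp (-(2 * (2 * |z.im|)))) :=
          mul_le_mul (h z hz) (h' z hz) (norm_nonneg _) (by positivity)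
      _ = C * D * Real.exp (-(2 * (2 * |z.im|)) + -(2 * (2 * |z.im|))) := by
          rw [Real.exp_add]
          ring
      _ = _ := by
          simp only [chg]
          push_cast
          ring_nf

/-- one constant for all kinds -/
theorem pw_bounds {α β : ℝ} (h1 : l < α - β) (h2 : α - β < 3 * l) :
    ∃ C : ℝ, 1 ≤ C ∧ (∀ (k k' : Ob) (z : ℂ), z.re = rl α β k - rl α β k' →
      ‖pwz k k' z‖ ≤ C * Real.exp (2 * (chg k * chg k' * |z.im|))) ∧
      ∀ (k k' : Ob) (z : ℂ), z.re = rl α β k - rl α β k' →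
      ‖cwz k k' z‖ ≤ C * Real.exp (-(2 * (chg k * chg k' * |z.im|))) := by
  choose C hC h using fun k k' => pwz_bound h1 h2 k k'
  choose D hD h' using fun k k' => cwz_bound h1 h2 k k'
  have s0 : ∀ k, 0 ≤ ∑ k', (C k k' + D k k') := fun k =>
    Finset.sum_nonneg fun k' _ => add_nonneg (hC k k') (hD k k')
  have s1 : ∀ k k', C k k' + D k k' ≤ 1 + ∑ k, ∑ k', (C k k' + D k k') := by
    intro k k'
    have a1 : C k k' + D k k' ≤ ∑ k', (C k k' + D k k') :=
      Finset.single_le_sum (f := fun k' => C k k' + D k k')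
        (fun k' _ => add_nonneg (hC k k') (hD k k')) (Finset.mem_univ k')
    have a2 : ∑ k', (C k k' + D k k') ≤ ∑ k, ∑ k', (C k k' + D k k') :=
      Finset.single_le_sum (f := fun k => ∑ k', (C k k' + D k k')) (fun k _ => s0 k)
        (Finset.mem_univ k)
    linarith
  refine ⟨1 + ∑ k, ∑ k', (C k k' + D k k'), ?_, fun k k' z hz => ?_, fun k k' z hz => ?_⟩
  · have := Finset.sum_nonneg fun k (_ : k ∈ Finset.univ) => s0 k
    linarith
  · refine (h k k' z hz).trans (mul_le_mul_of_nonneg_right ?_ (Real.exp_pos _).le)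
    linarith [s1 k k', hD k k']
  · refine (h' k k' z hz).trans (mul_le_mul_of_nonneg_right ?_ (Real.exp_pos _).le)
    linarith [s1 k k', hC k k']

/-! ## products over pairs -/

theorem sum_lt {r : ℕ} (x : Fin r → Fin r → ℝ) (hxs : ∀ a b, x a b = x b a)
    (hx0 : ∀ a, x a a = 0) :
    ∑ a, ∑ b, (if a < b then 2 * x a b else 0) = ∑ a, ∑ b, x a b := by
  have e1 : ∀ a b, x a b = (if a < b then x a b else 0) + (if b < a then x b a else 0) := by
    intro a b
    rcases lt_trichotomy a b with h | h | h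
    · rw [if_pos h, if_neg (not_lt.2 h.le), add_zero]
    · subst h
      rw [if_neg (lt_irrefl _), add_zero, hx0]
    · rw [if_neg (not_lt.2 h.le), if_pos h, zero_add, hxs]
  have e2 : ∑ a, ∑ b, x a b = ∑ a, ∑ b, (if a < b then x a b else 0) +
      ∑ a, ∑ b, (if b < a then x b a else 0) := by
    rw [← Finset.sum_add_distrib]
    refine Finset.sum_congr rfl fun a _ => ?_
    rw [← Finset.sum_add_distrib]
    exact Finset.sum_congr rfl fun b _ => e1 a b
  rw [e2, Finset.sum_comm (f := fun a b => if b < a then x b a else 0), ← two_mul, Finset.mul_sum]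
  refine Finset.sum_congr rfl fun a _ => ?_
  rw [Finset.mul_sum]
  refine Finset.sum_congr rfl fun b _ => ?_
  split_ifs <;> simp

theorem P_norm_le {r : ℕ} (f : Fin r → Fin r → ℂ) (x : Fin r → Fin r → ℝ)
    (hxs : ∀ a b, x a b = x b a) (hx0 : ∀ a, x a a = 0) {C : ℝ} (hC : 1 ≤ C)
    (h : ∀ a b, ‖f a b‖ ≤ C * Real.exp (2 * x a b)) :
    ‖Grand.P f‖ ≤ C ^ (r * r) * Real.exp (∑ a, ∑ b, x a b) := by
  have hC0 : 0 ≤ C := zero_le_one.trans hC
  unfold Grand.P
  rw [norm_prod]
  simp_rw [norm_prod]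
  calc _ ≤ ∏ a : Fin r, ∏ b : Fin r, (C * Real.exp (if a < b then 2 * x a b else 0)) := by
        refine Finset.prod_le_prod (fun a _ => Finset.prod_nonneg fun b _ => norm_nonneg _)
          fun a _ => Finset.prod_le_prod (fun b _ => norm_nonneg _) fun b _ => ?_
        split_ifs
        · exact h a b
        · rw [norm_one, Real.exp_zero, mul_one]
          exact hC
    _ = C ^ (r * r) * Real.exp (∑ a, ∑ b, x a b) := by
        simp_rw [Finset.prod_mul_distrib, ← Real.exp_sum, Finset.prod_const, Finset.card_univ,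
          Fintype.card_fin]
        rw [← pow_mul, sum_lt x hxs hx0]

theorem measurable_P {X : Type*} [MeasurableSpace X] {r : ℕ} (f : Fin r → Fin r → X → ℂ)
    (h : ∀ a b, Measurable (f a b)) : Measurable fun x => Grand.P fun a b => f a b x := by
  unfold Grand.P
  refine Finset.measurable_prod _ fun a _ => Finset.measurable_prod _ fun b _ => ?_
  split_ifs
  · exact h a b
  · exact measurable_const

/-! ## integrability -/

theorem integrable_exp_neg_abs {κ : ℝ} (hκ : 0 < κ) :
    Integrable (fun t : ℝ => Real.exp (-(κ * |t|))) := by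
  have h1 : IntegrableOn (fun t : ℝ => Real.exp (-(κ * |t|))) (Set.Ioi 0) := by
    refine (integrableOn_exp_mul_Ioi (neg_lt_zero.2 hκ) 0).congr_fun (fun t ht => ?_)
      measurableSet_Ioi
    simp only [Set.mem_Ioi] at ht
    rw [abs_of_pos ht]
    ring_nf
  have h2 : IntegrableOn (fun t : ℝ => Real.exp (-(κ * |t|))) (Set.Iic 0) := by
    refine (integrableOn_exp_mul_Iic hκ 0).congr_fun (fun t ht => ?_)
      measurableSet_Iic
    simp only [Set.mem_Iic] at ht
    rw [abs_of_nonpos ht]
    ring_nf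
  have h3 := h2.union h1
  rwa [Set.Iic_union_Ioi, integrableOn_univ] at h3

theorem integrable_prod_exp {r : ℕ} (κ : Fin r → ℝ) (hκ : ∀ i, 0 < κ i) :
    Integrable (fun t : Fin r → ℝ => ∏ i, Real.exp (-(κ i * |t i|)))
      (Measure.pi fun _ => volume) :=
  Integrable.fintype_prod (f := fun i t => Real.exp (-(κ i * |t|)))
    fun i => integrable_exp_neg_abs (hκ i)

/-- energy of the charges -/
def en {r : ℕ} (k : Fin r → Ob) (t : Fin r → ℝ) : ℝ :=
  ∑ a, ∑ b, (chg (k a) * chg (k b) * |t a - t b| : ℝ)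

theorem f_norm_le {α β : ℝ} {C : ℝ} (hC : 1 ≤ C)
    (hp : ∀ (k k' : Ob) (z : ℂ), z.re = rl α β k - rl α β k' →
      ‖pwz k k' z‖ ≤ C * Real.exp (2 * (chg k * chg k' * |z.im|)))
    {D κ : ℝ} (h : Ob → ℝ → ℂ) (hh : ∀ k t, ‖h k t‖ ≤ D * Real.exp (-(κ * chg k * |t|)))
    {r : ℕ} (k : Fin r → Ob) (t : Fin r → ℝ) :
    ‖Grand.f (pw α β) k h t‖ ≤ D ^ r * C ^ (r * r) *
      ((∏ i, Real.exp (-(κ * chg (k i) * |t i|))) * Real.exp (en k t)) := by
  unfold Grand.f
  rw [norm_mul, norm_prod]
  have h1 : ∏ i, ‖h (k i) (t i)‖ ≤ D ^ r * ∏ i, Real.exp (-(κ * chg (k i) * |t i|)) := by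
    calc _ ≤ ∏ i : Fin r, (D * Real.exp (-(κ * chg (k i) * |t i|))) :=
          Finset.prod_le_prod (fun i _ => norm_nonneg _) fun i _ => hh _ _
      _ = _ := by
          rw [Finset.prod_mul_distrib, Finset.prod_const, Finset.card_univ, Fintype.card_fin]
  have h2 : ‖Grand.P (fun i j => pw α β (k i) (k j) (t i) (t j))‖ ≤
      C ^ (r * r) * Real.exp (en k t) := by
    refine P_norm_le _ (fun a b => (chg (k a) * chg (k b) * |t a - t b| : ℝ)) ?_ ?_ hC ?_
    · intro a b
      rw [abs_sub_comm]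
      ring
    · intro a
      simp
    · intro a b
      have := hp (k a) (k b) (pt α β (k a) (t a) - pt α β (k b) (t b)) (by
        rw [sub_re, pt_re, pt_re])
      rwa [sub_im, pt_im, pt_im] at this
  calc _ ≤ (D ^ r * ∏ i, Real.exp (-(κ * chg (k i) * |t i|))) *
        (C ^ (r * r) * Real.exp (en k t)) :=
        mul_le_mul h1 h2 (norm_nonneg _)
          ((Finset.prod_nonneg fun i _ => norm_nonneg _).trans h1)
    _ = _ := by ring

theorem en_le {r : ℕ} (k : Fin r → Ob) (t : Fin r → ℝ) {n : ℕ} (hn : ∑ i, chg (k i) = n) :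
    en k t ≤ ∑ a, 2 * ((n : ℝ) - 1) * chg (k a) * |t a| := by
  have hn' : ∑ i, (chg (k i) : ℝ) = n := by exact_mod_cast hn
  have h1 : en k t ≤ ∑ a, ∑ b, (if a = b then 0 else
      (chg (k a) * chg (k b) * |t a| + chg (k a) * chg (k b) * |t b| : ℝ)) := by
    refine Finset.sum_le_sum fun a _ => Finset.sum_le_sum fun b _ => ?_
    split_ifs with hab
    · subst hab
      simp
    · rw [← mul_add]
      exact mul_le_mul_of_nonneg_left (abs_sub _ _) (by positivity)
  have h2 : ∑ a, ∑ b, (if a = b then 0 else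
      (chg (k a) * chg (k b) * |t a| + chg (k a) * chg (k b) * |t b| : ℝ)) =
      ∑ a, (2 * ((n : ℝ) - chg (k a)) * chg (k a) * |t a|) := by
    have e1 : ∀ a b, (if a = b then 0 else
        (chg (k a) * chg (k b) * |t a| + chg (k a) * chg (k b) * |t b| : ℝ)) =
        (if a = b then 0 else (chg (k a) * chg (k b) * |t a| : ℝ)) +
        (if b = a then 0 else (chg (k b) * chg (k a) * |t b| : ℝ)) := by
      intro a b
      by_cases hab : a = b
      · subst hab
        simp
      · rw [if_neg hab, if_neg hab, if_neg (Ne.symm hab)]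
        ring
    simp_rw [e1, Finset.sum_add_distrib]
    rw [Finset.sum_comm (f := fun a b => if b = a then 0 else (chg (k b) * chg (k a) * |t b| : ℝ)),
      ← two_mul, Finset.mul_sum]
    refine Finset.sum_congr rfl fun a _ => ?_
    have e2 : ∑ b, (if a = b then 0 else (chg (k a) * chg (k b) * |t a| : ℝ)) =
        ∑ b, (chg (k a) * chg (k b) * |t a| : ℝ) - chg (k a) * chg (k a) * |t a| := by
      rw [eq_sub_iff_add_eq]
      have e4 : (chg (k a) * chg (k a) * |t a| : ℝ) =
          ∑ b, (if a = b then (chg (k a) * chg (k b) * |t a| : ℝ) else 0) := by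
        rw [Finset.sum_ite_eq]
        simp
      rw [e4, ← Finset.sum_add_distrib]
      refine Finset.sum_congr rfl fun b _ => ?_
      split_ifs <;> simp
    rw [e2]
    have e3 : ∑ b, (chg (k a) * chg (k b) * |t a| : ℝ) = n * (chg (k a) * |t a|) := by
      rw [← hn', Finset.sum_mul]
      refine Finset.sum_congr rfl fun b _ => ?_
      ring
    rw [e3]
    ring
  refine (h1.trans (le_of_eq h2)).trans (Finset.sum_le_sum fun a _ => ?_)
  have h3 : (1 : ℝ) ≤ chg (k a) := by exact_mod_cast chg_pos (k a)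
  have h4 : 0 ≤ (chg (k a) : ℝ) * |t a| := by positivity
  nlinarith

/-- Integrability for one species. -/
theorem integrable_f {α β : ℝ} (h1 : l < α - β) (h2 : α - β < 3 * l) {n : ℕ} {D κ : ℝ}
    (hκ : 2 * ((n : ℝ) - 1) < κ) (h : Ob → ℝ → ℂ) (hm : ∀ k, Measurable (h k))
    (hh : ∀ k t, ‖h k t‖ ≤ D * Real.exp (-(κ * chg k * |t|)))
    {r : ℕ} (k : Fin r → Ob) (hk : ∑ i, chg (k i) = n) :
    Integrable (Grand.f (pw α β) k h) (Measure.pi fun _ => volume) := by
  obtain ⟨C, hC, hp, -⟩ := pw_bounds h1 h2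
  have hD : 0 ≤ D := by
    have := (norm_nonneg _).trans (hh .A 0)
    simpa using this
  set c : Fin r → ℝ := fun i => (κ - 2 * ((n : ℝ) - 1)) * chg (k i) with hc
  have hc0 : ∀ i, 0 < c i := fun i =>
    mul_pos (by linarith) (by exact_mod_cast chg_pos (k i))
  have hint := (integrable_prod_exp c hc0).const_mul (D ^ r * C ^ (r * r))
  refine hint.mono' ?_ (Filter.Eventually.of_forall fun t => ?_)
  · refine Measurable.aestronglyMeasurable ?_
    unfold Grand.f
    refine Measurable.mul ?_ ?_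
    · exact Finset.measurable_prod _ fun i _ => (hm (k i)).comp (measurable_pi_apply i)
    · refine measurable_P (fun i j (t : Fin r → ℝ) => pw α β (k i) (k j) (t i) (t j)) ?_
      intro i j
      unfold pw
      exact (measurable_pwz _ _).comp (((measurable_pt α β _).comp (measurable_pi_apply i)).sub
        ((measurable_pt α β _).comp (measurable_pi_apply j)))
  · refine (f_norm_le hC hp h hh k t).trans ?_
    refine mul_le_mul_of_nonneg_left ?_ (by positivity)
    rw [← Real.exp_sum, ← Real.exp_sum, ← Real.exp_add]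
    refine Real.exp_le_exp.2 ?_
    have := en_le k t hk
    calc _ ≤ ∑ i, -(κ * chg (k i) * |t i|) + ∑ a, 2 * ((n : ℝ) - 1) * chg (k a) * |t a| := by
          linarith
      _ = _ := by
          rw [← Finset.sum_add_distrib]
          refine Finset.sum_congr rfl fun i _ => ?_
          rw [hc]
          ring

theorem measurable_one {G : ℂ → ℂ} (hm : Measurable G) (k : Ob) : Measurable (one G k) := by
  cases k
  · exact hm
  · exact hm
  · exact hm.mul (hm.comp (measurable_id.sub_const _))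

theorem measurable_oneL (α β : ℝ) {G : ℂ → ℂ} (hm : Measurable G) (k : Ob) :
    Measurable (oneL α β G k) :=
  (measurable_one hm k).comp (measurable_pt α β k)

theorem oneL_bound {α β : ℝ} {D κ : ℝ} {G : ℂ → ℂ}
    (hG : ∀ z : ℂ, (z.re = α ∨ z.re = β ∨ z.re = β + l) → ‖G z‖ ≤ D * Real.exp (-(κ * |z.im|)))
    (k : Ob) (t : ℝ) :
    ‖oneL α β G k t‖ ≤ (D + D ^ 2) * Real.exp (-(κ * chg k * |t|)) := by
  have hD : 0 ≤ D := by
    have h0 : (vl α 0).re = α := by simp [vl]
    have h0' : (vl α 0).im = 0 := by simp [vl]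
    have := (norm_nonneg _).trans (hG (vl α 0) (Or.inl h0))
    rw [h0'] at this
    simpa using this
  have e1 : ∀ x : ℝ, 0 ≤ Real.exp x := fun x => (Real.exp_pos x).le
  cases k
  · have := hG (pt α β .A t) (by rw [pt_re]; simp [rl])
    rw [pt_im] at this
    refine this.trans ?_
    simp only [chg, Nat.cast_one, mul_one]
    exact mul_le_mul_of_nonneg_right (by nlinarith) (e1 _)
  · have := hG (pt α β .L t) (by rw [pt_re]; simp [rl])
    rw [pt_im] at this
    refine this.trans ?_
    simp only [chg, Nat.cast_one, mul_one]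
    exact mul_le_mul_of_nonneg_right (by nlinarith) (e1 _)
  · have g1 := hG (pt α β .S t) (by rw [pt_re]; simp [rl])
    have g2 := hG (pt α β .S t - l) (by rw [sub_re, ofReal_re, pt_re]; simp [rl])
    rw [pt_im] at g1
    rw [sub_im, ofReal_im, sub_zero, pt_im] at g2
    unfold oneL one
    rw [norm_mul]
    calc _ ≤ (D * Real.exp (-(κ * |t|))) * (D * Real.exp (-(κ * |t|))) :=
          mul_le_mul g1 g2 (norm_nonneg _) (mul_nonneg hD (e1 _))
      _ = D ^ 2 * Real.exp (-(κ * chg .S * |t|)) := by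
          rw [show -(κ * chg .S * |t|) = -(κ * |t|) + -(κ * |t|) by
            simp only [chg]
            push_cast
            ring, Real.exp_add]
          ring
      _ ≤ _ := mul_le_mul_of_nonneg_right (by nlinarith) (e1 _)

/-- The contour side in closed form, for one body functions with enough decay. -/
theorem K_closed {α β : ℝ} (h1 : l < α - β) (h2 : α - β < 3 * l) {n : ℕ} {D κ : ℝ}
    (hκ : 2 * ((n : ℝ) - 1) < κ) {G : ℂ → ℂ} (hm : Measurable G)
    (hG : ∀ z : ℂ, (z.re = α ∨ z.re = β ∨ z.re = β + l) → ‖G z‖ ≤ D * Real.exp (-(κ * |z.im|))) :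
    K α β n G = Grand.Z volume chg wt (pw α β) n (oneL α β G) :=
  K_eq_Z α β n G fun _ k hk => integrable_f h1 h2 hκ _ (measurable_oneL α β hm)
    (oneL_bound hG) k hk

end NUP1.Bd

end
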