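import Mathlib

/-!
# The one dimensional Coulomb energy of a neutral family is not positive
-/

set_option autoImplicit false

namespace NUP1.Bd

open MeasureTheory Set

/-- step function -/
noncomputable def stp (x r : ℝ) : ℝ := if r < x then 1 else 0

theorem stp_sq_sub (x y r : ℝ) : (stp x r - stp y r) ^ 2 = stp x r + stp y r - 2 * (stp x r * stp y r) := by
  unfold stp
  split_ifs <;> norm_num

theorem stp_diff {x y : ℝ} (r : ℝ) (h : x ≤ y) :
    (stp x r - stp y r) ^ 2 = indicator (Ico x y) (fun _ => (1 : ℝ)) r := by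
  unfold stp
  by_cases h1 : r < x
  · have h2 : r < y := lt_of_lt_of_le h1 h
    have h3 : r ∉ Ico x y := fun hh => absurd hh.1 (not_le.2 h1)
    simp [h1, h2, h3]
  · by_cases h2 : r < y
    · have h3 : r ∈ Ico x y := ⟨not_lt.1 h1, h2⟩
      simp [h1, h2, h3]
    · have h3 : r ∉ Ico x y := fun hh => absurd hh.2 h2
      simp [h1, h2, h3]

theorem integral_stp (x y : ℝ) : ∫ r, (stp x r - stp y r) ^ 2 = |x - y| := by
  rcases le_total x y with h | h
  · simp_rw [stp_diff _ h]
    rw [integral_indicator measurableSet_Ico, setIntegral_const, Measure.real, Real.volume_Ico,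
      ENNReal.toReal_ofReal (by linarith), abs_of_nonpos (by linarith)]
    simp
  · have e : ∀ r, (stp x r - stp y r) ^ 2 = (stp y r - stp x r) ^ 2 := fun r => by ring
    simp_rw [e, stp_diff _ h]
    rw [integral_indicator measurableSet_Ico, setIntegral_const, Measure.real, Real.volume_Ico,
      ENNReal.toReal_ofReal (by linarith), abs_of_nonneg (by linarith)]
    simp

theorem integrable_stp (x y : ℝ) : Integrable (fun r => (stp x r - stp y r) ^ 2) := by
  rcases le_total x y with h | h
  · have e : (fun r => (stp x r - stp y r) ^ 2) = indicator (Ico x y) (fun _ => (1 : ℝ)) :=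
      funext fun r => stp_diff r h
    rw [e]
    exact (integrable_indicator_iff measurableSet_Ico).2
      (integrableOn_const (by simp))
  · have e : (fun r => (stp x r - stp y r) ^ 2) = indicator (Ico y x) (fun _ => (1 : ℝ)) :=
      funext fun r => by
        rw [← stp_diff r h]
        ring
    rw [e]
    exact (integrable_indicator_iff measurableSet_Ico).2
      (integrableOn_const (by simp))

/-- The energy of a neutral family. -/
theorem energy_nonpos {ι : Type*} (s : Finset ι) (c t : ι → ℝ) (h : ∑ i ∈ s, c i = 0) :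
    ∑ i ∈ s, ∑ j ∈ s, c i * c j * |t i - t j| ≤ 0 := by
  have e1 : ∑ i ∈ s, ∑ j ∈ s, c i * c j * |t i - t j| =
      ∫ r, ∑ i ∈ s, ∑ j ∈ s, c i * c j * (stp (t i) r - stp (t j) r) ^ 2 := by
    rw [integral_finsetSum _ (fun i _ => integrable_finsetSum _
      (fun j _ => (integrable_stp (t i) (t j)).const_mul _))]
    refine Finset.sum_congr rfl fun i _ => ?_
    rw [integral_finsetSum _ (fun j _ => (integrable_stp (t i) (t j)).const_mul _)]
    refine Finset.sum_congr rfl fun j _ => ?_
    rw [integral_const_mul, integral_stp]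
  rw [e1]
  refine integral_nonpos fun r => ?_
  have e2 : ∀ i j, c i * c j * (stp (t i) r - stp (t j) r) ^ 2 =
      (c i * stp (t i) r) * c j + c i * (c j * stp (t j) r) -
        2 * ((c i * stp (t i) r) * (c j * stp (t j) r)) := fun i j => by
    rw [stp_sq_sub]
    ring
  show ∑ i ∈ s, ∑ j ∈ s, c i * c j * (stp (t i) r - stp (t j) r) ^ 2 ≤ 0
  simp_rw [e2, Finset.sum_sub_distrib, Finset.sum_add_distrib, ← Finset.mul_sum,
    ← Finset.sum_mul, h]
  have e3 : (∑ i ∈ s, ∑ j ∈ s, 2 * ((c i * stp (t i) r) * (c j * stp (t j) r))) =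
      2 * (∑ i ∈ s, c i * stp (t i) r) ^ 2 := by
    rw [pow_two, Finset.sum_mul_sum, Finset.mul_sum]
    refine Finset.sum_congr rfl fun i _ => ?_
    rw [Finset.mul_sum]
  nlinarith [sq_nonneg (∑ i ∈ s, c i * stp (t i) r), e3]

end NUP1.Bd
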