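import Pool.Agent.NUP1.Defs
import Pool.Agent.NUP1.Energy

/-!
# Bounds of the pair weights and one body weights on vertical lines
-/

set_option autoImplicit false

noncomputable section

open Complex MeasureTheory

namespace NUP1.Bd

/-! ## sine -/

theorem norm_sin_sq (z : ℂ) : ‖sin z‖ ^ 2 = Real.sin z.re ^ 2 + Real.sinh z.im ^ 2 := by
  have h : sin z = ((Real.sin z.re * Real.cosh z.im : ℝ) : ℂ) +
      ((Real.cos z.re * Real.sinh z.im : ℝ) : ℂ) * I := by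
    conv_lhs => rw [← re_add_im z, sin_add_mul_I]
    push_cast
    ring
  rw [h, ← normSq_eq_norm_sq, normSq_add_mul_I, mul_pow, mul_pow, Real.cosh_sq, Real.cos_sq']
  ring

theorem norm_cos_sq (z : ℂ) : ‖cos z‖ ^ 2 = Real.cos z.re ^ 2 + Real.sinh z.im ^ 2 := by
  have h : cos z = ((Real.cos z.re * Real.cosh z.im : ℝ) : ℂ) +
      ((-(Real.sin z.re * Real.sinh z.im) : ℝ) : ℂ) * I := by
    conv_lhs => rw [← re_add_im z, cos_add_mul_I]
    push_cast
    ring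
  rw [h, ← normSq_eq_norm_sq, normSq_add_mul_I, neg_sq, mul_pow, mul_pow, Real.cosh_sq,
    Real.sin_sq]
  ring

theorem norm_sin_le (z : ℂ) : ‖sin z‖ ≤ Real.cosh z.im := by
  refine le_of_sq_le_sq ?_ (Real.cosh_pos _).le
  rw [norm_sin_sq, Real.cosh_sq]
  nlinarith [Real.sin_sq_le_one z.re]

theorem norm_cos_le (z : ℂ) : ‖cos z‖ ≤ Real.cosh z.im := by
  refine le_of_sq_le_sq ?_ (Real.cosh_pos _).le
  rw [norm_cos_sq, Real.cosh_sq]
  nlinarith [Real.cos_sq_le_one z.re]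

theorem le_norm_sin (z : ℂ) : |Real.sin z.re| * Real.cosh z.im ≤ ‖sin z‖ := by
  refine le_of_sq_le_sq ?_ (norm_nonneg _)
  rw [norm_sin_sq, mul_pow, sq_abs, Real.cosh_sq]
  nlinarith [Real.sin_sq_le_one z.re, sq_nonneg (Real.sinh z.im)]

theorem cosh_le_exp (y : ℝ) : Real.cosh y ≤ Real.exp |y| := by
  rw [← Real.cosh_abs, Real.cosh_eq]
  have h : Real.exp (-|y|) ≤ Real.exp |y| := Real.exp_le_exp.2 (by linarith [abs_nonneg y])
  linarith

theorem exp_le_cosh (y : ℝ) : Real.exp |y| ≤ 2 * Real.cosh y := by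
  rw [← Real.cosh_abs, Real.cosh_eq]
  linarith [Real.exp_pos (-|y|)]

theorem norm_sin_le_exp (z : ℂ) : ‖sin z‖ ≤ Real.exp |z.im| :=
  (norm_sin_le z).trans (cosh_le_exp _)

theorem ofReal_l_re (k : ℝ) (z : ℂ) : (z + k).re = z.re + k ∧ (z + k).im = z.im := by
  simp

/-! ## pair weights of one species -/

theorem norm_sin_add_le (z : ℂ) (a : ℝ) : ‖sin (z + a)‖ ≤ Real.cosh z.im := by
  have := norm_sin_le (z + a)
  rwa [add_im, ofReal_im, add_zero] at this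

theorem norm_sin_sub_le (z : ℂ) (a : ℝ) : ‖sin (z - a)‖ ≤ Real.cosh z.im := by
  have := norm_sin_le (z - a)
  rwa [sub_im, ofReal_im, sub_zero] at this

theorem le_norm_sin_add (z : ℂ) (a : ℝ) :
    |Real.sin (z.re + a)| * Real.cosh z.im ≤ ‖sin (z + a)‖ := by
  have := le_norm_sin (z + a)
  rwa [add_im, ofReal_im, add_zero, add_re, ofReal_re] at this

theorem le_norm_sin_sub (z : ℂ) (a : ℝ) :
    |Real.sin (z.re - a)| * Real.cosh z.im ≤ ‖sin (z - a)‖ := by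
  have := le_norm_sin (z - a)
  rwa [sub_im, ofReal_im, sub_zero, sub_re, ofReal_re] at this

theorem q_bound (z : ℂ) {c : ℝ} (hc : 0 < c) (h1 : c ≤ |Real.sin (z.re + l)|)
    (h2 : c ≤ |Real.sin (z.re - l)|) : ‖q z‖ ≤ (c⁻¹) ^ 2 * Real.cosh z.im ^ 2 := by
  have hC := Real.cosh_pos z.im
  have hC0 := hC.le
  have e : ‖q z‖ = ‖sin z‖ ^ 2 * ‖sin (z + (2 * l : ℝ))‖ * ‖sin (z - (2 * l : ℝ))‖ /
      (‖sin (z + l)‖ * ‖sin (z - l)‖) := by
    simp only [q, norm_div, norm_neg, norm_mul, norm_pow]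
    push_cast
    rfl
  rw [e]
  have n1 : ‖sin z‖ ^ 2 * ‖sin (z + (2 * l : ℝ))‖ * ‖sin (z - (2 * l : ℝ))‖ ≤
      Real.cosh z.im ^ 2 * Real.cosh z.im * Real.cosh z.im := by
    gcongr
    · exact norm_sin_le z
    · exact norm_sin_add_le z _
    · exact norm_sin_sub_le z _
  have n2 : c * Real.cosh z.im * (c * Real.cosh z.im) ≤ ‖sin (z + l)‖ * ‖sin (z - l)‖ := by
    have a1 : c * Real.cosh z.im ≤ ‖sin (z + l)‖ :=
      (mul_le_mul_of_nonneg_right h1 hC0).trans (le_norm_sin_add z l)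
    have a2 : c * Real.cosh z.im ≤ ‖sin (z - l)‖ :=
      (mul_le_mul_of_nonneg_right h2 hC0).trans (le_norm_sin_sub z l)
    exact mul_le_mul a1 a2 (by positivity) (norm_nonneg _)
  refine (div_le_div₀ (by positivity) n1 (by positivity) n2).trans (le_of_eq ?_)
  field_simp

theorem q1_bound (z : ℂ) : ‖q1 z‖ ≤ Real.cosh z.im ^ 4 := by
  have hC0 := (Real.cosh_pos z.im).le
  have e : ‖q1 z‖ = ‖sin z‖ * ‖sin (z + l)‖ * ‖sin (z - (2 * l : ℝ))‖ *
      ‖sin (z + (3 * l : ℝ))‖ := by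
    simp only [q1, norm_mul]
    push_cast
    rfl
  rw [e]
  calc _ ≤ Real.cosh z.im * Real.cosh z.im * Real.cosh z.im * Real.cosh z.im := by
        gcongr
        · exact norm_sin_le z
        · exact norm_sin_add_le z _
        · exact norm_sin_sub_le z _
        · exact norm_sin_add_le z _
    _ = _ := by ring

theorem q2_bound (z : ℂ) : ‖q2 z‖ ≤ Real.cosh z.im ^ 8 := by
  have h1 := q1_bound z
  have h2 := q1_bound (z - l)
  rw [sub_im, ofReal_im, sub_zero] at h2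
  rw [q2, norm_mul]
  calc _ ≤ Real.cosh z.im ^ 4 * Real.cosh z.im ^ 4 :=
        mul_le_mul h1 h2 (norm_nonneg _) (by positivity)
    _ = _ := by ring

/-- pair weight of two quanta of different species -/
def qg (z : ℂ) : ℂ := cos z ^ 2 / (sin (z + 3 * l) ^ 2 * sin (z - 3 * l) ^ 2)

theorem qg_bound (z : ℂ) {c : ℝ} (hc : 0 < c) (h1 : c ≤ |Real.sin (z.re + 3 * l)|)
    (h2 : c ≤ |Real.sin (z.re - 3 * l)|) : ‖qg z‖ ≤ (c⁻¹) ^ 4 * (Real.cosh z.im ^ 2)⁻¹ := by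
  have hC := Real.cosh_pos z.im
  have hC0 := hC.le
  have e : ‖qg z‖ = ‖cos z‖ ^ 2 /
      (‖sin (z + (3 * l : ℝ))‖ ^ 2 * ‖sin (z - (3 * l : ℝ))‖ ^ 2) := by
    simp only [qg, norm_div, norm_mul, norm_pow]
    push_cast
    rfl
  rw [e]
  have n1 : ‖cos z‖ ^ 2 ≤ Real.cosh z.im ^ 2 := by
    gcongr
    exact norm_cos_le z
  have n2 : (c * Real.cosh z.im) ^ 2 * (c * Real.cosh z.im) ^ 2 ≤
      ‖sin (z + (3 * l : ℝ))‖ ^ 2 * ‖sin (z - (3 * l : ℝ))‖ ^ 2 := by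
    have a1 : c * Real.cosh z.im ≤ ‖sin (z + (3 * l : ℝ))‖ :=
      (mul_le_mul_of_nonneg_right h1 hC0).trans (le_norm_sin_add z (3 * l))
    have a2 : c * Real.cosh z.im ≤ ‖sin (z - (3 * l : ℝ))‖ :=
      (mul_le_mul_of_nonneg_right h2 hC0).trans (le_norm_sin_sub z (3 * l))
    exact mul_le_mul (pow_le_pow_left₀ (by positivity) a1 2)
      (pow_le_pow_left₀ (by positivity) a2 2) (by positivity) (by positivity)
  refine (div_le_div₀ (by positivity) n1 (by positivity) n2).trans (le_of_eq ?_)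
  field_simp

end NUP1.Bd

end
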