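import Mathlib

/-!
# Grand canonical sums of objects of several kinds: the closed form satisfies the recursion

`Z n h = ∑_r 1 / r! ∑_{k : Fin r → κ, ∑ chg = n} ∏ wt (k i) ∫ ∏ h (k i) (t i) ∏_{i<j} pw …`
-/

set_option autoImplicit false
set_option linter.unusedSectionVars false

noncomputable section

open MeasureTheory

namespace NUP1.Grand

/-- product over pairs -/
def P {n : ℕ} (f : Fin n → Fin n → ℂ) : ℂ := ∏ a, ∏ b, if a < b then f a b else 1

theorem P_zero (f : Fin 0 → Fin 0 → ℂ) : P f = 1 := by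
  simp [P]

theorem P_succAbove {n : ℕ} (f : Fin (n + 1) → Fin (n + 1) → ℂ) (hf : ∀ a b, f a b = f b a)
    (i : Fin (n + 1)) :
    P f = (∏ j, f (i.succAbove j) i) * P (fun a b => f (i.succAbove a) (i.succAbove b)) := by
  unfold P
  rw [Fin.prod_univ_succAbove _ i]
  simp_rw [Fin.prod_univ_succAbove _ i]
  rw [if_neg (lt_irrefl i), one_mul, Finset.prod_mul_distrib, ← mul_assoc,
    ← Finset.prod_mul_distrib]
  congr 1
  · refine Finset.prod_congr rfl fun j _ => ?_
    rcases lt_trichotomy i (i.succAbove j) with h | h | h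
    · rw [if_pos h, if_neg (not_lt.2 h.le), mul_one, hf]
    · exact absurd h.symm (Fin.succAbove_ne i j)
    · rw [if_neg (not_lt.2 h.le), if_pos h, one_mul]
  · refine Finset.prod_congr rfl fun a _ => Finset.prod_congr rfl fun b _ => ?_
    simp only [Fin.succAbove_lt_succAbove_iff]

variable {κ E : Type*} [Fintype κ] [DecidableEq κ] [MeasurableSpace E] (μ : Measure E)
  [SigmaFinite μ] (chg : κ → ℕ) (wt : κ → ℂ) (pw : κ → κ → E → E → ℂ)

/-- the integrand -/
def f {r : ℕ} (k : Fin r → κ) (h : κ → E → ℂ) (t : Fin r → E) : ℂ :=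
  (∏ i, h (k i) (t i)) * P (fun i j => pw (k i) (k j) (t i) (t j))

/-- the one body functions in the presence of an object -/
def add (h : κ → E → ℂ) (k0 : κ) (t0 : E) : κ → E → ℂ := fun k t => h k t * pw k k0 t t0

theorem f_insertNth {r : ℕ} (hsym : ∀ k k' t t', pw k k' t t' = pw k' k t' t)
    (k : Fin (r + 1) → κ) (h : κ → E → ℂ) (i : Fin (r + 1)) (t : Fin (r + 1) → E) :
    f pw k h t = h (k i) (t i) *
      f pw (fun j => k (i.succAbove j)) (add pw h (k i) (t i)) (fun j => t (i.succAbove j)) := by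
  unfold f add
  rw [Fin.prod_univ_succAbove _ i, P_succAbove _ (fun a b => hsym _ _ _ _) i,
    Finset.prod_mul_distrib]
  ring

/-- the integral -/
def I {r : ℕ} (k : Fin r → κ) (h : κ → E → ℂ) : ℂ :=
  ∫ t, f pw k h t ∂(Measure.pi fun _ => μ)

theorem fubini {r : ℕ} (hsym : ∀ k k' t t', pw k k' t t' = pw k' k t' t)
    (k : Fin (r + 1) → κ) (h : κ → E → ℂ) (i : Fin (r + 1))
    (hI : Integrable (f pw k h) (Measure.pi fun _ => μ)) :
    I μ pw k h = ∫ t0, h (k i) t0 * I μ pw (fun j => k (i.succAbove j)) (add pw h (k i) t0) ∂μ ∧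
    Integrable (fun t0 => h (k i) t0 *
      I μ pw (fun j => k (i.succAbove j)) (add pw h (k i) t0)) μ ∧
    ∀ᵐ t0 ∂μ, h (k i) t0 ≠ 0 →
      Integrable (f pw (fun j => k (i.succAbove j)) (add pw h (k i) t0))
        (Measure.pi fun _ => μ) := by
  have mp := (measurePreserving_piFinSuccAbove (fun _ : Fin (r + 1) => μ) i).symm
  have he : ∀ p : E × (Fin r → E),
      f pw k h ((MeasurableEquiv.piFinSuccAbove (fun _ => E) i).symm p) =
      h (k i) p.1 * f pw (fun j => k (i.succAbove j)) (add pw h (k i) p.1) p.2 := by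
    intro p
    rw [f_insertNth pw hsym k h i]
    simp [MeasurableEquiv.piFinSuccAbove_symm_apply, Fin.insertNthEquiv]
  have hI2 : Integrable (fun p : E × (Fin r → E) =>
      h (k i) p.1 * f pw (fun j => k (i.succAbove j)) (add pw h (k i) p.1) p.2)
      (μ.prod (Measure.pi fun _ => μ)) := by
    have := (mp.integrable_comp_emb (MeasurableEquiv.measurableEmbedding _)).2 hI
    refine this.congr (Filter.Eventually.of_forall fun p => ?_)
    exact he p
  refine ⟨?_, ?_, ?_⟩
  · unfold I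
    rw [← mp.integral_comp']
    simp_rw [he]
    rw [integral_prod _ hI2]
    simp_rw [integral_const_mul]
  · have := hI2.integral_prod_left
    simp_rw [integral_const_mul] at this
    exact this
  · filter_upwards [hI2.prod_right_ae] with t0 h0 hne
    have := h0.const_mul (h (k i) t0)⁻¹
    refine this.congr (Filter.Eventually.of_forall fun t => ?_)
    show (h (k i) t0)⁻¹ * (h (k i) t0 * _) = _
    rw [← mul_assoc, inv_mul_cancel₀ hne, one_mul]

/-- the closed form -/
def Z (n : ℕ) (h : κ → E → ℂ) : ℂ :=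
  ∑ r ∈ Finset.range (n + 1), ((r.factorial : ℕ) : ℂ)⁻¹ * ∑ k : Fin r → κ,
    if ∑ i, chg (k i) = n then (∏ i, wt (k i)) * I μ pw k h else 0

variable {chg}

theorem le_sum_chg (hc : ∀ k, 0 < chg k) {r : ℕ} (k : Fin r → κ) : r ≤ ∑ i, chg (k i) := by
  calc r = ∑ _i : Fin r, 1 := by simp
    _ ≤ _ := Finset.sum_le_sum fun i _ => hc (k i)

theorem Z_range (hc : ∀ k, 0 < chg k) {n N : ℕ} (hN : n + 1 ≤ N) (h : κ → E → ℂ) :
    Z μ chg wt pw n h = ∑ r ∈ Finset.range N, ((r.factorial : ℕ) : ℂ)⁻¹ * ∑ k : Fin r → κ,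
      if ∑ i, chg (k i) = n then (∏ i, wt (k i)) * I μ pw k h else 0 := by
  unfold Z
  refine Finset.sum_subset (Finset.range_mono hN) fun r _ hr => ?_
  rw [Finset.sum_eq_zero, mul_zero]
  intro k _
  rw [if_neg]
  intro h1
  have := le_sum_chg hc k
  rw [Finset.mem_range] at hr
  omega

theorem sum_insertNth {r : ℕ} (i : Fin (r + 1)) (F : (Fin (r + 1) → κ) → ℂ) :
    ∑ k, F k = ∑ k0 : κ, ∑ k' : Fin r → κ, F (i.insertNth k0 k') := by
  rw [← (Fin.insertNthEquiv (fun _ => κ) i).sum_comp, Fintype.sum_prod_type]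
  rfl

/-- The closed form satisfies the recursion. -/
theorem Z_rec (hc : ∀ k, 0 < chg k) (hsym : ∀ k k' t t', pw k k' t t' = pw k' k t' t)
    (n : ℕ) (h : κ → E → ℂ)
    (hI : ∀ (r : ℕ) (k : Fin r → κ), ∑ i, chg (k i) = n + 1 →
      Integrable (f pw k h) (Measure.pi fun _ => μ)) :
    ((n : ℂ) + 1) * Z μ chg wt pw (n + 1) h =
      ∑ k0, if chg k0 ≤ n + 1 then (chg k0 : ℂ) * wt k0 *
        ∫ t0, h k0 t0 * Z μ chg wt pw (n + 1 - chg k0) (add pw h k0 t0) ∂μ else 0 := by
  -- the common value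
  set G : ℕ → ℂ := fun r => ∑ k0 : κ, ∑ k' : Fin r → κ,
    if chg k0 + ∑ i, chg (k' i) = n + 1 then (chg k0 : ℂ) * (wt k0 * (∏ i, wt (k' i)) *
      ∫ t0, h k0 t0 * I μ pw k' (add pw h k0 t0) ∂μ) else 0 with hG
  have hcons : ∀ {r : ℕ} (k0 : κ) (k' : Fin r → κ), chg k0 + ∑ i, chg (k' i) = n + 1 →
      Integrable (fun t0 => h k0 t0 * I μ pw k' (add pw h k0 t0)) μ := by
    intro r k0 k' hk
    have h1 : ∑ j, chg ((Fin.insertNth (α := fun _ => κ) 0 k0 k') j) = n + 1 := by
      rw [Fin.sum_univ_succAbove _ 0]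
      simpa using hk
    have := (fubini μ pw hsym _ h 0 (hI _ _ h1)).2.1
    simpa using this
  have hstep : ∀ r : ℕ, ((n : ℂ) + 1) * (∑ k : Fin (r + 1) → κ,
      if ∑ i, chg (k i) = n + 1 then (∏ i, wt (k i)) * I μ pw k h else 0) =
      ((r : ℂ) + 1) * G r := by
    intro r
    have h1 : ((n : ℂ) + 1) * (∑ k : Fin (r + 1) → κ,
        if ∑ i, chg (k i) = n + 1 then (∏ i, wt (k i)) * I μ pw k h else 0) =
        ∑ i : Fin (r + 1), ∑ k : Fin (r + 1) → κ,
          if ∑ i, chg (k i) = n + 1 then (chg (k i) : ℂ) * ((∏ i, wt (k i)) * I μ pw k h)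
          else 0 := by
      rw [Finset.sum_comm, Finset.mul_sum]
      refine Finset.sum_congr rfl fun k _ => ?_
      split_ifs with hk
      · rw [← Finset.sum_mul, ← Nat.cast_sum, hk]
        push_cast
        ring
      · simp
    rw [h1]
    have h2 : ∀ i : Fin (r + 1), (∑ k : Fin (r + 1) → κ,
          if ∑ i, chg (k i) = n + 1 then (chg (k i) : ℂ) * ((∏ i, wt (k i)) * I μ pw k h)
          else 0) = G r := by
      intro i
      rw [sum_insertNth i, hG]
      refine Finset.sum_congr rfl fun k0 _ => Finset.sum_congr rfl fun k' _ => ?_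
      have e1 : ∑ j, chg ((Fin.insertNth (α := fun _ => κ) i k0 k') j) =
          chg k0 + ∑ j, chg (k' j) := by
        rw [Fin.sum_univ_succAbove _ i]
        simp
      by_cases hk : chg k0 + ∑ j, chg (k' j) = n + 1
      · rw [if_pos (e1.trans hk), if_pos hk]
        have h3 := (fubini μ pw hsym _ h i (hI _ _ (e1.trans hk))).1
        rw [h3, Fin.prod_univ_succAbove _ i]
        simp
      · rw [if_neg (fun hh => hk (e1.symm.trans hh)), if_neg hk]
    simp_rw [h2]
    simp
  have hL : ((n : ℂ) + 1) * Z μ chg wt pw (n + 1) h =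
      ∑ r ∈ Finset.range (n + 1), ((r.factorial : ℕ) : ℂ)⁻¹ * G r := by
    unfold Z
    rw [Finset.sum_range_succ', mul_add, Finset.mul_sum]
    have h0 : (∑ k : Fin 0 → κ,
        if ∑ i, chg (k i) = n + 1 then (∏ i, wt (k i)) * I μ pw k h else 0) = 0 := by
      refine Finset.sum_eq_zero fun k _ => ?_
      rw [if_neg]
      simp
    rw [h0, mul_zero, mul_zero, add_zero]
    refine Finset.sum_congr rfl fun r _ => ?_
    rw [mul_left_comm, hstep r, Nat.factorial_succ]
    have h1 : ((r : ℂ) + 1) ≠ 0 := by exact_mod_cast Nat.succ_ne_zero r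
    have h2 : ((r.factorial : ℕ) : ℂ) ≠ 0 := by exact_mod_cast Nat.factorial_ne_zero r
    push_cast
    field_simp
  rw [hL]
  have hR : ∀ k0 : κ, (if chg k0 ≤ n + 1 then (chg k0 : ℂ) * wt k0 *
        ∫ t0, h k0 t0 * Z μ chg wt pw (n + 1 - chg k0) (add pw h k0 t0) ∂μ else 0) =
      ∑ r ∈ Finset.range (n + 1), ((r.factorial : ℕ) : ℂ)⁻¹ * ∑ k' : Fin r → κ,
        if chg k0 + ∑ i, chg (k' i) = n + 1 then (chg k0 : ℂ) * (wt k0 * (∏ i, wt (k' i)) *
          ∫ t0, h k0 t0 * I μ pw k' (add pw h k0 t0) ∂μ) else 0 := by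
    intro k0
    split_ifs with hk0
    · have hpos := hc k0
      have e1 : ∀ t0, h k0 t0 * Z μ chg wt pw (n + 1 - chg k0) (add pw h k0 t0) =
          ∑ r ∈ Finset.range (n + 1), ∑ k' : Fin r → κ, ((r.factorial : ℕ) : ℂ)⁻¹ *
            (if chg k0 + ∑ i, chg (k' i) = n + 1 then (∏ i, wt (k' i)) *
              (h k0 t0 * I μ pw k' (add pw h k0 t0)) else 0) := by
        intro t0
        rw [Z_range μ wt pw hc (show n + 1 - chg k0 + 1 ≤ n + 1 by omega), Finset.mul_sum]
        refine Finset.sum_congr rfl fun r _ => ?_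
        rw [mul_left_comm, Finset.mul_sum, Finset.mul_sum]
        refine Finset.sum_congr rfl fun k' _ => ?_
        congr 1
        by_cases hk : chg k0 + ∑ i, chg (k' i) = n + 1
        · rw [if_pos hk, if_pos (by omega)]
          ring
        · rw [if_neg hk, if_neg (by omega), mul_zero]
      simp_rw [e1]
      have hint : ∀ (r : ℕ) (k' : Fin r → κ), Integrable (fun t0 => ((r.factorial : ℕ) : ℂ)⁻¹ *
            (if chg k0 + ∑ i, chg (k' i) = n + 1 then (∏ i, wt (k' i)) *
              (h k0 t0 * I μ pw k' (add pw h k0 t0)) else 0)) μ := by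
        intro r k'
        by_cases hk : chg k0 + ∑ i, chg (k' i) = n + 1
        · simp only [if_pos hk]
          exact ((hcons k0 k' hk).const_mul _).const_mul _
        · simp only [if_neg hk, mul_zero]
          exact integrable_zero _ _ _
      rw [integral_finsetSum _ (fun r _ => integrable_finsetSum _ (fun k' _ => hint r k')),
        Finset.mul_sum]
      refine Finset.sum_congr rfl fun r _ => ?_
      rw [integral_finsetSum _ (fun k' _ => hint r k'), Finset.mul_sum, Finset.mul_sum]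
      refine Finset.sum_congr rfl fun k' _ => ?_
      rw [integral_const_mul]
      by_cases hk : chg k0 + ∑ i, chg (k' i) = n + 1
      · simp only [if_pos hk]
        rw [integral_const_mul]
        ring
      · simp only [if_neg hk]
        simp
    · symm
      refine Finset.sum_eq_zero fun r _ => ?_
      rw [Finset.sum_eq_zero, mul_zero]
      intro k' _
      rw [if_neg]
      omega
  simp_rw [hR]
  rw [Finset.sum_comm]
  refine Finset.sum_congr rfl fun r _ => ?_
  rw [hG, Finset.mul_sum]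

variable (chg)

theorem f_congr {r : ℕ} (k : Fin r → κ) {h h' : κ → E → ℂ} (hh : ∀ i, h (k i) =ᵐ[μ] h' (k i)) :
    f pw k h =ᵐ[Measure.pi fun _ => μ] f pw k h' := by
  have h1 : ∀ i, ∀ᵐ t ∂(Measure.pi fun _ : Fin r => μ), h (k i) (t i) = h' (k i) (t i) :=
    fun i => (Measure.tendsto_eval_ae_ae (μ := fun _ : Fin r => μ) (i := i)).eventually (hh i)
  filter_upwards [ae_all_iff.2 h1] with t ht
  unfold f
  rw [Finset.prod_congr rfl fun i _ => ht i]

theorem I_congr {r : ℕ} (k : Fin r → κ) {h h' : κ → E → ℂ} (hh : ∀ k, h k =ᵐ[μ] h' k) :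
    I μ pw k h = I μ pw k h' :=
  integral_congr_ae (f_congr μ pw k fun _ => hh _)

theorem Z_congr (n : ℕ) {h h' : κ → E → ℂ} (hh : ∀ k, h k =ᵐ[μ] h' k) :
    Z μ chg wt pw n h = Z μ chg wt pw n h' := by
  unfold Z
  refine Finset.sum_congr rfl fun r _ => ?_
  congr 1
  refine Finset.sum_congr rfl fun k _ => ?_
  rw [I_congr μ pw k hh]

theorem Z_zero (h : κ → E → ℂ) : Z μ chg wt pw 0 h = 1 := by
  unfold Z
  rw [Finset.sum_range_one, Fintype.sum_unique]
  have h1 : ∀ (k : Fin 0 → κ), I μ pw k h = 1 := by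
    intro k
    unfold I f
    simp only [P_zero, Finset.univ_eq_empty, Finset.prod_empty, mul_one]
    rw [integral_const]
    simp [Measure.real]
  rw [h1]
  simp

end NUP1.Grand

end
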