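import Pool.Agent.NUP1.SiteExp
import Pool.Agent.NUP1.Grand

/-!
# `T` is the sum over the states of the rows
-/

set_option autoImplicit false

noncomputable section

open Complex MeasureTheory

namespace NUP1

/-- quanta of a row -/
def qu : SignType → ℂ → List ℂ
  | .pos, _ => []
  | .zero, x => [x]
  | .neg, x => [x, x - l]

/-- number of quanta of a row -/
def nq : SignType → ℕ
  | .pos => 0
  | .zero => 1
  | .neg => 2

theorem qu_length (a : SignType) (x : ℂ) : (qu a x).length = nq a := by
  cases a <;> rfl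

/-- one body weight of a row -/
def sw : SignType → (ℂ → ℂ) → ℂ → ℂ
  | .pos, _, _ => 1
  | .zero, h, x => h x
  | .neg, h, x => rho / sin l * (h x * h (x - l))

/-- pair weight of two rows -/
def pr (a b : SignType) (x y : ℂ) : ℂ :=
  ((qu a x).map fun u => 1 / sin (u - y)).prod * ((qu b y).map fun v => 1 / sin (v - x)).prod *
    ((qu a x).map fun u => ((qu b y).map fun v => q (u - v)).prod).prod

theorem sw_mul (a : SignType) (h k : ℂ → ℂ) (x : ℂ) :
    sw a (fun u => h u * k u) x = sw a h x * ((qu a x).map k).prod := by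
  cases a
  · simp [sw, qu]
  · simp [sw, qu]; ring
  · simp [sw, qu]

theorem pr_pos (b : SignType) (x y : ℂ) :
    pr .pos b x y = ((qu b y).map fun v => 1 / sin (v - x)).prod := by
  simp [pr, qu]

theorem pr_zero (b : SignType) {x y : ℂ} (h : Sp x y) :
    pr .zero b x y = 1 / sin (x - y) * ((qu b y).map fun v => f1 (v - x)).prod := by
  have h' := h.symm
  have e1 : 1 / sin (y - x) * q (x - y) = f1 (y - x) := by
    rw [q_comm, f1_eq h'.h0]
  have h2 : sin (y - l - x) ≠ 0 := by
    rw [show y - l - x = y - x - l by ring]; exact h'.h2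
  have e2 : 1 / sin (y - l - x) * q (x - (y - l)) = f1 (y - l - x) := by
    rw [q_comm, f1_eq h2]
  cases b
  · simp only [pr, qu, List.map_cons, List.map_nil, List.prod_cons, List.prod_nil, mul_one]
    rw [← e1]; ring
  · simp only [pr, qu, List.map_cons, List.map_nil, List.prod_cons, List.prod_nil, mul_one]
    rw [← e1, ← e2]; ring
  · simp [pr, qu]

theorem pr_neg (b : SignType) {x y : ℂ} (h : Sp x y) :
    pr .neg b x y = 1 / sin (x - y) * (1 / sin (x - l - y)) *
      ((qu b y).map fun v => f2 (v - x)).prod := by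
  have h' := h.symm
  have e1 : 1 / sin (y - x) * q (x - y) * q (x - l - y) = f2 (y - x) := by
    rw [q_comm x y, f1_eq h'.h0, q_comm (x - l) y, show y - (x - l) = y - x + l by ring,
      f2_eq h'.h0 h'.h1 h'.h2 h'.h3]
  have k0 : y - l - x = y - x - l := by ring
  have e2 : 1 / sin (y - l - x) * q (x - (y - l)) * q (x - l - (y - l)) = f2 (y - l - x) := by
    rw [q_comm x, f1_eq (by rw [k0]; exact h'.h2), q_comm (x - l),
      show y - l - (x - l) = y - l - x + l by ring,
      f2_eq (by rw [k0]; exact h'.h2) (by rw [show y - l - x + l = y - x by ring]; exact h'.h0)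
        (by rw [show y - l - x - l = y - x - 2 * l by ring]; exact h'.h4)
        (by rw [show y - l - x + 2 * l = y - x + l by ring]; exact h'.h1)]
  cases b
  · simp only [pr, qu, List.map_cons, List.map_nil, List.prod_cons, List.prod_nil, mul_one]
    rw [← e1]; ring
  · simp only [pr, qu, List.map_cons, List.map_nil, List.prod_cons, List.prod_nil, mul_one]
    rw [← e1, ← e2]; ring
  · simp [pr, qu]

open Grand in
theorem P_succ {n : ℕ} (f : Fin (n + 1) → Fin (n + 1) → ℂ) :
    P f = (∏ j, f 0 (Fin.succ j)) * P (fun a b => f a.succ b.succ) := by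
  unfold P
  rw [Fin.prod_univ_succ]
  congr 1
  · rw [Fin.prod_univ_succ]
    simp
  · refine Finset.prod_congr rfl fun a _ => ?_
    rw [Fin.prod_univ_succ]
    simp [Fin.succ_lt_succ_iff]

/-- the rows `x i` as sites -/
def rows {m : ℕ} (x : Fin m → ℂ) : Finset Site := Finset.univ.image fun i => (Kd.R0, x i)

/-- weight of a state -/
def sta {m : ℕ} (x : Fin m → ℂ) (h : ℂ → ℂ) (a : Fin m → SignType) : ℂ :=
  (∏ i, sw (a i) h (x i)) * Grand.P fun i j => pr (a i) (a j) (x i) (x j)

theorem rows_succ {m : ℕ} (x : Fin (m + 1) → ℂ) :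
    rows x = insert (Kd.R0, x 0) (rows fun i => x i.succ) := by
  unfold rows
  ext s
  simp only [Finset.mem_image, Finset.mem_univ, true_and, Finset.mem_insert]
  constructor
  · rintro ⟨i, rfl⟩
    rcases Fin.eq_zero_or_eq_succ i with rfl | ⟨j, rfl⟩
    · exact Or.inl rfl
    · exact Or.inr ⟨j, rfl⟩
  · rintro (rfl | ⟨j, rfl⟩)
    · exact ⟨0, rfl⟩
    · exact ⟨j.succ, rfl⟩

theorem rows_RG {m : ℕ} {x : Fin m → ℂ} (hx : ∀ i j, i ≠ j → Sp (x i) (x j)) : RG (rows x) := by
  refine ⟨?_, ?_⟩
  · intro a ha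
    obtain ⟨i, _, rfl⟩ := Finset.mem_image.1 ha
    exact Or.inl rfl
  · intro a ha b hb hab
    obtain ⟨i, _, rfl⟩ := Finset.mem_image.1 ha
    obtain ⟨j, _, rfl⟩ := Finset.mem_image.1 hb
    exact hx i j fun h => hab (by rw [h])

theorem rows_notMem {m : ℕ} {x : Fin (m + 1) → ℂ} (hx : ∀ i j, i ≠ j → Sp (x i) (x j)) :
    (Kd.R0, x 0) ∉ rows fun i => x i.succ := by
  intro h
  obtain ⟨i, _, hi⟩ := Finset.mem_image.1 h
  have h1 := hx i.succ 0 (Fin.succ_ne_zero i)
  exact h1.ne (congrArg Prod.snd hi)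

theorem Gf_rows {m : ℕ} {x : Fin m → ℂ} (hx : ∀ i j, i ≠ j → Sp (x i) (x j)) (h : ℂ → ℂ) (u : ℂ) :
    Gf (rows x) h u = h u * ∏ i, 1 / sin (u - x i) := by
  unfold Gf rows
  rw [Finset.prod_image]
  · rfl
  · intro i _ j _ hij
    by_contra hne
    exact (hx i j hne).ne (congrArg Prod.snd hij)

theorem T_empty (n : ℕ) (h : ℂ → ℂ) : T n ∅ h = if n = 0 then 1 else 0 := by
  rcases n with _ | _ | n <;> simp [T]

theorem TZ_empty (n : ℤ) (h : ℂ → ℂ) : TZ n ∅ h = if n = 0 then 1 else 0 := by
  unfold TZ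
  rw [T_empty]
  by_cases h0 : n < 0
  · rw [if_pos h0, if_neg (by omega)]
  · rw [if_neg h0]
    congr 1
    simp only [eq_iff_iff]
    omega

/-- sum over the states with `n` quanta, integer `n` -/
def SZ {m : ℕ} (x : Fin m → ℂ) (h : ℂ → ℂ) (n : ℤ) : ℂ :=
  ∑ a : Fin m → SignType, if ((∑ i, nq (a i) : ℕ) : ℤ) = n then sta x h a else 0

theorem sum_sign {M : Type*} [AddCommMonoid M] (f : SignType → M) :
    ∑ k, f k = f .pos + (f .zero + f .neg) := by
  have : (Finset.univ : Finset SignType) = {.pos, .zero, .neg} := by decide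
  rw [this]
  simp

theorem sta_mul {m : ℕ} (x : Fin m → ℂ) (h k : ℂ → ℂ) (a : Fin m → SignType) :
    sta x (fun u => h u * k u) a = sta x h a * ∏ i, ((qu (a i) (x i)).map k).prod := by
  unfold sta
  rw [Finset.prod_congr rfl fun i _ => sw_mul (a i) h k (x i), Finset.prod_mul_distrib]
  ring

theorem sta_cons {m : ℕ} (x : Fin (m + 1) → ℂ) (h : ℂ → ℂ) (a₀ : SignType)
    (a : Fin m → SignType) :
    sta x h (Fin.cons a₀ a : Fin (m + 1) → SignType) =
      sw a₀ h (x 0) * (∏ j, pr a₀ (a j) (x 0) (x j.succ)) * sta (fun i => x i.succ) h a := by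
  unfold sta
  rw [Fin.prod_univ_succ, P_succ]
  simp only [Fin.cons_zero, Fin.cons_succ]
  ring

theorem SZ_succ {m : ℕ} (x : Fin (m + 1) → ℂ) (h : ℂ → ℂ) (n : ℤ) :
    SZ x h n = ∑ a₀ : SignType, ∑ a : Fin m → SignType,
      if ((nq a₀ + ∑ i, nq (a i) : ℕ) : ℤ) = n then
        sw a₀ h (x 0) * (∏ j, pr a₀ (a j) (x 0) (x j.succ)) * sta (fun i => x i.succ) h a
      else 0 := by
  unfold SZ
  rw [← (Fin.consEquiv (fun _ => SignType)).sum_comp, Fintype.sum_prod_type]
  refine Finset.sum_congr rfl fun a₀ _ => Finset.sum_congr rfl fun a _ => ?_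
  have e : (Fin.consEquiv (fun _ => SignType)) (a₀, a) = (Fin.cons a₀ a : Fin (m + 1) → SignType) :=
    rfl
  rw [e, sta_cons, Fin.sum_univ_succ]
  simp only [Fin.cons_zero, Fin.cons_succ]

/-- **`T` is the sum over the states of the rows.** -/
theorem TZ_rows : ∀ {m : ℕ} (x : Fin m → ℂ) (_ : ∀ i j, i ≠ j → Sp (x i) (x j)) (h : ℂ → ℂ)
    (n : ℤ), TZ n (rows x) h = SZ x h n := by
  intro m
  induction m with
  | zero =>
    intro x _ h n
    have e : rows x = ∅ := by simp [rows]
    rw [e, TZ_empty]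
    unfold SZ sta
    simp [Grand.P_zero, eq_comm]
  | succ m ih =>
    intro x hx h n
    have hx' : ∀ i j : Fin m, i ≠ j → Sp (x i.succ) (x j.succ) := fun i j hij =>
      hx i.succ j.succ fun h => hij (Fin.succ_injective _ h)
    have hR := rows_RG hx
    rw [rows_succ] at hR ⊢
    have hs : ∀ j : Fin m, Sp (x 0) (x j.succ) := fun j => hx 0 j.succ (Fin.succ_ne_zero j).symm
    rw [site_exp n.toNat n (by omega) (rows_notMem hx) hR, SZ_succ, sum_sign, ih _ hx', ih _ hx',
      ih _ hx']
    have e1 : rw (Kd.R0, x 0) (rows fun i => x i.succ) h = h (x 0) * ∏ i : Fin m, 1 / sin (x 0 - x i.succ) := by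
      unfold rw
      rw [Gf_rows hx']
      show 1 * (h (x 0) * _) = _
      rw [one_mul]
      rfl
    have e2 : ds (Kd.R0, x 0) (rows fun i => x i.succ) h =
        rho / sin l * (h (x 0) * h (x 0 - l)) * (∏ i : Fin m, 1 / sin (x 0 - x i.succ) *
          (1 / sin (x 0 - l - x i.succ))) := by
      unfold ds dw
      rw [if_pos rfl, Gf_rows hx', Gf_rows hx', Finset.prod_mul_distrib]
      ring
    have e3 : ∀ (k : ℂ → ℂ) (n : ℤ), SZ (fun i : Fin m => x i.succ) (fun u => h u * k u) n =
        ∑ a : Fin m → SignType, if ((∑ i, nq (a i) : ℕ) : ℤ) = n then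
          sta (fun i => x i.succ) h a * ∏ i, ((qu (a i) (x i.succ)).map k).prod else 0 := by
      intro k n
      unfold SZ
      refine Finset.sum_congr rfl fun a _ => ?_
      rw [sta_mul]
    rw [e1, e2, e3, e3, e3, add_assoc, Finset.mul_sum, Finset.mul_sum]
    congr 1
    · refine Finset.sum_congr rfl fun a _ => ?_
      rw [show nq SignType.pos + ∑ i, nq (a i) = ∑ i, nq (a i) from Nat.zero_add _]
      split_ifs
      · have : ∏ j, pr SignType.pos (a j) (x 0) (x j.succ) =
            ∏ i, ((qu (a i) (x i.succ)).map (fac (Kd.R0, x 0))).prod :=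
          Finset.prod_congr rfl fun j _ => pr_pos _ _ _
        rw [this]
        show _ = 1 * _ * _
        ring
      · rfl
    · congr 1
      · refine Finset.sum_congr rfl fun a _ => ?_
        have hc : (((nq SignType.zero + ∑ i, nq (a i) : ℕ) : ℤ) = n) ↔
            (((∑ i, nq (a i) : ℕ) : ℤ) = n - 1) := by
          show ((1 + ∑ i, nq (a i) : ℕ) : ℤ) = n ↔ _
          push_cast
          constructor <;> intro h' <;> linarith
        simp only [hc]
        split_ifs
        · have : ∏ j, pr SignType.zero (a j) (x 0) (x j.succ) =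
              (∏ i : Fin m, 1 / sin (x 0 - x i.succ)) *
                ∏ i, ((qu (a i) (x i.succ)).map (en (Kd.R0, x 0))).prod := by
            rw [← Finset.prod_mul_distrib]
            exact Finset.prod_congr rfl fun j _ => pr_zero _ (hs j)
          rw [this]
          show _ = h (x 0) * _ * _
          ring
        · ring
      · refine Finset.sum_congr rfl fun a _ => ?_
        have hc : (((nq SignType.neg + ∑ i, nq (a i) : ℕ) : ℤ) = n) ↔
            (((∑ i, nq (a i) : ℕ) : ℤ) = n - 2) := by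
          show ((2 + ∑ i, nq (a i) : ℕ) : ℤ) = n ↔ _
          push_cast
          constructor <;> intro h' <;> linarith
        simp only [hc]
        split_ifs
        · have : ∏ j, pr SignType.neg (a j) (x 0) (x j.succ) =
              (∏ i : Fin m, 1 / sin (x 0 - x i.succ) * (1 / sin (x 0 - l - x i.succ))) *
                ∏ i, ((qu (a i) (x i.succ)).map (fun u => f2 (u - x 0))).prod := by
            rw [← Finset.prod_mul_distrib]
            exact Finset.prod_congr rfl fun j _ => pr_neg _ (hs j)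
          rw [this]
          show _ = rho / sin l * (h (x 0) * h (x 0 - l)) * _ * _
          ring
        · ring

/-- the same with a natural number of quanta -/
theorem T_rows {m : ℕ} (x : Fin m → ℂ) (hx : ∀ i j, i ≠ j → Sp (x i) (x j)) (h : ℂ → ℂ)
    (n : ℕ) : T n (rows x) h =
      ∑ a : Fin m → SignType, if ∑ i, nq (a i) = n then sta x h a else 0 := by
  rw [← TZ_nat, TZ_rows x hx]
  unfold SZ
  refine Finset.sum_congr rfl fun a _ => ?_
  simp only [Nat.cast_inj]

end NUP1

end
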