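import Pool.Agent.NUP1.Integ

/-!
# Two species: the joint integral
-/

set_option autoImplicit false
set_option linter.unusedSectionVars false

noncomputable section

open Complex MeasureTheory

namespace NUP1.Bd

/-- cross weight of an object and a quantum of the other species
(`z` = position of the quantum - position of the object) -/
def cwo : Ob → ℂ → ℂ
  | .A, z => qg z
  | .L, z => qg z
  | .S, z => qg z * qg (z + l)

/-- cross weight of a quantum at `u` with a family of objects -/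
def Hc (α β : ℝ) {r : ℕ} (k : Fin r → Ob) (t : Fin r → ℝ) (u : ℂ) : ℂ :=
  ∏ j, cwo (k j) (u - pt α β (k j) (t j))

theorem qg_neg (z : ℂ) : qg (-z) = qg z := by
  unfold qg
  have h1 : sin (-z + 3 * l) = -sin (z - 3 * l) := by
    rw [← sin_neg]
    congr 1
    ring
  have h2 : sin (-z - 3 * l) = -sin (z + 3 * l) := by
    rw [← sin_neg]
    congr 1
    ring
  rw [cos_neg, h1, h2]
  ring

theorem cwo_A (k : Ob) (z : ℂ) : cwo k z = cwz .A k z := by
  cases k <;> rfl

/-- product of the cross weights of two families of objects -/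
def X2 (α β : ℝ) {r r' : ℕ} (k : Fin r → Ob) (k' : Fin r' → Ob) (t : Fin r → ℝ)
    (t' : Fin r' → ℝ) : ℂ :=
  ∏ i, ∏ j, cwz (k i) (k' j) (pt α β (k i) (t i) - pt α β (k' j) (t' j))

theorem one_Hc (α β : ℝ) (G : ℂ → ℂ) {r : ℕ} (k' : Fin r → Ob) (t' : Fin r → ℝ) (k : Ob)
    (t : ℝ) : oneL α β (fun u => G u * Hc α β k' t' u) k t =
      oneL α β G k t * ∏ j, cwz k (k' j) (pt α β k t - pt α β (k' j) (t' j)) := by
  unfold oneL Hc
  set u := pt α β k t
  cases k
  · simp only [one, cwo_A]
  · simp only [one]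
    congr 1
    refine Finset.prod_congr rfl fun j _ => ?_
    cases k' j <;> rfl
  · simp only [one]
    rw [mul_mul_mul_comm, ← Finset.prod_mul_distrib]
    congr 1
    refine Finset.prod_congr rfl fun j _ => ?_
    set v := pt α β (k' j) (t' j)
    rw [show u - l - v = u - v - l by ring]
    cases k' j
    · rfl
    · rfl
    · simp only [cwo, cwz]
      rw [show u - v - l + l = u - v by ring]
      ring

theorem f_Hc (α β : ℝ) (G : ℂ → ℂ) {r r' : ℕ} (k : Fin r → Ob) (k' : Fin r' → Ob)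
    (t : Fin r → ℝ) (t' : Fin r' → ℝ) :
    Grand.f (pw α β) k (oneL α β (fun u => G u * Hc α β k' t' u)) t =
      Grand.f (pw α β) k (oneL α β G) t * X2 α β k k' t t' := by
  unfold Grand.f X2
  simp_rw [one_Hc]
  rw [Finset.prod_mul_distrib]
  ring

/-- the joint integrand -/
def F2 (α β : ℝ) (GX GY : ℂ → ℂ) {r r' : ℕ} (k : Fin r → Ob) (k' : Fin r' → Ob)
    (p : (Fin r → ℝ) × (Fin r' → ℝ)) : ℂ :=
  Grand.f (pw α β) k (oneL α β GX) p.1 * Grand.f (pw α β) k' (oneL α β GY) p.2 *
    X2 α β k k' p.1 p.2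

theorem X2_norm_le {α β : ℝ} {C : ℝ} (hC : 1 ≤ C)
    (hp : ∀ (k k' : Ob) (z : ℂ), z.re = rl α β k - rl α β k' →
      ‖cwz k k' z‖ ≤ C * Real.exp (-(2 * (chg k * chg k' * |z.im|))))
    {r r' : ℕ} (k : Fin r → Ob) (k' : Fin r' → Ob) (t : Fin r → ℝ) (t' : Fin r' → ℝ) :
    ‖X2 α β k k' t t'‖ ≤ C ^ (r' * r) *
      Real.exp (-(2 * ∑ i, ∑ j, (chg (k i) * chg (k' j) * |t i - t' j| : ℝ))) := by
  have hC0 : 0 ≤ C := zero_le_one.trans hC
  unfold X2
  rw [norm_prod]
  simp_rw [norm_prod]
  calc _ ≤ ∏ i : Fin r, ∏ j : Fin r',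
        (C * Real.exp (-(2 * (chg (k i) * chg (k' j) * |t i - t' j|)))) := by
        refine Finset.prod_le_prod (fun a _ => Finset.prod_nonneg fun b _ => norm_nonneg _)
          fun a _ => Finset.prod_le_prod (fun b _ => norm_nonneg _) fun b _ => ?_
        have := hp (k a) (k' b) (pt α β (k a) (t a) - pt α β (k' b) (t' b)) (by
          rw [sub_re, pt_re, pt_re])
        rwa [sub_im, pt_im, pt_im] at this
    _ = _ := by
        simp_rw [Finset.prod_mul_distrib, ← Real.exp_sum, Finset.prod_const, Finset.card_univ,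
          Fintype.card_fin]
        rw [← pow_mul, Finset.mul_sum, ← Finset.sum_neg_distrib]
        congr 2
        refine Finset.sum_congr rfl fun i _ => ?_
        rw [Finset.mul_sum, ← Finset.sum_neg_distrib]

/-- the neutral energy inequality for two families -/
theorem energy_two {r r' : ℕ} (k : Fin r → Ob) (k' : Fin r' → Ob) (t : Fin r → ℝ)
    (t' : Fin r' → ℝ) (h : ∑ i, chg (k i) = ∑ j, chg (k' j)) :
    en k t + en k' t' - 2 * ∑ i, ∑ j, (chg (k i) * chg (k' j) * |t i - t' j| : ℝ) ≤ 0 := by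
  have h' : ∑ i, (chg (k i) : ℝ) = ∑ j, (chg (k' j) : ℝ) := by exact_mod_cast h
  have := energy_nonpos (Finset.univ : Finset (Fin r ⊕ Fin r'))
    (Sum.elim (fun i => (chg (k i) : ℝ)) (fun j => -(chg (k' j) : ℝ))) (Sum.elim t t') (by
      rw [Fintype.sum_sum_type]
      simp only [Sum.elim_inl, Sum.elim_inr, Finset.sum_neg_distrib]
      linarith)
  rw [Fintype.sum_sum_type] at this
  simp only [Fintype.sum_sum_type, Sum.elim_inl, Sum.elim_inr, Finset.sum_add_distrib] at this
  have e1 : ∑ i, ∑ j, (chg (k i) : ℝ) * -(chg (k' j) : ℝ) * |t i - t' j| =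
      -∑ i, ∑ j, (chg (k i) * chg (k' j) * |t i - t' j| : ℝ) := by
    rw [← Finset.sum_neg_distrib]
    refine Finset.sum_congr rfl fun i _ => ?_
    rw [← Finset.sum_neg_distrib]
    refine Finset.sum_congr rfl fun j _ => ?_
    ring
  have e2 : ∑ j, ∑ i, -(chg (k' j) : ℝ) * (chg (k i) : ℝ) * |t' j - t i| =
      -∑ i, ∑ j, (chg (k i) * chg (k' j) * |t i - t' j| : ℝ) := by
    rw [Finset.sum_comm, ← Finset.sum_neg_distrib]
    refine Finset.sum_congr rfl fun i _ => ?_
    rw [← Finset.sum_neg_distrib]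
    refine Finset.sum_congr rfl fun j _ => ?_
    rw [abs_sub_comm]
    ring
  have e3 : ∑ i, ∑ j, -(chg (k' i) : ℝ) * -(chg (k' j) : ℝ) * |t' i - t' j| = en k' t' := by
    unfold en
    refine Finset.sum_congr rfl fun i _ => Finset.sum_congr rfl fun j _ => ?_
    ring
  have e4 : ∑ i, ∑ j, (chg (k i) : ℝ) * (chg (k j) : ℝ) * |t i - t j| = en k t := rfl
  rw [e1, e2, e3, e4] at this
  linarith

theorem measurable_f {α β : ℝ} {h : Ob → ℝ → ℂ} (hm : ∀ k, Measurable (h k)) {r : ℕ}
    (k : Fin r → Ob) : Measurable (Grand.f (pw α β) k h) := by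
  unfold Grand.f
  refine Measurable.mul ?_ ?_
  · exact Finset.measurable_prod _ fun i _ => (hm (k i)).comp (measurable_pi_apply i)
  · refine measurable_P (fun i j (t : Fin r → ℝ) => pw α β (k i) (k j) (t i) (t j)) ?_
    intro i j
    unfold pw
    exact (measurable_pwz _ _).comp (((measurable_pt α β _).comp (measurable_pi_apply i)).sub
      ((measurable_pt α β _).comp (measurable_pi_apply j)))

theorem measurable_X2 (α β : ℝ) {r r' : ℕ} (k : Fin r → Ob) (k' : Fin r' → Ob) :
    Measurable fun p : (Fin r → ℝ) × (Fin r' → ℝ) => X2 α β k k' p.1 p.2 := by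
  unfold X2
  refine Finset.measurable_prod _ fun i _ => Finset.measurable_prod _ fun j _ => ?_
  exact (measurable_cwz _ _).comp
    (((measurable_pt α β _).comp ((measurable_pi_apply i).comp measurable_fst)).sub
    ((measurable_pt α β _).comp ((measurable_pi_apply j).comp measurable_snd)))

/-- Integrability of the joint integrand. -/
theorem integrable_F2 {α β : ℝ} (h1 : l < α - β) (h2 : α - β < 3 * l) {D κ : ℝ} (hκ : 0 < κ)
    {GX GY : ℂ → ℂ} (hmX : Measurable GX) (hmY : Measurable GY)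
    (hX : ∀ z : ℂ, (z.re = α ∨ z.re = β ∨ z.re = β + l) → ‖GX z‖ ≤ D * Real.exp (-(κ * |z.im|)))
    (hY : ∀ z : ℂ, (z.re = α ∨ z.re = β ∨ z.re = β + l) → ‖GY z‖ ≤ D * Real.exp (-(κ * |z.im|)))
    {r r' : ℕ} (k : Fin r → Ob) (k' : Fin r' → Ob) (hk : ∑ i, chg (k i) = ∑ j, chg (k' j)) :
    Integrable (F2 α β GX GY k k')
      ((Measure.pi fun _ => volume).prod (Measure.pi fun _ => volume)) := by
  obtain ⟨C, hC, hp, hc⟩ := pw_bounds h1 h2
  have hC0 : 0 ≤ C := zero_le_one.trans hC
  set E := D + D ^ 2 with hE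
  have hE0 : 0 ≤ E := by
    have := (norm_nonneg _).trans (oneL_bound hX .A 0)
    simpa using this
  have i1 := integrable_prod_exp (fun i : Fin r => κ * chg (k i))
    (fun i => mul_pos hκ (by exact_mod_cast chg_pos (k i)))
  have i2 := integrable_prod_exp (fun i : Fin r' => κ * chg (k' i))
    (fun i => mul_pos hκ (by exact_mod_cast chg_pos (k' i)))
  have i3 := (i1.mul_prod i2).const_mul
    (E ^ r * C ^ (r * r) * (E ^ r' * C ^ (r' * r')) * C ^ (r' * r))
  refine i3.mono' ?_ (Filter.Eventually.of_forall fun p => ?_)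
  · refine Measurable.aestronglyMeasurable ?_
    unfold F2
    exact (((measurable_f (measurable_oneL α β hmX) k).comp measurable_fst).mul
      ((measurable_f (measurable_oneL α β hmY) k').comp measurable_snd)).mul
      (measurable_X2 α β k k')
  · unfold F2
    rw [norm_mul, norm_mul]
    have b1 := f_norm_le hC hp _ (oneL_bound hX) k p.1
    have b2 := f_norm_le hC hp _ (oneL_bound hY) k' p.2
    have b3 := X2_norm_le hC hc k k' p.1 p.2
    have b4 := energy_two k k' p.1 p.2 hk
    calc _ ≤ (E ^ r * C ^ (r * r) *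
          ((∏ i, Real.exp (-(κ * chg (k i) * |p.1 i|))) * Real.exp (en k p.1))) *
          (E ^ r' * C ^ (r' * r') *
          ((∏ i, Real.exp (-(κ * chg (k' i) * |p.2 i|))) * Real.exp (en k' p.2))) *
          (C ^ (r' * r) *
            Real.exp (-(2 * ∑ i, ∑ j, (chg (k i) * chg (k' j) * |p.1 i - p.2 j| : ℝ)))) := by
          gcongr
      _ = (E ^ r * C ^ (r * r) * (E ^ r' * C ^ (r' * r')) * C ^ (r' * r)) *
          ((∏ i, Real.exp (-(κ * chg (k i) * |p.1 i|))) *
            (∏ i, Real.exp (-(κ * chg (k' i) * |p.2 i|)))) *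
          Real.exp (en k p.1 + en k' p.2 -
            2 * ∑ i, ∑ j, (chg (k i) * chg (k' j) * |p.1 i - p.2 j| : ℝ)) := by
          rw [sub_eq_add_neg, Real.exp_add, Real.exp_add]
          ring
      _ ≤ _ := by
          refine mul_le_of_le_one_right ?_ (Real.exp_le_one_iff.2 b4)
          have e1 : 0 ≤ ∏ i, Real.exp (-(κ * chg (k i) * |p.1 i|)) :=
            Finset.prod_nonneg fun i _ => (Real.exp_pos _).le
          have e2 : 0 ≤ ∏ i, Real.exp (-(κ * chg (k' i) * |p.2 i|)) :=
            Finset.prod_nonneg fun i _ => (Real.exp_pos _).le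
          positivity

/-! ## one body functions with cross weights -/

/-- decay of `G` on the three lines -/
def Dec (α β κ : ℝ) (G : ℂ → ℂ) : Prop :=
  ∃ D : ℝ, 0 ≤ D ∧ ∀ z : ℂ, (z.re = α ∨ z.re = β ∨ z.re = β + l) →
    ‖G z‖ ≤ D * Real.exp (-(κ * |z.im|))

theorem Dec.mul {α β κ κ' : ℝ} {G H : ℂ → ℂ} (hG : Dec α β κ G) (hH : Dec α β κ' H) :
    Dec α β (κ + κ') (fun z => G z * H z) := by
  obtain ⟨D, hD, h⟩ := hG
  obtain ⟨E, hE, h'⟩ := hH
  refine ⟨D * E, mul_nonneg hD hE, fun z hz => ?_⟩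
  rw [norm_mul]
  calc _ ≤ (D * Real.exp (-(κ * |z.im|))) * (E * Real.exp (-(κ' * |z.im|))) :=
        mul_le_mul (h z hz) (h' z hz) (norm_nonneg _) (mul_nonneg hD (Real.exp_pos _).le)
    _ = _ := by
        rw [show -((κ + κ') * |z.im|) = -(κ * |z.im|) + -(κ' * |z.im|) by ring, Real.exp_add]
        ring

theorem Dec.one (α β : ℝ) : Dec α β 0 (fun _ => 1) := by
  refine ⟨1, zero_le_one, fun z _ => ?_⟩
  simp

theorem Dec.congr_rate {α β κ κ' : ℝ} {G : ℂ → ℂ} (hG : Dec α β κ G) (h : κ = κ') :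
    Dec α β κ' G := h ▸ hG

theorem Dec.listProd {α β κ : ℝ} {ι : Type*} (H : ι → ℂ → ℂ) (U : List ι)
    (h : ∀ u ∈ U, Dec α β κ (H u)) :
    Dec α β (κ * U.length) (fun z => (U.map fun u => H u z).prod) := by
  induction U with
  | nil => simpa using Dec.one α β
  | cons a U ih =>
    have := (h a (List.mem_cons_self ..)).mul (ih fun u hu => h u (List.mem_cons_of_mem _ hu))
    simp only [List.map_cons, List.prod_cons, List.length_cons]
    refine this.congr_rate ?_
    push_cast
    ring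

theorem Dec.finProd {α β : ℝ} {r : ℕ} (H : Fin r → ℂ → ℂ) (κ : Fin r → ℝ)
    (h : ∀ i, Dec α β (κ i) (H i)) : Dec α β (∑ i, κ i) (fun z => ∏ i, H i z) := by
  induction r with
  | zero => simpa using Dec.one α β
  | succ r ih =>
    have := (h 0).mul (ih (fun i => H i.succ) (fun i => κ i.succ) fun i => h i.succ)
    rw [Fin.sum_univ_succ]
    simp_rw [Fin.prod_univ_succ]
    exact this

theorem qg_shift_bound (v : ℂ) (x : ℝ) (h : |x - v.re| < 3 * l) :
    ∃ C : ℝ, 0 ≤ C ∧ ∀ z : ℂ, z.re = x → ‖qg (z - v)‖ ≤ C * Real.exp (-(2 * |z.im|)) := by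
  obtain ⟨C, hC, hb⟩ := qg_bound' (x - v.re) h
  refine ⟨C * Real.exp (2 * |v.im|), by positivity, fun z hz => ?_⟩
  refine (hb (z - v) (by rw [sub_re, hz])).trans ?_
  rw [mul_assoc, ← Real.exp_add]
  refine mul_le_mul_of_nonneg_left (Real.exp_le_exp.2 ?_) hC
  rw [sub_im]
  have := abs_sub_abs_le_abs_sub z.im v.im
  linarith

theorem Dec_qg {α β : ℝ} (v : ℂ) (ha : |α - v.re| < 3 * l) (hb : |β - v.re| < 3 * l)
    (hc : |β + l - v.re| < 3 * l) : Dec α β 2 (fun z => qg (z - v)) := by
  obtain ⟨A, hA, h1⟩ := qg_shift_bound v α ha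
  obtain ⟨B, hB, h2⟩ := qg_shift_bound v β hb
  obtain ⟨C, hC, h3⟩ := qg_shift_bound v (β + l) hc
  refine ⟨A + B + C, by positivity, fun z hz => ?_⟩
  rcases hz with hz | hz | hz
  · exact (h1 z hz).trans (mul_le_mul_of_nonneg_right (by linarith) (Real.exp_pos _).le)
  · exact (h2 z hz).trans (mul_le_mul_of_nonneg_right (by linarith) (Real.exp_pos _).le)
  · exact (h3 z hz).trans (mul_le_mul_of_nonneg_right (by linarith) (Real.exp_pos _).le)

theorem Dec_qg' {α β : ℝ} (h12 : β + l < α) (v : ℂ) (ha : |α - v.re| < 3 * l)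
    (hb : |β - v.re| < 3 * l) : Dec α β 2 (fun z => qg (z - v)) := by
  have hl := l_pos
  refine Dec_qg v ha hb ?_
  rw [abs_lt] at *
  constructor <;> linarith [ha.1, ha.2, hb.1, hb.2]

theorem Dec_cwo {α β : ℝ} (h1 : l < α - β) (h2 : α - β < 3 * l) (k : Ob) (t : ℝ) :
    Dec α β (2 * chg k) (fun z => cwo k (z - pt α β k t)) := by
  have hl := l_pos
  have h12 : β + l < α := by linarith
  cases k
  · have := Dec_qg' h12 (pt α β .A t) (by rw [pt_re]; simp [rl, hl]) (by
      rw [pt_re, abs_lt]; simp only [rl]; constructor <;> linarith)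
    simpa [cwo, chg] using this
  · have := Dec_qg' h12 (pt α β .L t) (by
      rw [pt_re, abs_lt]; simp only [rl]; constructor <;> linarith) (by
      rw [pt_re]; simp [rl, hl])
    simpa [cwo, chg] using this
  · have g1 := Dec_qg' h12 (pt α β .S t) (by
      rw [pt_re, abs_lt]; simp only [rl]; constructor <;> linarith) (by
      rw [pt_re, abs_lt]; simp only [rl]; constructor <;> linarith)
    have g2 := Dec_qg' h12 (pt α β .S t - l) (by
      rw [sub_re, ofReal_re, pt_re, abs_lt]; simp only [rl]; constructor <;> linarith) (by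
      rw [sub_re, ofReal_re, pt_re, abs_lt]; simp only [rl]; constructor <;> linarith)
    have g3 := (g1.mul g2).congr_rate (show (2 : ℝ) + 2 = 2 * chg .S by simp only [chg]; norm_num)
    have e : ∀ z : ℂ, z - (pt α β .S t - l) = z - pt α β .S t + l := fun z => by ring
    simp only [e] at g3
    exact g3

theorem Dec_Hc {α β : ℝ} (h1 : l < α - β) (h2 : α - β < 3 * l) {r : ℕ} (k : Fin r → Ob)
    (t : Fin r → ℝ) {n : ℕ} (hn : ∑ i, chg (k i) = n) : Dec α β (2 * n) (Hc α β k t) := by
  have := Dec.finProd (fun i z => cwo (k i) (z - pt α β (k i) (t i))) (fun i => 2 * (chg (k i) : ℝ))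
    fun i => Dec_cwo h1 h2 (k i) (t i)
  refine this.congr_rate ?_
  rw [← Finset.mul_sum, ← Nat.cast_sum, hn]

theorem measurable_cwo (k : Ob) : Measurable (cwo k) := by
  have h1 := measurable_qg
  have h2 : Measurable fun z : ℂ => qg (z + l) := measurable_qg.comp (measurable_id.add_const _)
  cases k
  · exact h1
  · exact h1
  · exact h1.mul h2

theorem measurable_Hc (α β : ℝ) {r : ℕ} (k : Fin r → Ob) (t : Fin r → ℝ) :
    Measurable (Hc α β k t) := by
  unfold Hc
  exact Finset.measurable_prod _ fun j _ => (measurable_cwo _).comp (measurable_id.sub_const _)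

/-- product of the cross weights with a list of quanta -/
def Ql (U : List ℂ) (v : ℂ) : ℂ := (U.map fun u => qg (v - u)).prod

theorem measurable_Ql (U : List ℂ) : Measurable (Ql U) := by
  induction U with
  | nil => exact measurable_const
  | cons a U ih =>
    have : Ql (a :: U) = fun v => qg (v - a) * Ql U v := by
      funext v
      simp [Ql]
    rw [this]
    exact (measurable_qg.comp (measurable_id.sub_const _)).mul ih

theorem Dec_Ql {α β : ℝ} (h12 : β + l < α) (U : List ℂ)
    (hU : ∀ u ∈ U, |α - u.re| < 3 * l ∧ |β - u.re| < 3 * l) :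
    Dec α β (2 * U.length) (Ql U) :=
  Dec.listProd (fun u z => qg (z - u)) U fun u hu => Dec_qg' h12 u (hU u hu).1 (hU u hu).2

theorem one_Ql (α β : ℝ) (G : ℂ → ℂ) (U : List ℂ) (k : Ob) (t : ℝ) :
    oneL α β (fun v => G v * Ql U v) k t =
      oneL α β G k t * (U.map fun u => cwo k (u - pt α β k t)).prod := by
  have e1 : ∀ (U : List ℂ) (v : ℂ), Ql U v = (U.map fun u => qg (u - v)).prod := by
    intro U v
    unfold Ql
    congr 1
    refine List.map_congr_left fun u _ => ?_
    rw [← qg_neg, neg_sub]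
  unfold oneL
  set v := pt α β k t
  cases k
  · simp only [one, cwo, e1]
  · simp only [one, cwo, e1]
  · simp only [one, cwo, e1]
    rw [mul_mul_mul_comm]
    congr 1
    induction U with
    | nil => simp
    | cons a U ih =>
      simp only [List.map_cons, List.prod_cons]
      rw [← ih, show a - (v - l) = a - v + l by ring]
      ring

theorem f_Ql (α β : ℝ) (G : ℂ → ℂ) (U : List ℂ) {r : ℕ} (k : Fin r → Ob) (t : Fin r → ℝ) :
    Grand.f (pw α β) k (oneL α β (fun v => G v * Ql U v)) t =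
      Grand.f (pw α β) k (oneL α β G) t * (U.map fun u => Hc α β k t u).prod := by
  have e : ∏ i, (U.map fun u => cwo (k i) (u - pt α β (k i) (t i))).prod =
      (U.map fun u => Hc α β k t u).prod := by
    induction U with
    | nil => simp
    | cons a U ih =>
      simp only [List.map_cons, List.prod_cons, Finset.prod_mul_distrib]
      rw [ih]
      rfl
  unfold Grand.f
  simp_rw [one_Ql]
  rw [Finset.prod_mul_distrib, e]
  ring

/-! ## the joint integral -/

/-- The two species contour side in closed form. -/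
def Z2 (α β : ℝ) (n : ℕ) (GX GY : ℂ → ℂ) : ℂ :=
  ∑ r' ∈ Finset.range (n + 1), ((r'.factorial : ℕ) : ℂ)⁻¹ * ∑ k' : Fin r' → Ob,
    if ∑ i, chg (k' i) = n then (∏ i, wt (k' i)) *
      ∑ r ∈ Finset.range (n + 1), ((r.factorial : ℕ) : ℂ)⁻¹ * ∑ k : Fin r → Ob,
        if ∑ i, chg (k i) = n then (∏ i, wt (k i)) *
          ∫ p, F2 α β GX GY k k' p ∂((Measure.pi fun _ => volume).prod
            (Measure.pi fun _ => volume)) else 0
    else 0

theorem K_closed' {α β : ℝ} (h1 : l < α - β) (h2 : α - β < 3 * l) {n : ℕ} {κ : ℝ}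
    (hκ : 2 * ((n : ℝ) - 1) < κ) {G : ℂ → ℂ} (hm : Measurable G) (hG : Dec α β κ G) :
    K α β n G = Grand.Z volume chg wt (pw α β) n (oneL α β G) := by
  obtain ⟨D, -, hD⟩ := hG
  exact K_closed h1 h2 hκ hm hD

theorem integrable_f' {α β : ℝ} (h1 : l < α - β) (h2 : α - β < 3 * l) {n : ℕ} {κ : ℝ}
    (hκ : 2 * ((n : ℝ) - 1) < κ) {G : ℂ → ℂ} (hm : Measurable G) (hG : Dec α β κ G)
    {r : ℕ} (k : Fin r → Ob) (hk : ∑ i, chg (k i) = n) :
    Integrable (Grand.f (pw α β) k (oneL α β G)) (Measure.pi fun _ => volume) := by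
  obtain ⟨D, -, hD⟩ := hG
  exact integrable_f h1 h2 hκ _ (measurable_oneL α β hm) (oneL_bound hD) k hk

theorem Dec.integrable_F2 {α β : ℝ} (h1 : l < α - β) (h2 : α - β < 3 * l) {κ : ℝ} (hκ : 0 < κ)
    {GX GY : ℂ → ℂ} (hmX : Measurable GX) (hmY : Measurable GY)
    (hX : Dec α β κ GX) (hY : Dec α β κ GY)
    {r r' : ℕ} (k : Fin r → Ob) (k' : Fin r' → Ob) (hk : ∑ i, chg (k i) = ∑ j, chg (k' j)) :
    Integrable (F2 α β GX GY k k')
      ((Measure.pi fun _ => volume).prod (Measure.pi fun _ => volume)) := by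
  obtain ⟨D, hD, hX'⟩ := hX
  obtain ⟨E, hE, hY'⟩ := hY
  refine Bd.integrable_F2 h1 h2 (D := D + E) hκ hmX hmY (fun z hz => ?_) (fun z hz => ?_) k k' hk
  · exact (hX' z hz).trans (mul_le_mul_of_nonneg_right (by linarith) (Real.exp_pos _).le)
  · exact (hY' z hz).trans (mul_le_mul_of_nonneg_right (by linarith) (Real.exp_pos _).le)

/-- The integral over `Y`-objects of the contour side of `X` -/
theorem inner_eq {α β : ℝ} (h1 : l < α - β) (h2 : α - β < 3 * l) {κ : ℝ} (hκ : 0 < κ)
    {GX GY : ℂ → ℂ} (hmX : Measurable GX) (hmY : Measurable GY)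
    (hX : Dec α β κ GX) (hY : Dec α β κ GY) (n : ℕ) {r' : ℕ} (k' : Fin r' → Ob)
    (hk' : ∑ i, chg (k' i) = n) :
    ∫ t', Grand.f (pw α β) k' (oneL α β GY) t' * K α β n (fun u => GX u * Hc α β k' t' u)
      ∂(Measure.pi fun _ => volume) =
    ∑ r ∈ Finset.range (n + 1), ((r.factorial : ℕ) : ℂ)⁻¹ * ∑ k : Fin r → Ob,
        if ∑ i, chg (k i) = n then (∏ i, wt (k i)) *
          ∫ p, F2 α β GX GY k k' p ∂((Measure.pi fun _ => volume).prod
            (Measure.pi fun _ => volume)) else 0 := by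
  have hrate : 2 * ((n : ℝ) - 1) < κ + 2 * n := by linarith
  have e1 : ∀ t', Grand.f (pw α β) k' (oneL α β GY) t' *
      K α β n (fun u => GX u * Hc α β k' t' u) =
      ∑ r ∈ Finset.range (n + 1), ∑ k : Fin r → Ob, ((r.factorial : ℕ) : ℂ)⁻¹ *
        (if ∑ i, chg (k i) = n then (∏ i, wt (k i)) *
          ∫ t, F2 α β GX GY k k' (t, t') ∂(Measure.pi fun _ => volume) else 0) := by
    intro t'
    rw [K_closed' (G := fun u => GX u * Hc α β k' t' u) h1 h2 hrate
      (hmX.mul (measurable_Hc α β k' t')) (hX.mul (Dec_Hc h1 h2 k' t' hk'))]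
    unfold Grand.Z Grand.I
    rw [Finset.mul_sum]
    refine Finset.sum_congr rfl fun r _ => ?_
    rw [mul_left_comm, Finset.mul_sum, Finset.mul_sum]
    refine Finset.sum_congr rfl fun k _ => ?_
    congr 1
    rw [mul_ite, mul_zero]
    split_ifs with hk
    · rw [mul_left_comm]
      congr 1
      rw [← integral_const_mul]
      refine integral_congr_ae (Filter.Eventually.of_forall fun t => ?_)
      simp only [f_Hc, F2]
      ring
    · rfl
  have hint : ∀ (r : ℕ) (k : Fin r → Ob), ∑ i, chg (k i) = n →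
      Integrable (fun t' => ∫ t, F2 α β GX GY k k' (t, t') ∂(Measure.pi fun _ => volume))
        (Measure.pi fun _ => volume) := fun r k hk =>
    (hX.integrable_F2 h1 h2 hκ hmX hmY hY k k' (hk.trans hk'.symm)).integral_prod_right
  have hint2 : ∀ (r : ℕ) (k : Fin r → Ob), Integrable (fun t' : Fin r' → ℝ =>
      ((r.factorial : ℕ) : ℂ)⁻¹ * (if ∑ i, chg (k i) = n then (∏ i, wt (k i)) *
          ∫ t, F2 α β GX GY k k' (t, t') ∂(Measure.pi fun _ => volume) else 0))
        (Measure.pi fun _ => volume) := by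
    intro r k
    by_cases hk : ∑ i, chg (k i) = n
    · simp only [if_pos hk]
      exact ((hint r k hk).const_mul _).const_mul _
    · simp only [if_neg hk, mul_zero]
      exact integrable_zero _ _ _
  simp_rw [e1]
  rw [integral_finsetSum _ (fun r _ => integrable_finsetSum _ (fun k _ => hint2 r k))]
  refine Finset.sum_congr rfl fun r _ => ?_
  rw [integral_finsetSum _ (fun k _ => hint2 r k), Finset.mul_sum]
  refine Finset.sum_congr rfl fun k _ => ?_
  rw [integral_const_mul]
  congr 1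
  by_cases hk : ∑ i, chg (k i) = n
  · simp only [if_pos hk]
    rw [integral_const_mul, integral_prod_symm _
      (hX.integrable_F2 h1 h2 hκ hmX hmY hY k k' (hk.trans hk'.symm))]
  · simp only [if_neg hk]
    simp

/-- **Two species.**  If the sum over the states of each species is the contour side of that
species in the presence of the quanta of the other species, then the joint sum is the joint
integral. -/
theorem two_species {α β : ℝ} (h1 : l < α - β) (h2 : α - β < 3 * l) {κ : ℝ} (hκ : 0 < κ)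
    {GX GY : ℂ → ℂ} (hmX : Measurable GX) (hmY : Measurable GY)
    (hX : Dec α β κ GX) (hY : Dec α β κ GY) (n : ℕ) {A B : Type*} (s : Finset A) (s' : Finset B)
    (w : A → ℂ) (w' : B → ℂ) (U : A → List ℂ) (U' : B → List ℂ)
    (hlen : ∀ a ∈ s, (U a).length = n)
    (hU : ∀ a ∈ s, ∀ u ∈ U a, |α - u.re| < 3 * l ∧ |β - u.re| < 3 * l)
    (iY : ∀ a ∈ s, ∑ b ∈ s', w' b * ((U' b).map (Ql (U a))).prod =
      K α β n (fun v => GY v * Ql (U a) v))
    (iX : ∀ (r' : ℕ) (k' : Fin r' → Ob) (t' : Fin r' → ℝ), ∑ i, chg (k' i) = n →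
      ∑ a ∈ s, w a * ((U a).map fun u => Hc α β k' t' u).prod =
        K α β n (fun u => GX u * Hc α β k' t' u)) :
    ∑ a ∈ s, w a * ∑ b ∈ s', w' b * ((U' b).map (Ql (U a))).prod = Z2 α β n GX GY := by
  have h12 : β + l < α := by linarith
  have hrate : 2 * ((n : ℝ) - 1) < κ + 2 * n := by linarith
  have hI : ∀ a ∈ s, ∀ (r' : ℕ) (k' : Fin r' → Ob), ∑ i, chg (k' i) = n →
      Integrable (fun t' => Grand.f (pw α β) k' (oneL α β GY) t' *
        ((U a).map fun u => Hc α β k' t' u).prod) (Measure.pi fun _ => volume) := by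
    intro a ha r' k' hk'
    have hd := (hY.mul (Dec_Ql h12 (U a) (hU a ha))).congr_rate
      (show κ + 2 * ((U a).length : ℝ) = κ + 2 * n by rw [hlen a ha])
    have := integrable_f' h1 h2 hrate (hmY.mul (measurable_Ql (U a))) hd k' hk'
    refine this.congr (Filter.Eventually.of_forall fun t' => ?_)
    exact f_Ql α β GY (U a) k' t'
  have e1 : ∀ a ∈ s, w a * ∑ b ∈ s', w' b * ((U' b).map (Ql (U a))).prod =
      ∑ r' ∈ Finset.range (n + 1), ((r'.factorial : ℕ) : ℂ)⁻¹ * ∑ k' : Fin r' → Ob,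
        if ∑ i, chg (k' i) = n then (∏ i, wt (k' i)) *
          ∫ t', Grand.f (pw α β) k' (oneL α β GY) t' *
            (w a * ((U a).map fun u => Hc α β k' t' u).prod) ∂(Measure.pi fun _ => volume)
        else 0 := by
    intro a ha
    have hd := (hY.mul (Dec_Ql h12 (U a) (hU a ha))).congr_rate
      (show κ + 2 * ((U a).length : ℝ) = κ + 2 * n by rw [hlen a ha])
    rw [iY a ha, K_closed' (G := fun v => GY v * Ql (U a) v) h1 h2 hrate
      (hmY.mul (measurable_Ql (U a))) hd]
    unfold Grand.Z Grand.I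
    rw [Finset.mul_sum]
    refine Finset.sum_congr rfl fun r' _ => ?_
    rw [mul_left_comm, Finset.mul_sum]
    congr 1
    refine Finset.sum_congr rfl fun k' _ => ?_
    rw [mul_ite, mul_zero]
    split_ifs with hk'
    · rw [mul_left_comm]
      congr 1
      rw [← integral_const_mul]
      refine integral_congr_ae (Filter.Eventually.of_forall fun t' => ?_)
      simp only [f_Ql]
      ring
    · rfl
  rw [Finset.sum_congr rfl e1, Finset.sum_comm]
  unfold Z2
  refine Finset.sum_congr rfl fun r' _ => ?_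
  rw [← Finset.mul_sum, Finset.sum_comm]
  congr 1
  refine Finset.sum_congr rfl fun k' _ => ?_
  split_ifs with hk'
  · rw [← Finset.mul_sum]
    congr 1
    rw [← inner_eq h1 h2 hκ hmX hmY hX hY n k' hk', ← integral_finsetSum]
    · refine integral_congr_ae (Filter.Eventually.of_forall fun t' => ?_)
      simp only []
      rw [← Finset.mul_sum, iX r' k' t' hk']
    · intro a ha
      have := (hI a ha r' k' hk').const_mul (w a)
      refine this.congr (Filter.Eventually.of_forall fun t' => ?_)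
      simp only []
      ring
  · simp

end NUP1.Bd

end
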