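import Pool.Agent.NUP1.Main
import Pool.Agent.NUP1.States
import Pool.Agent.NUP1.Two

/-!
# Distinct rows, two species: the sum over the states is the joint contour integral
-/

set_option autoImplicit false

noncomputable section

open Complex MeasureTheory

namespace NUP1

open Bd (qg cwo Hc Ql Ob chg pt Dec Z2)

variable {α β κ : ℝ}

/-! ### growth of the cross weights -/

theorem gr_qg (v : ℂ) : Gr α β (-2) (fun z => qg (z - v)) := by
  have h1 := Gr.sin (α := α) (β := β) (v - Real.pi / 2)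
  have h2 := Gr.inv_sin (α := α) (β := β) (v - 3 * l)
  have h3 := Gr.inv_sin (α := α) (β := β) (v + 3 * l)
  have h := (h1.mul h1).mul ((h2.mul h2).mul (h3.mul h3))
  have e : (1 + 1 + (-1 + -1 + (-1 + -1)) : ℝ) = -2 := by norm_num
  rw [e] at h
  refine h.congr 0 fun z _ _ _ => ?_
  unfold Bd.qg
  have e1 : sin (z - (v - Real.pi / 2)) = cos (z - v) := by
    rw [show z - (v - (Real.pi : ℂ) / 2) = z - v + Real.pi / 2 by ring, Complex.sin_add_pi_div_two]
  have e2 : z - (v - 3 * l) = z - v + 3 * l := by ring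
  have e3 : z - (v + 3 * l) = z - v - 3 * l := by ring
  rw [e1, e2, e3, div_eq_mul_inv, mul_inv, ← inv_pow, ← inv_pow]
  ring

theorem qg_diff {v z : ℂ} (h : |z.re - v.re| < 3 * l) :
    DifferentiableAt ℂ (fun z => qg (z - v)) z := by
  have hl := lpos
  obtain ⟨h1, h2⟩ := abs_lt.1 h
  have k1 : sin (z - v + 3 * l) ≠ 0 := by
    refine sin_ne_re' ?_ ?_ ?_ <;> simp <;> linarith
  have k2 : sin (z - v - 3 * l) ≠ 0 := by
    refine sin_ne_re' ?_ ?_ ?_ <;> simp <;> linarith
  unfold Bd.qg
  have k3 : sin (z - v + 3 * l) ^ 2 * sin (z - v - 3 * l) ^ 2 ≠ 0 := by positivity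
  fun_prop (disch := exact k3)

theorem Gr.finProd {r : ℕ} (H : Fin r → ℂ → ℂ) (k : Fin r → ℝ) (h : ∀ i, Gr α β (k i) (H i)) :
    Gr α β (∑ i, k i) (fun z => ∏ i, H i z) := by
  induction r with
  | zero => simpa using Gr.const (α := α) (β := β) 1
  | succ r ih =>
    rw [Fin.sum_univ_succ]
    simp_rw [Fin.prod_univ_succ]
    exact (h 0).mul (ih (fun i => H i.succ) (fun i => k i.succ) fun i => h i.succ)

theorem Gr.listProd {ι : Type*} (H : ι → ℂ → ℂ) (U : List ι) (h : ∀ u ∈ U, Gr α β κ (H u)) :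
    Gr α β (κ * U.length) (fun z => (U.map fun u => H u z).prod) := by
  induction U with
  | nil => simpa using Gr.const (α := α) (β := β) 1
  | cons a U ih =>
    have h1 := (h a (List.mem_cons_self ..)).mul (ih fun u hu => h u (List.mem_cons_of_mem _ hu))
    simp only [List.map_cons, List.prod_cons, List.length_cons]
    refine h1.mono (le_of_eq ?_)
    push_cast
    ring

theorem gr_cwo (k : Ob) (p : ℂ) : Gr α β (-2 * chg k) (fun z => cwo k (z - p)) := by
  have h1 := gr_qg (α := α) (β := β) p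
  have h2 := (gr_qg (α := α) (β := β) (p - l)).congr (g := fun z => qg (z - p + l)) 0
    fun z _ _ _ => by rw [show z - p + l = z - (p - l) by ring]
  cases k
  · refine h1.mono (le_of_eq ?_)
    simp [chg]
  · refine h1.mono (le_of_eq ?_)
    simp [chg]
  · refine (h1.mul h2).mono (le_of_eq ?_)
    simp only [chg]
    norm_num

theorem gr_Hc {r : ℕ} (k : Fin r → Ob) (t : Fin r → ℝ) :
    Gr α β (-2 * (∑ i, chg (k i) : ℕ)) (Hc α β k t) := by
  have h := Gr.finProd (α := α) (β := β) (fun i z => cwo (k i) (z - pt α β (k i) (t i)))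
    (fun i => -2 * chg (k i)) fun i => gr_cwo _ _
  refine h.mono (le_of_eq ?_)
  push_cast
  rw [Finset.mul_sum]

theorem gr_Ql (U : List ℂ) : Gr α β (-2 * U.length) (Ql U) :=
  Gr.listProd (fun u z => qg (z - u)) U fun u _ => gr_qg u

theorem cwo_diff (hw : Wd α β) (k : Ob) (t : ℝ) {z : ℂ} (h1 : β ≤ z.re) (h2 : z.re ≤ α) :
    DifferentiableAt ℂ (fun z => cwo k (z - pt α β k t)) z := by
  have hl := lpos
  have h3 := hw.lo
  have h4 := hw.hi
  cases k
  · refine qg_diff ?_
    rw [abs_lt]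
    show _ < z.re - (vl α t).re ∧ z.re - (vl α t).re < _
    rw [vlre]
    constructor <;> linarith
  · refine qg_diff ?_
    rw [abs_lt]
    show _ < z.re - (vl β t).re ∧ z.re - (vl β t).re < _
    rw [vlre]
    constructor <;> linarith
  · show DifferentiableAt ℂ (fun z => qg (z - vl (β + l) t) * qg (z - vl (β + l) t + l)) z
    refine DifferentiableAt.mul (qg_diff ?_) ?_
    · rw [abs_lt, vlre]
      constructor <;> linarith
    · have e : (fun z : ℂ => qg (z - vl (β + l) t + l)) = fun z => qg (z - (vl (β + l) t - l)) := by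
        funext z
        rw [show z - vl (β + l) t + l = z - (vl (β + l) t - l) by ring]
      rw [e]
      refine qg_diff ?_
      rw [abs_lt, sub_re, vlre, ofReal_re]
      constructor <;> linarith

theorem Hc_diff (hw : Wd α β) {r : ℕ} (k : Fin r → Ob) (t : Fin r → ℝ) {z : ℂ}
    (h1 : β ≤ z.re) (h2 : z.re ≤ α) : DifferentiableAt ℂ (Hc α β k t) z := by
  unfold Hc
  have := DifferentiableAt.fun_finsetProd (𝕜 := ℂ) (u := Finset.univ)
    (f := fun i z => cwo (k i) (z - pt α β (k i) (t i))) (x := z)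
    (fun i _ => cwo_diff hw (k i) (t i) h1 h2)
  exact this

theorem Ql_diff (U : List ℂ) {z : ℂ} (h : ∀ u ∈ U, |z.re - u.re| < 3 * l) :
    DifferentiableAt ℂ (Ql U) z := by
  induction U with
  | nil =>
    have : Ql [] = fun _ => 1 := by
      funext v
      simp [Bd.Ql]
    rw [this]
    exact differentiableAt_const _
  | cons a U ih =>
    have : Ql (a :: U) = fun v => qg (v - a) * Ql U v := by
      funext v
      simp [Bd.Ql]
    rw [this]
    exact (qg_diff (h a (List.mem_cons_self ..))).mul (ih fun u hu => h u (List.mem_cons_of_mem _ hu))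

/-! ### rows -/

theorem rows_good {m : ℕ} {x : Fin m → ℂ} (hx : ∀ i j, i ≠ j → Sp (x i) (x j))
    (ox : ∀ i, Ok α β (Kd.R0, x i)) {h : ℂ → ℂ}
    (ah : ∀ z : ℂ, β ≤ z.re → z.re ≤ α → DifferentiableAt ℂ h z) : Good α β (rows x) h := by
  refine ⟨?_, ?_, ah⟩
  · intro a ha
    obtain ⟨i, _, rfl⟩ := Finset.mem_image.1 ha
    exact ox i
  · intro a ha b hb hab
    obtain ⟨i, _, rfl⟩ := Finset.mem_image.1 ha
    obtain ⟨j, _, rfl⟩ := Finset.mem_image.1 hb
    have h1 := hx i j fun h => hab (by rw [h])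
    have n0 : x i ≠ x j := h1.ne
    have n1 : x i ≠ x j - l := fun h' => h1.h1 (by rw [h']; simp)
    have n2 : x i - l ≠ x j := fun h' => h1.h2 (by
      rw [show x i - x j - l = x i - l - x j by ring, h']; simp)
    rw [Finset.disjoint_left]
    intro p hp hq
    simp only [pts, Finset.mem_insert, Finset.mem_singleton] at hp hq
    rcases hp with rfl | rfl <;> rcases hq with h' | h'
    · exact n0 h'
    · exact n1 h'
    · exact n2 h'
    · exact n0 (sub_left_injective h')

theorem Gf_rows_cont {m : ℕ} {x : Fin m → ℂ} (hw : Wd α β) (hx : ∀ i j, i ≠ j → Sp (x i) (x j))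
    (ox : ∀ i, Ok α β (Kd.R0, x i)) {h : ℂ → ℂ}
    (ah : ∀ z : ℂ, β ≤ z.re → z.re ≤ α → DifferentiableAt ℂ h z) {z : ℂ}
    (hz : z.re = α ∨ z.re = β ∨ z.re = β + l) : ContinuousAt (Gf (rows x) h) z := by
  have hl := lpos
  have h3 := hw.lo
  have h4 := hw.hi
  have hz1 : β ≤ z.re ∧ z.re ≤ α := by rcases hz with hz | hz | hz <;> constructor <;> linarith
  have e : Gf (rows x) h = fun u => h u * ∏ i, 1 / sin (u - x i) := funext fun u => Gf_rows hx h u
  rw [e]
  refine (ah z hz1.1 hz1.2).continuousAt.mul ?_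
  have hc : ∀ i ∈ (Finset.univ : Finset (Fin m)), ContinuousAt (fun u => 1 / sin (u - x i)) z := by
    intro i _
    obtain ⟨o1, o2, o3, o4⟩ := ox i
    have hne : sin (z - x i) ≠ 0 := by
      refine sin_ne_re' ?_ ?_ ?_
      · simp only [sub_re]; linarith [hz1.1]
      · simp only [sub_re]; linarith [hz1.2]
      · simp only [sub_re]
        rcases hz with hz | hz | hz
        · rw [hz]; exact (sub_pos.2 o2).ne'
        · rw [hz]
          have : β - (x i).re < 0 := by linarith
          exact this.ne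
        · rw [hz]; exact (sub_neg.2 o1).ne
    have hd : DifferentiableAt ℂ (fun u => 1 / sin (u - x i)) z := by
      fun_prop (disch := exact hne)
    exact hd.continuousAt
  exact tendsto_finsetProd _ hc

theorem line_bound {σ : ℝ} {G : ℂ → ℂ} (hσ : β ≤ σ ∧ σ ≤ α) (hG : Gr α β (-κ) G)
    (hc : ∀ z : ℂ, z.re = σ → ContinuousAt G z) :
    ∃ D : ℝ, 0 ≤ D ∧ ∀ z : ℂ, z.re = σ → ‖G z‖ ≤ D * Real.exp (-(κ * |z.im|)) := by
  obtain ⟨C, R, hC, hb⟩ := hG
  have hcont : Continuous fun t : ℝ => G (vl σ t) := by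
    rw [continuous_iff_continuousAt]
    intro t
    refine ContinuousAt.comp (g := G) (f := fun t : ℝ => vl σ t) (hc _ (vlre σ t)) ?_
    unfold vl
    fun_prop
  obtain ⟨D, hD, hDb⟩ := exists_bound hcont (C := C) (δ := κ) (t₀ := R) fun t ht => by
    have := hb (vl σ t) (by rw [vlre]; exact hσ.1) (by rw [vlre]; exact hσ.2) (by rwa [vlim])
    rwa [vlim] at this
  refine ⟨D, hD, fun z hz => ?_⟩
  have e : z = vl σ z.im := by
    apply Complex.ext
    · rw [vlre, hz]
    · rw [vlim]
  have := hDb z.im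
  rw [← e] at this
  rwa [neg_mul] at this

theorem dec_of_gr (hw : Wd α β) {G : ℂ → ℂ} (hG : Gr α β (-κ) G)
    (hc : ∀ z : ℂ, (z.re = α ∨ z.re = β ∨ z.re = β + l) → ContinuousAt G z) : Dec α β κ G := by
  have hl := lpos
  have h3 := hw.lo
  obtain ⟨A, hA, ha⟩ := line_bound (σ := α) ⟨by linarith, le_rfl⟩ hG fun z hz => hc z (Or.inl hz)
  obtain ⟨B, hB, hb⟩ := line_bound (σ := β) ⟨le_rfl, by linarith⟩ hG fun z hz =>
    hc z (Or.inr (Or.inl hz))
  obtain ⟨C, hC, hc'⟩ := line_bound (σ := β + l) ⟨by linarith, by linarith⟩ hG fun z hz =>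
    hc z (Or.inr (Or.inr hz))
  refine ⟨A + B + C, by positivity, fun z hz => ?_⟩
  rcases hz with hz | hz | hz
  · exact (ha z hz).trans (mul_le_mul_of_nonneg_right (by linarith) (Real.exp_pos _).le)
  · exact (hb z hz).trans (mul_le_mul_of_nonneg_right (by linarith) (Real.exp_pos _).le)
  · exact (hc' z hz).trans (mul_le_mul_of_nonneg_right (by linarith) (Real.exp_pos _).le)

/-! ### the states -/

/-- states with `n` quanta -/
def St (m n : ℕ) : Finset (Fin m → SignType) := Finset.univ.filter fun a => ∑ i, nq (a i) = n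

/-- all quanta of a state -/
def Us {m : ℕ} (x : Fin m → ℂ) (a : Fin m → SignType) : List ℂ :=
  (List.ofFn fun i => qu (a i) (x i)).flatten

theorem Us_length {m : ℕ} (x : Fin m → ℂ) (a : Fin m → SignType) :
    (Us x a).length = ∑ i, nq (a i) := by
  unfold Us
  rw [List.length_flatten, List.map_ofFn, List.sum_ofFn]
  exact Finset.sum_congr rfl fun i _ => qu_length _ _

theorem Us_prod {m : ℕ} (x : Fin m → ℂ) (a : Fin m → SignType) (k : ℂ → ℂ) :
    ((Us x a).map k).prod = ∏ i, ((qu (a i) (x i)).map k).prod := by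
  unfold Us
  rw [List.map_flatten, List.prod_flatten, List.map_ofFn, List.map_ofFn, List.prod_ofFn]
  rfl

theorem Us_mem {m : ℕ} {x : Fin m → ℂ} {a : Fin m → SignType} {u : ℂ} (h : u ∈ Us x a) :
    ∃ i, u = x i ∨ u = x i - l := by
  unfold Us at h
  rw [List.mem_flatten] at h
  obtain ⟨L, hL, hu⟩ := h
  obtain ⟨i, rfl⟩ := (List.mem_ofFn' _ _).1 hL
  refine ⟨i, ?_⟩
  simp only at hu
  generalize a i = s at hu
  cases s
  · simp only [qu, List.mem_singleton] at hu
    exact Or.inl hu
  · simp only [qu, List.mem_cons, List.not_mem_nil, or_false] at hu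
    exact hu
  · simp [qu] at hu

/-- cross weight of two states -/
def crq {m M : ℕ} (x : Fin m → ℂ) (y : Fin M → ℂ) (a : Fin m → SignType)
    (b : Fin M → SignType) : ℂ :=
  ∏ i, ∏ j, ((qu (a i) (x i)).map fun u => ((qu (b j) (y j)).map fun v => qg (u - v)).prod).prod

theorem list_prod_comm {A B : Type*} (U : List A) (V : List B) (f : A → B → ℂ) :
    (U.map fun u => (V.map fun v => f u v).prod).prod =
      (V.map fun v => (U.map fun u => f u v).prod).prod := by
  induction U with
  | nil => simp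
  | cons a U ih =>
    simp only [List.map_cons, List.prod_cons, ih]
    rw [← List.prod_map_mul]

theorem crq_eq {m M : ℕ} (x : Fin m → ℂ) (y : Fin M → ℂ) (a : Fin m → SignType)
    (b : Fin M → SignType) : crq x y a b = ((Us y b).map (Ql (Us x a))).prod := by
  have e1 : ∀ v, Ql (Us x a) v = ∏ i, ((qu (a i) (x i)).map fun u => qg (u - v)).prod := by
    intro v
    unfold Bd.Ql
    rw [Us_prod]
    refine Finset.prod_congr rfl fun i _ => ?_
    congr 1
    refine List.map_congr_left fun u _ => ?_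
    rw [← Bd.qg_neg, neg_sub]
  rw [show (Us y b).map (Ql (Us x a)) = (Us y b).map fun v =>
    ∏ i, ((qu (a i) (x i)).map fun u => qg (u - v)).prod from List.map_congr_left fun v _ => e1 v,
    Us_prod]
  unfold crq
  rw [Finset.prod_comm]
  refine Finset.prod_congr rfl fun j _ => ?_
  have e2 : ∀ V : List ℂ, (V.map fun v => ∏ i, ((qu (a i) (x i)).map fun u => qg (u - v)).prod).prod =
      ∏ i, (V.map fun v => ((qu (a i) (x i)).map fun u => qg (u - v)).prod).prod := by
    intro V
    induction V with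
    | nil => simp
    | cons c V ih =>
      simp only [List.map_cons, List.prod_cons, ih, Finset.prod_mul_distrib]
  rw [e2]
  refine Finset.prod_congr rfl fun i _ => ?_
  rw [list_prod_comm]

/-- one species with an analytic spectator: the sum over the states is the contour side -/
theorem states_K (hw : Wd α β) {m : ℕ} {x : Fin m → ℂ} (hx : ∀ i j, i ≠ j → Sp (x i) (x j))
    (ox : ∀ i, Ok α β (Kd.R0, x i)) {h k : ℂ → ℂ}
    (ah : ∀ z : ℂ, β ≤ z.re → z.re ≤ α → DifferentiableAt ℂ h z)
    (ak : ∀ z : ℂ, β ≤ z.re → z.re ≤ α → DifferentiableAt ℂ k z) {κ κ' : ℝ}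
    (gh : Gr α β (-κ) (Gf (rows x) h)) (gk : Gr α β (-κ') k) (n : ℕ)
    (hn : 2 * ((n : ℝ) - 1) < κ + κ') :
    ∑ a ∈ St m n, sta x h a * ((Us x a).map k).prod =
      K α β n (fun u => Gf (rows x) h u * k u) := by
  have e1 : (fun u => Gf (rows x) h u * k u) = Gf (rows x) (fun u => h u * k u) := by
    funext u
    rw [Gf_mul]
  have g1 : Gr α β (-(κ + κ')) (Gf (rows x) (fun u => h u * k u)) := by
    rw [← e1]
    exact (gh.mul gk).mono (le_of_eq (by ring))
  have h1 := main hw n (rows_good hx ox (h := fun u => h u * k u)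
    fun z h1 h2 => (ah z h1 h2).mul (ak z h1 h2)) hn g1
  rw [e1, h1, T_rows x hx]
  unfold St
  rw [Finset.sum_filter]
  refine Finset.sum_congr rfl fun a _ => ?_
  rw [Us_prod, sta_mul]

/-- **Two species, distinct rows: the sum over the states is the joint contour integral.** -/
theorem assem (hw : Wd α β) {m M : ℕ} {x : Fin m → ℂ} {y : Fin M → ℂ}
    (hx : ∀ i j, i ≠ j → Sp (x i) (x j)) (hy : ∀ i j, i ≠ j → Sp (y i) (y j))
    (ox : ∀ i, Ok α β (Kd.R0, x i)) (oy : ∀ i, Ok α β (Kd.R0, y i)) {hX hY : ℂ → ℂ}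
    (aX : ∀ z : ℂ, β ≤ z.re → z.re ≤ α → DifferentiableAt ℂ hX z)
    (aY : ∀ z : ℂ, β ≤ z.re → z.re ≤ α → DifferentiableAt ℂ hY z)
    (mX : Measurable hX) (mY : Measurable hY) {κ : ℝ} (hκ : 0 < κ)
    (gX : Gr α β (-κ) (Gf (rows x) hX)) (gY : Gr α β (-κ) (Gf (rows y) hY)) (n : ℕ) :
    ∑ a ∈ St m n, ∑ b ∈ St M n, sta x hX a * sta y hY b * crq x y a b =
      Z2 α β n (Gf (rows x) hX) (Gf (rows y) hY) := by
  have hl := lpos
  have h3 := hw.lo
  have h4 := hw.hi
  have hmG : ∀ {m : ℕ} {x : Fin m → ℂ} {h : ℂ → ℂ}, Measurable h → Measurable (Gf (rows x) h) := by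
    intro m x h hm
    unfold Gf
    refine hm.mul (Finset.measurable_prod _ fun b hb => ?_)
    obtain ⟨i, _, rfl⟩ := Finset.mem_image.1 hb
    show Measurable fun u => 1 / sin (u - x i)
    fun_prop
  have hlen : ∀ a ∈ St m n, (Us x a).length = n := fun a ha => by
    rw [Us_length]
    exact (Finset.mem_filter.1 ha).2
  have hre : ∀ {m : ℕ} {x : Fin m → ℂ}, (∀ i, Ok α β (Kd.R0, x i)) → ∀ {a : Fin m → SignType}
      {u : ℂ}, u ∈ Us x a → β < u.re ∧ u.re < α := by
    intro m x ox a u hu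
    obtain ⟨i, hi⟩ := Us_mem hu
    have := pts_re hw (ox i) (p := u) (by
      rcases hi with rfl | rfl
      · simp [pts]
      · simp [pts])
    exact this
  have key := Bd.two_species (α := α) (β := β) (by linarith) (by linarith) hκ (hmG mX) (hmG mY)
    (dec_of_gr hw gX fun z hz => Gf_rows_cont hw hx ox aX hz)
    (dec_of_gr hw gY fun z hz => Gf_rows_cont hw hy oy aY hz) n (St m n) (St M n)
    (sta x hX) (sta y hY) (Us x) (Us y) hlen
    (fun a _ u hu => by
      obtain ⟨u1, u2⟩ := hre ox hu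
      constructor <;> rw [abs_lt] <;> constructor <;> linarith)
    (fun a ha => by
      have h5 : ((n : ℕ) : ℝ) = (Us x a).length := by rw [hlen a ha]
      refine states_K hw hy oy aY (fun z h1 h2 => Ql_diff _ fun u hu => ?_) (κ' := 2 * n) gY ?_ n
        (by linarith)
      · obtain ⟨u1, u2⟩ := hre ox hu
        rw [abs_lt]
        constructor <;> linarith
      · rw [h5]
        exact (gr_Ql (Us x a)).mono (le_of_eq (by ring)))
    (fun r' k' t' hk' => by
      refine states_K hw hx ox aX (fun z h1 h2 => Hc_diff hw k' t' h1 h2) (κ' := 2 * n) gX ?_ n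
        (by linarith)
      have := gr_Hc (α := α) (β := β) k' t'
      rw [hk'] at this
      exact this.mono (le_of_eq (by ring)))
  rw [← key]
  refine Finset.sum_congr rfl fun a _ => ?_
  rw [Finset.mul_sum]
  refine Finset.sum_congr rfl fun b _ => ?_
  rw [crq_eq]
  ring

end NUP1

end
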