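import Pool.Agent.NUP1.Rate

/-!
# One quantum: the two lines and the poles
-/

set_option autoImplicit false

noncomputable section

open Complex MeasureTheory

namespace NUP1

variable {α β κ : ℝ} {S : Finset Site} {g : ℂ → ℂ}

theorem Wd.le (hw : Wd α β) : β ≤ α := by
  have := lpos; have := hw.lo; linarith

theorem Wd.pi (hw : Wd α β) : α - β < Real.pi := by
  have := lpos; have := hw.hi; rw [pi_eq]; linarith

theorem Good.inj (h : Good α β S g) : Set.InjOn pole (S : Set Site) := by
  intro a ha b hb hab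
  by_contra hne
  have h1 := h.dis a ha b hb hne
  exact Finset.disjoint_left.1 h1 (pole_mem a) (hab ▸ pole_mem b)

theorem Good.pole_ne (h : Good α β S g) {a b : Site} (ha : a ∈ S) (hb : b ∈ S) (hne : a ≠ b) :
    pole a ≠ pole b := fun hab => hne (h.inj ha hb hab)

/-- numerators of the one body function -/
def Nf (S : Finset Site) (g : ℂ → ℂ) (u : ℂ) : ℂ := g u * ∏ b ∈ S, num b u

theorem Gf_eq_num (u : ℂ) : Gf S g u = Nf S g u / ∏ b ∈ S, sin (u - pole b) := by
  unfold Gf Nf
  rw [mul_div_assoc, ← Finset.prod_div_distrib]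
  congr 1
  exact Finset.prod_congr rfl fun b _ => fac_eq b u

theorem Nf_diff (hw : Wd α β) (h : Good α β S g) {u : ℂ} (h1 : β ≤ u.re) (h2 : u.re ≤ α) :
    DifferentiableAt ℂ (Nf S g) u := by
  unfold Nf
  refine (h.an u h1 h2).mul ?_
  have := DifferentiableAt.fun_finsetProd (𝕜 := ℂ) (u := S) (f := fun b => num b) (x := u)
    (fun b hb => num_diff hw (h.ok b hb) h1 h2)
  simpa using this

/-- one quantum -/
theorem base (hw : Wd α β) (h : Good α β S g) (hk : 0 < κ) (hG : Gr α β (-κ) (Gf S g)) :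
    Integrable (fun t : ℝ => Gf S g (vl α t)) ∧ Integrable (fun t : ℝ => Gf S g (vl β t)) ∧
      LI α (Gf S g) - LI β (Gf S g) = ∑ a ∈ S, rw a (S.erase a) g := by
  classical
  obtain ⟨C, R, hC, hb⟩ := hG
  have hN : ∀ u ∈ CS β α, DifferentiableAt ℂ (Nf S g) u := fun u hu => Nf_diff hw h hu.1 hu.2
  have hB : ∀ p ∈ S.image pole, p ∈ OS β α := by
    intro p hp
    obtain ⟨a, ha, rfl⟩ := Finset.mem_image.1 hp
    exact pts_re hw (h.ok a ha) (pole_mem a)
  have key := line_shift (a := β) (b := α) hw.le hw.pi (S.image pole) hB (f := Gf S g) (H := Nf S g)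
    (fun u hu => (hN u hu).continuousAt.continuousWithinAt)
    (fun u hu => (hN u (OS_sub_CS _ _ hu)).differentiableWithinAt) (fun u _ _ => by
      rw [Gf_eq_num, Finset.prod_image (fun a ha b hb hab => h.inj ha hb hab)]) hk (C := C) (t₀ := R)
    (fun s t h1 h2 h3 => by
      have := hb ((s : ℂ) + t * I) (by simpa using h1) (by simpa using h2) (by simpa using h3)
      simpa using this)
  obtain ⟨i1, i2, i3⟩ := key
  refine ⟨i2, i1, ?_⟩
  unfold LI
  rw [← mul_sub]
  have e : (∫ t : ℝ, Gf S g (vl α t)) - (∫ t : ℝ, Gf S g (vl β t)) =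
      2 * Real.pi * ∑ p ∈ S.image pole, res (S.image pole) (Nf S g) p := i3
  rw [e, ← mul_assoc, inv_mul_cancel₀ (by norm_num), one_mul, Finset.sum_image (fun a ha b hb hab => h.inj ha hb hab)]
  refine Finset.sum_congr rfl fun a ha => ?_
  have e1 : (S.image pole).erase (pole a) = (S.erase a).image pole := by
    ext p
    simp only [Finset.mem_erase, Finset.mem_image]
    constructor
    · rintro ⟨h1, b, hb, rfl⟩
      exact ⟨b, ⟨fun h2 => h1 (by rw [h2]), hb⟩, rfl⟩
    · rintro ⟨b, ⟨h1, hb⟩, rfl⟩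
      exact ⟨h.pole_ne hb ha h1, b, hb, rfl⟩
  unfold res
  rw [e1, Finset.prod_image (fun b hb c hc hbc => h.inj (Finset.mem_of_mem_erase hb)
    (Finset.mem_of_mem_erase hc) hbc)]
  unfold rw Nf Gf
  rw [← Finset.mul_prod_erase S _ ha, num_pole, mul_div_assoc, mul_div_assoc, ← Finset.prod_div_distrib]
  rw [show (∏ b ∈ S.erase a, num b (pole a) / sin (pole a - pole b)) =
    ∏ b ∈ S.erase a, fac b (pole a) from Finset.prod_congr rfl fun b _ => (fac_eq b _).symm]
  ring

end NUP1

end
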