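import Pool.Agent.NUP1.Exact

/-!
# The exact formula with a cutoff of more points than rows

The cutoff `phi β W` may use any list of imaginary points `W` which contains the rows.
-/

set_option autoImplicit false
set_option linter.unusedSectionVars false

noncomputable section

open Complex MeasureTheory Filter Topology

namespace NUP1.ExM

open Bd (Lines Z2 GR OnL)
open Mu (Apre E et)

/-- one body function with the cutoff points `W` -/
def GC (c : ℂ) (β : ℝ) {m M : ℕ} (x y : Fin m → ℂ) (W : Fin M → ℂ) (u : ℂ) : ℂ :=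
  c * (∏ i, 1 / sin (u - x i)) * (∏ i, 1 / sin (u - x i - 2 * l)) *
    (∏ j, sin (u - y j + 3 * l) ^ 2) * phi β (List.ofFn W) u

theorem GC_self (c : ℂ) (β : ℝ) {m : ℕ} (x y : Fin m → ℂ) : GC c β x y x = GR c β x y := rfl

theorem GC_eq (c : ℂ) (β : ℝ) {m M : ℕ} {x : Fin m → ℂ} (y : Fin m → ℂ) (W : Fin M → ℂ)
    (hx : ∀ i j, i ≠ j → Sp (x i) (x j)) :
    Gf (rows x) (fun u => hh c x y u * phi β (List.ofFn W) u) = GC c β x y W := by
  funext u
  rw [Gf_rows hx]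
  unfold hh GC
  ring

variable {α β₀ β s : ℝ}

theorem phi_cond (h : Lines α β₀ β s) {M : ℕ} {W : Fin M → ℂ} (hW : ∀ i, (W i).re = 0) {z : ℂ}
    (h1 : β₀ ≤ z.re) (h2 : z.re ≤ α) : ∀ w ∈ List.ofFn W, |(z - w).re + l / 2| ≤ s := by
  have hl := lpos
  have k3 := h.as
  have k4 := h.bs
  intro w hw
  obtain ⟨i, rfl⟩ := List.mem_ofFn.1 hw
  rw [sub_re, hW i, sub_zero, abs_le]
  constructor <;> linarith

theorem hh_diff' (h : Lines α β₀ β s) (c : ℂ) {m M : ℕ} {x : Fin m → ℂ} (y : Fin m → ℂ)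
    {W : Fin M → ℂ} (hx : ∀ i, (x i).re = 0) (hW : ∀ i, (W i).re = 0) {z : ℂ} (h1 : β₀ ≤ z.re)
    (h2 : z.re ≤ α) :
    DifferentiableAt ℂ (fun u => hh c x y u * phi β (List.ofFn W) u) z := by
  have hl := lpos
  have k1 := h.a2
  have k2 := h.b1
  refine DifferentiableAt.mul ?_ (differentiableAt_phi h.adm (phi_cond h hW h1 h2))
  have hne : ∀ i, sin (z - x i - 2 * l) ≠ 0 := fun i => by
    refine sin_ne_re' ?_ ?_ ?_ <;> simp [hx i] <;> linarith
  have d1 := DifferentiableAt.fun_finsetProd (𝕜 := ℂ) (u := Finset.univ)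
    (f := fun (i : Fin m) u => 1 / sin (u - x i - 2 * l)) (x := z) (fun i _ => by
      have := hne i
      fun_prop (disch := exact this))
  have d2 := DifferentiableAt.fun_finsetProd (𝕜 := ℂ) (u := Finset.univ)
    (f := fun (j : Fin m) u => sin (u - y j + 3 * l) ^ 2) (x := z) (fun i _ => by fun_prop)
  exact ((differentiableAt_const c).mul d1).mul d2

theorem hh_meas' (c : ℂ) (β : ℝ) {m M : ℕ} (x y : Fin m → ℂ) (W : Fin M → ℂ) :
    Measurable (fun u => hh c x y u * phi β (List.ofFn W) u) := by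
  refine Measurable.mul ?_ (Bd.measurable_phi β _)
  unfold hh
  fun_prop

theorem GC_gr (h : Lines α β₀ β s) (c : ℂ) {m M : ℕ} {x : Fin m → ℂ} (y : Fin m → ℂ)
    {W : Fin M → ℂ} (hW : ∀ i, (W i).re = 0) : Gr α β₀ (-(2 * β)) (GC c β x y W) := by
  have hl := lpos
  have g1 := Gr.finProd (α := α) (β := β₀) (fun (i : Fin m) z => (sin (z - x i))⁻¹)
    (fun _ => -1) fun i => Gr.inv_sin _
  have g2 := Gr.finProd (α := α) (β := β₀) (fun (i : Fin m) z => (sin (z - (x i + 2 * l)))⁻¹)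
    (fun _ => -1) fun i => Gr.inv_sin _
  have g3 := Gr.finProd (α := α) (β := β₀) (fun (i : Fin m) z =>
    sin (z - (y i - 3 * l)) * sin (z - (y i - 3 * l))) (fun _ => 1 + 1) fun i =>
      (Gr.sin _).mul (Gr.sin _)
  obtain ⟨R, hR⟩ : ∃ R : ℝ, ∀ i, |(W i).im| ≤ R := by
    refine ⟨∑ j, |(W j).im|, fun i => ?_⟩
    exact Finset.single_le_sum (f := fun j => |(W j).im|) (fun i _ => abs_nonneg _)
      (Finset.mem_univ i)
  have g4 : Gr α β₀ (-(2 * β)) (phi β (List.ofFn W)) := by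
    have := h.adm.kap_pos
    refine ⟨4 / kap β s * ((List.ofFn W).length * Real.exp (2 * β * R)), 0, by positivity,
      fun z h1 h2 _ => ?_⟩
    have := norm_phi_le' h.adm (phi_cond h hW h1 h2) (r := R) fun w hw => by
      obtain ⟨i, rfl⟩ := List.mem_ofFn.1 hw
      exact hR i
    exact this
  have g5 := ((((g1.mul g2).mul g3).cmul c).mul g4).congr (g := GC c β x y W) 0
    fun z _ _ _ => by
    unfold GC
    have e1 : ∀ i, (sin (z - (x i + 2 * l)))⁻¹ = 1 / sin (z - x i - 2 * l) := fun i => by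
      rw [one_div, sub_sub]
    have e2 : ∀ i, sin (z - (y i - 3 * l)) * sin (z - (y i - 3 * l)) = sin (z - y i + 3 * l) ^ 2 :=
      fun i => by rw [show z - (y i - 3 * l) = z - y i + 3 * l by ring, sq]
    simp only [e1, e2, one_div]
    ring
  refine g5.mono (le_of_eq ?_)
  simp only [Finset.sum_const, Finset.card_univ, Fintype.card_fin, nsmul_eq_mul]
  ring

/-- **Distinct imaginary rows, any cutoff points containing the rows.** -/
theorem assem_GC (h : Lines α β₀ β s) (h1 : β₀ + 2 * l < α) (h2 : α < l) (h3 : -(2 * l) < β₀)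
    (c c' : ℂ) {m M : ℕ} {x y : Fin m → ℂ} {W W' : Fin M → ℂ} (hx0 : ∀ i, (x i).re = 0)
    (hy0 : ∀ i, (y i).re = 0) (hW : ∀ i, (W i).re = 0) (hW' : ∀ i, (W' i).re = 0)
    (hxW : ∀ i, ∃ j, W j = x i) (hyW : ∀ i, ∃ j, W' j = y i)
    (hx : Function.Injective x) (hy : Function.Injective y) (n : ℕ) :
    ∑ a ∈ St m n, ∑ b ∈ St m n, sta x (hh c x y) a * sta y (hh c' y x) b * crq x y a b =
      Z2 α β₀ n (GC c β x y W) (GC c' β y x W') := by
  have hw : Wd α β₀ := ⟨h1, by linarith [h.hi]⟩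
  have sx : ∀ i j, i ≠ j → Sp (x i) (x j) := fun i j hij => sp_im (hx0 i) (hx0 j) (hx.ne hij)
  have sy : ∀ i j, i ≠ j → Sp (y i) (y j) := fun i j hij => sp_im (hy0 i) (hy0 j) (hy.ne hij)
  have key := assem hw sx sy (fun i => Ok_im h h2 h3 (hx0 i)) (fun i => Ok_im h h2 h3 (hy0 i))
    (hX := fun u => hh c x y u * phi β (List.ofFn W) u)
    (hY := fun u => hh c' y x u * phi β (List.ofFn W') u)
    (fun z h1 h2 => hh_diff' h c y hx0 hW h1 h2) (fun z h1 h2 => hh_diff' h c' x hy0 hW' h1 h2)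
    (hh_meas' c β x y W) (hh_meas' c' β y x W') (κ := 2 * β) (by have := h.adm.pos; linarith)
    (by rw [GC_eq c β y W sx]; exact GC_gr h c y hW)
    (by rw [GC_eq c' β x W' sy]; exact GC_gr h c' x hW') n
  rw [GC_eq c β y W sx, GC_eq c' β x W' sy] at key
  rw [← key]
  have e1 : ∀ (c : ℂ) {x : Fin m → ℂ} (y : Fin m → ℂ) (W : Fin M → ℂ)
      (_ : ∀ i, ∃ j, W j = x i) (a : Fin m → SignType),
      sta x (hh c x y) a = sta x (fun u => hh c x y u * phi β (List.ofFn W) u) a := by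
    intro c x y W hxW a
    refine sta_congr (fun i => ?_) (fun i => ?_) a
    · rw [phi_row (List.mem_ofFn.2 (hxW i)), mul_one]
    · rw [phi_row_sub (List.mem_ofFn.2 (hxW i)), mul_one]
  refine Finset.sum_congr rfl fun a _ => Finset.sum_congr rfl fun b _ => ?_
  rw [e1 c y W hxW a, e1 c' x W' hyW b]

/-- **Exact contour formula for distinct imaginary rows, any cutoff points.** -/
theorem N_eq_Z2 (h : Lines α β₀ β s) (h1 : β₀ + 2 * l < α) (h2 : α < l)
    (h3 : -(2 * l) < β₀) {σ : ℂ} (hσ0 : σ ≠ 0) (hσ : σ ^ 2 = 4 * sin l ^ 2) (om : ℂ) {m M : ℕ}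
    {x y : Fin m → ℂ} {W W' : Fin M → ℂ} (hx0 : ∀ i, (x i).re = 0) (hy0 : ∀ i, (y i).re = 0)
    (hW : ∀ i, (W i).re = 0) (hW' : ∀ i, (W' i).re = 0)
    (hxW : ∀ i, ∃ j, W j = x i) (hyW : ∀ i, ∃ j, W' j = y i)
    (hx : Function.Injective x) (hy : Function.Injective y) :
    NUGas.N et σ om (List.ofFn fun i => E (x i)) (List.ofFn fun i => E (y i)) =
      Apre σ x * Apre σ y * ∑ n ∈ Finset.range (2 * m + 1), om ^ ((m : ℤ) - n) *
        Z2 α β₀ n (GC (-2 * sin (2 * l) / σ) β x y W) (GC (-2 * sin (2 * l) / σ) β y x W') := by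
  refine (Mu.N_eq_Z2 h h1 h2 h3 hσ0 hσ om hx0 hy0 hx hy).trans ?_
  refine congrArg _ (Finset.sum_congr rfl fun n _ => congrArg _ ?_)
  exact (assem_GR h h1 h2 h3 _ _ hx0 hy0 hx hy n).symm.trans
    (assem_GC h h1 h2 h3 _ _ hx0 hy0 hW hW' hxW hyW hx hy n)

/-! ## bounds and continuity in the rows and the cutoff points -/

theorem norm_GC_le (c : ℂ) (h : Adm β s) {m M : ℕ} {x y : Fin m → ℂ} {W : Fin M → ℂ} {r : ℝ}
    (hx : ∀ i, (x i).re = 0) (hxr : ∀ i, |(x i).im| ≤ r) (hyr : ∀ i, |(y i).im| ≤ r)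
    (hW : ∀ i, (W i).re = 0) (hWr : ∀ i, |(W i).im| ≤ r) {u : ℂ}
    (hu : |u.re + l / 2| ≤ s) (h1 : Real.sin u.re ≠ 0) (h2 : Real.sin (u.re - 2 * l) ≠ 0) :
    ‖GC c β x y W u‖ ≤ ‖c‖ * (Real.exp (2 * r) ^ 2 / (|Real.sin u.re| * |Real.sin (u.re - 2 * l)|)) ^ m *
      (4 / kap β s * (M * Real.exp (2 * β * r))) * Real.exp (-(2 * β * |u.im|)) := by
  have e0 : GC c β x y W u = c * (∏ i, (1 / sin (u - x i) * (1 / sin (u - x i - 2 * l)) *
      sin (u - y i + 3 * l) ^ 2)) * phi β (List.ofFn W) u := by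
    unfold GC
    rw [Finset.prod_mul_distrib, Finset.prod_mul_distrib]
    ring
  rw [e0, norm_mul, norm_mul, norm_prod, mul_assoc (‖c‖ * _)]
  have b1 : ∀ i, ‖1 / sin (u - x i) * (1 / sin (u - x i - 2 * l)) * sin (u - y i + 3 * l) ^ 2‖ ≤
      Real.exp (2 * r) ^ 2 / (|Real.sin u.re| * |Real.sin (u.re - 2 * l)|) := fun i =>
    Bd.norm_pair_le (hx i) (by
      have := abs_le.1 (hxr i)
      have := abs_le.1 (hyr i)
      exact abs_le.2 ⟨by linarith, by linarith⟩) h1 h2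
  have b2 : ‖phi β (List.ofFn W) u‖ ≤
      4 / kap β s * (M * Real.exp (2 * β * r)) * Real.exp (-(2 * β * |u.im|)) := by
    have := norm_phi_le' (X := List.ofFn W) (u := u) h (by
      intro z hz
      obtain ⟨i, rfl⟩ := List.mem_ofFn.1 hz
      rwa [sub_re, hW i, sub_zero]) (r := r) (by
      intro z hz
      obtain ⟨i, rfl⟩ := List.mem_ofFn.1 hz
      exact hWr i)
    rwa [List.length_ofFn, neg_mul] at this
  refine mul_le_mul ?_ b2 (norm_nonneg _) (by positivity)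
  refine mul_le_mul_of_nonneg_left ?_ (norm_nonneg _)
  refine (Finset.prod_le_prod (fun i _ => norm_nonneg _) fun i _ => b1 i).trans ?_
  rw [Finset.prod_const, Finset.card_univ, Fintype.card_fin]

theorem measurable_GC (c : ℂ) (β : ℝ) {m M : ℕ} (x y : Fin m → ℂ) (W : Fin M → ℂ) :
    Measurable (GC c β x y W) := by
  unfold GC
  have := Bd.measurable_phi β (List.ofFn W)
  fun_prop

theorem tendsto_GC {ι : Type*} {L : Filter ι} (c : ℂ) (h : Adm β s) {m M : ℕ}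
    {x y : ι → Fin m → ℂ} {x₀ y₀ : Fin m → ℂ} {W : ι → Fin M → ℂ} {W₀ : Fin M → ℂ}
    (hx : Tendsto x L (𝓝 x₀)) (hy : Tendsto y L (𝓝 y₀)) (hW : Tendsto W L (𝓝 W₀))
    (hx0 : ∀ i, (x₀ i).re = 0) (hW0 : ∀ i, (W₀ i).re = 0) {u : ℂ} (hu : |u.re + l / 2| ≤ s)
    (h1 : Real.sin u.re ≠ 0) (h2 : Real.sin (u.re - 2 * l) ≠ 0) :
    Tendsto (fun i => GC c β (x i) (y i) (W i) u) L (𝓝 (GC c β x₀ y₀ W₀ u)) := by
  have k1 : ∀ i, sin (u - x₀ i) ≠ 0 := fun i => Bd.sin_ne_zero_of_re (by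
    rwa [sub_re, hx0 i, sub_zero])
  have k2 : ∀ i, sin (u - x₀ i - 2 * l) ≠ 0 := fun i => Bd.sin_ne_zero_of_re (by
    have e1 : (u - x₀ i - 2 * l : ℂ).re = u.re - 2 * l := by simp [hx0 i]
    rwa [e1])
  have hx' := tendsto_pi_nhds.1 hx
  have hy' := tendsto_pi_nhds.1 hy
  unfold GC
  refine Tendsto.mul (Tendsto.mul (Tendsto.mul (Tendsto.mul tendsto_const_nhds ?_) ?_) ?_) ?_
  · refine tendsto_finsetProd _ fun i _ => Tendsto.div tendsto_const_nhds ?_ (k1 i)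
    exact (continuous_sin.tendsto _).comp (tendsto_const_nhds.sub (hx' i))
  · refine tendsto_finsetProd _ fun i _ => Tendsto.div tendsto_const_nhds ?_ (k2 i)
    exact (continuous_sin.tendsto _).comp ((tendsto_const_nhds.sub (hx' i)).sub tendsto_const_nhds)
  · refine tendsto_finsetProd _ fun i _ => Tendsto.pow ?_ 2
    exact (continuous_sin.tendsto _).comp ((tendsto_const_nhds.sub (hy' i)).add tendsto_const_nhds)
  · exact Bd.tendsto_phi h hW fun i => by rwa [sub_re, hW0 i, sub_zero]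

/-- one constant for the three lines -/
theorem bound (h : Lines α β₀ β s) (c : ℂ) (m M : ℕ) (r : ℝ) :
    ∃ D, ∀ (x y : Fin m → ℂ) (W : Fin M → ℂ), (∀ i, (x i).re = 0) → (∀ i, |(x i).im| ≤ r) →
      (∀ i, |(y i).im| ≤ r) → (∀ i, (W i).re = 0) → (∀ i, |(W i).im| ≤ r) →
      ∀ z, OnL α β₀ z → ‖GC c β x y W z‖ ≤ D * Real.exp (-(2 * β * |z.im|)) := by
  have hk := h.adm.kap_pos
  set E : ℝ → ℝ := fun t => ‖c‖ * (Real.exp (2 * r) ^ 2 / (|Real.sin t| * |Real.sin (t - 2 * l)|)) ^ m *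
      (4 / kap β s * (M * Real.exp (2 * β * r))) with hE
  have hE0 : ∀ t, 0 ≤ E t := fun t => by positivity
  refine ⟨E α + E β₀ + E (β₀ + l), fun x y W hx hxr hyr hW hWr z hz => ?_⟩
  refine (norm_GC_le c h.adm hx hxr hyr hW hWr (h.s1 hz) (h.s2 hz) (h.s3 hz)).trans ?_
  refine mul_le_mul_of_nonneg_right ?_ (Real.exp_pos _).le
  have g1 := hE0 α
  have g2 := hE0 β₀
  have g3 := hE0 (β₀ + l)
  show E z.re ≤ _
  rcases hz with hz | hz | hz <;> rw [hz] <;> linarith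

/-- **The homogeneous limit of the joint integral**, rows `ε x`, `ε y`, cutoff points `ε w`. -/
theorem tendsto_Z2_scale (h : Lines α β₀ β s) (c : ℂ) {m M : ℕ} {x y : Fin m → ℂ}
    {W W' : Fin M → ℂ} (hx0 : ∀ i, (x i).re = 0) (hy0 : ∀ i, (y i).re = 0)
    (hW0 : ∀ i, (W i).re = 0) (hW0' : ∀ i, (W' i).re = 0) (n : ℕ) :
    Tendsto (fun ε : ℝ => Z2 α β₀ n
        (GC c β (fun i => ε * x i) (fun i => ε * y i) (fun i => ε * W i))
        (GC c β (fun i => ε * y i) (fun i => ε * x i) (fun i => ε * W' i))) (𝓝[>] 0)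
      (𝓝 (Z2 α β₀ n (GC c β (fun _ : Fin m => 0) (fun _ => 0) (fun _ : Fin M => 0))
        (GC c β (fun _ : Fin m => 0) (fun _ => 0) (fun _ : Fin M => 0)))) := by
  obtain ⟨R, hR⟩ : ∃ R : ℝ, ((∀ j, |(x j).im| ≤ R) ∧ ∀ j, |(y j).im| ≤ R) ∧
      ((∀ j, |(W j).im| ≤ R) ∧ ∀ j, |(W' j).im| ≤ R) := by
    have n1 := Finset.sum_nonneg (s := Finset.univ) (f := fun j => |(x j).im|)
      (fun i _ => abs_nonneg _)
    have n2 := Finset.sum_nonneg (s := Finset.univ) (f := fun j => |(y j).im|)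
      (fun i _ => abs_nonneg _)
    have n3 := Finset.sum_nonneg (s := Finset.univ) (f := fun j => |(W j).im|)
      (fun i _ => abs_nonneg _)
    have n4 := Finset.sum_nonneg (s := Finset.univ) (f := fun j => |(W' j).im|)
      (fun i _ => abs_nonneg _)
    refine ⟨∑ j, |(x j).im| + ∑ j, |(y j).im| + (∑ j, |(W j).im| + ∑ j, |(W' j).im|),
      ⟨fun j => ?_, fun j => ?_⟩, ⟨fun j => ?_, fun j => ?_⟩⟩
    · have h1 := Finset.single_le_sum (f := fun j => |(x j).im|) (fun i _ => abs_nonneg _)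
        (Finset.mem_univ j)
      linarith
    · have h1 := Finset.single_le_sum (f := fun j => |(y j).im|) (fun i _ => abs_nonneg _)
        (Finset.mem_univ j)
      linarith
    · have h1 := Finset.single_le_sum (f := fun j => |(W j).im|) (fun i _ => abs_nonneg _)
        (Finset.mem_univ j)
      linarith
    · have h1 := Finset.single_le_sum (f := fun j => |(W' j).im|) (fun i _ => abs_nonneg _)
        (Finset.mem_univ j)
      linarith
  have re0 : ∀ {k : ℕ} {z : Fin k → ℂ}, (∀ i, (z i).re = 0) → ∀ (ε : ℝ) (i : Fin k),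
      ((ε : ℂ) * z i).re = 0 := fun hz ε i => by simp [hz i]
  have im0 : ∀ {k : ℕ} {z : Fin k → ℂ}, (∀ i, |(z i).im| ≤ R) → ∀ (ε : ℝ), 0 ≤ ε → ε ≤ 1 →
      ∀ (i : Fin k), |((ε : ℂ) * z i).im| ≤ R := by
    intro k z hz ε h0 h1 i
    have h2 := hz i
    have h3 : ((ε : ℂ) * z i).im = ε * (z i).im := by simp
    rw [h3, abs_mul, abs_of_nonneg h0]
    exact (mul_le_of_le_one_left (abs_nonneg _) h1).trans h2
  have tz : ∀ {k : ℕ} (z : Fin k → ℂ),
      Tendsto (fun ε : ℝ => fun i => (ε : ℂ) * z i) (𝓝[>] 0) (𝓝 (fun _ => 0)) := by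
    intro k z
    have h1 : Tendsto (fun ε : ℝ => fun i => (ε : ℂ) * z i) (𝓝 0)
        (𝓝 (fun i => ((0 : ℝ) : ℂ) * z i)) := by
      have : Continuous fun ε : ℝ => fun i => (ε : ℂ) * z i := by fun_prop
      exact this.tendsto 0
    simp only [ofReal_zero, zero_mul] at h1
    exact h1.mono_left nhdsWithin_le_nhds
  obtain ⟨D, hD⟩ := bound h c m M R
  have hev : ∀ᶠ ε : ℝ in 𝓝[>] 0, 0 ≤ ε ∧ ε ≤ 1 := by
    filter_upwards [self_mem_nhdsWithin, mem_nhdsWithin_of_mem_nhds (Iio_mem_nhds one_pos)]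
      with ε h1 h2
    exact ⟨(Set.mem_Ioi.1 h1).le, (Set.mem_Iio.1 h2).le⟩
  refine Bd.tendsto_Z2 h.lo h.hi (κ := 2 * β) (D := D) (by have := h.adm.pos; linarith)
    ?_ ?_ ?_ ?_ ?_ ?_ n
  · exact Filter.Eventually.of_forall fun i => measurable_GC c β _ _ _
  · exact Filter.Eventually.of_forall fun i => measurable_GC c β _ _ _
  · filter_upwards [hev] with ε h0 z hz
    exact hD _ _ _ (re0 hx0 ε) (im0 hR.1.1 ε h0.1 h0.2) (im0 hR.1.2 ε h0.1 h0.2) (re0 hW0 ε)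
      (im0 hR.2.1 ε h0.1 h0.2) z hz
  · filter_upwards [hev] with ε h0 z hz
    exact hD _ _ _ (re0 hy0 ε) (im0 hR.1.2 ε h0.1 h0.2) (im0 hR.1.1 ε h0.1 h0.2) (re0 hW0' ε)
      (im0 hR.2.2 ε h0.1 h0.2) z hz
  · exact fun z hz => tendsto_GC c h.adm (tz x) (tz y) (tz W) (fun _ => rfl) (fun _ => rfl)
      (h.s1 hz) (h.s2 hz) (h.s3 hz)
  · exact fun z hz => tendsto_GC c h.adm (tz y) (tz x) (tz W') (fun _ => rfl) (fun _ => rfl)
      (h.s1 hz) (h.s2 hz) (h.s3 hz)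

end NUP1.ExM

end
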