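import Pool.Agent.NUP1.Mult
import Pool.Agent.NUP1.States
import Pool.Agent.NUP1.Two

/-!
# The charge sum by the number of quanta
-/

set_option autoImplicit false
set_option linter.unusedSectionVars false

noncomputable section

open Complex MeasureTheory

namespace NUP1.Mu

theorem qn_eq (a : SignType) (x : ℂ) : qn a x = qu a x := by cases a <;> rfl

theorem nq_eq (a : SignType) : nq a = NUP1.nq a := by cases a <;> rfl

theorem sw_eq (a : SignType) (h : ℂ → ℂ) (x : ℂ) : sw a h x = NUP1.sw a h x := by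
  cases a <;> rfl

theorem pr_eq (a b : SignType) (x y : ℂ) : pr a b x y = NUP1.pr a b x y := by
  unfold pr NUP1.pr QQ v1
  simp only [qn_eq, one_div]
  ring

theorem WW_eq {m : ℕ} (h : ℂ → ℂ) (x : Fin m → ℂ) (a : Fin m → SignType) :
    WW h x a = sta x h a := by
  unfold WW sta
  simp only [sw_eq, pr_eq]

/-- product of the cross weights of two states -/
def XG {m m' : ℕ} (x : Fin m → ℂ) (y : Fin m' → ℂ) (a : Fin m → SignType)
    (b : Fin m' → SignType) : ℂ := ∏ i, ∏ j, QG (a i) (b j) (x i) (y j)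

/-- **The charge sum by the number of quanta.** -/
theorem N_eq_sum {σ : ℂ} (hσ0 : σ ≠ 0) (hσ : σ ^ 2 = 4 * sin l ^ 2) (om : ℂ) {m : ℕ}
    (x y : Fin m → ℂ) (hx : ∀ i j, i ≠ j → Gn (x i - x j))
    (hy : ∀ i j, i ≠ j → Gn (y i - y j)) (hxy : ∀ i j, Gc (x i - y j)) :
    NUGas.N et σ om (List.ofFn fun i => E (x i)) (List.ofFn fun i => E (y i)) =
      Apre σ x * Apre σ y * ∑ n ∈ Finset.range (2 * m + 1), om ^ ((m : ℤ) - n) *
        ∑ a : Fin m → SignType, if ∑ i, NUP1.nq (a i) = n then sta x (hrow σ x y) a *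
          ∑ b : Fin m → SignType, if ∑ i, NUP1.nq (b i) = n then sta y (hrow σ y x) b * XG x y a b
            else 0
          else 0 := by
  rw [N_eq hσ0 hσ om x y hx hy hxy]
  congr 1
  conv_rhs => enter [2, n]; rw [Finset.mul_sum]
  conv_rhs => rw [Finset.sum_comm]
  refine Finset.sum_congr rfl fun a _ => ?_
  have hle : ∑ i, NUP1.nq (a i) ≤ 2 * m := by
    have h2 : ∀ s : SignType, NUP1.nq s ≤ 2 := by decide
    have h3 := Finset.sum_le_card_nsmul Finset.univ (fun i => NUP1.nq (a i)) 2 (fun i _ => h2 _)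
    simpa [mul_comm] using h3
  have hsa := sum_nq a
  simp only [nq_eq] at hsa
  rw [Finset.sum_eq_single_of_mem (∑ i, NUP1.nq (a i)) (Finset.mem_range.2 (by omega))]
  · rw [if_pos rfl, Finset.mul_sum, Finset.mul_sum]
    refine Finset.sum_congr rfl fun b _ => ?_
    have hsb := sum_nq b
    simp only [nq_eq] at hsb
    by_cases hab : ∑ i, (a i : ℤ) = ∑ j, (b j : ℤ)
    · have h1 : ∑ i, NUP1.nq (b i) = ∑ i, NUP1.nq (a i) := by
        have : ((∑ i, NUP1.nq (b i) : ℕ) : ℤ) = ((∑ i, NUP1.nq (a i) : ℕ) : ℤ) := by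
          rw [hsa, hsb, hab]
        exact_mod_cast this
      rw [if_pos hab, if_pos h1, hsa, WW_eq, WW_eq]
      rw [show (m : ℤ) - (m - ∑ i, (a i : ℤ)) = ∑ i, (a i : ℤ) by ring]
      unfold XG
      ring
    · have h1 : ¬ ∑ i, NUP1.nq (b i) = ∑ i, NUP1.nq (a i) := by
        intro h
        apply hab
        have : ((∑ i, NUP1.nq (b i) : ℕ) : ℤ) = ((∑ i, NUP1.nq (a i) : ℕ) : ℤ) := by
          exact_mod_cast h
        rw [hsa, hsb] at this
        linarith
      rw [if_neg hab, if_neg h1]
      ring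
  · intro n _ hn
    rw [if_neg (Ne.symm hn), mul_zero]

/-- the cross weights as products over lists of quanta -/
theorem XG_eq {m m' : ℕ} (x : Fin m → ℂ) (y : Fin m' → ℂ) (a : Fin m → SignType)
    (b : Fin m' → SignType) :
    XG x y a b = (((List.ofFn fun j => qu (b j) (y j)).flatten).map fun v =>
      (((List.ofFn fun i => qu (a i) (x i)).flatten).map fun u => Bd.qg (v - u)).prod).prod := by
  have e1 : ∀ {k : ℕ} (z : Fin k → ℂ) (c : Fin k → SignType) (f : ℂ → ℂ),
      (((List.ofFn fun j => qu (c j) (z j)).flatten).map f).prod =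
        ∏ j, ((qu (c j) (z j)).map f).prod := by
    intro k z c f
    rw [List.map_flatten, List.prod_flatten, List.map_map, List.map_ofFn, List.prod_ofFn]
    rfl
  have e2 : ∀ (L : List ℂ) {k : ℕ} (g : Fin k → ℂ → ℂ),
      (L.map fun v => ∏ i, g i v).prod = ∏ i, (L.map (g i)).prod := by
    intro L k g
    induction L with
    | nil => simp
    | cons a L ih => simp only [List.map_cons, List.prod_cons, ih, Finset.prod_mul_distrib]
  rw [e1]
  unfold XG QG
  rw [Finset.prod_comm]
  refine Finset.prod_congr rfl fun j _ => ?_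
  simp_rw [e1]
  rw [e2]
  refine Finset.prod_congr rfl fun i _ => ?_
  simp only [qn_eq]
  generalize qu (a i) (x i) = A
  generalize qu (b j) (y j) = B
  have e3 : ∀ (A B : List ℂ) (f : ℂ → ℂ → ℂ), (A.map fun u => (B.map fun v => f u v).prod).prod =
      (B.map fun v => (A.map fun u => f u v).prod).prod := by
    intro A B f
    induction A with
    | nil => simp
    | cons a A ih =>
      simp only [List.map_cons, List.prod_cons, ih]
      clear ih
      induction B with
      | nil => simp
      | cons b B ih =>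
        simp only [List.map_cons, List.prod_cons]
        rw [← ih]
        ring
  rw [e3]
  congr 1
  refine List.map_congr_left fun v _ => ?_
  congr 1
  refine List.map_congr_left fun u _ => ?_
  rw [← Bd.qg_neg, neg_sub]

end NUP1.Mu

end
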