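import Pool.Agent.NUP1.Two
import Pool.Agent.NUP1.Cutoff

/-!
# Continuity of the joint integral in the one body functions; the row functions
-/

set_option autoImplicit false
set_option linter.unusedSectionVars false

noncomputable section

open Complex MeasureTheory Filter Topology

namespace NUP1.Bd

/-- the three lines -/
def OnL (α β : ℝ) (z : ℂ) : Prop := z.re = α ∨ z.re = β ∨ z.re = β + l

/-- explicit majorant of the joint integrand -/
theorem F2_norm_le {α β : ℝ} {C : ℝ} (hC : 1 ≤ C)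
    (hp : ∀ (k k' : Ob) (z : ℂ), z.re = rl α β k - rl α β k' →
      ‖pwz k k' z‖ ≤ C * Real.exp (2 * (chg k * chg k' * |z.im|)))
    (hc : ∀ (k k' : Ob) (z : ℂ), z.re = rl α β k - rl α β k' →
      ‖cwz k k' z‖ ≤ C * Real.exp (-(2 * (chg k * chg k' * |z.im|))))
    {D κ : ℝ} {GX GY : ℂ → ℂ}
    (hX : ∀ z : ℂ, OnL α β z → ‖GX z‖ ≤ D * Real.exp (-(κ * |z.im|)))
    (hY : ∀ z : ℂ, OnL α β z → ‖GY z‖ ≤ D * Real.exp (-(κ * |z.im|)))
    {r r' : ℕ} (k : Fin r → Ob) (k' : Fin r' → Ob) (hk : ∑ i, chg (k i) = ∑ j, chg (k' j))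
    (p : (Fin r → ℝ) × (Fin r' → ℝ)) :
    ‖F2 α β GX GY k k' p‖ ≤
      ((D + D ^ 2) ^ r * C ^ (r * r) * ((D + D ^ 2) ^ r' * C ^ (r' * r')) * C ^ (r' * r)) *
      ((∏ i, Real.exp (-(κ * chg (k i) * |p.1 i|))) *
        (∏ i, Real.exp (-(κ * chg (k' i) * |p.2 i|)))) := by
  have hC0 : 0 ≤ C := zero_le_one.trans hC
  set E := D + D ^ 2 with hE
  have hE0 : 0 ≤ E := by
    have := (norm_nonneg _).trans (oneL_bound hX .A 0)
    simpa using this
  unfold F2
  rw [norm_mul, norm_mul]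
  have b1 := f_norm_le hC hp _ (oneL_bound hX) k p.1
  have b2 := f_norm_le hC hp _ (oneL_bound hY) k' p.2
  have b3 := X2_norm_le hC hc k k' p.1 p.2
  have b4 := energy_two k k' p.1 p.2 hk
  calc _ ≤ (E ^ r * C ^ (r * r) *
        ((∏ i, Real.exp (-(κ * chg (k i) * |p.1 i|))) * Real.exp (en k p.1))) *
        (E ^ r' * C ^ (r' * r') *
        ((∏ i, Real.exp (-(κ * chg (k' i) * |p.2 i|))) * Real.exp (en k' p.2))) *
        (C ^ (r' * r) *
          Real.exp (-(2 * ∑ i, ∑ j, (chg (k i) * chg (k' j) * |p.1 i - p.2 j| : ℝ)))) := by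
        gcongr
    _ = (E ^ r * C ^ (r * r) * (E ^ r' * C ^ (r' * r')) * C ^ (r' * r)) *
        ((∏ i, Real.exp (-(κ * chg (k i) * |p.1 i|))) *
          (∏ i, Real.exp (-(κ * chg (k' i) * |p.2 i|)))) *
        Real.exp (en k p.1 + en k' p.2 -
          2 * ∑ i, ∑ j, (chg (k i) * chg (k' j) * |p.1 i - p.2 j| : ℝ)) := by
        rw [sub_eq_add_neg, Real.exp_add, Real.exp_add]
        ring
    _ ≤ _ := by
        refine mul_le_of_le_one_right ?_ (Real.exp_le_one_iff.2 b4)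
        have e1 : 0 ≤ ∏ i, Real.exp (-(κ * chg (k i) * |p.1 i|)) :=
          Finset.prod_nonneg fun i _ => (Real.exp_pos _).le
        have e2 : 0 ≤ ∏ i, Real.exp (-(κ * chg (k' i) * |p.2 i|)) :=
          Finset.prod_nonneg fun i _ => (Real.exp_pos _).le
        positivity

theorem OnL_pt (α β : ℝ) (k : Ob) (t : ℝ) : OnL α β (pt α β k t) := by
  cases k
  · exact Or.inl (by rw [pt_re]; rfl)
  · exact Or.inr (Or.inl (by rw [pt_re]; rfl))
  · exact Or.inr (Or.inr (by rw [pt_re]; rfl))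

theorem tendsto_oneL {ι : Type*} {L : Filter ι} {α β : ℝ} {Gs : ι → ℂ → ℂ} {G : ℂ → ℂ}
    (h : ∀ z, OnL α β z → Tendsto (fun i => Gs i z) L (𝓝 (G z))) (k : Ob) (t : ℝ) :
    Tendsto (fun i => oneL α β (Gs i) k t) L (𝓝 (oneL α β G k t)) := by
  have h0 := h _ (OnL_pt α β k t)
  cases k
  · exact h0
  · exact h0
  · refine h0.mul (h _ (Or.inr (Or.inl ?_)))
    rw [sub_re, ofReal_re, pt_re]
    simp [rl]

theorem tendsto_F2 {ι : Type*} {L : Filter ι} {α β : ℝ} {GXs GYs : ι → ℂ → ℂ} {GX GY : ℂ → ℂ}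
    (hX : ∀ z, OnL α β z → Tendsto (fun i => GXs i z) L (𝓝 (GX z)))
    (hY : ∀ z, OnL α β z → Tendsto (fun i => GYs i z) L (𝓝 (GY z)))
    {r r' : ℕ} (k : Fin r → Ob) (k' : Fin r' → Ob) (p : (Fin r → ℝ) × (Fin r' → ℝ)) :
    Tendsto (fun i => F2 α β (GXs i) (GYs i) k k' p) L (𝓝 (F2 α β GX GY k k' p)) := by
  unfold F2 Grand.f
  refine Tendsto.mul (Tendsto.mul (Tendsto.mul ?_ tendsto_const_nhds)
    (Tendsto.mul ?_ tendsto_const_nhds)) tendsto_const_nhds
  · exact tendsto_finsetProd _ fun i _ => tendsto_oneL hX (k i) (p.1 i)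
  · exact tendsto_finsetProd _ fun i _ => tendsto_oneL hY (k' i) (p.2 i)

theorem measurable_F2 {α β : ℝ} {GX GY : ℂ → ℂ} (hmX : Measurable GX) (hmY : Measurable GY)
    {r r' : ℕ} (k : Fin r → Ob) (k' : Fin r' → Ob) : Measurable (F2 α β GX GY k k') := by
  unfold F2
  exact (((measurable_f (measurable_oneL α β hmX) k).comp measurable_fst).mul
      ((measurable_f (measurable_oneL α β hmY) k').comp measurable_snd)).mul
      (measurable_X2 α β k k')

/-- **Continuity of the joint integral in the one body functions.** -/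
theorem tendsto_Z2 {ι : Type*} {L : Filter ι} [L.IsCountablyGenerated] {α β : ℝ} (h1 : l < α - β)
    (h2 : α - β < 3 * l) {D κ : ℝ} (hκ : 0 < κ) {GXs GYs : ι → ℂ → ℂ} {GX GY : ℂ → ℂ}
    (hmX : ∀ᶠ i in L, Measurable (GXs i)) (hmY : ∀ᶠ i in L, Measurable (GYs i))
    (hbX : ∀ᶠ i in L, ∀ z, OnL α β z → ‖GXs i z‖ ≤ D * Real.exp (-(κ * |z.im|)))
    (hbY : ∀ᶠ i in L, ∀ z, OnL α β z → ‖GYs i z‖ ≤ D * Real.exp (-(κ * |z.im|)))
    (hX : ∀ z, OnL α β z → Tendsto (fun i => GXs i z) L (𝓝 (GX z)))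
    (hY : ∀ z, OnL α β z → Tendsto (fun i => GYs i z) L (𝓝 (GY z))) (n : ℕ) :
    Tendsto (fun i => Z2 α β n (GXs i) (GYs i)) L (𝓝 (Z2 α β n GX GY)) := by
  obtain ⟨C, hC, hp, hc⟩ := pw_bounds h1 h2
  unfold Z2
  refine tendsto_finsetSum _ fun r' _ => Tendsto.mul tendsto_const_nhds
    (tendsto_finsetSum _ fun k' _ => ?_)
  by_cases hk' : ∑ i, chg (k' i) = n
  · simp only [if_pos hk']
    refine Tendsto.mul tendsto_const_nhds (tendsto_finsetSum _ fun r _ =>
      Tendsto.mul tendsto_const_nhds (tendsto_finsetSum _ fun k _ => ?_))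
    by_cases hk : ∑ i, chg (k i) = n
    · simp only [if_pos hk]
      refine Tendsto.mul tendsto_const_nhds ?_
      have i1 := integrable_prod_exp (fun i : Fin r => κ * chg (k i))
        (fun i => mul_pos hκ (by exact_mod_cast chg_pos (k i)))
      have i2 := integrable_prod_exp (fun i : Fin r' => κ * chg (k' i))
        (fun i => mul_pos hκ (by exact_mod_cast chg_pos (k' i)))
      refine tendsto_integral_filter_of_dominated_convergence _ ?_ ?_
        ((i1.mul_prod i2).const_mul ((D + D ^ 2) ^ r * C ^ (r * r) *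
          ((D + D ^ 2) ^ r' * C ^ (r' * r')) * C ^ (r' * r))) ?_
      · filter_upwards [hmX, hmY] with i hi hi'
        exact (measurable_F2 hi hi' k k').aestronglyMeasurable
      · filter_upwards [hbX, hbY] with i hi hi'
        exact Filter.Eventually.of_forall fun p =>
          F2_norm_le hC hp hc hi hi' k k' (hk.trans hk'.symm) p
      · exact Filter.Eventually.of_forall fun p => tendsto_F2 hX hY k k' p
    · simp only [if_neg hk]
      exact tendsto_const_nhds
  · simp only [if_neg hk']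
    exact tendsto_const_nhds

end NUP1.Bd

end
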