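import Pool.Agent.NUP1.Rec

/-!
# A string on a row: the row is inert; `w ↦ T n S (g · q1 (· - w))` is entire
-/

set_option autoImplicit false

noncomputable section

open Complex MeasureTheory

namespace NUP1

variable {α β κ : ℝ} {S : Finset Site} {g : ℂ → ℂ}

theorem Gf_inert {x p : ℂ} (hx : (Kd.R0, x) ∉ S) (h : sin (p - x) ≠ 0) :
    Gf (insert (Kd.R0, x) S) (fun u => g u * q1 (u - x)) p =
      Gf S (fun u => g u * f2 (u - x)) p := by
  rw [Gf_insert hx, Gf_mul, Gf_mul]
  show _ * (1 / sin (p - x)) = _
  rw [← f2_q1 h]
  ring

theorem Good.sin_ne (hw : Wd α β) (h : Good α β S g) {a b : Site} (ha : a ∈ S) (hb : b ∈ S)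
    (hab : a ≠ b) {p p' : ℂ} (hp : p ∈ pts a) (hp' : p' ∈ pts b) : sin (p - p') ≠ 0 := by
  have h1 := pts_re hw (h.ok a ha) hp
  have h2 := pts_re hw (h.ok b hb) hp'
  refine sin_sub_ne' hw ⟨h1.1.le, h1.2.le⟩ ⟨h2.1.le, h2.2.le⟩ ?_
  rintro rfl
  exact Finset.disjoint_left.1 (h.dis a ha b hb hab) hp hp'

theorem Good.congr {g' : ℂ → ℂ} (h : Good α β S g) (he : g = g') : Good α β S g' := he ▸ h

/-- the row `x` is inert if there is a string at `x` -/
theorem inert (hw : Wd α β) {x : ℂ} (n : ℕ) : ∀ {S : Finset Site} {g : ℂ → ℂ},
    (Kd.R0, x) ∉ S → Good α β (insert (Kd.R0, x) S) g →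
    T n (insert (Kd.R0, x) S) (fun u => g u * q1 (u - x)) = T n S (fun u => g u * f2 (u - x)) := by
  induction n using Nat.strong_induction_on with
  | _ n ih =>
    intro S g hx h
    cases n with
    | zero => rfl
    | succ n =>
      have hne : ∀ a ∈ S, a ≠ (Kd.R0, x) := fun a ha h' => hx (h' ▸ ha)
      have hmem : ∀ a ∈ S, a ∈ insert (Kd.R0, x) S := fun a ha => Finset.mem_insert_of_mem ha
      have hx0 : (Kd.R0, x) ∈ insert (Kd.R0, x) S := Finset.mem_insert_self _ _
      have e0 : Gf S (fun u => g u * q1 (u - x)) x = 0 := by
        rw [Gf_mul, sub_self, q1_zero, mul_zero]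
      have hc : ((n : ℂ) + 1) ≠ 0 := Nat.cast_add_one_ne_zero n
      apply mul_left_cancel₀ hc
      rw [T_succ, T_succ, Finset.sum_insert hx, Finset.erase_insert hx]
      have e1 : rw (Kd.R0, x) S (fun u => g u * q1 (u - x)) = 0 := by
        unfold rw
        show _ * Gf S (fun u => g u * q1 (u - x)) x = 0
        rw [e0, mul_zero]
      have hZ : Z (insert (Kd.R0, x) S) = insert (Kd.R0, x) (Z S) := by
        unfold Z
        rw [Finset.filter_insert, if_pos rfl]
      have hxZ : (Kd.R0, x) ∉ Z S := fun h' => hx (Finset.mem_of_mem_filter _ h')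
      rw [e1, hZ, Finset.sum_insert hxZ]
      have e2 : dw x S (fun u => g u * q1 (u - x)) = 0 := by
        unfold dw
        rw [e0]
        ring
      show _ + (dw x ((insert (Kd.R0, x) S).erase (Kd.R0, x)) _ * _ + _) = _
      rw [Finset.erase_insert hx, e2, zero_mul, zero_mul, zero_add, zero_add]
      congr 1
      · refine Finset.sum_congr rfl fun a ha => ?_
        have hxa : (Kd.R0, x) ∉ S.erase a := fun h' => hx (Finset.mem_of_mem_erase h')
        have hs : sin (pole a - x) ≠ 0 :=
          h.sin_ne hw (hmem a ha) hx0 (hne a ha) (pole_mem a) (by simp [pts])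
        have h3 : rw a ((insert (Kd.R0, x) S).erase a) (fun u => g u * q1 (u - x)) =
            rw a (S.erase a) (fun u => g u * f2 (u - x)) := by
          rw [Finset.erase_insert_of_ne (hne a ha).symm]
          unfold rw
          rw [Gf_inert hxa hs]
        have h4 : (Kd.R0, x) ∉ nxt a (S.erase a) := by
          rcases a with ⟨_ | _ | _ | _, y⟩
          · intro h'
            rcases Finset.mem_insert.1 h' with h5 | h5
            · simp at h5
            · exact hxa h5
          · exact hxa
          · exact hxa
          · exact hxa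
        have h5 := h.nxt (hmem a ha)
        rw [nxt_insert (hne a ha)] at h5
        have h6 := ih n (Nat.lt_succ_self n) h4 h5
        rw [h3, nxt_insert (hne a ha)]
        congr 1
        have e3 : (fun u => g u * q1 (u - x) * ent a u) = fun u => g u * ent a u * q1 (u - x) := by
          funext u; ring
        have e4 : (fun u => g u * f2 (u - x) * ent a u) = fun u => g u * ent a u * f2 (u - x) := by
          funext u; ring
        rw [e3, e4]
        exact h6
      · refine Finset.sum_congr rfl fun a ha => ?_
        obtain ⟨ha1, ha2⟩ := Zmem ha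
        have haS : a ∈ S := Finset.mem_of_mem_filter _ ha
        have hxa : (Kd.R0, x) ∉ S.erase a := fun h' => hx (Finset.mem_of_mem_erase h')
        have hs : sin (a.2 - x) ≠ 0 :=
          h.sin_ne hw (hmem a haS) hx0 (hne a haS) (p := a.2) (by rw [ha2]; simp [pts])
            (by simp [pts])
        have hs' : sin (a.2 - l - x) ≠ 0 :=
          h.sin_ne hw (hmem a haS) hx0 (hne a haS) (p := a.2 - l) (by rw [ha2]; simp [pts])
            (by simp [pts])
        have h3 : dw a.2 ((insert (Kd.R0, x) S).erase a) (fun u => g u * q1 (u - x)) =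
            dw a.2 (S.erase a) (fun u => g u * f2 (u - x)) := by
          rw [Finset.erase_insert_of_ne (hne a haS).symm]
          unfold dw
          rw [Gf_inert hxa hs, Gf_inert hxa hs']
        rw [h3]
        congr 1
        cases n with
        | zero => rfl
        | succ n =>
          show T n _ _ = T n _ _
          have h5 := (h.erase a).mul (k := fun u => f2 (u - a.2)) (f2_diff a.2)
          rw [Finset.erase_insert_of_ne (hne a haS).symm] at h5 ⊢
          have h6 := ih n (by omega) hxa h5
          have e3 : (fun u => g u * q1 (u - x) * f2 (u - a.2)) =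
              fun u => g u * f2 (u - a.2) * q1 (u - x) := by
            funext u; ring
          have e4 : (fun u => g u * f2 (u - x) * f2 (u - a.2)) =
              fun u => g u * f2 (u - a.2) * f2 (u - x) := by
            funext u; ring
          rw [e3, e4]
          exact h6

/-! ### the string as a variable -/

theorem q1r_diff (p z : ℂ) : DifferentiableAt ℂ (fun w => q1 (p - w)) z := by
  unfold q1
  fun_prop

/-- `w ↦ T n S (g · q1 (· - w))` is entire and grows at most like `e ^ (4 n |Im w|)` -/
theorem T_string (n : ℕ) : ∀ (S : Finset Site) (g : ℂ → ℂ),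
    (∀ w : ℂ, DifferentiableAt ℂ (fun w => T n S (fun u => g u * q1 (u - w))) w) ∧
    ∀ α β : ℝ, Gr α β (4 * n) (fun w => T n S (fun u => g u * q1 (u - w))) := by
  induction n using Nat.strong_induction_on with
  | _ n ih =>
    intro S g
    cases n with
    | zero =>
      refine ⟨fun w => differentiableAt_const _, fun α β => ?_⟩
      simp only [Nat.cast_zero, mul_zero]
      exact Gr.const 1
    | succ n =>
      have hc : ((n : ℂ) + 1) ≠ 0 := Nat.cast_add_one_ne_zero n
      have e : (fun w => T (n + 1) S (fun u => g u * q1 (u - w))) = fun w =>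
          ((n : ℂ) + 1)⁻¹ * (∑ a ∈ S, (rw a (S.erase a) g * q1 (pole a - w)) *
            T n (nxt a (S.erase a)) (fun u => g u * ent a u * q1 (u - w)) +
          ∑ a ∈ Z S, (dw a.2 (S.erase a) g * (q1 (a.2 - w) * q1 (a.2 - l - w))) *
            Tp n (S.erase a) (fun u => g u * f2 (u - a.2) * q1 (u - w))) := by
        funext w
        rw [eq_inv_mul_iff_mul_eq₀ hc, T_succ]
        congr 1
        · refine Finset.sum_congr rfl fun a _ => ?_
          rw [rw_mul]
          congr 2
          funext u; ring
        · refine Finset.sum_congr rfl fun a _ => ?_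
          rw [dw_mul]
          congr 2
          funext u; ring
      rw [e]
      have hn := ih n (Nat.lt_succ_self n)
      constructor
      · intro w
        refine DifferentiableAt.const_mul ?_ _
        refine DifferentiableAt.add ?_ ?_
        · refine DifferentiableAt.fun_sum fun a _ => ?_
          exact ((q1r_diff (pole a) w).const_mul _).mul ((hn _ _).1 w)
        · refine DifferentiableAt.fun_sum fun a _ => ?_
          refine (((q1r_diff a.2 w).mul (q1r_diff (a.2 - l) w)).const_mul _).mul ?_
          cases n with
          | zero => exact differentiableAt_const _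
          | succ n => exact (ih n (by omega) _ _).1 w
      · intro α β
        refine Gr.cmul _ ?_
        refine Gr.add ?_ ?_
        · refine Gr.sum _ fun a _ => ?_
          have h1 := ((Gr.q1r (α := α) (β := β) (pole a)).cmul (rw a (S.erase a) g)).mul
            ((hn (nxt a (S.erase a)) (fun u => g u * ent a u)).2 α β)
          refine h1.mono (le_of_eq ?_)
          push_cast
          ring
        · refine Gr.sum _ fun a _ => ?_
          cases n with
          | zero =>
            simp only [Tp, mul_zero]
            exact Gr.zero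
          | succ n =>
            have h1 := ((((Gr.q1r (α := α) (β := β) a.2).mul (Gr.q1r (a.2 - l))).cmul
              (dw a.2 (S.erase a) g)).mul
              ((ih n (by omega) (S.erase a) (fun u => g u * f2 (u - a.2))).2 α β))
            refine h1.mono (le_of_eq ?_)
            push_cast
            ring

end NUP1

end
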