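import Pool.Agent.NUP1.Grand2

/-!
# Kinds of objects on straight lines: type (quantum or string) and real part of the line
-/

set_option autoImplicit false
set_option linter.unusedSectionVars false

noncomputable section

open Complex MeasureTheory

namespace NUP1.Kn

open Bd (qg)

/-- own pair function by types (`true` = string), `z` = difference of the positions -/
def pz : Bool → Bool → ℂ → ℂ
  | true, true, z => q2 z
  | true, false, z => q1 (-z)
  | false, true, z => q1 z
  | false, false, z => q z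

/-- cross pair function by types -/
def cz : Bool → Bool → ℂ → ℂ
  | true, true, z => qg z * qg z * (qg (z + l) * qg (z - l))
  | true, false, z => qg z * qg (z - l)
  | false, true, z => qg z * qg (z + l)
  | false, false, z => qg z

/-- number of quanta by type -/
def ch : Bool → ℕ
  | true => 2
  | false => 1

theorem ch_pos (s : Bool) : 0 < ch s := by cases s <;> simp [ch]

/-- no pole of the own pair function at distance `x` -/
def oOK : Bool → Bool → ℝ → Prop
  | false, false, x => Real.sin (x + l) ≠ 0 ∧ Real.sin (x - l) ≠ 0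
  | _, _, _ => True

/-- no pole of `qg` at distance `x` -/
def gOK (x : ℝ) : Prop := Real.sin (x + 3 * l) ≠ 0 ∧ Real.sin (x - 3 * l) ≠ 0

/-- no pole of the cross pair function at distance `x` -/
def cOK : Bool → Bool → ℝ → Prop
  | false, false, x => gOK x
  | false, true, x => gOK x ∧ gOK (x + l)
  | true, false, x => gOK x ∧ gOK (x - l)
  | true, true, x => gOK x ∧ gOK (x + l) ∧ gOK (x - l)

theorem gOK_of_abs {x : ℝ} (h : |x| < 3 * l) : gOK x := by
  have hl := Bd.l_pos
  have hx := abs_lt.1 h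
  constructor
  · exact (Bd.sin_pos_of (by linarith) (by linarith)).ne'
  · have := Bd.sin_pos_of (x := -(x - 3 * l)) (by linarith) (by linarith)
    rw [Real.sin_neg] at this
    exact (by linarith : Real.sin (x - 3 * l) < 0).ne

theorem q_bd {x : ℝ} (h1 : Real.sin (x + l) ≠ 0) (h2 : Real.sin (x - l) ≠ 0) :
    ∃ C : ℝ, 0 ≤ C ∧ ∀ z : ℂ, z.re = x → ‖q z‖ ≤ C * Real.exp (2 * |z.im|) :=
  Bd.q_bound' x (abs_pos.2 h1) (abs_pos.2 h2)

theorem qg_bd {x : ℝ} (h : gOK x) :
    ∃ C : ℝ, 0 ≤ C ∧ ∀ z : ℂ, z.re = x → ‖qg z‖ ≤ C * Real.exp (-(2 * |z.im|)) := by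
  have h1 : 0 < |Real.sin (x + 3 * l)| := abs_pos.2 h.1
  have h2 : 0 < |Real.sin (x - 3 * l)| := abs_pos.2 h.2
  refine ⟨4 * ((min |Real.sin (x + 3 * l)| |Real.sin (x - 3 * l)|)⁻¹) ^ 4, by positivity,
    fun z hz => ?_⟩
  subst hz
  refine (Bd.qg_bound z (lt_min h1 h2) (min_le_left _ _) (min_le_right _ _)).trans ?_
  have h3 : (Real.cosh z.im ^ 2)⁻¹ ≤ 4 * Real.exp (-(2 * |z.im|)) := by
    have h4 := Bd.exp_le_cosh z.im
    rw [Real.exp_neg, show 2 * |z.im| = |z.im| + |z.im| by ring, Real.exp_add,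
      ← div_eq_mul_inv, inv_eq_one_div, div_le_div_iff₀ (by positivity) (by positivity)]
    nlinarith [Real.exp_pos |z.im|, Real.cosh_pos z.im]
  calc _ ≤ ((min |Real.sin (z.re + 3 * l)| |Real.sin (z.re - 3 * l)|)⁻¹) ^ 4 *
        (4 * Real.exp (-(2 * |z.im|))) := by gcongr
    _ = _ := by ring

theorem pz_bd (s s' : Bool) {x : ℝ} (h : oOK s s' x) :
    ∃ C : ℝ, 0 ≤ C ∧ ∀ z : ℂ, z.re = x →
      ‖pz s s' z‖ ≤ C * Real.exp (2 * (ch s * ch s' * |z.im|)) := by
  have hq1 : ∀ z : ℂ, ‖q1 z‖ ≤ 1 * Real.exp (2 * (2 * |z.im|)) := by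
    intro z
    have h := (Bd.q1_bound z).trans (Bd.cosh_pow_le z.im 4)
    rw [one_mul]
    refine h.trans (le_of_eq ?_)
    push_cast
    ring_nf
  have hq2 : ∀ z : ℂ, ‖q2 z‖ ≤ 1 * Real.exp (2 * (4 * |z.im|)) := by
    intro z
    have h := (Bd.q2_bound z).trans (Bd.cosh_pow_le z.im 8)
    rw [one_mul]
    refine h.trans (le_of_eq ?_)
    push_cast
    ring_nf
  rcases s with _ | _ <;> rcases s' with _ | _
  · obtain ⟨C, hC, hb⟩ := q_bd h.1 h.2
    refine ⟨C, hC, fun z hz => (hb z hz).trans (le_of_eq ?_)⟩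
    simp [ch]
  · refine ⟨1, zero_le_one, fun z _ => (hq1 z).trans (le_of_eq ?_)⟩
    simp [ch]
  · refine ⟨1, zero_le_one, fun z _ => ?_⟩
    have := hq1 (-z)
    rw [neg_im, abs_neg] at this
    refine this.trans (le_of_eq ?_)
    simp [ch]
  · refine ⟨1, zero_le_one, fun z _ => (hq2 z).trans (le_of_eq ?_)⟩
    simp only [ch]
    push_cast
    ring_nf

theorem cz_bd (s s' : Bool) {x : ℝ} (h : cOK s s' x) :
    ∃ C : ℝ, 0 ≤ C ∧ ∀ z : ℂ, z.re = x →
      ‖cz s s' z‖ ≤ C * Real.exp (-(2 * (ch s * ch s' * |z.im|))) := by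
  have twop : gOK x → gOK (x + l) →
      ∃ C : ℝ, 0 ≤ C ∧ ∀ z : ℂ, z.re = x → ‖qg z * qg (z + l)‖ ≤
        C * Real.exp (-(2 * (2 * |z.im|))) := by
    intro hx hy
    obtain ⟨C, hC, hf⟩ := qg_bd hx
    obtain ⟨D, hD, hg⟩ := qg_bd hy
    refine ⟨C * D, mul_nonneg hC hD, fun z hz => ?_⟩
    have := Bd.mul_bound (a := 2) (b := 2) hC hf hg z hz
    refine this.trans (le_of_eq ?_)
    ring_nf
  have twom : gOK x → gOK (x - l) →
      ∃ C : ℝ, 0 ≤ C ∧ ∀ z : ℂ, z.re = x → ‖qg z * qg (z - l)‖ ≤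
        C * Real.exp (-(2 * (2 * |z.im|))) := by
    intro hx hy
    obtain ⟨C, hC, hf⟩ := qg_bd hx
    obtain ⟨D, hD, hg⟩ := qg_bd (x := x + -l) (by rwa [← sub_eq_add_neg])
    refine ⟨C * D, mul_nonneg hC hD, fun z hz => ?_⟩
    have := Bd.mul_bound (a := 2) (b := 2) hC hf hg z hz
    rw [ofReal_neg, ← sub_eq_add_neg] at this
    refine this.trans (le_of_eq ?_)
    ring_nf
  rcases s with _ | _ <;> rcases s' with _ | _
  · obtain ⟨C, hC, hb⟩ := qg_bd h
    refine ⟨C, hC, fun z hz => (hb z hz).trans (le_of_eq ?_)⟩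
    simp [ch]
  · obtain ⟨C, hC, hb⟩ := twop h.1 h.2
    refine ⟨C, hC, fun z hz => (hb z hz).trans (le_of_eq ?_)⟩
    simp [ch]
  · obtain ⟨C, hC, hb⟩ := twom h.1 h.2
    refine ⟨C, hC, fun z hz => (hb z hz).trans (le_of_eq ?_)⟩
    simp [ch]
  · obtain ⟨C, hC, hb⟩ := twop h.1 h.2.1
    obtain ⟨D, hD, hb'⟩ := twom h.1 h.2.2
    refine ⟨C * D, mul_nonneg hC hD, fun z hz => ?_⟩
    have e : cz true true z = (qg z * qg (z + l)) * (qg z * qg (z - l)) := by
      simp only [cz]
      ring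
    rw [e, norm_mul]
    calc _ ≤ (C * Real.exp (-(2 * (2 * |z.im|)))) * (D * Real.exp (-(2 * (2 * |z.im|)))) :=
          mul_le_mul (hb z hz) (hb' z hz) (norm_nonneg _) (by positivity)
      _ = C * D * Real.exp (-(2 * (2 * |z.im|)) + -(2 * (2 * |z.im|))) := by
          rw [Real.exp_add]
          ring
      _ = _ := by
          simp only [ch]
          push_cast
          ring_nf

theorem measurable_pz (s s' : Bool) : Measurable (pz s s') := by
  rcases s with _ | _ <;> rcases s' with _ | _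
  · exact Bd.measurable_q
  · exact Bd.measurable_q1
  · exact Bd.measurable_q1.comp measurable_neg
  · exact Bd.measurable_q2

theorem measurable_cz (s s' : Bool) : Measurable (cz s s') := by
  have h1 := Bd.measurable_qg
  have h2 : Measurable fun z : ℂ => qg (z + l) := h1.comp (measurable_id.add_const _)
  have h3 : Measurable fun z : ℂ => qg (z - l) := h1.comp (measurable_id.sub_const _)
  rcases s with _ | _ <;> rcases s' with _ | _
  · exact h1
  · exact h1.mul h2
  · exact h1.mul h3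
  · exact (h1.mul h1).mul (h2.mul h3)

theorem measurable_vl (σ : ℝ) : Measurable (vl σ) := by
  unfold vl
  fun_prop

/-! ## systems of kinds on lines -/

section Sys

variable {κ : Type*} [Fintype κ] (ty : κ → Bool) (re : κ → ℝ)

/-- own pair weight of two kinds -/
def pw (k k' : κ) (t t' : ℝ) : ℂ := pz (ty k) (ty k') (vl (re k) t - vl (re k') t')

/-- cross pair weight of two kinds -/
def cw (k k' : κ) (t t' : ℝ) : ℂ := cz (ty k) (ty k') (vl (re k) t - vl (re k') t')

/-- number of quanta of a kind -/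
def cg (k : κ) : ℕ := ch (ty k)

theorem measurable_pw (k k' : κ) : Measurable fun p : ℝ × ℝ => pw ty re k k' p.1 p.2 :=
  (measurable_pz _ _).comp (((measurable_vl _).comp measurable_fst).sub
    ((measurable_vl _).comp measurable_snd))

theorem measurable_cw (k k' : κ) : Measurable fun p : ℝ × ℝ => cw ty re k k' p.1 p.2 :=
  (measurable_cz _ _).comp (((measurable_vl _).comp measurable_fst).sub
    ((measurable_vl _).comp measurable_snd))

theorem vl_sub_re (a b s t : ℝ) : (vl a s - vl b t).re = a - b := by simp [vl]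

theorem vl_sub_im (a b s t : ℝ) : (vl a s - vl b t).im = s - t := by simp [vl]

/-- one constant for all pairs of kinds -/
theorem bounds (ho : ∀ k k', oOK (ty k) (ty k') (re k - re k'))
    (hc : ∀ k k', cOK (ty k) (ty k') (re k - re k')) :
    ∃ C : ℝ, 1 ≤ C ∧
      (∀ k k' t t', ‖pw ty re k k' t t'‖ ≤
        C * Real.exp (2 * (cg ty k * cg ty k' * |t - t'|))) ∧
      ∀ k k' t t', ‖cw ty re k k' t t'‖ ≤
        C * Real.exp (-(2 * (cg ty k * cg ty k' * |t - t'|))) := by
  choose C hC h using fun k k' => pz_bd (ty k) (ty k') (ho k k')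
  choose D hD h' using fun k k' => cz_bd (ty k) (ty k') (hc k k')
  have s0 : ∀ k, 0 ≤ ∑ k', (C k k' + D k k') := fun k =>
    Finset.sum_nonneg fun k' _ => add_nonneg (hC k k') (hD k k')
  have s1 : ∀ k k', C k k' + D k k' ≤ 1 + ∑ k, ∑ k', (C k k' + D k k') := by
    intro k k'
    have a1 : C k k' + D k k' ≤ ∑ k', (C k k' + D k k') :=
      Finset.single_le_sum (f := fun k' => C k k' + D k k')
        (fun k' _ => add_nonneg (hC k k') (hD k k')) (Finset.mem_univ k')
    have a2 : ∑ k', (C k k' + D k k') ≤ ∑ k, ∑ k', (C k k' + D k k') :=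
      Finset.single_le_sum (f := fun k => ∑ k', (C k k' + D k k')) (fun k _ => s0 k)
        (Finset.mem_univ k)
    linarith
  refine ⟨1 + ∑ k, ∑ k', (C k k' + D k k'), ?_, fun k k' t t' => ?_, fun k k' t t' => ?_⟩
  · have := Finset.sum_nonneg fun k (_ : k ∈ Finset.univ) => s0 k
    linarith
  · have := h k k' (vl (re k) t - vl (re k') t') (vl_sub_re _ _ _ _)
    rw [vl_sub_im] at this
    refine this.trans (mul_le_mul_of_nonneg_right ?_ (Real.exp_pos _).le)
    linarith [s1 k k', hD k k']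
  · have := h' k k' (vl (re k) t - vl (re k') t') (vl_sub_re _ _ _ _)
    rw [vl_sub_im] at this
    refine this.trans (mul_le_mul_of_nonneg_right ?_ (Real.exp_pos _).le)
    linarith [s1 k k', hC k k']

/-- **Integrability of the joint integrand of a system of kinds on lines.** -/
theorem integrable (ho : ∀ k k', oOK (ty k) (ty k') (re k - re k'))
    (hc : ∀ k k', cOK (ty k) (ty k') (re k - re k')) {D κ₀ : ℝ} (hκ : 0 < κ₀)
    {hX hY : κ → ℝ → ℂ} (hmX : ∀ k, Measurable (hX k)) (hmY : ∀ k, Measurable (hY k))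
    (hhX : ∀ k t, ‖hX k t‖ ≤ D * Real.exp (-(κ₀ * cg ty k * |t|)))
    (hhY : ∀ k t, ‖hY k t‖ ≤ D * Real.exp (-(κ₀ * cg ty k * |t|)))
    {r r' : ℕ} (k : Fin r → κ) (k' : Fin r' → κ)
    (hk : ∑ i, cg ty (k i) = ∑ j, cg ty (k' j)) :
    Integrable (Grand2.F (pw ty re) (cw ty re) hX hY k k')
      ((Measure.pi fun _ => volume).prod (Measure.pi fun _ => volume)) := by
  obtain ⟨C, hC, h1, h2⟩ := bounds ty re ho hc
  exact Grand2.integrable_F (chg := cg ty) (fun k => ch_pos _) hC h1 h2 (measurable_pw ty re)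
    (measurable_cw ty re) hκ hmX hmY hhX hhY k k' hk

end Sys

end NUP1.Kn

end
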