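import Pool.Agent.NUP1.Str

/-!
# The exact contour identity, one species: `K n (Gf S g) = T n S g`
-/

set_option autoImplicit false

noncomputable section

open Complex MeasureTheory

namespace NUP1

variable {α β κ : ℝ} {S : Finset Site} {g : ℂ → ℂ}

/-! ### decay after one step -/

theorem gen_high (hR : ∀ a ∈ S, |a.2.im| < κ) {z : ℂ} (hz : κ ≤ |z.im|) : Gen S z.im :=
  fun a ha h => by
    have := hR a ha
    rw [← h] at this
    linarith

/-- decay of the one body function with one more quantum on `a` -/
theorem gr_nxt (h : Good α β S g) (hG : Gr α β (-κ) (Gf S g)) {a : Site} (ha : a ∈ S) :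
    Gr α β (-(κ - 2)) (Gf (nxt a (S.erase a)) (fun u => g u * ent a u)) := by
  obtain ⟨R, hR⟩ := exists_high S
  have h1 := (hG.mul (Gr.q (α := α) (β := β) (pole a))).congr R
    (g := Gf (nxt a (S.erase a)) (fun u => g u * ent a u)) fun z _ _ hz => by
      rw [Gf_nxt' h ha (gen_high hR hz), q_comm]
  exact h1.mono (le_of_eq (by ring))

/-- decay of the one body function with a string on the row `a` -/
theorem gr_str (hG : Gr α β (-κ) (Gf S g)) {a : Site} (ha : a ∈ Z S) :
    Gr α β (-(κ - 4)) (Gf (S.erase a) (fun u => g u * f2 (u - a.2))) := by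
  obtain ⟨R, hR⟩ := exists_high S
  obtain ⟨ha1, ha2⟩ := Zmem ha
  have h1 := (hG.mul ((Gr.q (α := α) (β := β) a.2).mul (Gr.q (a.2 - l)))).congr R
    (g := Gf (S.erase a) (fun u => g u * f2 (u - a.2))) fun z _ _ hz => by
      have e := Gf_str (g := g) ha1 (gen_high hR hz)
      rw [← ha2] at e
      rw [← e, q_comm, q_comm (a.2 - l)]
  exact h1.mono (le_of_eq (by ring))

theorem gr_site (hG : Gr α β (-κ) (Gf S g)) {s : Site} (hs : s ∉ S)
    (hk : s.1 = Kd.VA ∨ s.1 = Kd.VL) : Gr α β (-(κ - 2)) (Gf (insert s S) g) := by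
  have h1 := (hG.mul (Gr.q (α := α) (β := β) s.2)).congr 0 (g := Gf (insert s S) g)
    fun z _ _ _ => by
      rw [Gf_insert hs]
      obtain ⟨k, x⟩ := s
      rcases hk with hk | hk <;> simp only at hk <;> subst hk <;> rfl
  exact h1.mono (le_of_eq (by ring))

theorem gr_strv (hG : Gr α β (-κ) (Gf S g)) (w : ℂ) :
    Gr α β (-(κ - 4)) (Gf S (fun u => g u * q1 (u - w))) := by
  have h1 := (hG.mul (Gr.q1 (α := α) (β := β) w)).congr 0
    (g := Gf S (fun u => g u * q1 (u - w))) fun z _ _ _ => Gf_mul _ _
  exact h1.mono (le_of_eq (by ring))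

theorem Good.str (h : Good α β S g) (a : Site) :
    Good α β (S.erase a) (fun u => g u * f2 (u - a.2)) :=
  (h.erase a).mul (k := fun u => f2 (u - a.2)) (f2_diff a.2)

/-! ### integrability -/

theorem cast_ne (n : ℕ) : ((n : ℂ) + 1) ≠ 0 := Nat.cast_add_one_ne_zero n

/-- the integrands of the lines A and L are integrable -/
theorem int_lines (hw : Wd α β) (n : ℕ) : ∀ {S : Finset Site} {g : ℂ → ℂ} {κ : ℝ},
    Good α β S g → 2 * (n : ℝ) < κ → Gr α β (-κ) (Gf S g) →
    Integrable (fun t : ℝ => FA n S g (vl α t)) ∧ Integrable (fun t : ℝ => FL n S g (vl β t)) := by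
  induction n using Nat.strong_induction_on with
  | _ n ih =>
    intro S g κ h hk hG
    cases n with
    | zero =>
      have h1 := base hw h (by simpa using hk) hG
      constructor
      · simpa [FA, T] using h1.1
      · simpa [FL, T] using h1.2.1
    | succ n =>
      push_cast at hk
      have hM := string hw h n (by linarith) hG
      have hMb : Integrable (fun t : ℝ => FM n S g (vl β t + l)) := by
        refine hM.2.1.congr (Filter.Eventually.of_forall fun t => ?_)
        show FM n S g (vl (β + l) t) = FM n S g (vl β t + l)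
        congr 1
        unfold vl
        push_cast
        ring
      have h1 : ∀ a ∈ S, _ := fun a ha => ih n (Nat.lt_succ_self n) (h.nxt ha)
        (by linarith : 2 * (n : ℝ) < κ - 2) (gr_nxt h hG ha)
      have h2 : ∀ a ∈ Z S,
          Integrable (fun t : ℝ => sh FA n (S.erase a) (fun u => g u * f2 (u - a.2)) (vl α t)) ∧
          Integrable (fun t : ℝ => sh FL n (S.erase a) (fun u => g u * f2 (u - a.2)) (vl β t)) := by
        intro a ha
        cases n with
        | zero => exact ⟨integrable_zero _ _ _, integrable_zero _ _ _⟩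
        | succ n =>
          exact ih n (by omega) (h.str a) (by push_cast at hk ⊢; linarith : 2 * (n : ℝ) < κ - 4)
            (gr_str hG ha)
      constructor
      · have i1 : Integrable (fun t : ℝ => ((n : ℂ) + 1)⁻¹ *
            (∑ a ∈ S, rw a (S.erase a) g *
              FA n (nxt a (S.erase a)) (fun u => g u * ent a u) (vl α t) -
            rho * FM n S g (vl α t) +
            ∑ a ∈ Z S, dw a.2 (S.erase a) g *
              sh FA n (S.erase a) (fun u => g u * f2 (u - a.2)) (vl α t))) := by
          refine Integrable.const_mul ?_ _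
          refine Integrable.add (Integrable.sub ?_ (hM.1.const_mul rho)) ?_
          · exact integrable_finsetSum S fun a ha => (h1 a ha).1.const_mul _
          · exact integrable_finsetSum (Z S) fun a ha => (h2 a ha).1.const_mul _
        refine i1.congr ?_
        filter_upwards [gen_ae S] with t ht
        rw [inv_mul_eq_iff_eq_mul₀ (cast_ne n), FA_succ h n (by simpa using ht)]
      · have i1 : Integrable (fun t : ℝ => ((n : ℂ) + 1)⁻¹ *
            (∑ a ∈ S, rw a (S.erase a) g *
              FL n (nxt a (S.erase a)) (fun u => g u * ent a u) (vl β t) +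
            rho * FM n S g (vl β t + l) +
            ∑ a ∈ Z S, dw a.2 (S.erase a) g *
              sh FL n (S.erase a) (fun u => g u * f2 (u - a.2)) (vl β t))) := by
          refine Integrable.const_mul ?_ _
          refine Integrable.add (Integrable.add ?_ (hMb.const_mul rho)) ?_
          · exact integrable_finsetSum S fun a ha => (h1 a ha).2.const_mul _
          · exact integrable_finsetSum (Z S) fun a ha => (h2 a ha).2.const_mul _
        refine i1.congr ?_
        filter_upwards [gen_ae S] with t ht
        rw [inv_mul_eq_iff_eq_mul₀ (cast_ne n), FL_succ h n (by simpa using ht)]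

/-! ### integrated recurrences -/

theorem LI_congr {σ : ℝ} {f f' : ℂ → ℂ}
    (h : (fun t : ℝ => f (vl σ t)) =ᵐ[volume] fun t : ℝ => f' (vl σ t)) : LI σ f = LI σ f' := by
  unfold LI
  rw [integral_congr_ae h]

theorem LI_add {σ : ℝ} {f f' : ℂ → ℂ} (h : Integrable (fun t : ℝ => f (vl σ t)))
    (h' : Integrable (fun t : ℝ => f' (vl σ t))) :
    LI σ (fun v => f v + f' v) = LI σ f + LI σ f' := by
  unfold LI
  rw [integral_add h h', mul_add]

theorem LI_sub {σ : ℝ} {f f' : ℂ → ℂ} (h : Integrable (fun t : ℝ => f (vl σ t)))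
    (h' : Integrable (fun t : ℝ => f' (vl σ t))) :
    LI σ (fun v => f v - f' v) = LI σ f - LI σ f' := by
  unfold LI
  rw [integral_sub h h', mul_sub]

theorem LI_mul {σ : ℝ} {f : ℂ → ℂ} (c : ℂ) : LI σ (fun v => c * f v) = c * LI σ f := by
  unfold LI
  rw [integral_const_mul]
  ring

theorem LI_sum {σ : ℝ} {ι : Type*} (s : Finset ι) {F : ι → ℂ → ℂ}
    (h : ∀ i ∈ s, Integrable (fun t : ℝ => F i (vl σ t))) :
    LI σ (fun v => ∑ i ∈ s, F i v) = ∑ i ∈ s, LI σ (F i) := by
  unfold LI
  rw [integral_finsetSum s h, Finset.mul_sum]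

theorem LI_zero {σ : ℝ} : LI σ (fun _ => 0) = 0 := by
  unfold LI
  simp

/-- the combination of the three lines -/
def La (α β : ℝ) (n : ℕ) (S : Finset Site) (g : ℂ → ℂ) : ℂ :=
  LI α (FA n S g) - LI β (FL n S g) + 2 * rho * LI (β + l) (sh FM n S g)

/-- shifted index -/
def La' (α β : ℝ) (n : ℕ) (S : Finset Site) (g : ℂ → ℂ) : ℂ :=
  LI α (sh FA n S g) - LI β (sh FL n S g) + 2 * rho * LI (β + l) (sh (sh FM) n S g)

theorem sh_apply (F : ℕ → Finset Site → (ℂ → ℂ) → ℂ → ℂ) (n : ℕ) (S : Finset Site)
    (g : ℂ → ℂ) (v : ℂ) : sh F n S g v = if n = 0 then 0 else F (n - 1) S g v := by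
  cases n <;> simp [sh]

/-- integrated recurrence -/
theorem La_succ (hw : Wd α β) (n : ℕ) (h : Good α β S g) (hk : 2 * ((n : ℝ) + 1) < κ)
    (hG : Gr α β (-κ) (Gf S g)) :
    ((n : ℂ) + 1) * La α β (n + 1) S g =
      ∑ a ∈ S, rw a (S.erase a) g * La α β n (nxt a (S.erase a)) (fun u => g u * ent a u) +
      ∑ a ∈ Z S, dw a.2 (S.erase a) g * La' α β n (S.erase a) (fun u => g u * f2 (u - a.2)) +
      ∑ a ∈ Z S, dw a.2 (S.erase a) g * T n (S.erase a) (fun u => g u * f2 (u - a.2)) := by
  have hM := string hw h n (by linarith) hG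
  have hMb : Integrable (fun t : ℝ => FM n S g (vl β t + l)) := by
    refine hM.2.1.congr (Filter.Eventually.of_forall fun t => ?_)
    show FM n S g (vl (β + l) t) = FM n S g (vl β t + l)
    congr 1
    unfold vl
    push_cast
    ring
  have h1 : ∀ a ∈ S, _ := fun a ha => int_lines hw n (h.nxt ha)
    (by linarith : 2 * (n : ℝ) < κ - 2) (gr_nxt h hG ha)
  have h2 : ∀ a ∈ Z S,
      Integrable (fun t : ℝ => sh FA n (S.erase a) (fun u => g u * f2 (u - a.2)) (vl α t)) ∧
      Integrable (fun t : ℝ => sh FL n (S.erase a) (fun u => g u * f2 (u - a.2)) (vl β t)) := by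
    intro a ha
    cases n with
    | zero => exact ⟨integrable_zero _ _ _, integrable_zero _ _ _⟩
    | succ n =>
      exact int_lines hw n (h.str a) (by push_cast at hk ⊢; linarith : 2 * (n : ℝ) < κ - 4)
        (gr_str hG ha)
  -- strings, one lower
  have h3 : ∀ a ∈ S, Integrable (fun t : ℝ =>
      sh FM n (nxt a (S.erase a)) (fun u => g u * ent a u) (vl (β + l) t)) := by
    intro a ha
    cases n with
    | zero => exact integrable_zero _ _ _
    | succ n =>
      exact (string hw (h.nxt ha) n (by push_cast at hk ⊢; linarith : 2 * (n : ℝ) < κ - 2)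
        (gr_nxt h hG ha)).2.1
  have h4 : ∀ a ∈ Z S, Integrable (fun t : ℝ =>
      sh (sh FM) n (S.erase a) (fun u => g u * f2 (u - a.2)) (vl (β + l) t)) := by
    intro a ha
    cases n with
    | zero => exact integrable_zero _ _ _
    | succ n =>
      cases n with
      | zero => exact integrable_zero _ _ _
      | succ n =>
        exact (string hw (h.str a) n (by push_cast at hk ⊢; linarith : 2 * (n : ℝ) < κ - 4)
          (gr_str hG ha)).2.1
  have eA : ((n : ℂ) + 1) * LI α (FA (n + 1) S g) =
      ∑ a ∈ S, rw a (S.erase a) g * LI α (FA n (nxt a (S.erase a)) (fun u => g u * ent a u)) -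
      rho * LI α (FM n S g) +
      ∑ a ∈ Z S, dw a.2 (S.erase a) g *
        LI α (sh FA n (S.erase a) (fun u => g u * f2 (u - a.2))) := by
    rw [← LI_mul, LI_congr (f' := fun v => ∑ a ∈ S, rw a (S.erase a) g *
        FA n (nxt a (S.erase a)) (fun u => g u * ent a u) v - rho * FM n S g v +
      ∑ a ∈ Z S, dw a.2 (S.erase a) g *
        sh FA n (S.erase a) (fun u => g u * f2 (u - a.2)) v)]
    · rw [LI_add, LI_sub, LI_sum, LI_sum, LI_mul]
      · simp only [LI_mul]
      · exact fun a ha => (h2 a ha).1.const_mul _
      · exact fun a ha => (h1 a ha).1.const_mul _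
      · exact integrable_finsetSum S fun a ha => (h1 a ha).1.const_mul _
      · exact hM.1.const_mul rho
      · exact (integrable_finsetSum S fun a ha => (h1 a ha).1.const_mul _).sub (hM.1.const_mul rho)
      · exact integrable_finsetSum (Z S) fun a ha => (h2 a ha).1.const_mul _
    · filter_upwards [gen_ae S] with t ht
      rw [FA_succ h n (by simpa using ht)]
  have eL : ((n : ℂ) + 1) * LI β (FL (n + 1) S g) =
      ∑ a ∈ S, rw a (S.erase a) g * LI β (FL n (nxt a (S.erase a)) (fun u => g u * ent a u)) +
      rho * LI (β + l) (FM n S g) +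
      ∑ a ∈ Z S, dw a.2 (S.erase a) g *
        LI β (sh FL n (S.erase a) (fun u => g u * f2 (u - a.2))) := by
    have e0 : LI (β + l) (FM n S g) = LI β (fun v => FM n S g (v + l)) := by
      unfold LI
      congr 1
      refine integral_congr_ae (Filter.Eventually.of_forall fun t => ?_)
      show FM n S g (vl (β + l) t) = FM n S g (vl β t + l)
      congr 1
      unfold vl
      push_cast
      ring
    rw [e0, ← LI_mul, LI_congr (f' := fun v => ∑ a ∈ S, rw a (S.erase a) g *
        FL n (nxt a (S.erase a)) (fun u => g u * ent a u) v + rho * FM n S g (v + l) +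
      ∑ a ∈ Z S, dw a.2 (S.erase a) g *
        sh FL n (S.erase a) (fun u => g u * f2 (u - a.2)) v)]
    · rw [LI_add, LI_add, LI_sum, LI_sum, LI_mul]
      · simp only [LI_mul]
      · exact fun a ha => (h2 a ha).2.const_mul _
      · exact fun a ha => (h1 a ha).2.const_mul _
      · exact integrable_finsetSum S fun a ha => (h1 a ha).2.const_mul _
      · exact hMb.const_mul rho
      · exact (integrable_finsetSum S fun a ha => (h1 a ha).2.const_mul _).add (hMb.const_mul rho)
      · exact integrable_finsetSum (Z S) fun a ha => (h2 a ha).2.const_mul _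
    · filter_upwards [gen_ae S] with t ht
      rw [FL_succ h n (by simpa using ht)]
  have eM : (n : ℂ) * LI (β + l) (FM n S g) =
      ∑ a ∈ S, rw a (S.erase a) g *
        LI (β + l) (sh FM n (nxt a (S.erase a)) (fun u => g u * ent a u)) +
      ∑ a ∈ Z S, dw a.2 (S.erase a) g *
        LI (β + l) (sh (sh FM) n (S.erase a) (fun u => g u * f2 (u - a.2))) := by
    cases n with
    | zero =>
      have z1 : ∀ S g, sh FM 0 S g = fun _ => 0 := fun S g => funext fun v => rfl
      have z2 : ∀ S g, sh (sh FM) 0 S g = fun _ => 0 := fun S g => funext fun v => rfl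
      simp [z1, z2, LI_zero]
    | succ n =>
      rw [← LI_mul, LI_congr (f' := fun v => ∑ a ∈ S, rw a (S.erase a) g *
          sh FM (n + 1) (nxt a (S.erase a)) (fun u => g u * ent a u) v +
        ∑ a ∈ Z S, dw a.2 (S.erase a) g *
          sh (sh FM) (n + 1) (S.erase a) (fun u => g u * f2 (u - a.2)) v)]
      · rw [LI_add, LI_sum, LI_sum]
        · simp only [LI_mul]
        · exact fun a ha => (h4 a ha).const_mul _
        · exact fun a ha => (h3 a ha).const_mul _
        · exact integrable_finsetSum S fun a ha => (h3 a ha).const_mul _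
        · exact integrable_finsetSum (Z S) fun a ha => (h4 a ha).const_mul _
      · filter_upwards [gen_ae S] with t ht
        push_cast
        rw [FM_succ h n (by simpa using ht)]
        rfl
  have eS := hM.2.2
  have eT : La α β (n + 1) S g = LI α (FA (n + 1) S g) - LI β (FL (n + 1) S g) +
      2 * rho * LI (β + l) (FM n S g) := rfl
  rw [eT]
  have e5 : ((n : ℂ) + 1) * (LI α (FA (n + 1) S g) - LI β (FL (n + 1) S g) +
      2 * rho * LI (β + l) (FM n S g)) =
      (∑ a ∈ S, rw a (S.erase a) g * LI α (FA n (nxt a (S.erase a)) (fun u => g u * ent a u)) -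
        ∑ a ∈ S, rw a (S.erase a) g * LI β (FL n (nxt a (S.erase a)) (fun u => g u * ent a u)) +
        2 * rho * ∑ a ∈ S, rw a (S.erase a) g *
          LI (β + l) (sh FM n (nxt a (S.erase a)) (fun u => g u * ent a u))) +
      (∑ a ∈ Z S, dw a.2 (S.erase a) g *
          LI α (sh FA n (S.erase a) (fun u => g u * f2 (u - a.2))) -
        ∑ a ∈ Z S, dw a.2 (S.erase a) g *
          LI β (sh FL n (S.erase a) (fun u => g u * f2 (u - a.2))) +
        2 * rho * ∑ a ∈ Z S, dw a.2 (S.erase a) g *
          LI (β + l) (sh (sh FM) n (S.erase a) (fun u => g u * f2 (u - a.2)))) +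
      (-rho * (LI α (FM n S g) - LI (β + l) (FM n S g))) := by
    linear_combination eA - eL + 2 * rho * eM
  rw [e5, eS]
  congr 1
  congr 1
  · rw [← Finset.sum_sub_distrib, Finset.mul_sum, ← Finset.sum_add_distrib]
    refine Finset.sum_congr rfl fun a _ => ?_
    unfold La
    ring
  · rw [← Finset.sum_sub_distrib, Finset.mul_sum, ← Finset.sum_add_distrib]
    refine Finset.sum_congr rfl fun a _ => ?_
    unfold La'
    ring

/-- **the three lines give the sum over the states** -/
theorem La_eq (hw : Wd α β) (n : ℕ) : ∀ {S : Finset Site} {g : ℂ → ℂ} {κ : ℝ},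
    Good α β S g → 2 * (n : ℝ) < κ → Gr α β (-κ) (Gf S g) →
    La α β n S g = ((n : ℂ) + 1) * T (n + 1) S g := by
  induction n using Nat.strong_induction_on with
  | _ n ih =>
    intro S g κ h hk hG
    cases n with
    | zero =>
      have h1 := (base hw h (by simpa using hk) hG).2.2
      have z1 : sh FM 0 S g = fun _ => 0 := funext fun v => rfl
      have z2 : FA 0 S g = Gf S g := funext fun v => by simp [FA, T]
      have z3 : FL 0 S g = Gf S g := funext fun v => by simp [FL, T]
      unfold La
      rw [z1, z2, z3, LI_zero, h1]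
      simp [T]
    | succ n =>
      have hk' : 2 * ((n : ℝ) + 1) < κ := by push_cast at hk; exact hk
      apply mul_left_cancel₀ (cast_ne n)
      rw [La_succ hw n h hk' hG, T_succ]
      have h1 : ∀ a ∈ S, La α β n (nxt a (S.erase a)) (fun u => g u * ent a u) =
          ((n : ℂ) + 1) * T (n + 1) (nxt a (S.erase a)) (fun u => g u * ent a u) := fun a ha =>
        ih n (Nat.lt_succ_self n) (h.nxt ha) (by linarith : 2 * (n : ℝ) < κ - 2) (gr_nxt h hG ha)
      have h2 : ∀ a ∈ Z S, La' α β n (S.erase a) (fun u => g u * f2 (u - a.2)) =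
          (n : ℂ) * T n (S.erase a) (fun u => g u * f2 (u - a.2)) := by
        intro a ha
        cases n with
        | zero =>
          have z1 : ∀ S g, sh FA 0 S g = fun _ => 0 := fun S g => funext fun v => rfl
          have z2 : ∀ S g, sh FL 0 S g = fun _ => 0 := fun S g => funext fun v => rfl
          have z3 : ∀ S g, sh (sh FM) 0 S g = fun _ => 0 := fun S g => funext fun v => rfl
          unfold La'
          rw [z1, z2, z3, LI_zero, LI_zero, LI_zero]
          simp
        | succ n =>
          have := ih n (by omega) (h.str a)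
            (by push_cast at hk ⊢; linarith : 2 * (n : ℝ) < κ - 4) (gr_str hG ha)
          push_cast
          exact this
      rw [Finset.sum_congr rfl fun a ha => by rw [h1 a ha],
        Finset.sum_congr (s₁ := Z S) rfl fun a ha => by rw [h2 a ha]]
      rw [mul_add, Finset.mul_sum, Finset.mul_sum, add_assoc, ← Finset.sum_add_distrib]
      congr 1
      · refine Finset.sum_congr rfl fun a _ => ?_
        ring
      · refine Finset.sum_congr rfl fun a _ => ?_
        show _ = ((n : ℂ) + 1) * (_ * T n _ _)
        ring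

/-- **The exact contour identity (one species).** -/
theorem main (hw : Wd α β) (n : ℕ) : ∀ {S : Finset Site} {g : ℂ → ℂ} {κ : ℝ},
    Good α β S g → 2 * ((n : ℝ) - 1) < κ → Gr α β (-κ) (Gf S g) →
    K α β n (Gf S g) = T n S g := by
  induction n using Nat.strong_induction_on with
  | _ n ih =>
    intro S g κ h hk hG
    rcases n with _ | _ | n
    · rfl
    · have h1 := (base hw h (by simpa using hk) hG).2.2
      exact h1
    · push_cast at hk
      have hk' : 2 * ((n + 1 : ℕ) : ℝ) < κ := by push_cast; linarith
      have hLa := La_eq hw (n + 1) h hk' hG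
      have hc : ((n : ℂ) + 2) ≠ 0 := by
        have : ((n : ℂ) + 2) = ((n + 2 : ℕ) : ℂ) := by push_cast; ring
        rw [this]
        exact Nat.cast_ne_zero.2 (Nat.succ_ne_zero (n + 1))
      show ((n : ℂ) + 2)⁻¹ *
        (LI α (fun v => Gf S g v * K α β (n + 1) (fun u => Gf S g u * q (u - v))) -
         LI β (fun v => Gf S g v * K α β (n + 1) (fun u => Gf S g u * q (u - v))) +
         2 * rho * LI (β + l) (fun w => Gf S g w * Gf S g (w - l) *
          K α β n (fun u => Gf S g u * q1 (u - w)))) = T (n + 2) S g
      rw [inv_mul_eq_iff_eq_mul₀ hc]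
      have eA : LI α (fun v => Gf S g v * K α β (n + 1) (fun u => Gf S g u * q (u - v))) =
          LI α (FA (n + 1) S g) := by
        refine LI_congr ?_
        filter_upwards [gen_ae S] with t ht
        have hg : Gen S (vl α t).im := by simpa using ht
        have hs : (Kd.VA, vl α t) ∉ S := Gen.notMem (s := (Kd.VA, vl α t)) hg
        have e : (fun u => Gf S g u * q (u - vl α t)) = Gf (insert (Kd.VA, vl α t) S) g := by
          funext u
          rw [Gf_insert hs]
          rfl
        have h3 := ih (n + 1) (by omega) (h.add (s := (Kd.VA, vl α t)) (vlre α t) hg)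
          (by push_cast; linarith : 2 * (((n + 1 : ℕ) : ℝ) - 1) < κ - 2)
          (gr_site hG hs (Or.inl rfl))
        rw [e, h3]
        rfl
      have eL : LI β (fun v => Gf S g v * K α β (n + 1) (fun u => Gf S g u * q (u - v))) =
          LI β (FL (n + 1) S g) := by
        refine LI_congr ?_
        filter_upwards [gen_ae S] with t ht
        have hg : Gen S (vl β t).im := by simpa using ht
        have hs : (Kd.VL, vl β t) ∉ S := Gen.notMem (s := (Kd.VL, vl β t)) hg
        have e : (fun u => Gf S g u * q (u - vl β t)) = Gf (insert (Kd.VL, vl β t) S) g := by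
          funext u
          rw [Gf_insert hs]
          rfl
        have h3 := ih (n + 1) (by omega) (h.add (s := (Kd.VL, vl β t)) (vlre β t) hg)
          (by push_cast; linarith : 2 * (((n + 1 : ℕ) : ℝ) - 1) < κ - 2)
          (gr_site hG hs (Or.inr rfl))
        rw [e, h3]
        rfl
      have eM : (fun w => Gf S g w * Gf S g (w - l) *
          K α β n (fun u => Gf S g u * q1 (u - w))) = FM n S g := by
        funext w
        have e : (fun u => Gf S g u * q1 (u - w)) = Gf S (fun u => g u * q1 (u - w)) := by
          funext u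
          rw [Gf_mul]
        have h3 := ih n (by omega) (h.mul (k := fun u => q1 (u - w)) (q1_diff w))
          (by linarith : 2 * ((n : ℝ) - 1) < κ - 4) (gr_strv hG w)
        rw [e, h3]
        rfl
      rw [eA, eL, eM]
      have : La α β (n + 1) S g = LI α (FA (n + 1) S g) - LI β (FL (n + 1) S g) +
        2 * rho * LI (β + l) (FM n S g) := rfl
      rw [← this, hLa]
      push_cast
      ring

end NUP1

end
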