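import Pool.Agent.NUP1.Objects
import Pool.Agent.NUF.Gas.Defs

/-!
# The charge sum in the additive variable
-/

set_option autoImplicit false
set_option linter.unusedSectionVars false
set_option linter.unusedSimpArgs false

noncomputable section

open Complex MeasureTheory

namespace NUP1.Mu

open Bd (qg)

/-- `e^{2ix}` -/
def E (x : ℂ) : ℂ := exp (2 * I * x)

/-- `η = e^{2iλ}` -/
def et : ℂ := exp (2 * I * l)

theorem E_ne (x : ℂ) : E x ≠ 0 := exp_ne_zero _

theorem lin_eq (k : ℕ) (x y : ℂ) : NUGas.lin et k (E x) (E y) =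
    2 * I * (exp (I * (x + y)) * exp (I * l) ^ k) * sin (x - y + k * l) := by
  unfold NUGas.lin et E
  rw [← exp_nat_mul, ← exp_nat_mul, Complex.sin]
  have h1 : exp (k * (2 * I * l)) * exp (2 * I * x) =
      exp (I * (x + y)) * exp (k * (I * l)) * exp ((x - y + k * l) * I) := by
    rw [← exp_add, ← exp_add, ← exp_add]
    congr 1
    ring
  have h2 : exp (2 * I * y) =
      exp (I * (x + y)) * exp (k * (I * l)) * exp (-(x - y + k * l) * I) := by
    rw [← exp_add, ← exp_add]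
    congr 1
    ring
  rw [h1, h2]
  linear_combination (exp (I * (x + y)) * exp (k * (I * l)) * exp ((x - y + k * l) * I) -
    exp (I * (x + y)) * exp (k * (I * l)) * exp (-(x - y + k * l) * I)) * I_sq

theorem r8 : exp (I * (l : ℂ)) ^ 8 = -1 := by
  rw [← exp_nat_mul]
  have : ((8 : ℕ) : ℂ) * (I * (l : ℂ)) = Real.pi * I := by
    unfold l
    push_cast
    ring
  rw [this, exp_pi_mul_I]

theorem et_eq : et = exp (I * (l : ℂ)) ^ 2 := by
  unfold et
  rw [← exp_nat_mul]
  congr 1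
  push_cast
  ring

theorem E_mul (x y : ℂ) : E x * E y = exp (I * (x + y)) ^ 2 := by
  unfold E
  rw [← exp_nat_mul, ← exp_add]
  congr 1
  push_cast
  ring

theorem sin_eight (z : ℂ) : sin (z + 8 * l) = -sin z := by
  have : (8 : ℂ) * (l : ℂ) = Real.pi := by
    unfold l
    push_cast
    ring
  rw [this, sin_add_pi]

/-- quanta of a row -/
def qn : SignType → ℂ → List ℂ
  | .pos, _ => []
  | .zero, x => [x]
  | .neg, x => [x, x - l]

/-- number of quanta -/
def nq : SignType → ℕ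
  | .pos => 0
  | .zero => 1
  | .neg => 2

/-- rows of the own species -/
def v1 (a : SignType) (x y : ℂ) : ℂ := ((qn a x).map fun u => (sin (u - y))⁻¹).prod
/-- rows of the own species, second factor -/
def v2 (a : SignType) (x y : ℂ) : ℂ := ((qn a x).map fun u => (sin (u - y - 2 * l))⁻¹).prod
/-- rows of the other species -/
def cr (a : SignType) (x y : ℂ) : ℂ := ((qn a x).map fun u => sin (u - y + 3 * l) ^ 2).prod
/-- pairs of quanta -/
def QQ (a b : SignType) (x y : ℂ) : ℂ :=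
  ((qn a x).map fun u => ((qn b y).map fun v => q (u - v)).prod).prod
/-- pairs of quanta of different species -/
def QG (a b : SignType) (x y : ℂ) : ℂ :=
  ((qn a x).map fun u => ((qn b y).map fun v => qg (u - v)).prod).prod

/-- generic difference -/
def Gn (z : ℂ) : Prop := ∀ k : ℤ, sin (z + k * l) ≠ 0

/-- generic difference of rows of different species -/
def Gc (z : ℂ) : Prop := ∀ k : ℕ, 2 ≤ k → k ≤ 6 → sin (z + k * l) ≠ 0

/-- weight of a pair of rows of the same species -/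
def pr (a b : SignType) (x y : ℂ) : ℂ := QQ a b x y * (v1 a x y * v1 b y x)

theorem F_eq (a b : SignType) {x y : ℂ} (h : Gn (x - y)) :
    NUGas.F et a b (E x) (E y) = NUGas.F et .pos .pos (E x) (E y) * pr a b x y *
      ((v2 a x y * (-1) ^ nq a * (2 * E x) ^ ((a : ℤ) * b - 1)) *
       (v2 b y x * (-1) ^ nq b * (2 * E y) ^ ((a : ℤ) * b - 1))) := by
  -- the sines
  set s0 := sin (x - y) with hs0
  set s1 := sin (x - y + 1 * l) with hs1
  set s2 := sin (x - y + 2 * l) with hs2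
  set s3 := sin (x - y + 3 * l) with hs3
  set s5 := sin (x - y + 5 * l) with hs5
  set s6 := sin (x - y + 6 * l) with hs6
  set s7 := sin (x - y + 7 * l) with hs7
  have n0 : s0 ≠ 0 := by simpa [hs0] using h 0
  have n1 : s1 ≠ 0 := by simpa [hs1] using h 1
  have n2 : s2 ≠ 0 := by simpa [hs2] using h 2
  have n3 : s3 ≠ 0 := by simpa [hs3] using h 3
  have n5 : s5 ≠ 0 := by simpa [hs5] using h 5
  have n6 : s6 ≠ 0 := by simpa [hs6] using h 6
  have n7 : s7 ≠ 0 := by simpa [hs7] using h 7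
  set p := exp (I * (x + y)) with hp
  set r := exp (I * (l : ℂ)) with hr
  have hr8 : r ^ 8 = -1 := r8
  have hp0 : p ≠ 0 := exp_ne_zero _
  have hr0 : r ≠ 0 := exp_ne_zero _
  have hE : E x * E y = p ^ 2 := E_mul x y
  have hE2 : (2 * E x) * (2 * E y) = 4 * p ^ 2 := by rw [← hE]; ring
  have hEx := E_ne x
  have hEy := E_ne y
  -- the linear forms
  have L : ∀ k : ℕ, NUGas.lin et k (E x) (E y) = 2 * I * (p * r ^ k) * sin (x - y + k * l) :=
    fun k => lin_eq k x y
  have L0 : NUGas.lin et 0 (E x) (E y) = 2 * I * p * s0 := by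
    rw [L]; simp [hs0]
  have L1 : NUGas.lin et 1 (E x) (E y) = 2 * I * (p * r) * s1 := by
    rw [L]; simp [hs1]
  have L2 : NUGas.lin et 2 (E x) (E y) = 2 * I * (p * r ^ 2) * s2 := by
    rw [L]; simp [hs2]
  have L3 : NUGas.lin et 3 (E x) (E y) = 2 * I * (p * r ^ 3) * s3 := by
    rw [L]; simp [hs3]
  have L5 : NUGas.lin et 5 (E x) (E y) = 2 * I * (p * r ^ 5) * s5 := by
    rw [L]; simp [hs5]
  have L6 : NUGas.lin et 6 (E x) (E y) = 2 * I * (p * r ^ 6) * s6 := by
    rw [L]; simp [hs6]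
  have L7 : NUGas.lin et 7 (E x) (E y) = 2 * I * (p * r ^ 7) * s7 := by
    rw [L]; simp [hs7]
  have het : et = r ^ 2 := et_eq
  -- the sines
  have e8 : ∀ z : ℂ, sin z = -sin (z + 8 * l) := fun z => by rw [sin_eight, neg_neg]
  have a1 : sin (x - y - 2 * l) = -s6 := by rw [e8, hs6]; congr 2; ring
  have a2 : sin (x - l - y) = -s7 := by rw [e8, hs7]; congr 2; ring
  have a3 : sin (x - l - y - 2 * l) = -s5 := by rw [e8, hs5]; congr 2; ring
  have b0 : sin (y - x) = -s0 := by rw [hs0, ← sin_neg]; congr 1; ring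
  have b1 : sin (y - x - 2 * l) = -s2 := by rw [hs2, ← sin_neg]; congr 1; ring
  have b2 : sin (y - l - x) = -s1 := by rw [hs1, ← sin_neg]; congr 1; ring
  have b3 : sin (y - l - x - 2 * l) = -s3 := by rw [hs3, ← sin_neg]; congr 1; ring
  have q0 : q (x - y) = -(s0 ^ 2 * s2 * s6) / (s1 * s7) := by
    unfold q
    have c1 : sin (x - y + l) = s1 := by rw [hs1, one_mul]
    have c2 : sin (x - y - l) = -s7 := by rw [e8, hs7]; congr 2; ring
    rw [← hs0, ← hs2, a1, c1, c2]
    field_simp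
  have qm : q (x - l - y) = -(s7 ^ 2 * s1 * s5) / (s0 * s6) := by
    unfold q
    have c1 : sin (x - l - y + 2 * l) = s1 := by rw [hs1]; congr 1; ring
    have c2 : sin (x - l - y - 2 * l) = -s5 := a3
    have c3 : sin (x - l - y + l) = s0 := by rw [hs0]; congr 1; ring
    have c4 : sin (x - l - y - l) = -s6 := by rw [e8, hs6]; congr 2; ring
    rw [a2, c1, c2, c3, c4]
    field_simp
  have qp : q (x - (y - l)) = s1 ^ 2 * s3 * s7 / (s0 * s2) := by
    unfold q
    have c1 : sin (x - (y - l)) = s1 := by rw [hs1]; congr 1; ring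
    have c2 : sin (x - (y - l) + 2 * l) = s3 := by rw [hs3]; congr 1; ring
    have c3 : sin (x - (y - l) - 2 * l) = -s7 := by rw [e8, hs7]; congr 2; ring
    have c4 : sin (x - (y - l) + l) = s2 := by rw [hs2]; congr 1; ring
    have c5 : sin (x - (y - l) - l) = s0 := by rw [hs0]; congr 1; ring
    rw [c1, c2, c3, c4, c5]
    field_simp
  have qz : q (x - l - (y - l)) = q (x - y) := by congr 1; ring
  have z1 : ((1 : ℤ) * 0 - 1) = -1 := by norm_num
  have zz : ∀ u v : ℂ, u ≠ 0 → v ≠ 0 → u⁻¹ * v⁻¹ = (u * v)⁻¹ := fun u v _ _ => (mul_inv u v).symm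
  cases a <;> cases b
  all_goals
    simp only [NUGas.F, L0, L1, L2, L3, L5, L6, L7, pr, QQ, v1, v2, qn, nq, List.map_cons,
      List.map_nil, List.prod_cons, List.prod_nil, a1, a2, a3, b0, b1, b2, b3, q0, qm, qp, qz,
      ← hs0, SignType.zero_eq_zero, SignType.pos_eq_one, SignType.neg_eq_neg_one, SignType.coe_zero, SignType.coe_one, SignType.coe_neg_one]
    try simp only [het]
    try norm_num only
  all_goals
    have hEy' : E y = p ^ 2 / E x := by
      field_simp
      rw [← hE]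
      ring
    have hI : (I : ℂ) ^ 2 = -1 := I_sq
    have hI4 : (I : ℂ) ^ 4 = 1 := I_pow_four
    have hI0 : (I : ℂ) ≠ 0 := I_ne_zero
    rw [hEy']
    generalize E x = ex at *
    generalize (I : ℂ) = i at *
    clear_value s0 s1 s2 s3 s5 s6 s7 p r
    simp only [zpow_neg, zpow_ofNat, zpow_zero, zpow_one]
    try field_simp
    try ring_nf
    try simp only [hr8, hI, hI4]
    try norm_num



theorem G_eq (a b : SignType) {x y : ℂ} (h : Gc (x - y)) :
    NUGas.G et a b (E x) (E y) = QG a b x y *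
      ((cr a x y * (2 * E x) ^ (1 - (a : ℤ) * b)) *
       (cr b y x * (2 * E y) ^ (1 - (a : ℤ) * b))) := by
  -- the sines
  set s2 := sin (x - y + 2 * l) with hs2
  set s3 := sin (x - y + 3 * l) with hs3
  set s4 := sin (x - y + 4 * l) with hs4
  set s5 := sin (x - y + 5 * l) with hs5
  set s6 := sin (x - y + 6 * l) with hs6
  have n2 : s2 ≠ 0 := by simpa [hs2] using h 2 (by norm_num) (by norm_num)
  have n3 : s3 ≠ 0 := by simpa [hs3] using h 3 (by norm_num) (by norm_num)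
  have n4 : s4 ≠ 0 := by simpa [hs4] using h 4 (by norm_num) (by norm_num)
  have n5 : s5 ≠ 0 := by simpa [hs5] using h 5 (by norm_num) (by norm_num)
  have n6 : s6 ≠ 0 := by simpa [hs6] using h 6 (by norm_num) (by norm_num)
  set p := exp (I * (x + y)) with hp
  set r := exp (I * (l : ℂ)) with hr
  have hr8 : r ^ 8 = -1 := r8
  have hp0 : p ≠ 0 := exp_ne_zero _
  have hr0 : r ≠ 0 := exp_ne_zero _
  have hE : E x * E y = p ^ 2 := E_mul x y
  have hEx := E_ne x
  have hEy := E_ne y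
  -- the linear forms
  have L : ∀ k : ℕ, NUGas.lin et k (E x) (E y) = 2 * I * (p * r ^ k) * sin (x - y + k * l) :=
    fun k => lin_eq k x y
  have L2 : NUGas.lin et 2 (E x) (E y) = 2 * I * (p * r ^ 2) * s2 := by
    rw [L]; simp [hs2]
  have L3 : NUGas.lin et 3 (E x) (E y) = 2 * I * (p * r ^ 3) * s3 := by
    rw [L]; simp [hs3]
  have L4 : NUGas.lin et 4 (E x) (E y) = 2 * I * (p * r ^ 4) * s4 := by
    rw [L]; simp [hs4]
  have L5 : NUGas.lin et 5 (E x) (E y) = 2 * I * (p * r ^ 5) * s5 := by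
    rw [L]; simp [hs5]
  have L6 : NUGas.lin et 6 (E x) (E y) = 2 * I * (p * r ^ 6) * s6 := by
    rw [L]; simp [hs6]
  have het : et = r ^ 2 := et_eq
  -- the sines
  have e8 : ∀ z : ℂ, sin z = -sin (z + 8 * l) := fun z => by rw [sin_eight, neg_neg]
  have e4 : ∀ z : ℂ, cos z = sin (z + 4 * l) := fun z => by
    have : (4 : ℂ) * (l : ℂ) = Real.pi / 2 := by
      unfold l
      push_cast
      ring
    rw [this, sin_add_pi_div_two]
  have a1 : sin (x - l - y + 3 * l) = s2 := by rw [hs2]; congr 1; ring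
  have b1 : sin (y - x + 3 * l) = s5 := by
    rw [hs5, ← neg_neg (y - x + 3 * l), sin_neg, e8, neg_neg]; congr 1; ring
  have b2 : sin (y - l - x + 3 * l) = s6 := by
    rw [hs6, ← neg_neg (y - l - x + 3 * l), sin_neg, e8, neg_neg]; congr 1; ring
  have q0 : qg (x - y) = s4 ^ 2 / (s3 ^ 2 * s5 ^ 2) := by
    unfold qg
    have c2 : sin (x - y - 3 * l) = -s5 := by rw [e8, hs5]; congr 2; ring
    rw [e4, ← hs4, ← hs3, c2]
    congr 1
    ring
  have qm : qg (x - l - y) = s3 ^ 2 / (s2 ^ 2 * s4 ^ 2) := by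
    unfold qg
    have c1 : cos (x - l - y) = s3 := by rw [e4, hs3]; congr 1; ring
    have c3 : sin (x - l - y - 3 * l) = -s4 := by rw [e8, hs4]; congr 2; ring
    rw [c1, a1, c3]
    congr 1
    ring
  have qp : qg (x - (y - l)) = s5 ^ 2 / (s4 ^ 2 * s6 ^ 2) := by
    unfold qg
    have c1 : cos (x - (y - l)) = s5 := by rw [e4, hs5]; congr 1; ring
    have c2 : sin (x - (y - l) + 3 * l) = s4 := by rw [hs4]; congr 1; ring
    have c3 : sin (x - (y - l) - 3 * l) = -s6 := by rw [e8, hs6]; congr 2; ring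
    rw [c1, c2, c3]
    congr 1
    ring
  have qz : qg (x - l - (y - l)) = qg (x - y) := by congr 1; ring
  cases a <;> cases b
  all_goals
    simp only [NUGas.G, L2, L3, L4, L5, L6, QG, cr, qn, List.map_cons,
      List.map_nil, List.prod_cons, List.prod_nil, a1, b1, b2, q0, qm, qp, qz,
      ← hs3, SignType.zero_eq_zero, SignType.pos_eq_one, SignType.neg_eq_neg_one,
      SignType.coe_zero, SignType.coe_one, SignType.coe_neg_one]
    try simp only [het]
    try norm_num only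
  all_goals
    have hEy' : E y = p ^ 2 / E x := by
      field_simp
      rw [← hE]
      ring
    have hI : (I : ℂ) ^ 2 = -1 := I_sq
    have hI4 : (I : ℂ) ^ 4 = 1 := I_pow_four
    have hI0 : (I : ℂ) ≠ 0 := I_ne_zero
    rw [hEy']
    generalize E x = ex at *
    generalize (I : ℂ) = i at *
    clear_value s2 s3 s4 s5 s6 p r
    have hr16 : r ^ 16 = 1 := by
      rw [show 16 = 8 * 2 by norm_num, pow_mul, hr8]
      norm_num
    have hr24 : r ^ 24 = -1 := by
      rw [show 24 = 8 * 3 by norm_num, pow_mul, hr8]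
      norm_num
    have hr32 : r ^ 32 = 1 := by
      rw [show 32 = 8 * 4 by norm_num, pow_mul, hr8]
      norm_num
    simp only [zpow_neg, zpow_ofNat, zpow_zero, zpow_one]
    try field_simp
    try ring_nf
    try simp only [hr8, hr16, hr24, hr32, hI, hI4]
    try norm_num

/-! ## bookkeeping -/

open Grand (P)

theorem P_mul {n : ℕ} (f g : Fin n → Fin n → ℂ) :
    P (fun i j => f i j * g i j) = P f * P g := by
  unfold P
  rw [← Finset.prod_mul_distrib]
  refine Finset.prod_congr rfl fun a _ => ?_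
  rw [← Finset.prod_mul_distrib]
  refine Finset.prod_congr rfl fun b _ => ?_
  split_ifs <;> simp

theorem P_congr {n : ℕ} {f g : Fin n → Fin n → ℂ} (h : ∀ i j, i ≠ j → f i j = g i j) :
    P f = P g := by
  unfold P
  refine Finset.prod_congr rfl fun a _ => Finset.prod_congr rfl fun b _ => ?_
  split_ifs with hab
  · exact h a b hab.ne
  · rfl

/-- a product over pairs of factors of both orders -/
theorem P_both {n : ℕ} (g : Fin n → Fin n → ℂ) :
    P (fun i j => g i j * g j i) = ∏ i, ∏ j, if i = j then 1 else g i j := by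
  unfold P
  have e1 : ∀ i j : Fin n, (if i = j then 1 else g i j) =
      (if i < j then g i j else 1) * (if j < i then g i j else 1) := by
    intro i j
    rcases lt_trichotomy i j with h | h | h
    · rw [if_neg h.ne, if_pos h, if_neg (not_lt.2 h.le), mul_one]
    · subst h
      simp
    · rw [if_neg h.ne', if_neg (not_lt.2 h.le), if_pos h, one_mul]
  simp_rw [e1, Finset.prod_mul_distrib]
  rw [Finset.prod_comm (f := fun i j => if j < i then g i j else 1), ← Finset.prod_mul_distrib]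
  refine Finset.prod_congr rfl fun a _ => ?_
  rw [← Finset.prod_mul_distrib]
  refine Finset.prod_congr rfl fun b _ => ?_
  split_ifs <;> simp

theorem P_cons {n : ℕ} (f : Fin (n + 1) → Fin (n + 1) → ℂ) :
    P f = (∏ j : Fin n, f 0 j.succ) * P (fun i j => f i.succ j.succ) := by
  unfold P
  rw [Fin.prod_univ_succ]
  simp_rw [Fin.prod_univ_succ (n := n)]
  simp only [lt_self_iff_false, if_false, one_mul, Fin.succ_pos, if_true, Fin.not_lt_zero,
    Fin.succ_lt_succ_iff]

theorem sch_ofFn {M : Type*} [AddCommMonoid M] {n : ℕ} (X : Fin n → ℂ)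
    (φ : List (ℂ × SignType) → M) :
    NUGas.sch (List.ofFn X) φ = ∑ a : Fin n → SignType, φ (List.ofFn fun i => (X i, a i)) := by
  induction n generalizing φ with
  | zero => simp [NUGas.sch]
  | succ n ih =>
    rw [List.ofFn_succ, NUGas.sch]
    simp_rw [ih]
    rw [← (Fin.consEquiv (fun _ => SignType)).sum_comp, Fintype.sum_prod_type]
    refine Finset.sum_congr rfl fun a _ => Finset.sum_congr rfl fun b _ => ?_
    simp [Fin.consEquiv, List.ofFn_succ]

theorem tot_ofFn {n : ℕ} (X : Fin n → ℂ) (a : Fin n → SignType) :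
    NUGas.tot (List.ofFn fun i => (X i, a i)) = ∑ i, (a i : ℤ) := by
  unfold NUGas.tot
  rw [List.map_ofFn, List.sum_ofFn]
  rfl

theorem own_ofFn (η σ : ℂ) {n : ℕ} (X : Fin n → ℂ) (a : Fin n → SignType) :
    NUGas.own η σ (List.ofFn fun i => (X i, a i)) = (∏ i, NUGas.wt σ (a i) (X i)) *
      P (fun i j => NUGas.F η (a i) (a j) (X i) (X j)) := by
  induction n with
  | zero => simp [NUGas.own, Grand.P_zero]
  | succ n ih =>
    rw [List.ofFn_succ, NUGas.own, ih (fun i => X i.succ) (fun i => a i.succ), P_cons,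
      Fin.prod_univ_succ, List.map_ofFn, List.prod_ofFn]
    simp only [Function.comp_def]
    ring

theorem crs_ofFn (η : ℂ) {n m : ℕ} (X : Fin n → ℂ) (a : Fin n → SignType) (Y : Fin m → ℂ)
    (b : Fin m → SignType) :
    NUGas.crs η (List.ofFn fun i => (X i, a i)) (List.ofFn fun j => (Y j, b j)) =
      ∏ i, ∏ j, NUGas.G η (a i) (b j) (X i) (Y j) := by
  unfold NUGas.crs
  rw [List.map_ofFn, List.prod_ofFn]
  refine Finset.prod_congr rfl fun i _ => ?_
  simp only [Function.comp_def]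
  rw [List.map_ofFn, List.prod_ofFn]
  rfl

theorem N_ofFn (η σ om : ℂ) {n m : ℕ} (X : Fin n → ℂ) (Y : Fin m → ℂ) :
    NUGas.N η σ om (List.ofFn X) (List.ofFn Y) =
      ∑ a : Fin n → SignType, ∑ b : Fin m → SignType,
        if ∑ i, (a i : ℤ) = ∑ j, (b j : ℤ) then om ^ (∑ i, (a i : ℤ)) *
          ((∏ i, NUGas.wt σ (a i) (X i)) * P (fun i j => NUGas.F η (a i) (a j) (X i) (X j))) *
          ((∏ i, NUGas.wt σ (b i) (Y i)) * P (fun i j => NUGas.F η (b i) (b j) (Y i) (Y j))) *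
          ∏ i, ∏ j, NUGas.G η (a i) (b j) (X i) (Y j) else 0 := by
  unfold NUGas.N
  rw [sch_ofFn]
  refine Finset.sum_congr rfl fun a _ => ?_
  rw [sch_ofFn]
  refine Finset.sum_congr rfl fun b _ => ?_
  unfold NUGas.term
  rw [tot_ofFn, tot_ofFn, own_ofFn, own_ofFn, crs_ofFn]

/-! ## the one body function and the state weights -/

/-- the one body function without the factors `1 / sin (u - x)` of the own rows -/
def hrow (σ : ℂ) {m m' : ℕ} (x : Fin m → ℂ) (y : Fin m' → ℂ) (u : ℂ) : ℂ :=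
  -2 * sin (2 * l) / σ * ((∏ j, (sin (u - x j - 2 * l))⁻¹) * ∏ j, sin (u - y j + 3 * l) ^ 2)

/-- weight of the state of one row -/
def sw (a : SignType) (h : ℂ → ℂ) (x : ℂ) : ℂ :=
  match a with
  | .pos => 1
  | .zero => h x
  | .neg => rho / sin l * (h x * h (x - l))

/-- weight of a state of all rows of one species -/
def WW {m : ℕ} (h : ℂ → ℂ) (x : Fin m → ℂ) (a : Fin m → SignType) : ℂ :=
  (∏ i, sw (a i) h (x i)) * P (fun i j => pr (a i) (a j) (x i) (x j))

/-- prefactor -/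
def Apre (σ : ℂ) {m : ℕ} (x : Fin m → ℂ) : ℂ :=
  (∏ i, σ * E (x i)) * P (fun i j => NUGas.F et .pos .pos (E (x i)) (E (x j)))

theorem prod_zpow_sum {ι : Type*} (s : Finset ι) {z : ℂ} (hz : z ≠ 0) (c : ι → ℤ) :
    ∏ j ∈ s, z ^ (c j) = z ^ (∑ j ∈ s, c j) := by
  classical
  induction s using Finset.induction_on with
  | empty => simp
  | insert a s ha ih => rw [Finset.prod_insert ha, Finset.sum_insert ha, zpow_add₀ hz, ih]

theorem prod_ne {m : ℕ} (f : Fin m → ℂ) (i : Fin m) (hf : f i ≠ 0) :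
    ∏ j, (if i = j then 1 else f j) = (∏ j, f j) / f i := by
  rw [eq_div_iff hf]
  have h1 : f i = ∏ j, (if i = j then f j else 1) := by
    rw [Finset.prod_ite_eq]
    simp
  rw [h1, ← Finset.prod_mul_distrib]
  refine Finset.prod_congr rfl fun j _ => ?_
  split_ifs <;> simp

theorem sin2_ne : sin (2 * (l : ℂ)) ≠ 0 := by
  have h : Real.sin (2 * l) ≠ 0 := (Real.sin_pos_of_pos_of_lt_pi (by
    unfold l; positivity) (by unfold l; linarith [Real.pi_pos])).ne'
  have : sin (2 * (l : ℂ)) = ((Real.sin (2 * l) : ℝ) : ℂ) := by push_cast; rfl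
  rw [this]
  exact_mod_cast h

theorem sin3_ne : sin (3 * (l : ℂ)) ≠ 0 := by
  have h : Real.sin (3 * l) ≠ 0 := (Real.sin_pos_of_pos_of_lt_pi (by
    unfold l; positivity) (by unfold l; linarith [Real.pi_pos])).ne'
  have : sin (3 * (l : ℂ)) = ((Real.sin (3 * l) : ℝ) : ℂ) := by push_cast; rfl
  rw [this]
  exact_mod_cast h

theorem sin1_ne : sin (l : ℂ) ≠ 0 := by
  have h : Real.sin l ≠ 0 := (Real.sin_pos_of_pos_of_lt_pi (by
    unfold l; positivity) (by unfold l; linarith [Real.pi_pos])).ne'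
  have : sin (l : ℂ) = ((Real.sin l : ℝ) : ℂ) := by push_cast; rfl
  rw [this]
  exact_mod_cast h

theorem v2_self (a : SignType) (x : ℂ) : v2 a x x = match a with
    | .pos => 1
    | .zero => -(sin (2 * l))⁻¹
    | .neg => (sin (2 * l))⁻¹ * (sin (3 * l))⁻¹ := by
  have e1 : sin (x - x - 2 * (l : ℂ)) = -sin (2 * l) := by rw [← sin_neg]; congr 1; ring
  have e2 : sin (x - l - x - 2 * (l : ℂ)) = -sin (3 * l) := by rw [← sin_neg]; congr 1; ring
  cases a
  · simp only [v2, qn, List.map_cons, List.map_nil, List.prod_cons, List.prod_nil, e1]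
    rw [mul_one, inv_neg]
  · simp only [v2, qn, List.map_cons, List.map_nil, List.prod_cons, List.prod_nil, e1, e2]
    rw [mul_one, inv_neg, inv_neg]
    ring
  · rfl

theorem v2_self_ne (a : SignType) (x : ℂ) : v2 a x x ≠ 0 := by
  rw [v2_self]
  cases a
  · exact neg_ne_zero.2 (inv_ne_zero sin2_ne)
  · exact mul_ne_zero (inv_ne_zero sin2_ne) (inv_ne_zero sin3_ne)
  · exact one_ne_zero

/-- the factor of one row -/
theorem row_eq {σ : ℂ} (hσ0 : σ ≠ 0) (hσ : σ ^ 2 = 4 * sin l ^ 2) {m m' : ℕ} (hm : m = m')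
    (x : Fin m → ℂ) (y : Fin m' → ℂ) (a : Fin m → SignType) (b : Fin m' → SignType)
    (hab : ∑ i, (a i : ℤ) = ∑ j, (b j : ℤ)) (i : Fin m) :
    NUGas.wt σ (a i) (E (x i)) *
      ((∏ j, if i = j then 1 else
        v2 (a i) (x i) (x j) * (-1) ^ nq (a i) * (2 * E (x i)) ^ ((a i : ℤ) * a j - 1)) *
       ∏ j, cr (a i) (x i) (y j) * (2 * E (x i)) ^ (1 - (a i : ℤ) * b j)) =
    σ * E (x i) * sw (a i) (hrow σ x y) (x i) * ((-1) ^ nq (a i)) ^ (m + 1) := by
  have hE := E_ne (x i)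
  have h2E : 2 * E (x i) ≠ 0 := mul_ne_zero two_ne_zero hE
  have hv := v2_self_ne (a i) (x i)
  have hs : ((-1 : ℂ) ^ nq (a i)) ≠ 0 := pow_ne_zero _ (by norm_num)
  rw [prod_ne _ i (mul_ne_zero (mul_ne_zero hv hs) (zpow_ne_zero _ h2E))]
  simp_rw [Finset.prod_mul_distrib]
  rw [prod_zpow_sum _ h2E, prod_zpow_sum _ h2E, Finset.prod_const, Finset.card_univ,
    Fintype.card_fin]
  have e1 : ∑ j, ((a i : ℤ) * a j - 1) = (a i : ℤ) * (∑ j, (a j : ℤ)) - m := by
    rw [Finset.sum_sub_distrib, ← Finset.mul_sum]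
    simp
  have e2 : ∑ j, (1 - (a i : ℤ) * b j) = m - (a i : ℤ) * (∑ j, (a j : ℤ)) := by
    rw [Finset.sum_sub_distrib, ← Finset.mul_sum, hab]
    simp [hm]
  rw [e1, e2]
  set S := ∑ j, (a j : ℤ) with hS
  set V := ∏ j, v2 (a i) (x i) (x j) with hV
  set C := ∏ j, cr (a i) (x i) (y j) with hC
  have key : (2 * E (x i)) ^ ((a i : ℤ) * S - m) * (2 * E (x i)) ^ ((m : ℤ) - (a i : ℤ) * S) = 1 := by
    rw [← zpow_add₀ h2E]
    simp
  have hsq : ((-1 : ℂ) ^ nq (a i)) * ((-1 : ℂ) ^ nq (a i)) = 1 := by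
    rw [← mul_pow]
    simp
  have e3 : NUGas.wt σ (a i) (E (x i)) *
      (V * ((-1) ^ nq (a i)) ^ m * (2 * E (x i)) ^ ((a i : ℤ) * S - m) /
        (v2 (a i) (x i) (x i) * (-1) ^ nq (a i) * (2 * E (x i)) ^ ((a i : ℤ) * a i - 1)) *
      (C * (2 * E (x i)) ^ ((m : ℤ) - (a i : ℤ) * S))) =
      NUGas.wt σ (a i) (E (x i)) * V * C * ((-1) ^ nq (a i)) ^ (m + 1) /
        (v2 (a i) (x i) (x i) * (2 * E (x i)) ^ ((a i : ℤ) * a i - 1)) := by
    have hsinv : ((-1 : ℂ) ^ nq (a i))⁻¹ = (-1 : ℂ) ^ nq (a i) := by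
      rw [inv_eq_iff_eq_inv]
      exact eq_inv_of_mul_eq_one_left hsq
    rw [div_eq_mul_inv, div_eq_mul_inv, mul_inv, mul_inv, mul_inv, hsinv, pow_succ]
    linear_combination (NUGas.wt σ (a i) (E (x i)) * V * C * ((-1) ^ nq (a i)) ^ m *
      (-1) ^ nq (a i) * (v2 (a i) (x i) (x i))⁻¹ *
      ((2 * E (x i)) ^ ((a i : ℤ) * a i - 1))⁻¹) * key
  rw [e3]
  have s1 := sin1_ne
  have s2 := sin2_ne
  have s3 := sin3_ne
  rw [v2_self]
  rcases hai : a i with _ | _ | _
  · -- zero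
    have hh : hrow σ x y (x i) = -2 * sin (2 * l) / σ * (V * C) := by
      unfold hrow
      rw [hV, hC, hai]
      simp [v2, cr, qn]
    simp only [hai, sw, hh, NUGas.wt, nq, SignType.zero_eq_zero, SignType.coe_zero, mul_zero,
      zero_sub, zpow_neg, zpow_one]
    field_simp
  · -- neg
    have hh : hrow σ x y (x i) * hrow σ x y (x i - l) =
        (-2 * sin (2 * l) / σ) ^ 2 * (V * C) := by
      unfold hrow
      rw [hV, hC, hai]
      simp only [v2, cr, qn, List.map_cons, List.map_nil, List.prod_cons, List.prod_nil, mul_one,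
        Finset.prod_mul_distrib]
      ring
    simp only [hai, sw, hh, NUGas.wt, nq, SignType.neg_eq_neg_one, SignType.coe_neg_one, rho]
    norm_num
    have hk : (-(2 * sin (2 * (l : ℂ))) / σ) ^ 2 = sin (2 * l) ^ 2 / sin l ^ 2 := by
      rw [div_pow, hσ]
      field_simp
      ring
    rw [hk]
    field_simp
  · -- pos
    have hV1 : V = 1 := by
      rw [hV, hai]
      simp [v2, qn]
    have hC1 : C = 1 := by
      rw [hC, hai]
      simp [cr, qn]
    simp only [hai, hV1, hC1, sw, NUGas.wt, nq, SignType.pos_eq_one, SignType.coe_one]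
    norm_num

theorem sum_nq {m : ℕ} (a : Fin m → SignType) :
    ((∑ i, nq (a i) : ℕ) : ℤ) = m - ∑ i, (a i : ℤ) := by
  have e : ∀ s : SignType, (nq s : ℤ) = 1 - (s : ℤ) := by decide
  rw [Nat.cast_sum]
  simp_rw [e]
  rw [Finset.sum_sub_distrib]
  simp

/-- one term of the charge sum -/
theorem term_eq {σ : ℂ} (hσ0 : σ ≠ 0) (hσ : σ ^ 2 = 4 * sin l ^ 2) {m m' : ℕ} (hm : m = m')
    (x : Fin m → ℂ) (y : Fin m' → ℂ) (hx : ∀ i j, i ≠ j → Gn (x i - x j))
    (hy : ∀ i j, i ≠ j → Gn (y i - y j)) (hxy : ∀ i j, Gc (x i - y j))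
    (a : Fin m → SignType) (b : Fin m' → SignType)
    (hab : ∑ i, (a i : ℤ) = ∑ j, (b j : ℤ)) :
    ((∏ i, NUGas.wt σ (a i) (E (x i))) *
        P (fun i j => NUGas.F et (a i) (a j) (E (x i)) (E (x j)))) *
      ((∏ i, NUGas.wt σ (b i) (E (y i))) *
        P (fun i j => NUGas.F et (b i) (b j) (E (y i)) (E (y j)))) *
      ∏ i, ∏ j, NUGas.G et (a i) (b j) (E (x i)) (E (y j)) =
    Apre σ x * Apre σ y * (WW (hrow σ x y) x a * WW (hrow σ y x) y b *
      ∏ i, ∏ j, QG (a i) (b j) (x i) (y j)) := by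
  subst hm
  have hPF : ∀ {k : ℕ} (z : Fin k → ℂ) (c : Fin k → SignType)
      (_ : ∀ i j, i ≠ j → Gn (z i - z j)),
      P (fun i j => NUGas.F et (c i) (c j) (E (z i)) (E (z j))) =
        P (fun i j => NUGas.F et .pos .pos (E (z i)) (E (z j))) *
        P (fun i j => pr (c i) (c j) (z i) (z j)) *
        ∏ i, ∏ j, if i = j then 1 else
          v2 (c i) (z i) (z j) * (-1) ^ nq (c i) * (2 * E (z i)) ^ ((c i : ℤ) * c j - 1) := by
    intro k z c hz
    rw [← P_both, ← P_mul, ← P_mul]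
    refine P_congr fun i j hij => ?_
    rw [F_eq (c i) (c j) (hz i j hij), mul_comm ((c j : ℤ)) (c i)]
  have hG : ∏ i, ∏ j, NUGas.G et (a i) (b j) (E (x i)) (E (y j)) =
      (∏ i, ∏ j, QG (a i) (b j) (x i) (y j)) *
      ((∏ i, ∏ j, cr (a i) (x i) (y j) * (2 * E (x i)) ^ (1 - (a i : ℤ) * b j)) *
       (∏ j, ∏ i, cr (b j) (y j) (x i) * (2 * E (y j)) ^ (1 - (b j : ℤ) * a i))) := by
    rw [Finset.prod_comm (f := fun j i => cr (b j) (y j) (x i) *
      (2 * E (y j)) ^ (1 - (b j : ℤ) * a i)), ← Finset.prod_mul_distrib, ← Finset.prod_mul_distrib]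
    refine Finset.prod_congr rfl fun i _ => ?_
    rw [← Finset.prod_mul_distrib, ← Finset.prod_mul_distrib]
    refine Finset.prod_congr rfl fun j _ => ?_
    rw [G_eq (a i) (b j) (hxy i j), mul_comm ((b j : ℤ)) (a i)]
  rw [hPF x a hx, hPF y b hy, hG]
  have hX : (∏ i, NUGas.wt σ (a i) (E (x i))) *
      ((∏ i, ∏ j, if i = j then 1 else
        v2 (a i) (x i) (x j) * (-1) ^ nq (a i) * (2 * E (x i)) ^ ((a i : ℤ) * a j - 1)) *
       ∏ i, ∏ j, cr (a i) (x i) (y j) * (2 * E (x i)) ^ (1 - (a i : ℤ) * b j)) =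
      (∏ i, σ * E (x i)) * (∏ i, sw (a i) (hrow σ x y) (x i)) *
        ∏ i, ((-1) ^ nq (a i)) ^ (m + 1) := by
    rw [← Finset.prod_mul_distrib, ← Finset.prod_mul_distrib, ← Finset.prod_mul_distrib,
      ← Finset.prod_mul_distrib]
    exact Finset.prod_congr rfl fun i _ => row_eq hσ0 hσ rfl x y a b hab i
  have hY : (∏ i, NUGas.wt σ (b i) (E (y i))) *
      ((∏ i, ∏ j, if i = j then 1 else
        v2 (b i) (y i) (y j) * (-1) ^ nq (b i) * (2 * E (y i)) ^ ((b i : ℤ) * b j - 1)) *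
       ∏ i, ∏ j, cr (b i) (y i) (x j) * (2 * E (y i)) ^ (1 - (b i : ℤ) * a j)) =
      (∏ i, σ * E (y i)) * (∏ i, sw (b i) (hrow σ y x) (y i)) *
        ∏ i, ((-1) ^ nq (b i)) ^ (m + 1) := by
    rw [← Finset.prod_mul_distrib, ← Finset.prod_mul_distrib, ← Finset.prod_mul_distrib,
      ← Finset.prod_mul_distrib]
    exact Finset.prod_congr rfl fun i _ => row_eq hσ0 hσ rfl y x b a hab.symm i
  have hsign : (∏ i, ((-1 : ℂ) ^ nq (a i)) ^ (m + 1)) * ∏ j, ((-1 : ℂ) ^ nq (b j)) ^ (m + 1) = 1 := by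
    have e1 : ∑ i, nq (a i) = ∑ j, nq (b j) := by
      have h1 := sum_nq a
      have h2 := sum_nq b
      have : ((∑ i, nq (a i) : ℕ) : ℤ) = ((∑ j, nq (b j) : ℕ) : ℤ) := by
        rw [h1, h2, hab]
      exact_mod_cast this
    rw [Finset.prod_pow, Finset.prod_pow, Finset.prod_pow_eq_pow_sum, Finset.prod_pow_eq_pow_sum,
      e1, ← mul_pow, ← mul_pow]
    simp
  unfold Apre WW
  set A1 := ∏ i, NUGas.wt σ (a i) (E (x i))
  set A2 := ∏ i, NUGas.wt σ (b i) (E (y i))
  set FX := P fun i j => NUGas.F et SignType.pos SignType.pos (E (x i)) (E (x j))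
  set FY := P fun i j => NUGas.F et SignType.pos SignType.pos (E (y i)) (E (y j))
  set PX := P fun i j => pr (a i) (a j) (x i) (x j)
  set PY := P fun i j => pr (b i) (b j) (y i) (y j)
  set GX := ∏ i, ∏ j, if i = j then 1 else
        v2 (a i) (x i) (x j) * (-1) ^ nq (a i) * (2 * E (x i)) ^ ((a i : ℤ) * a j - 1)
  set GY := ∏ i, ∏ j, if i = j then 1 else
        v2 (b i) (y i) (y j) * (-1) ^ nq (b i) * (2 * E (y i)) ^ ((b i : ℤ) * b j - 1)
  set CX := ∏ i, ∏ j, cr (a i) (x i) (y j) * (2 * E (x i)) ^ (1 - (a i : ℤ) * b j)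
  set CY := ∏ i, ∏ j, cr (b i) (y i) (x j) * (2 * E (y i)) ^ (1 - (b i : ℤ) * a j)
  set QP := ∏ i, ∏ j, QG (a i) (b j) (x i) (y j)
  set SX := ∏ i, σ * E (x i)
  set SY := ∏ i, σ * E (y i)
  set TX := ∏ i, sw (a i) (hrow σ x y) (x i)
  set TY := ∏ i, sw (b i) (hrow σ y x) (y i)
  set σX := ∏ i, ((-1 : ℂ) ^ nq (a i)) ^ (m + 1)
  set σY := ∏ j, ((-1 : ℂ) ^ nq (b j)) ^ (m + 1)
  linear_combination FX * PX * FY * PY * QP * (A2 * (GY * CY)) * hX +
    FX * PX * FY * PY * QP * (SX * TX * σX) * hY +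
    FX * PX * FY * PY * QP * (SX * TX * SY * TY) * hsign

/-- **The charge sum in the additive variable.** -/
theorem N_eq {σ : ℂ} (hσ0 : σ ≠ 0) (hσ : σ ^ 2 = 4 * sin l ^ 2) (om : ℂ) {m : ℕ}
    (x y : Fin m → ℂ) (hx : ∀ i j, i ≠ j → Gn (x i - x j))
    (hy : ∀ i j, i ≠ j → Gn (y i - y j)) (hxy : ∀ i j, Gc (x i - y j)) :
    NUGas.N et σ om (List.ofFn fun i => E (x i)) (List.ofFn fun i => E (y i)) =
      Apre σ x * Apre σ y * ∑ a : Fin m → SignType, ∑ b : Fin m → SignType,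
        if ∑ i, (a i : ℤ) = ∑ j, (b j : ℤ) then om ^ (∑ i, (a i : ℤ)) *
          (WW (hrow σ x y) x a * WW (hrow σ y x) y b * ∏ i, ∏ j, QG (a i) (b j) (x i) (y j))
        else 0 := by
  rw [N_ofFn, Finset.mul_sum]
  refine Finset.sum_congr rfl fun a _ => ?_
  rw [Finset.mul_sum]
  refine Finset.sum_congr rfl fun b _ => ?_
  split_ifs with hab
  · have := term_eq hσ0 hσ rfl x y hx hy hxy a b hab
    rw [mul_assoc, mul_assoc, ← mul_assoc (_ * _) (_ * _) (∏ i, ∏ j, _), this]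
    ring
  · simp

end NUP1.Mu

end
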