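import Pool.Agent.NUP1.Bounds
import Pool.Agent.NUP1.Grand

/-!
# Objects (quanta on the lines A and L, strings): the contour side `K` in closed form
-/

set_option autoImplicit false
set_option linter.unusedSectionVars false

noncomputable section

open Complex MeasureTheory

namespace NUP1.Bd

/-- kinds of objects: a quantum on the line A, a quantum on the line L, a string -/
inductive Ob
  | A | L | S
  deriving DecidableEq

instance : Fintype Ob := ⟨{.A, .L, .S}, fun x => by cases x <;> simp⟩

theorem sum_Ob {M : Type*} [AddCommMonoid M] (f : Ob → M) : ∑ k, f k = f .A + (f .L + f .S) := by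
  have : (Finset.univ : Finset Ob) = {.A, .L, .S} := rfl
  rw [this]
  simp

/-- number of quanta of an object -/
def chg : Ob → ℕ
  | .A => 1
  | .L => 1
  | .S => 2

theorem chg_pos (k : Ob) : 0 < chg k := by cases k <;> simp [chg]

/-- pair weight (same species) as a function of the difference of the positions -/
def pwz : Ob → Ob → ℂ → ℂ
  | .S, .S, z => q2 z
  | .S, .A, z => q1 (-z)
  | .S, .L, z => q1 (-z)
  | .A, .S, z => q1 z
  | .L, .S, z => q1 z
  | .A, .A, z => q z
  | .A, .L, z => q z
  | .L, .A, z => q z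
  | .L, .L, z => q z

/-- pair weight (different species) as a function of the difference of the positions -/
def cwz : Ob → Ob → ℂ → ℂ
  | .S, .S, z => qg z * qg z * (qg (z + l) * qg (z - l))
  | .S, .A, z => qg z * qg (z - l)
  | .S, .L, z => qg z * qg (z - l)
  | .A, .S, z => qg z * qg (z + l)
  | .L, .S, z => qg z * qg (z + l)
  | .A, .A, z => qg z
  | .A, .L, z => qg z
  | .L, .A, z => qg z
  | .L, .L, z => qg z

/-- one body weight of an object -/
def one (G : ℂ → ℂ) : Ob → ℂ → ℂ
  | .A, u => G u
  | .L, u => G u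
  | .S, u => G u * G (u - l)

/-- real part of the line of an object -/
def rl (α β : ℝ) : Ob → ℝ
  | .A => α
  | .L => β
  | .S => β + l

/-- weight of an object -/
def wt : Ob → ℂ
  | .A => (2 * Real.pi : ℂ)⁻¹
  | .L => -(2 * Real.pi : ℂ)⁻¹
  | .S => rho * (2 * Real.pi : ℂ)⁻¹

/-- position of an object -/
def pt (α β : ℝ) (k : Ob) (t : ℝ) : ℂ := vl (rl α β k) t

/-- pair weight -/
def pw (α β : ℝ) (k k' : Ob) (t t' : ℝ) : ℂ := pwz k k' (pt α β k t - pt α β k' t')

theorem q_neg (z : ℂ) : q (-z) = q z := by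
  unfold q
  have h1 : sin (-z) = -sin z := sin_neg z
  have h2 : sin (-z + 2 * l) = -sin (z - 2 * l) := by
    rw [← sin_neg]
    congr 1
    ring
  have h3 : sin (-z - 2 * l) = -sin (z + 2 * l) := by
    rw [← sin_neg]
    congr 1
    ring
  have h4 : sin (-z + l) = -sin (z - l) := by
    rw [← sin_neg]
    congr 1
    ring
  have h5 : sin (-z - l) = -sin (z + l) := by
    rw [← sin_neg]
    congr 1
    ring
  rw [h1, h2, h3, h4, h5]
  ring

theorem q1_neg (z : ℂ) : q1 (-z) = q1 (z - l) := by
  unfold q1
  have h1 : sin (-z) = -sin z := sin_neg z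
  have h2 : sin (-z + l) = -sin (z - l) := by
    rw [← sin_neg]
    congr 1
    ring
  have h3 : sin (-z - 2 * l) = -sin (z + 2 * l) := by
    rw [← sin_neg]
    congr 1
    ring
  have h4 : sin (-z + 3 * l) = -sin (z - 3 * l) := by
    rw [← sin_neg]
    congr 1
    ring
  have h5 : z - l + l = z := by ring
  have h6 : z - l - 2 * l = z - 3 * l := by ring
  have h7 : z - l + 3 * l = z + 2 * l := by ring
  rw [h1, h2, h3, h4, h5, h6, h7]
  ring

theorem q2_neg (z : ℂ) : q2 (-z) = q2 z := by
  unfold q2
  rw [q1_neg, show -z - (l : ℂ) = -(z + l) by ring, q1_neg, show z + (l : ℂ) - l = z by ring]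
  ring

theorem pwz_symm (k k' : Ob) (z : ℂ) : pwz k k' z = pwz k' k (-z) := by
  cases k <;> cases k' <;> simp [pwz, q_neg, q2_neg]

theorem pw_symm (α β : ℝ) (k k' : Ob) (t t' : ℝ) : pw α β k k' t t' = pw α β k' k t' t := by
  unfold pw
  rw [pwz_symm, neg_sub]

/-- `q z * q (z + l) = q1 z` at generic points -/
theorem q_mul_q {z : ℂ} (h : z.im ≠ 0) : q z * q (z + l) = q1 z := by
  have hs : ∀ a : ℝ, sin (z + a) ≠ 0 := by
    intro a h0
    rw [Complex.sin_eq_zero_iff] at h0
    obtain ⟨k, hk⟩ := h0
    have := congrArg Complex.im hk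
    simp at this
    exact h this
  have h0 : sin z ≠ 0 := by simpa using hs 0
  have h1 : sin (z + l) ≠ 0 := hs l
  have h2 : sin (z - l) ≠ 0 := by simpa [sub_eq_add_neg] using hs (-l)
  have h3 : sin (z + 2 * l) ≠ 0 := by simpa using hs (2 * l)
  unfold q q1
  rw [show z + (l : ℂ) + 2 * l = z + 3 * l by ring, show z + (l : ℂ) - 2 * l = z - l by ring,
    show z + (l : ℂ) + l = z + 2 * l by ring, show z + (l : ℂ) - l = z by ring]
  field_simp

/-- one body functions on the lines -/
def oneL (α β : ℝ) (G : ℂ → ℂ) (k : Ob) (t : ℝ) : ℂ := one G k (pt α β k t)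

/-- pair function of an object with a quantum -/
def pf : Ob → ℂ → ℂ
  | .A => q
  | .L => q
  | .S => q1

theorem pt_im (α β : ℝ) (k : Ob) (t : ℝ) : (pt α β k t).im = t := by
  simp [pt, vl]

theorem pt_re (α β : ℝ) (k : Ob) (t : ℝ) : (pt α β k t).re = rl α β k := by
  simp [pt, vl]

theorem one_mul_pf (α β : ℝ) (G : ℂ → ℂ) (k0 : Ob) (t0 : ℝ) (k : Ob) :
    oneL α β (fun u => G u * pf k0 (u - pt α β k0 t0)) k =ᵐ[volume]
      Grand.add (pw α β) (oneL α β G) k0 t0 k := by
  have hne : ∀ᵐ t : ℝ, t ≠ t0 := by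
    have : ({t0} : Set ℝ)ᶜ ∈ ae (volume : Measure ℝ) := by
      rw [mem_ae_iff, compl_compl]
      exact measure_singleton t0
    exact this
  filter_upwards [hne] with t ht
  unfold Grand.add pw oneL
  have hz : (pt α β k0 t0 - pt α β k t).im ≠ 0 := by
    rw [sub_im, pt_im, pt_im]
    exact fun h => ht (by linarith)
  set w := pt α β k t
  set v := pt α β k0 t0
  have hA : G w * q (w - v) * (G (w - l) * q (w - l - v)) = G w * G (w - l) * q1 (-(w - v)) := by
    have h1 := q_mul_q hz
    rw [neg_sub, ← h1, ← q_neg (w - v), neg_sub, ← q_neg (w - l - v),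
      show -(w - l - v) = v - w + l by ring]
    ring
  have hS : G w * q1 (w - v) * (G (w - l) * q1 (w - l - v)) = G w * G (w - l) * q2 (w - v) := by
    unfold q2
    rw [show w - l - v = w - v - l by ring]
    ring
  cases k0 <;> cases k <;> simp only [pf, one, pwz] <;> first | exact hA | exact hS

theorem K_rec (α β : ℝ) (n : ℕ) (G : ℂ → ℂ) :
    ((n : ℂ) + 1) * K α β (n + 1) G = ∑ k0, if chg k0 ≤ n + 1 then (chg k0 : ℂ) * wt k0 *
      ∫ t0, oneL α β G k0 t0 *
        K α β (n + 1 - chg k0) (fun u => G u * pf k0 (u - pt α β k0 t0)) else 0 := by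
  rw [sum_Ob]
  rcases n with _ | n
  · simp only [chg, wt, K, LI, oneL, one, pt, rl, Nat.cast_zero, zero_add, one_mul, Nat.cast_one,
      le_refl, if_true, Nat.sub_self, mul_one]
    rw [if_neg (by norm_num)]
    ring
  · have e : (n : ℂ) + 2 ≠ 0 := by exact_mod_cast (Nat.succ_ne_zero (n + 1))
    rw [K, if_pos (show chg .A ≤ n + 1 + 1 by simp [chg]),
      if_pos (show chg .L ≤ n + 1 + 1 by simp [chg]), if_pos (show chg .S ≤ n + 1 + 1 by simp [chg])]
    simp only [chg, wt, LI, oneL, one, pt, rl, pf, Nat.cast_one, one_mul, Nat.add_sub_cancel]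
    rw [show n + 1 + 1 - 2 = n by omega]
    push_cast
    rw [show (n : ℂ) + 1 + 1 = (n : ℂ) + 2 by ring, ← mul_assoc, mul_inv_cancel₀ e, one_mul]
    ring

/-- The contour side in closed form. -/
theorem K_eq_Z (α β : ℝ) (n : ℕ) : ∀ G : ℂ → ℂ,
    (∀ (r : ℕ) (k : Fin r → Ob), ∑ i, chg (k i) = n →
      Integrable (Grand.f (pw α β) k (oneL α β G)) (Measure.pi fun _ => volume)) →
    K α β n G = Grand.Z volume chg wt (pw α β) n (oneL α β G) := by
  induction n using Nat.strong_induction_on with
  | _ n ih =>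
    intro G hG
    rcases n with _ | n
    · rw [Grand.Z_zero]
      rfl
    · have e : (n : ℂ) + 1 ≠ 0 := by exact_mod_cast (Nat.succ_ne_zero n)
      refine mul_left_cancel₀ e ?_
      rw [K_rec, Grand.Z_rec volume wt (pw α β) chg_pos (pw_symm α β) n _ hG]
      refine Finset.sum_congr rfl fun k0 _ => ?_
      split_ifs with hk0
      · congr 1
        refine integral_congr_ae ?_
        have hall : ∀ (r : ℕ) (k : Fin r → Ob), ∀ᵐ t0 : ℝ, ∑ i, chg (k i) = n + 1 - chg k0 →
            oneL α β G k0 t0 ≠ 0 →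
            Integrable (Grand.f (pw α β) k (Grand.add (pw α β) (oneL α β G) k0 t0))
              (Measure.pi fun _ => volume) := by
          intro r k
          by_cases hk : ∑ i, chg (k i) = n + 1 - chg k0
          · have h1 : ∑ j, chg ((Fin.insertNth (α := fun _ => Ob) 0 k0 k) j) = n + 1 := by
              rw [Fin.sum_univ_succAbove _ 0]
              simp only [Fin.insertNth_apply_same, Fin.insertNth_apply_succAbove, hk]
              omega
            have h2 := (Grand.fubini volume (pw α β) (pw_symm α β) _ _ 0 (hG _ _ h1)).2.2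
            simp only [Fin.insertNth_apply_same, Fin.insertNth_apply_succAbove] at h2
            filter_upwards [h2] with t0 h3 _ hne
            exact h3 hne
          · exact Filter.Eventually.of_forall fun t0 h => absurd h hk
        have hall' : ∀ᵐ t0 : ℝ, ∀ (r : ℕ) (k : Fin r → Ob), ∑ i, chg (k i) = n + 1 - chg k0 →
            oneL α β G k0 t0 ≠ 0 →
            Integrable (Grand.f (pw α β) k (Grand.add (pw α β) (oneL α β G) k0 t0))
              (Measure.pi fun _ => volume) :=
          ae_all_iff.2 fun r => ae_all_iff.2 fun k => hall r k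
        filter_upwards [hall'] with t0 ht0
        by_cases h0 : oneL α β G k0 t0 = 0
        · rw [h0, zero_mul, zero_mul]
        · congr 1
          have hlt : n + 1 - chg k0 < n + 1 := by
            have := chg_pos k0
            omega
          rw [ih _ hlt]
          · exact Grand.Z_congr volume chg wt (pw α β) _ (one_mul_pf α β G k0 t0)
          · intro r k hk
            exact (ht0 r k hk h0).congr
              (Grand.f_congr volume (pw α β) k fun i => (one_mul_pf α β G k0 t0 (k i)).symm)
      · rfl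

end NUP1.Bd

end
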