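import Pool.Agent.NUP1.Closed

/-!
# The prefactor and the row function at equal rows, loop weight two
-/

set_option autoImplicit false
set_option linter.unusedSectionVars false

noncomputable section

open Complex MeasureTheory Filter Topology

namespace NUP1.Mu

open Bd (Lines Z2 GR)

theorem norm_lin_one (k : ℕ) : ‖NUGas.lin et k (E 0) (E 0)‖ = 2 * |Real.sin (k * l)| := by
  rw [lin_eq, add_zero, mul_zero, exp_zero, one_mul, sub_zero, zero_add]
  have e1 : ‖exp (I * (l : ℂ)) ^ k‖ = 1 := by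
    rw [norm_pow, mul_comm, Complex.norm_exp_ofReal_mul_I, one_pow]
  have e2 : sin (k * (l : ℂ)) = ((Real.sin (k * l) : ℝ) : ℂ) := by push_cast; rfl
  rw [norm_mul, norm_mul, e1, e2, Complex.norm_real, Real.norm_eq_abs]
  simp

theorem sin_sq_two : Real.sin (2 * l) ^ 2 = 1 / 2 := by
  have h : 2 * l = Real.pi / 4 := by unfold l; ring
  rw [h, Real.sin_pi_div_four, div_pow, Real.sq_sqrt (by norm_num)]
  norm_num

theorem sin_sq_three : Real.sin (3 * l) ^ 2 = (2 + √2) / 4 := by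
  have h : 2 * (3 * l) = Real.pi - Real.pi / 4 := by unfold l; ring
  have h1 := Real.cos_two_mul (3 * l)
  rw [h, Real.cos_pi_sub, Real.cos_pi_div_four] at h1
  have h2 := Real.sin_sq_add_cos_sq (3 * l)
  linarith

theorem sin_sq_one : Real.sin l ^ 2 = (2 - √2) / 4 := by
  have h : 2 * l = Real.pi / 4 := by unfold l; ring
  have h1 := Real.cos_two_mul l
  rw [h, Real.cos_pi_div_four] at h1
  have h2 := Real.sin_sq_add_cos_sq l
  linarith

/-- the pair function at equal rows -/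
theorem norm_F_one : ‖NUGas.F et .pos .pos (E 0) (E 0)‖ = 4 + 2 * √2 := by
  show ‖NUGas.lin et 2 (E 0) (E 0) * NUGas.lin et 3 (E 0) (E 0) *
      NUGas.lin et 5 (E 0) (E 0) * NUGas.lin et 6 (E 0) (E 0)‖ = _
  rw [norm_mul, norm_mul, norm_mul, norm_lin_one, norm_lin_one, norm_lin_one, norm_lin_one]
  push_cast
  have h5 : Real.sin (5 * l) = Real.sin (3 * l) := by
    rw [show 5 * l = Real.pi - 3 * l by unfold l; ring, Real.sin_pi_sub]
  have h6 : Real.sin (6 * l) = Real.sin (2 * l) := by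
    rw [show 6 * l = Real.pi - 2 * l by unfold l; ring, Real.sin_pi_sub]
  rw [h5, h6]
  have e : 2 * |Real.sin (2 * l)| * (2 * |Real.sin (3 * l)|) * (2 * |Real.sin (3 * l)|) *
      (2 * |Real.sin (2 * l)|) = 16 * (|Real.sin (2 * l)| ^ 2 * |Real.sin (3 * l)| ^ 2) := by ring
  rw [e, sq_abs, sq_abs, sin_sq_two, sin_sq_three]
  ring

theorem P_const (c : ℂ) (m : ℕ) : Grand.P (fun _ _ : Fin m => c) ^ 2 = c ^ (m * (m - 1)) := by
  induction m with
  | zero => simp [Grand.P]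
  | succ m ih =>
    have h1 := Grand.P_succAbove (fun _ _ : Fin (m + 1) => c) (fun _ _ => rfl) 0
    rw [h1, mul_pow, ih, Finset.prod_const, Finset.card_univ, Fintype.card_fin, ← pow_mul, ← pow_add]
    congr 1
    cases m with
    | zero => rfl
    | succ m =>
      simp only [Nat.add_sub_cancel]
      ring

/-- **Modulus of the prefactor.** -/
theorem norm_Apre_sq {σ : ℂ} (hσ : σ ^ 2 = 4 * sin l ^ 2) (m : ℕ) :
    ‖Apre σ (fun _ : Fin m => 0) ^ 2‖ = (2 - √2) ^ m * (4 + 2 * √2) ^ (m * (m - 1)) := by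
  have hs : ‖σ‖ ^ 2 = 2 - √2 := by
    rw [← norm_pow, hσ, ← ofReal_sin, ← ofReal_pow]
    rw [show (4 * ((Real.sin l ^ 2 : ℝ) : ℂ)) = ((4 * Real.sin l ^ 2 : ℝ) : ℂ) by push_cast; ring,
      Complex.norm_real, Real.norm_eq_abs, abs_of_nonneg (by positivity), sin_sq_one]
    ring
  have hE : ‖E 0‖ = 1 := by unfold E; simp
  unfold Apre
  rw [mul_pow, P_const, norm_mul, norm_pow, norm_pow, norm_F_one, Finset.prod_const, Finset.card_univ,
    Fintype.card_fin, norm_pow, norm_mul, hE, mul_one, ← pow_mul, mul_comm m 2, pow_mul, hs]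

/-- the row function at equal rows -/
theorem GR_zero (c : ℂ) (β : ℝ) (m : ℕ) (u : ℂ) :
    GR c β (fun _ : Fin m => 0) (fun _ => 0) u =
      c * (sin (u + 3 * l) ^ 2 / (sin u * sin (u - 2 * l))) ^ m * (1 - psi β u ^ m) := by
  unfold GR phi
  simp only [sub_zero, Finset.prod_const, Finset.card_univ, Fintype.card_fin, List.map_ofFn, List.prod_ofFn,
    Function.comp_apply]
  have e : sin (u + 3 * l) ^ 2 / (sin u * sin (u - 2 * l)) =
      1 / sin u * (1 / sin (u - 2 * l)) * sin (u + 3 * l) ^ 2 := by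
    rw [one_div_mul_one_div, div_eq_mul_one_div, mul_comm]
  rw [e, mul_pow, mul_pow]
  ring

/-- the admissible lines, with cutoff rate `(4 / 3) (1 - ε)` -/
theorem lines_eps {ε : ℝ} (h0 : 0 < ε) (h1 : ε < 1) {α β₀ : ℝ} (ha : 0 < α) (hb : α < l)
    (hc : -(2 * l) < β₀) (hd : β₀ + 2 * l < α) : Lines α β₀ (4 / 3 * (1 - ε)) (3 * l / 2) := by
  have hl := l_pos
  have hpi : 8 * l = Real.pi := by unfold l; ring
  refine ⟨⟨by nlinarith, by linarith, ?_, ?_⟩, by linarith, by linarith, ha, by linarith, hc.le,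
    by linarith, by linarith, by linarith⟩
  · have : 2 * (4 / 3 * (1 - ε)) * (3 * l / 2) = 4 * l - 4 * l * ε := by ring
    rw [this, ← hpi]
    nlinarith
  · rw [← hpi]
    nlinarith

/-- **Loop weight two: the exact formula.** -/
theorem Wd_two {ε : ℝ} (h0 : 0 < ε) (h1 : ε < 1) {α β₀ : ℝ} (ha : 0 < α) (hb : α < l)
    (hc : -(2 * l) < β₀) (hd : β₀ + 2 * l < α) (m : ℕ) :
    ∃ A : ℂ, ‖A‖ = (2 - √2) ^ m * (4 + 2 * √2) ^ (m * (m - 1)) ∧
    (Pool.Agent.NUF.near_WW 2).Wd (List.replicate m 1) (List.replicate m 1) =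
      A * ∑ n ∈ Finset.range (2 * m + 1),
        Z2 α β₀ n (GR (-2 * cos l) (4 / 3 * (1 - ε)) (fun _ : Fin m => 0) fun _ => 0)
          (GR (-2 * cos l) (4 / 3 * (1 - ε)) (fun _ : Fin m => 0) fun _ => 0) := by
  have hs0 : sin (l : ℂ) ≠ 0 := by
    rw [← ofReal_sin]
    exact ofReal_ne_zero.2 (Real.sin_pos_of_pos_of_lt_pi l_pos (by
      unfold l; linarith [Real.pi_pos])).ne'
  have hσ0 : (2 * sin (l : ℂ)) ≠ 0 := mul_ne_zero two_ne_zero hs0
  have hσ : (2 * sin (l : ℂ)) ^ 2 = 4 * sin l ^ 2 := by ring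
  have hcc : -2 * sin (2 * l : ℂ) / (2 * sin l) = -2 * cos l := by
    rw [Complex.sin_two_mul]
    field_simp
  refine ⟨Apre (2 * sin l) (fun _ : Fin m => 0) ^ 2, norm_Apre_sq hσ m, ?_⟩
  have := Wd_eq (lines_eps h0 h1 ha hb hc hd) hd hb hc hσ0 hσ (om := 1) one_ne_zero m
  rw [hcc] at this
  rw [show (2 : ℂ) = 1 + 1⁻¹ by norm_num]
  rw [show (2 : ℂ) = 1 + 1⁻¹ by norm_num] at this
  rw [this]
  congr 1
  refine Finset.sum_congr rfl fun n _ => ?_
  rw [one_zpow, one_mul]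

end NUP1.Mu

end
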