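import Pool.Agent.NUP1.Step
import Pool.Agent.NUP1.Line

/-!
# Growth and decay at the ends of the strip
-/

set_option autoImplicit false

noncomputable section

open Complex MeasureTheory

namespace NUP1

/-- growth with exponent `κ` in the strip `β ≤ Re z ≤ α` -/
def Gr (α β κ : ℝ) (f : ℂ → ℂ) : Prop :=
  ∃ C R : ℝ, 0 ≤ C ∧ ∀ z : ℂ, β ≤ z.re → z.re ≤ α → R ≤ |z.im| →
    ‖f z‖ ≤ C * Real.exp (κ * |z.im|)

variable {α β κ κ' : ℝ} {f g : ℂ → ℂ}

theorem Gr.mul (hf : Gr α β κ f) (hg : Gr α β κ' g) : Gr α β (κ + κ') (fun z => f z * g z) := by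
  obtain ⟨C, R, hC, h⟩ := hf
  obtain ⟨C', R', hC', h'⟩ := hg
  refine ⟨C * C', max R R', mul_nonneg hC hC', fun z h1 h2 h3 => ?_⟩
  rw [norm_mul, add_mul, Real.exp_add]
  calc ‖f z‖ * ‖g z‖ ≤ (C * Real.exp (κ * |z.im|)) * (C' * Real.exp (κ' * |z.im|)) :=
        mul_le_mul (h z h1 h2 ((le_max_left _ _).trans h3)) (h' z h1 h2 ((le_max_right _ _).trans h3))
          (norm_nonneg _) (by positivity)
    _ = _ := by ring

theorem Gr.congr (hf : Gr α β κ f) (R₀ : ℝ)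
    (h : ∀ z : ℂ, β ≤ z.re → z.re ≤ α → R₀ ≤ |z.im| → g z = f z) : Gr α β κ g := by
  obtain ⟨C, R, hC, h'⟩ := hf
  refine ⟨C, max R R₀, hC, fun z h1 h2 h3 => ?_⟩
  rw [h z h1 h2 ((le_max_right _ _).trans h3)]
  exact h' z h1 h2 ((le_max_left _ _).trans h3)

theorem Gr.mono (hf : Gr α β κ f) (h : κ ≤ κ') : Gr α β κ' f := by
  obtain ⟨C, R, hC, h'⟩ := hf
  refine ⟨C, R, hC, fun z h1 h2 h3 => (h' z h1 h2 h3).trans ?_⟩
  have := abs_nonneg z.im
  gcongr

theorem Gr.strip {α' β' : ℝ} (hf : Gr α β κ f) (h1 : β ≤ β') (h2 : α' ≤ α) : Gr α' β' κ f := by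
  obtain ⟨C, R, hC, h'⟩ := hf
  exact ⟨C, R, hC, fun z h3 h4 h5 => h' z (h1.trans h3) (h4.trans h2) h5⟩

theorem Gr.add (hf : Gr α β κ f) (hg : Gr α β κ g) : Gr α β κ (fun z => f z + g z) := by
  obtain ⟨C, R, hC, h⟩ := hf
  obtain ⟨C', R', hC', h'⟩ := hg
  refine ⟨C + C', max R R', add_nonneg hC hC', fun z h1 h2 h3 => ?_⟩
  rw [add_mul]
  exact (norm_add_le _ _).trans (add_le_add (h z h1 h2 ((le_max_left _ _).trans h3))
    (h' z h1 h2 ((le_max_right _ _).trans h3)))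

theorem Gr.const (c : ℂ) : Gr α β 0 (fun _ => c) :=
  ⟨‖c‖, 0, norm_nonneg _, fun z _ _ _ => by simp⟩

theorem Gr.cmul (c : ℂ) (hf : Gr α β κ f) : Gr α β κ (fun z => c * f z) := by
  have := (Gr.const (α := α) (β := β) c).mul hf
  rwa [zero_add] at this

theorem Gr.zero : Gr α β κ (fun _ => 0) :=
  ⟨0, 0, le_rfl, fun z _ _ _ => by simp⟩

theorem Gr.sum {ι : Type*} (s : Finset ι) {F : ι → ℂ → ℂ} (h : ∀ i ∈ s, Gr α β κ (F i)) :
    Gr α β κ (fun z => ∑ i ∈ s, F i z) := by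
  classical
  induction s using Finset.induction_on with
  | empty => simpa using Gr.zero
  | insert a s ha ih =>
    simp only [Finset.sum_insert ha]
    exact (h a (by simp)).add (ih fun i hi => h i (by simp [hi]))

theorem norm_sin_le (z : ℂ) : ‖sin z‖ ≤ Real.exp |z.im| := by
  have h1 := norm_sin_sq z
  have h2 : Real.sin z.re ^ 2 ≤ 1 := Real.sin_sq_le_one _
  have h3 := Real.cosh_sq z.im
  have h4 : ‖sin z‖ ^ 2 ≤ Real.cosh z.im ^ 2 := by rw [h1, h3]; linarith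
  have h5 : ‖sin z‖ ≤ Real.cosh z.im := by
    refine abs_le_of_sq_le_sq' h4 (Real.cosh_pos _).le |>.2
  refine h5.trans ?_
  rw [← Real.cosh_abs, Real.cosh_eq]
  have : Real.exp (-|z.im|) ≤ Real.exp |z.im| := Real.exp_le_exp.2 (by linarith [abs_nonneg z.im])
  linarith

theorem Gr.sin (p : ℂ) : Gr α β 1 (fun z => sin (z - p)) := by
  refine ⟨Real.exp |p.im|, 0, (Real.exp_pos _).le, fun z _ _ _ => (norm_sin_le _).trans ?_⟩
  rw [← Real.exp_add, one_mul]
  refine Real.exp_le_exp.2 ?_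
  rw [sub_im]
  have := abs_sub z.im p.im
  linarith

theorem Gr.sin' (p : ℂ) : Gr α β 1 (fun z => Complex.sin (z + p)) := by
  simpa [sub_neg_eq_add] using Gr.sin (α := α) (β := β) (-p)

theorem Gr.inv_sin (p : ℂ) : Gr α β (-1) (fun z => (Complex.sin (z - p))⁻¹) := by
  refine ⟨4 * Real.exp |p.im|, 1 + |p.im|, by positivity, fun z _ _ h => ?_⟩
  exact norm_inv_sin_sub_le h

theorem Gr.inv_sin' (p : ℂ) : Gr α β (-1) (fun z => (Complex.sin (z + p))⁻¹) := by
  simpa [sub_neg_eq_add] using Gr.inv_sin (α := α) (β := β) (-p)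

theorem Gr.q (p : ℂ) : Gr α β 2 (fun z => q (z - p)) := by
  have h := ((((Gr.sin (α := α) (β := β) p).mul (Gr.sin p)).mul (Gr.sin (p - 2 * l))).mul
    (Gr.sin (p + 2 * l))).mul ((Gr.inv_sin (p - l)).mul (Gr.inv_sin (p + l))) |>.cmul (-1)
  have e : (1 + 1 + 1 + 1 + (-1 + -1) : ℝ) = 2 := by norm_num
  rw [e] at h
  refine h.congr 0 fun z _ _ _ => ?_
  unfold NUP1.q
  have e1 : z - (p - 2 * l) = z - p + 2 * l := by ring
  have e2 : z - (p + 2 * l) = z - p - 2 * l := by ring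
  have e3 : z - (p - l) = z - p + l := by ring
  have e4 : z - (p + l) = z - p - l := by ring
  rw [e1, e2, e3, e4, div_eq_mul_inv, mul_inv]
  ring

theorem Gr.q1 (p : ℂ) : Gr α β 4 (fun z => q1 (z - p)) := by
  have h := (((Gr.sin (α := α) (β := β) p).mul (Gr.sin (p - l))).mul (Gr.sin (p + 2 * l))).mul
    (Gr.sin (p - 3 * l))
  have e : (1 + 1 + 1 + 1 : ℝ) = 4 := by norm_num
  rw [e] at h
  refine h.congr 0 fun z _ _ _ => ?_
  unfold NUP1.q1
  have e1 : z - (p - l) = z - p + l := by ring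
  have e2 : z - (p + 2 * l) = z - p - 2 * l := by ring
  have e3 : z - (p - 3 * l) = z - p + 3 * l := by ring
  rw [e1, e2, e3]

/-- the same growth for the reflected argument -/
theorem Gr.q1r (p : ℂ) : Gr α β 4 (fun z => NUP1.q1 (p - z)) := by
  have h := (((Gr.sin (α := α) (β := β) p).mul (Gr.sin (p + l))).mul (Gr.sin (p - 2 * l))).mul
    (Gr.sin (p + 3 * l))
  have e : (1 + 1 + 1 + 1 : ℝ) = 4 := by norm_num
  rw [e] at h
  refine h.congr 0 fun z _ _ _ => ?_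
  unfold NUP1.q1
  have e0 : Complex.sin (p - z) = -Complex.sin (z - p) := by rw [← Complex.sin_neg]; ring_nf
  have e1 : Complex.sin (p - z + l) = -Complex.sin (z - (p + l)) := by rw [← Complex.sin_neg]; ring_nf
  have e2 : Complex.sin (p - z - 2 * l) = -Complex.sin (z - (p - 2 * l)) := by
    rw [← Complex.sin_neg]; ring_nf
  have e3 : Complex.sin (p - z + 3 * l) = -Complex.sin (z - (p + 3 * l)) := by
    rw [← Complex.sin_neg]; ring_nf
  rw [e0, e1, e2, e3]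
  ring

/-- shift by `l` -/
theorem Gr.shift (h : Gr α β κ f) : Gr α (β + l) κ (fun z => f (z - l)) := by
  have hl := lpos
  obtain ⟨C, R, hC, h'⟩ := h
  refine ⟨C, R, hC, fun z h1 h2 h3 => ?_⟩
  have := h' (z - l) (by simp; linarith) (by simp; linarith) (by simpa using h3)
  simpa using this

/-- high enough points are generic -/
theorem exists_high (S : Finset Site) : ∃ R : ℝ, ∀ a ∈ S, |a.2.im| < R := by
  classical
  refine ⟨∑ a ∈ S, |a.2.im| + 1, fun a ha => ?_⟩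
  have := Finset.single_le_sum (f := fun a : Site => |a.2.im|) (fun i _ => abs_nonneg _) ha
  linarith

end NUP1

end
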