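import Pool.Agent.NUP1.Base

/-!
# The recursion of `T`, and of the integrands
-/

set_option autoImplicit false

noncomputable section

open Complex MeasureTheory

namespace NUP1

variable {α β κ : ℝ} {S : Finset Site} {g : ℂ → ℂ}

/-- `T` with the index shifted by one -/
def Tp : ℕ → Finset Site → (ℂ → ℂ) → ℂ
  | 0, _, _ => 0
  | n + 1, S, g => T n S g

/-- the sites of kind `R0` -/
def Z (S : Finset Site) : Finset Site := S.filter fun a => a.1 = Kd.R0

theorem T_succ (n : ℕ) (S : Finset Site) (g : ℂ → ℂ) :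
    ((n : ℂ) + 1) * T (n + 1) S g =
      ∑ a ∈ S, rw a (S.erase a) g * T n (nxt a (S.erase a)) (fun u => g u * ent a u) +
      ∑ a ∈ Z S, dw a.2 (S.erase a) g * Tp n (S.erase a) (fun u => g u * f2 (u - a.2)) := by
  cases n with
  | zero =>
    simp only [T, Tp, mul_zero, Finset.sum_const_zero, add_zero, mul_one]
    simp
  | succ n =>
    show (((n + 1 : ℕ) : ℂ) + 1) * T (n + 2) S g = _
    simp only [T, Tp, Z]
    have h : ((n : ℂ) + 2) ≠ 0 := by
      have : ((n : ℂ) + 2) = ((n + 2 : ℕ) : ℂ) := by push_cast; ring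
      rw [this]
      exact Nat.cast_ne_zero.2 (Nat.succ_ne_zero (n + 1))
    rw [show (((n + 1 : ℕ) : ℂ) + 1) = (n : ℂ) + 2 by push_cast; ring, ← mul_assoc,
      mul_inv_cancel₀ h, one_mul]

/-! ### adding a site -/

theorem rw_insert {a s : Site} (hs : s ∉ S) (hne : a ≠ s) :
    rw a ((insert s S).erase a) g = rw a (S.erase a) g * fac s (pole a) := by
  rw [Finset.erase_insert_of_ne hne.symm]
  unfold rw
  rw [Gf_insert (fun h => hs (Finset.mem_of_mem_erase h)), mul_assoc]

theorem dw_insert {x : ℂ} {s : Site} (hs : s ∉ S) (hne : (Kd.R0, x) ≠ s) :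
    dw x ((insert s S).erase (Kd.R0, x)) g =
      dw x (S.erase (Kd.R0, x)) g * (fac s x * fac s (x - l)) := by
  rw [Finset.erase_insert_of_ne hne.symm]
  unfold dw
  have h1 : s ∉ S.erase (Kd.R0, x) := fun h => hs (Finset.mem_of_mem_erase h)
  rw [Gf_insert h1, Gf_insert h1]
  ring

theorem nxt_insert {a s : Site} (hne : a ≠ s) :
    nxt a ((insert s S).erase a) = insert s (nxt a (S.erase a)) := by
  rw [Finset.erase_insert_of_ne hne.symm]
  rcases a with ⟨_ | _ | _ | _, x⟩
  · exact Finset.insert_comm _ _ _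
  · rfl
  · rfl
  · rfl

/-- `T` for a family with one more site, which is not a row -/
theorem T_insert (n : ℕ) {s : Site} (hs : s ∉ S) (hk : s.1 ≠ Kd.R0) :
    ((n : ℂ) + 1) * T (n + 1) (insert s S) g =
      ∑ a ∈ S, rw a (S.erase a) g * fac s (pole a) *
        T n (insert s (nxt a (S.erase a))) (fun u => g u * ent a u) +
      rw s S g * T n (nxt s S) (fun u => g u * ent s u) +
      ∑ a ∈ Z S, dw a.2 (S.erase a) g * (fac s a.2 * fac s (a.2 - l)) *
        Tp n (insert s (S.erase a)) (fun u => g u * f2 (u - a.2)) := by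
  have hne : ∀ a ∈ S, a ≠ s := fun a ha h => hs (h ▸ ha)
  have hZ : Z (insert s S) = Z S := by
    unfold Z
    rw [Finset.filter_insert, if_neg hk]
  rw [T_succ, Finset.sum_insert hs, Finset.erase_insert hs, hZ]
  have e1 : ∑ a ∈ S, rw a ((insert s S).erase a) g *
      T n (nxt a ((insert s S).erase a)) (fun u => g u * ent a u) =
      ∑ a ∈ S, rw a (S.erase a) g * fac s (pole a) *
        T n (insert s (nxt a (S.erase a))) (fun u => g u * ent a u) :=
    Finset.sum_congr rfl fun a ha => by rw [rw_insert hs (hne a ha), nxt_insert (hne a ha)]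
  have e2 : ∑ a ∈ Z S, dw a.2 ((insert s S).erase a) g *
      Tp n ((insert s S).erase a) (fun u => g u * f2 (u - a.2)) =
      ∑ a ∈ Z S, dw a.2 (S.erase a) g * (fac s a.2 * fac s (a.2 - l)) *
        Tp n (insert s (S.erase a)) (fun u => g u * f2 (u - a.2)) :=
    Finset.sum_congr rfl fun a ha => by
      obtain ⟨ha1, ha2⟩ := Finset.mem_filter.1 ha
      obtain ⟨k, x⟩ := a
      simp only at ha2
      subst ha2
      rw [dw_insert hs (hne _ ha1), Finset.erase_insert_of_ne (hne _ ha1).symm]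
  rw [e1, e2]
  ring

/-! ### the integrands -/

/-- quantum on the line A -/
def FA (n : ℕ) (S : Finset Site) (g : ℂ → ℂ) (v : ℂ) : ℂ :=
  Gf S g v * T n (insert (Kd.VA, v) S) g

/-- quantum on the line L -/
def FL (n : ℕ) (S : Finset Site) (g : ℂ → ℂ) (v : ℂ) : ℂ :=
  Gf S g v * T n (insert (Kd.VL, v) S) g

/-- string -/
def FM (n : ℕ) (S : Finset Site) (g : ℂ → ℂ) (w : ℂ) : ℂ :=
  Gf S g w * Gf S g (w - l) * T n S (fun u => g u * q1 (u - w))

/-- shifted index -/
def sh (F : ℕ → Finset Site → (ℂ → ℂ) → ℂ → ℂ) : ℕ → Finset Site → (ℂ → ℂ) → ℂ → ℂ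
  | 0, _, _, _ => 0
  | n + 1, S, g, v => F n S g v

theorem Gen.nes {t : ℝ} (h : Gen S t) {a : Site} (ha : a ∈ S) {z : ℂ} (hz : z.im = t) (c : ℂ)
    (hc : c.im = 0) : sin (z - a.2 + c) ≠ 0 := by
  apply sin_ne_im
  simp only [add_im, sub_im, hc, hz]
  intro h'
  exact h a ha (by linarith)

/-- the one body function of an empty row with a string -/
theorem Gf_str {x v : ℂ} (ha : (Kd.R0, x) ∈ S) (hv : Gen S v.im) :
    Gf S g v * (q (x - v) * q (x - l - v)) =
      Gf (S.erase (Kd.R0, x)) (fun u => g u * f2 (u - x)) v := by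
  have h0 : sin (v - x) ≠ 0 := by simpa using hv.nes ha rfl 0 (by simp)
  have h1 : sin (v - x + l) ≠ 0 := hv.nes ha rfl l (by simp)
  have h2 : sin (v - x - l) ≠ 0 := by
    simpa [sub_eq_add_neg] using hv.nes ha rfl (-l) (by simp)
  have h3 : sin (v - x + 2 * l) ≠ 0 := hv.nes ha rfl (2 * l) (by simp)
  rw [Gf_mul, ← Finset.insert_erase ha, Gf_insert (Finset.notMem_erase _ _),
    Finset.erase_insert (Finset.notMem_erase _ _)]
  show _ * (1 / sin (v - x)) * _ = _
  rw [q_comm x v, q_comm (x - l) v, show v - (x - l) = v - x + l by ring]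
  have e : 1 / sin (v - x) * (q (v - x) * q (v - x + l)) = f2 (v - x) := by
    rw [← mul_assoc, f1_eq h0, f2_eq h0 h1 h2 h3]
  rw [mul_assoc, e]

/-- one body function, one more quantum on `a ∈ S` -/
theorem Gf_nxt' (h : Good α β S g) {a : Site} (ha : a ∈ S) {v : ℂ} (hv : Gen S v.im) :
    Gf (nxt a (S.erase a)) (fun u => g u * ent a u) v = Gf S g v * q (pole a - v) := by
  rw [Gf_nxt (Finset.notMem_erase _ _) (fun hk h1 => h.notMem ha hk (Finset.mem_of_mem_erase h1))
    (hv a ha), Finset.insert_erase ha, q_comm]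

theorem Zmem {a : Site} (ha : a ∈ Z S) : (Kd.R0, a.2) ∈ S ∧ a = (Kd.R0, a.2) := by
  obtain ⟨h1, h2⟩ := Finset.mem_filter.1 ha
  obtain ⟨k, x⟩ := a
  simp only at h2
  subst h2
  exact ⟨h1, rfl⟩

/-- recurrence of the integrand of line A -/
theorem FA_succ (h : Good α β S g) (n : ℕ) {v : ℂ} (hv : Gen S v.im) :
    ((n : ℂ) + 1) * FA (n + 1) S g v =
      ∑ a ∈ S, rw a (S.erase a) g * FA n (nxt a (S.erase a)) (fun u => g u * ent a u) v -
      rho * FM n S g v +
      ∑ a ∈ Z S, dw a.2 (S.erase a) g *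
        sh FA n (S.erase a) (fun u => g u * f2 (u - a.2)) v := by
  have hs : (Kd.VA, v) ∉ S := Gen.notMem hv
  have hT := T_insert (S := S) (g := g) n hs (by simp)
  unfold FA
  rw [mul_left_comm, hT, mul_add, mul_add, Finset.mul_sum, Finset.mul_sum]
  congr 1
  · rw [sub_eq_add_neg]
    congr 1
    · refine Finset.sum_congr rfl fun a ha => ?_
      rw [Gf_nxt' h ha hv]
      show _ * (_ * q (pole a - v) * _) = _
      ring
    · unfold FM
      show Gf S g v * (-rho * Gf S g (v - l) * T n S (fun u => g u * q1 (u - v))) = _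
      ring
  · refine Finset.sum_congr rfl fun a ha => ?_
    obtain ⟨ha1, ha2⟩ := Zmem ha
    cases n with
    | zero => simp [Tp, sh]
    | succ n =>
      show _ = dw a.2 (S.erase a) g * (Gf (S.erase a) (fun u => g u * f2 (u - a.2)) v *
        T n (insert (Kd.VA, v) (S.erase a)) (fun u => g u * f2 (u - a.2)))
      have e := Gf_str (g := g) ha1 hv
      rw [← ha2] at e
      rw [← e]
      show _ * (_ * (q (a.2 - v) * q (a.2 - l - v)) * T n _ _) = _
      ring

/-- recurrence of the integrand of line L -/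
theorem FL_succ (h : Good α β S g) (n : ℕ) {v : ℂ} (hv : Gen S v.im) :
    ((n : ℂ) + 1) * FL (n + 1) S g v =
      ∑ a ∈ S, rw a (S.erase a) g * FL n (nxt a (S.erase a)) (fun u => g u * ent a u) v +
      rho * FM n S g (v + l) +
      ∑ a ∈ Z S, dw a.2 (S.erase a) g *
        sh FL n (S.erase a) (fun u => g u * f2 (u - a.2)) v := by
  have hs : (Kd.VL, v) ∉ S := Gen.notMem hv
  have hT := T_insert (S := S) (g := g) n hs (by simp)
  unfold FL
  rw [mul_left_comm, hT, mul_add, mul_add, Finset.mul_sum, Finset.mul_sum]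
  congr 1
  · congr 1
    · refine Finset.sum_congr rfl fun a ha => ?_
      rw [Gf_nxt' h ha hv]
      show _ * (_ * q (pole a - v) * _) = _
      ring
    · unfold FM
      show Gf S g v * (rho * Gf S g (v + l) * T n S (fun u => g u * q1 (u - v - l))) = _
      have e : (fun u => g u * q1 (u - v - l)) = fun u => g u * q1 (u - (v + l)) := by
        funext u
        rw [sub_sub]
      rw [e, show v + l - l = v by ring]
      ring
  · refine Finset.sum_congr rfl fun a ha => ?_
    obtain ⟨ha1, ha2⟩ := Zmem ha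
    cases n with
    | zero => simp [Tp, sh]
    | succ n =>
      show _ = dw a.2 (S.erase a) g * (Gf (S.erase a) (fun u => g u * f2 (u - a.2)) v *
        T n (insert (Kd.VL, v) (S.erase a)) (fun u => g u * f2 (u - a.2)))
      have e := Gf_str (g := g) ha1 hv
      rw [← ha2] at e
      rw [← e]
      show _ * (_ * (q (a.2 - v) * q (a.2 - l - v)) * T n _ _) = _
      ring

theorem q1_pair {z : ℂ} (h0 : sin z ≠ 0) (h1 : sin (z - l) ≠ 0) (h2 : sin (z + l) ≠ 0)
    (h3 : sin (z - 2 * l) ≠ 0) : q z * q (z - l) = q1 (-z) := by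
  have h0' : sin (-z) ≠ 0 := by rw [Complex.sin_neg]; exact neg_ne_zero.2 h0
  have h1' : sin (-z + l) ≠ 0 := by
    rw [show -z + l = -(z - l) by ring, Complex.sin_neg]; exact neg_ne_zero.2 h1
  have h2' : sin (-z - l) ≠ 0 := by
    rw [show -z - l = -(z + l) by ring, Complex.sin_neg]; exact neg_ne_zero.2 h2
  have h3' : sin (-z + 2 * l) ≠ 0 := by
    rw [show -z + 2 * l = -(z - 2 * l) by ring, Complex.sin_neg]; exact neg_ne_zero.2 h3
  rw [← q1_eq h0' h1' h2' h3', q_neg, show -z + l = -(z - l) by ring, q_neg]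

theorem q1_q1 (z : ℂ) : q1 (-z) * q1 (-z - l) = sin z * f2 z * (sin (z - l) * f2 (z - l)) := by
  unfold q1 f2
  have e0 : sin (-z) = -sin z := Complex.sin_neg z
  have e1 : sin (-z + l) = -sin (z - l) := by rw [← Complex.sin_neg]; ring_nf
  have e2 : sin (-z - 2 * l) = -sin (z + 2 * l) := by rw [← Complex.sin_neg]; ring_nf
  have e3 : sin (-z + 3 * l) = -sin (z - 3 * l) := by rw [← Complex.sin_neg]; ring_nf
  have e4 : sin (-z - l) = -sin (z + l) := by rw [← Complex.sin_neg]; ring_nf
  have e5 : sin (-z - l + l) = -sin z := by rw [← Complex.sin_neg]; ring_nf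
  have e6 : sin (-z - l - 2 * l) = -sin (z + 3 * l) := by rw [← Complex.sin_neg]; ring_nf
  have e7 : sin (-z - l + 3 * l) = -sin (z - 2 * l) := by rw [← Complex.sin_neg]; ring_nf
  have e8 : z - l + l = z := by ring
  have e9 : z - l - 2 * l = z - 3 * l := by ring
  have e10 : z - l + 3 * l = z + 2 * l := by ring
  rw [e0, e1, e2, e3, e4, e5, e6, e7, e8, e9, e10]
  ring

theorem rw_mul {a : Site} (k : ℂ → ℂ) :
    rw a S (fun u => g u * k u) = rw a S g * k (pole a) := by
  unfold rw
  rw [Gf_mul, mul_assoc]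

theorem dw_mul {x : ℂ} (k : ℂ → ℂ) :
    dw x S (fun u => g u * k u) = dw x S g * (k x * k (x - l)) := by
  unfold dw
  rw [Gf_mul, Gf_mul]
  ring

/-- recurrence of the integrand of the strings -/
theorem FM_succ (h : Good α β S g) (n : ℕ) {w : ℂ} (hv : Gen S w.im) :
    ((n : ℂ) + 1) * FM (n + 1) S g w =
      ∑ a ∈ S, rw a (S.erase a) g * FM n (nxt a (S.erase a)) (fun u => g u * ent a u) w +
      ∑ a ∈ Z S, dw a.2 (S.erase a) g *
        sh FM n (S.erase a) (fun u => g u * f2 (u - a.2)) w := by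
  have hT := T_succ n S (fun u => g u * q1 (u - w))
  have hv' : Gen S (w - l).im := by simpa using hv
  unfold FM
  rw [mul_left_comm, hT, mul_add, Finset.mul_sum, Finset.mul_sum]
  congr 1
  · refine Finset.sum_congr rfl fun a ha => ?_
    rw [Gf_nxt' h ha hv, Gf_nxt' h ha hv', rw_mul]
    have k1 : ∀ c : ℂ, c.im = 0 → sin (w - pole a + c) ≠ 0 := fun c hc => by
      apply sin_ne_im
      simp only [add_im, sub_im, hc, pole_im]
      intro h'
      exact hv a ha (by linarith)
    have e1 : q (pole a - w) * q (pole a - (w - l)) = q1 (pole a - w) := by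
      rw [q_comm, q_comm (pole a), show w - l - pole a = w - pole a - l by ring]
      rw [q1_pair (by simpa using k1 0 (by simp)) (by simpa [sub_eq_add_neg] using k1 (-l) (by simp))
        (k1 l (by simp)) (by simpa [sub_eq_add_neg] using k1 (-(2 * l)) (by simp)), neg_sub]
    have e2 : (fun u => g u * q1 (u - w) * ent a u) = fun u => g u * ent a u * q1 (u - w) := by
      funext u
      ring
    rw [e2, ← e1]
    ring
  · refine Finset.sum_congr rfl fun a ha => ?_
    obtain ⟨ha1, ha2⟩ := Zmem ha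
    cases n with
    | zero => simp [Tp, sh]
    | succ n =>
      show _ = dw a.2 (S.erase a) g * (Gf (S.erase a) (fun u => g u * f2 (u - a.2)) w *
        Gf (S.erase a) (fun u => g u * f2 (u - a.2)) (w - l) *
        T n (S.erase a) (fun u => g u * f2 (u - a.2) * q1 (u - w)))
      have e2 : (fun u => g u * q1 (u - w) * f2 (u - a.2)) =
          fun u => g u * f2 (u - a.2) * q1 (u - w) := by
        funext u
        ring
      have h0 : sin (w - a.2) ≠ 0 := by simpa using hv.nes ha1 rfl 0 (by simp)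
      have h1 : sin (w - a.2 - l) ≠ 0 := by
        simpa [sub_eq_add_neg] using hv.nes ha1 rfl (-l) (by simp)
      have e3 : ∀ z : ℂ, Gf S g z = Gf (S.erase a) g z * (1 / sin (z - a.2)) := fun z => by
        have e := Gf_insert (g := g) (Finset.notMem_erase (Kd.R0, a.2) S) z
        rw [Finset.insert_erase ha1] at e
        rw [e, ← ha2]
        rw [ha2]
        rfl
      rw [dw_mul, Tp, e2, e3 w, e3 (w - l), Gf_mul, Gf_mul]
      have e4 := q1_q1 (w - a.2)
      rw [show -(w - a.2) = a.2 - w by ring, show a.2 - w - l = a.2 - l - w by ring] at e4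
      rw [e4, show w - l - a.2 = w - a.2 - l by ring]
      field_simp

end NUP1

end
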