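import Pool.Agent.NUP1.Rec

/-!
# Expansion of `T` with respect to the state of one row
-/

set_option autoImplicit false

noncomputable section

open Complex MeasureTheory

namespace NUP1

variable {S : Finset Site} {g : ℂ → ℂ}

/-- `T` with an integer index -/
def TZ (n : ℤ) (S : Finset Site) (g : ℂ → ℂ) : ℂ := if n < 0 then 0 else T n.toNat S g

theorem TZ_neg {n : ℤ} (h : n < 0) : TZ n S g = 0 := if_pos h

theorem TZ_zero : TZ 0 S g = 1 := by simp [TZ, T]

theorem TZ_nat (n : ℕ) : TZ n S g = T n S g := by simp [TZ]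

theorem TZ_rec (n : ℤ) (S : Finset Site) (g : ℂ → ℂ) :
    (n : ℂ) * TZ n S g =
      ∑ a ∈ S, rw a (S.erase a) g * TZ (n - 1) (nxt a (S.erase a)) (fun u => g u * ent a u) +
      ∑ a ∈ Z S, dw a.2 (S.erase a) g * TZ (n - 2) (S.erase a) (fun u => g u * f2 (u - a.2)) := by
  rcases lt_trichotomy n 0 with h | h | h
  · simp only [TZ_neg h, TZ_neg (show n - 1 < 0 by omega), TZ_neg (show n - 2 < 0 by omega)]
    simp
  · subst h
    simp only [TZ_neg (show (0 : ℤ) - 1 < 0 by omega), TZ_neg (show (0 : ℤ) - 2 < 0 by omega)]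
    simp
  · obtain ⟨m, rfl⟩ : ∃ m : ℕ, n = (m : ℤ) + 1 := ⟨(n - 1).toNat, by omega⟩
    have h1 := T_succ m S g
    have e1 : TZ ((m : ℤ) + 1) S g = T (m + 1) S g := by exact_mod_cast TZ_nat (m + 1)
    have e2 : ∀ S g, TZ ((m : ℤ) + 1 - 1) S g = T m S g := fun S g => by
      rw [add_sub_cancel_right]
      exact TZ_nat m
    have e3 : ∀ S g, TZ ((m : ℤ) + 1 - 2) S g = Tp m S g := fun S g => by
      cases m with
      | zero => exact TZ_neg (by norm_num)
      | succ k =>
        rw [show (((k + 1 : ℕ) : ℤ) + 1 - 2) = (k : ℤ) by push_cast; ring]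
        exact TZ_nat k
    rw [e1]
    simp only [e2, e3]
    rw [← h1]
    push_cast
    ring

/-- `x - y` is generic -/
structure Sp (x y : ℂ) : Prop where
  h0 : sin (x - y) ≠ 0
  h1 : sin (x - y + l) ≠ 0
  h2 : sin (x - y - l) ≠ 0
  h3 : sin (x - y + 2 * l) ≠ 0
  h4 : sin (x - y - 2 * l) ≠ 0

theorem Sp.symm {x y : ℂ} (h : Sp x y) : Sp y x := by
  have k : ∀ z : ℂ, sin (-z) = -sin z := Complex.sin_neg
  refine ⟨?_, ?_, ?_, ?_, ?_⟩
  · rw [show y - x = -(x - y) by ring, k]; exact neg_ne_zero.2 h.h0
  · rw [show y - x + l = -(x - y - l) by ring, k]; exact neg_ne_zero.2 h.h2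
  · rw [show y - x - l = -(x - y + l) by ring, k]; exact neg_ne_zero.2 h.h1
  · rw [show y - x + 2 * l = -(x - y - 2 * l) by ring, k]; exact neg_ne_zero.2 h.h4
  · rw [show y - x - 2 * l = -(x - y + 2 * l) by ring, k]; exact neg_ne_zero.2 h.h3

/-- a row -/
def IsRow (a : Site) : Prop := a.1 = Kd.R0 ∨ a.1 = Kd.R1

/-- families of rows in generic position -/
structure RG (S : Finset Site) : Prop where
  row : ∀ a ∈ S, IsRow a
  sp : ∀ a ∈ S, ∀ b ∈ S, a ≠ b → Sp a.2 b.2

theorem RG.mono {S' : Finset Site} (h : RG S) (hs : S' ⊆ S) : RG S' :=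
  ⟨fun a ha => h.row a (hs ha), fun a ha b hb => h.sp a (hs ha) b (hs hb)⟩

theorem RG.erase (h : RG S) (a : Site) : RG (S.erase a) := h.mono (Finset.erase_subset _ _)

theorem Sp.ne {x y : ℂ} (h : Sp x y) : x ≠ y := by
  rintro rfl
  exact h.h0 (by simp)

/-- the other row sites have other positions -/
theorem RG.notMem {a : Site} (h : RG (insert a S)) (ha : a ∉ S) (k : Kd) : (k, a.2) ∉ S := by
  intro h1
  have h2 : (k, a.2) ≠ a := fun h' => ha (h' ▸ h1)
  exact (h.sp _ (Finset.mem_insert_of_mem h1) _ (Finset.mem_insert_self _ _) h2).ne rfl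

theorem RG.nxt (h : RG S) {b : Site} (hb : b ∈ S) : RG (nxt b (S.erase b)) := by
  have h1 := h.erase b
  rcases b with ⟨_ | _ | _ | _, x⟩
  · refine ⟨?_, ?_⟩
    · intro a ha
      rcases Finset.mem_insert.1 ha with h3 | h3
      · rw [h3]; exact Or.inr rfl
      · exact h1.row a h3
    · intro a ha c hc hac
      have key : ∀ d ∈ S.erase (Kd.R0, x), Sp x d.2 := fun d hd =>
        h.sp _ hb d (Finset.mem_of_mem_erase hd) (Finset.ne_of_mem_erase hd).symm
      rcases Finset.mem_insert.1 ha with h3 | h3 <;> rcases Finset.mem_insert.1 hc with h4 | h4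
      · exact absurd (h3.trans h4.symm) hac
      · rw [h3]; exact key c h4
      · rw [h4]; exact (key a h3).symm
      · exact h1.sp a h3 c h4 hac
  · exact h1
  · exact h1
  · exact h1

/-- factor of a site which has received a quantum -/
def en : Site → ℂ → ℂ
  | (.R0, x), u => f1 (u - x)
  | (.R1, x), u => f2 (u - x)
  | (.VA, v), u => q1 (u - v)
  | (.VL, v), u => q1 (u - v - l)

/-- weight of a string -/
def ds (a : Site) (S : Finset Site) (g : ℂ → ℂ) : ℂ := if a.1 = Kd.R0 then dw a.2 S g else 0

theorem Gf_nx {a : Site} (hn : (Kd.R1, a.2) ∉ S) (u : ℂ) :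
    Gf (nxt a S) (fun u => g u * ent a u) u = Gf S g u * en a u := by
  rw [Gf_mul]
  rcases a with ⟨_ | _ | _ | _, x⟩
  · show Gf (insert (Kd.R1, x) S) g u * 1 = _
    rw [Gf_insert hn, mul_one]
    rfl
  · rfl
  · rfl
  · rfl

/-! ### parity -/

theorem f1_neg (z : ℂ) : f1 (-z) = -f1 z := by
  unfold f1
  have e1 : sin (-z) = -sin z := Complex.sin_neg z
  have e2 : sin (-z + 2 * l) = -sin (z - 2 * l) := by rw [← Complex.sin_neg]; ring_nf
  have e3 : sin (-z - 2 * l) = -sin (z + 2 * l) := by rw [← Complex.sin_neg]; ring_nf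
  have e4 : sin (-z + l) = -sin (z - l) := by rw [← Complex.sin_neg]; ring_nf
  have e5 : sin (-z - l) = -sin (z + l) := by rw [← Complex.sin_neg]; ring_nf
  rw [e1, e2, e3, e4, e5]
  ring

theorem f2_neg (z : ℂ) : f2 (-z) = -(sin (z - l) * sin (z + 2 * l) * sin (z - 3 * l)) := by
  unfold f2
  have e2 : sin (-z + l) = -sin (z - l) := by rw [← Complex.sin_neg]; ring_nf
  have e3 : sin (-z - 2 * l) = -sin (z + 2 * l) := by rw [← Complex.sin_neg]; ring_nf
  have e4 : sin (-z + 3 * l) = -sin (z - 3 * l) := by rw [← Complex.sin_neg]; ring_nf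
  rw [e2, e3, e4]
  ring

/-! ### the symmetry relations -/

/-- one quantum on each of two rows -/
theorem sym1 {a b : Site} (ha : IsRow a) (hb : IsRow b) (h : Sp a.2 b.2) :
    fac a (pole b) * en b (pole a) = fac b (pole a) * en a (pole b) := by
  have h' := h.symm
  -- the case `(R0, x), (R1, y)`
  have key : ∀ x y : ℂ, Sp x y → 1 / sin (y - l - x) * f2 (x - y) = f1 (x - y) * f1 (y - l - x) := by
    intro x y h
    have e1 : y - l - x = -(x - y + l) := by ring
    have e2 : x - y = (x - y + l) - l := by ring
    have h5 := f1_f1 (z := x - y + l) h.h1 (by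
      rw [show x - y + l + l = x - y + 2 * l by ring]; exact h.h3) (by
      rw [show x - y + l - l = x - y by ring]; exact h.h0) (by
      rw [show x - y + l - 2 * l = x - y - l by ring]; exact h.h2)
    rw [show x - y + l - l = x - y by ring] at h5
    rw [e1, f1_neg, mul_neg, mul_comm (f1 (x - y)), h5, Complex.sin_neg, one_div, inv_neg]
    unfold f2
    rw [show x - y + l + 2 * l = x - y + 3 * l by ring, show x - y + l - 3 * l = x - y - 2 * l by ring]
    have := h.h1
    field_simp
  obtain ⟨ka, x⟩ := a
  obtain ⟨kb, y⟩ := b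
  rcases ha with ha | ha <;> rcases hb with hb | hb <;> simp only at ha hb <;> subst ha <;> subst hb
  · show 1 / sin (y - x) * f1 (x - y) = 1 / sin (x - y) * f1 (y - x)
    rw [show y - x = -(x - y) by ring, f1_neg, Complex.sin_neg, one_div, inv_neg, one_div]
    ring
  · exact key x y h
  · exact (key y x h').symm
  · show f1 (y - l - x) * f2 (x - l - y) = f1 (x - l - y) * f2 (y - l - x)
    rw [show y - l - x = -(x - y + l) by ring, show x - l - y = x - y - l by ring, f1_neg, f2_neg]
    unfold f1 f2
    rw [show x - y + l + 2 * l = x - y + 3 * l by ring, show x - y + l - 2 * l = x - y - l by ring,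
      show x - y + l + l = x - y + 2 * l by ring, show x - y + l - l = x - y by ring,
      show x - y - l + l = x - y by ring, show x - y - l - 2 * l = x - y - 3 * l by ring,
      show x - y - l + 3 * l = x - y + 2 * l by ring, show x - y - l + 2 * l = x - y + l by ring,
      show x - y - l - l = x - y - 2 * l by ring, show x - y + l - 3 * l = x - y - 2 * l by ring]
    have h0 : sin (x - y) ≠ 0 := h.h0
    have h3 : sin (x - y + 2 * l) ≠ 0 := h.h3
    have h4 : sin (x - y - 2 * l) ≠ 0 := h.h4
    generalize sin (x - y) = A at *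
    generalize sin (x - y + 2 * l) = B at *
    generalize sin (x - y - 2 * l) = C at *
    field_simp

/-- a string on the row `y`, one quantum on `a` -/
theorem sym2 {a : Site} {y : ℂ} (ha : IsRow a) (h : Sp a.2 y) :
    fac a y * fac a (y - l) * f2 (pole a - y) =
      1 / sin (pole a - y) * (en a y * en a (y - l)) := by
  have h' := h.symm
  obtain ⟨ka, x⟩ := a
  have h5 := f1_f1 (z := y - x) h'.h0 h'.h1 h'.h2 h'.h4
  rcases ha with ha | ha <;> simp only at ha <;> subst ha
  · show 1 / sin (y - x) * (1 / sin (y - l - x)) * f2 (x - y) =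
      1 / sin (x - y) * (f1 (y - x) * f1 (y - l - x))
    rw [show y - l - x = y - x - l by ring, h5, show x - y = -(y - x) by ring, f2_neg,
      Complex.sin_neg]
    have h0 := h'.h0
    have h2 := h'.h2
    field_simp
  · show f1 (y - x) * f1 (y - l - x) * f2 (x - l - y) =
      1 / sin (x - l - y) * (f2 (y - x) * f2 (y - l - x))
    rw [show y - l - x = y - x - l by ring, h5, show x - l - y = -(y - x + l) by ring, f2_neg,
      Complex.sin_neg]
    unfold f2
    rw [show y - x + l - l = y - x by ring, show y - x + l + 2 * l = y - x + 3 * l by ring,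
      show y - x + l - 3 * l = y - x - 2 * l by ring, show y - x - l + l = y - x by ring,
      show y - x - l - 2 * l = y - x - 3 * l by ring, show y - x - l + 3 * l = y - x + 2 * l by ring]
    have h1 := h'.h1
    field_simp

/-- two strings -/
theorem sym3 {x y : ℂ} (h : Sp x y) :
    1 / sin (y - x) * (1 / sin (y - l - x)) * (f2 (x - y) * f2 (x - l - y)) =
      1 / sin (x - y) * (1 / sin (x - l - y)) * (f2 (y - x) * f2 (y - l - x)) := by
  have e1 : y - x = -(x - y) := by ring
  have e2 : y - l - x = -(x - y + l) := by ring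
  have e3 : x - l - y = x - y - l := by ring
  rw [e2, e1, e3, f2_neg, f2_neg, Complex.sin_neg, Complex.sin_neg]
  unfold f2
  rw [show x - y + l - l = x - y by ring, show x - y + l + 2 * l = x - y + 3 * l by ring,
    show x - y + l - 3 * l = x - y - 2 * l by ring, show x - y - l + l = x - y by ring,
    show x - y - l - 2 * l = x - y - 3 * l by ring, show x - y - l + 3 * l = x - y + 2 * l by ring]
  have h0 := h.h0
  have h1 := h.h1
  have h2 := h.h2
  field_simp

/-! ### the expansion -/

theorem ds_mul {a : Site} (k : ℂ → ℂ) :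
    ds a S (fun u => g u * k u) = ds a S g * (k a.2 * k (a.2 - l)) := by
  unfold ds
  split_ifs
  · exact dw_mul k
  · simp

theorem rw_ins {a b : Site} (hb : b ∉ S) : rw a (insert b S) g = rw a S g * fac b (pole a) := by
  unfold rw
  rw [Gf_insert hb, mul_assoc]

theorem ds_ins {a b : Site} (hb : b ∉ S) :
    ds a (insert b S) g = ds a S g * (fac b a.2 * fac b (a.2 - l)) := by
  unfold ds
  split_ifs
  · unfold dw
    rw [Gf_insert hb, Gf_insert hb]
    ring
  · simp

theorem rw_nx {a b : Site} (hn : (Kd.R1, b.2) ∉ S) :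
    rw a (nxt b S) (fun u => g u * ent b u) = rw a S g * en b (pole a) := by
  unfold rw
  rw [Gf_nx hn, mul_assoc]

theorem ds_nx {a b : Site} (hn : (Kd.R1, b.2) ∉ S) :
    ds a (nxt b S) (fun u => g u * ent b u) = ds a S g * (en b a.2 * en b (a.2 - l)) := by
  unfold ds
  split_ifs
  · unfold dw
    rw [Gf_nx hn, Gf_nx hn]
    ring
  · simp

/-- `T` of a family with one more site, by the recursion -/
theorem TZ_insert (n : ℤ) {a : Site} (ha : a ∉ S) :
    (n : ℂ) * TZ n (insert a S) g =
      rw a S g * TZ (n - 1) (nxt a S) (fun u => g u * ent a u) +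
      ds a S g * TZ (n - 2) S (fun u => g u * f2 (u - a.2)) +
      ∑ b ∈ S, rw b (S.erase b) g * fac a (pole b) *
        TZ (n - 1) (insert a (nxt b (S.erase b))) (fun u => g u * ent b u) +
      ∑ b ∈ Z S, dw b.2 (S.erase b) g * (fac a b.2 * fac a (b.2 - l)) *
        TZ (n - 2) (insert a (S.erase b)) (fun u => g u * f2 (u - b.2)) := by
  have hne : ∀ b ∈ S, b ≠ a := fun b hb h => ha (h ▸ hb)
  rw [TZ_rec, Finset.sum_insert ha, Finset.erase_insert ha]
  have e1 : ∑ b ∈ S, rw b ((insert a S).erase b) g *
      TZ (n - 1) (nxt b ((insert a S).erase b)) (fun u => g u * ent b u) =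
      ∑ b ∈ S, rw b (S.erase b) g * fac a (pole b) *
        TZ (n - 1) (insert a (nxt b (S.erase b))) (fun u => g u * ent b u) :=
    Finset.sum_congr rfl fun b hb => by rw [rw_insert ha (hne b hb), nxt_insert (hne b hb)]
  have e2 : ∀ b ∈ Z S, dw b.2 ((insert a S).erase b) g *
      TZ (n - 2) ((insert a S).erase b) (fun u => g u * f2 (u - b.2)) =
      dw b.2 (S.erase b) g * (fac a b.2 * fac a (b.2 - l)) *
        TZ (n - 2) (insert a (S.erase b)) (fun u => g u * f2 (u - b.2)) := fun b hb => by
    obtain ⟨hb1, hb2⟩ := Finset.mem_filter.1 hb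
    obtain ⟨k, x⟩ := b
    simp only at hb2
    subst hb2
    rw [dw_insert ha (hne _ hb1), Finset.erase_insert_of_ne (hne _ hb1).symm]
  have e3 : ∑ b ∈ Z (insert a S), dw b.2 ((insert a S).erase b) g *
      TZ (n - 2) ((insert a S).erase b) (fun u => g u * f2 (u - b.2)) =
      ds a S g * TZ (n - 2) S (fun u => g u * f2 (u - a.2)) +
      ∑ b ∈ Z S, dw b.2 (S.erase b) g * (fac a b.2 * fac a (b.2 - l)) *
        TZ (n - 2) (insert a (S.erase b)) (fun u => g u * f2 (u - b.2)) := by
    by_cases hk : a.1 = Kd.R0
    · have hZ : Z (insert a S) = insert a (Z S) := by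
        unfold Z
        rw [Finset.filter_insert, if_pos hk]
      have hza : a ∉ Z S := fun h => ha (Finset.mem_of_mem_filter _ h)
      rw [hZ, Finset.sum_insert hza, Finset.sum_congr rfl e2, Finset.erase_insert ha]
      unfold ds
      rw [if_pos hk]
    · have hZ : Z (insert a S) = Z S := by
        unfold Z
        rw [Finset.filter_insert, if_neg hk]
      rw [hZ, Finset.sum_congr rfl e2]
      unfold ds
      rw [if_neg hk, zero_mul, zero_add]
  rw [e1, e3]
  ring

theorem fx {p q : ℂ → ℂ} (h : ∀ u, p u = q u) (n : ℤ) (S : Finset Site) : TZ n S p = TZ n S q := by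
  rw [show p = q from funext h]

/-- **Expansion with respect to the state of one row.** -/
theorem site_exp (N : ℕ) : ∀ (n : ℤ), n ≤ N → ∀ {S : Finset Site} {g : ℂ → ℂ} {a : Site},
    a ∉ S → RG (insert a S) →
    TZ n (insert a S) g = TZ n S (fun u => g u * fac a u) +
      rw a S g * TZ (n - 1) S (fun u => g u * en a u) +
      ds a S g * TZ (n - 2) S (fun u => g u * f2 (u - a.2)) := by
  induction N with
  | zero =>
    intro n hn S g a ha h
    rw [TZ_neg (show n - 1 < 0 by omega), TZ_neg (show n - 2 < 0 by omega), mul_zero, mul_zero,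
      add_zero, add_zero]
    rcases lt_or_eq_of_le hn with h1 | h1
    · rw [TZ_neg (by simpa using h1), TZ_neg (by simpa using h1)]
    · have : n = 0 := by simpa using h1
      rw [this, TZ_zero, TZ_zero]
  | succ N ih =>
    intro n hn S g a ha h
    by_cases hN : n ≤ N
    · exact ih n hN ha h
    have hn1 : n = (N : ℤ) + 1 := by push_cast at hn; omega
    have hnC : (n : ℂ) ≠ 0 := by
      have : (n : ℤ) ≠ 0 := by omega
      exact_mod_cast this
    have hrow := h.row a (Finset.mem_insert_self _ _)
    have hS : RG S := h.mono (Finset.subset_insert _ _)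
    -- the first terms
    have eA : rw a S g * TZ (n - 1) (nxt a S) (fun u => g u * ent a u) =
        rw a S g * TZ (n - 1) S (fun u => g u * en a u) +
        ds a S g * TZ (n - 2) S (fun u => g u * f2 (u - a.2)) := by
      obtain ⟨k, x⟩ := a
      rcases hrow with hk | hk <;> simp only at hk <;> subst hk
      · have h1 : (Kd.R1, x) ∉ S := h.notMem ha Kd.R1
        have hR : RG (insert (Kd.R1, x) S) := by
          have := h.nxt (Finset.mem_insert_self _ _)
          rwa [Finset.erase_insert ha] at this
        have h2 := ih (n - 1) (by omega) (g := g) h1 hR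
        show rw (Kd.R0, x) S g * TZ (n - 1) (insert (Kd.R1, x) S) (fun u => g u * 1) = _
        rw [fx (q := g) (fun u => mul_one _), h2, show n - 1 - 1 = n - 2 by ring]
        have e0 : ds (Kd.R1, x) S g = 0 := if_neg (by simp)
        have e1 : rw (Kd.R0, x) S g * rw (Kd.R1, x) S g = ds (Kd.R0, x) S g := by
          unfold rw ds dw
          rw [if_pos rfl]
          show 1 * Gf S g x * (rho / sin l * Gf S g (x - l)) = _
          ring
        rw [e0, zero_mul, add_zero, mul_add, ← mul_assoc, e1]
        rfl
      · have e0 : ds (Kd.R1, x) S g = 0 := if_neg (by simp)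
        rw [e0, zero_mul, add_zero]
        rfl
    -- the terms of the other sites
    have eB : ∀ b ∈ S, rw b (S.erase b) g * fac a (pole b) *
        TZ (n - 1) (insert a (nxt b (S.erase b))) (fun u => g u * ent b u) =
        rw b (S.erase b) (fun u => g u * fac a u) *
          TZ (n - 1) (nxt b (S.erase b)) (fun u => g u * fac a u * ent b u) +
        rw a S g * (rw b (S.erase b) (fun u => g u * en a u) *
          TZ (n - 1 - 1) (nxt b (S.erase b)) (fun u => g u * en a u * ent b u)) +
        ds a S g * (rw b (S.erase b) (fun u => g u * f2 (u - a.2)) *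
          TZ (n - 2 - 1) (nxt b (S.erase b)) (fun u => g u * f2 (u - a.2) * ent b u)) := by
      intro b hb
      have hba : b ≠ a := fun h' => ha (h' ▸ hb)
      have hsp : Sp a.2 b.2 := h.sp a (Finset.mem_insert_self _ _) b (Finset.mem_insert_of_mem hb)
        hba.symm
      have hrb := hS.row b hb
      have hnb : b ∉ S.erase b := Finset.notMem_erase _ _
      have hR1 : (Kd.R1, b.2) ∉ S.erase b := by
        have : RG (insert b (S.erase b)) := by rw [Finset.insert_erase hb]; exact hS
        exact this.notMem hnb Kd.R1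
      have h4 : a ∉ nxt b (S.erase b) := by
        have h5 : a ∉ S.erase b := fun h' => ha (Finset.mem_of_mem_erase h')
        obtain ⟨k, y⟩ := b
        rcases hrb with hk | hk <;> simp only at hk <;> subst hk
        · intro h'
          rcases Finset.mem_insert.1 h' with h6 | h6
          · rw [h6] at hsp
            exact hsp.ne rfl
          · exact h5 h6
        · exact h5
      have hR : RG (insert a (nxt b (S.erase b))) := by
        have := h.nxt (Finset.mem_insert_of_mem hb)
        rwa [nxt_insert hba] at this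
      have h2 := ih (n - 1) (by omega) (g := fun u => g u * ent b u) h4 hR
      rw [h2, rw_nx hR1, ds_nx hR1, rw_mul, rw_mul, rw_mul (k := fun u => f2 (u - a.2)),
        show n - 1 - 2 = n - 2 - 1 by ring]
      have e1 : rw a S g = rw a (S.erase b) g * fac b (pole a) := by
        rw [← rw_ins hnb, Finset.insert_erase hb]
      have e2 : ds a S g = ds a (S.erase b) g * (fac b a.2 * fac b (a.2 - l)) := by
        rw [← ds_ins hnb, Finset.insert_erase hb]
      rw [e1, e2,
        fx (p := fun u => g u * ent b u * fac a u) (q := fun u => g u * fac a u * ent b u)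
          (fun u => by ring),
        fx (p := fun u => g u * ent b u * en a u) (q := fun u => g u * en a u * ent b u)
          (fun u => by ring),
        fx (p := fun u => g u * ent b u * f2 (u - a.2))
          (q := fun u => g u * f2 (u - a.2) * ent b u) (fun u => by ring)]
      have s1 := sym1 hrow hrb hsp
      have s2 : ds a (S.erase b) g * (fac a (pole b) * (en b a.2 * en b (a.2 - l))) =
          ds a (S.erase b) g * (fac b a.2 * fac b (a.2 - l) * f2 (pole b - a.2)) := by
        by_cases hk : a.1 = Kd.R0
        · have s3 := sym2 hrb hsp.symm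
          obtain ⟨k, x⟩ := a
          simp only at hk
          subst hk
          rw [s3]
          rfl
        · unfold ds
          rw [if_neg hk]
          ring
      linear_combination (rw b (S.erase b) g * rw a (S.erase b) g *
        TZ (n - 1 - 1) (nxt b (S.erase b)) (fun u => g u * en a u * ent b u)) * s1 +
        (rw b (S.erase b) g *
          TZ (n - 2 - 1) (nxt b (S.erase b)) (fun u => g u * f2 (u - a.2) * ent b u)) * s2
    have eD : ∀ b ∈ Z S, dw b.2 (S.erase b) g * (fac a b.2 * fac a (b.2 - l)) *
        TZ (n - 2) (insert a (S.erase b)) (fun u => g u * f2 (u - b.2)) =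
        dw b.2 (S.erase b) (fun u => g u * fac a u) *
          TZ (n - 2) (S.erase b) (fun u => g u * fac a u * f2 (u - b.2)) +
        rw a S g * (dw b.2 (S.erase b) (fun u => g u * en a u) *
          TZ (n - 1 - 2) (S.erase b) (fun u => g u * en a u * f2 (u - b.2))) +
        ds a S g * (dw b.2 (S.erase b) (fun u => g u * f2 (u - a.2)) *
          TZ (n - 2 - 2) (S.erase b) (fun u => g u * f2 (u - a.2) * f2 (u - b.2))) := by
      intro b hbZ
      obtain ⟨hb1, hb2⟩ := Zmem hbZ
      have hb : b ∈ S := Finset.mem_of_mem_filter _ hbZ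
      have hba : b ≠ a := fun h' => ha (h' ▸ hb)
      have hsp : Sp a.2 b.2 := h.sp a (Finset.mem_insert_self _ _) b (Finset.mem_insert_of_mem hb)
        hba.symm
      have hnb : b ∉ S.erase b := Finset.notMem_erase _ _
      have h4 : a ∉ S.erase b := fun h' => ha (Finset.mem_of_mem_erase h')
      have hR : RG (insert a (S.erase b)) := h.mono (Finset.insert_subset_insert _ (Finset.erase_subset _ _))
      have h2 := ih (n - 2) (by omega) (g := fun u => g u * f2 (u - b.2)) h4 hR
      rw [h2, rw_mul (k := fun u => f2 (u - b.2)), ds_mul (k := fun u => f2 (u - b.2)), dw_mul, dw_mul,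
        dw_mul (k := fun u => f2 (u - a.2)), show n - 2 - 1 = n - 1 - 2 by ring]
      have e1 : rw a S g = rw a (S.erase b) g * fac b (pole a) := by
        rw [← rw_ins hnb, Finset.insert_erase hb]
      have e2 : ds a S g = ds a (S.erase b) g * (fac b a.2 * fac b (a.2 - l)) := by
        rw [← ds_ins hnb, Finset.insert_erase hb]
      rw [e1, e2,
        fx (p := fun u => g u * f2 (u - b.2) * fac a u) (q := fun u => g u * fac a u * f2 (u - b.2))
          (fun u => by ring),
        fx (p := fun u => g u * f2 (u - b.2) * en a u) (q := fun u => g u * en a u * f2 (u - b.2))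
          (fun u => by ring),
        fx (p := fun u => g u * f2 (u - b.2) * f2 (u - a.2))
          (q := fun u => g u * f2 (u - a.2) * f2 (u - b.2)) (fun u => by ring)]
      have s1 : fac a b.2 * fac a (b.2 - l) * f2 (pole a - b.2) =
          fac b (pole a) * (en a b.2 * en a (b.2 - l)) := by
        rw [sym2 hrow hsp]
        conv_rhs => rw [hb2]
        rfl
      have s2 : ds a (S.erase b) g * (fac a b.2 * fac a (b.2 - l) *
          (f2 (a.2 - b.2) * f2 (a.2 - l - b.2))) =
          ds a (S.erase b) g * (fac b a.2 * fac b (a.2 - l) *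
            (f2 (b.2 - a.2) * f2 (b.2 - l - a.2))) := by
        by_cases hk : a.1 = Kd.R0
        · have s3 := sym3 hsp
          have ea : a = (Kd.R0, a.2) := by
            obtain ⟨k, x⟩ := a
            simp only at hk
            subst hk
            rfl
          congr 1
          have f1a : ∀ u, fac a u = 1 / sin (u - a.2) := fun u => by
            conv_lhs => rw [ea]
            rfl
          have f1b : ∀ u, fac b u = 1 / sin (u - b.2) := fun u => by
            conv_lhs => rw [hb2]
            rfl
          rw [f1a, f1a, f1b, f1b]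
          exact s3
        · unfold ds
          rw [if_neg hk]
          ring
      linear_combination (dw b.2 (S.erase b) g * rw a (S.erase b) g *
        TZ (n - 1 - 2) (S.erase b) (fun u => g u * en a u * f2 (u - b.2))) * s1 +
        (dw b.2 (S.erase b) g *
          TZ (n - 2 - 2) (S.erase b) (fun u => g u * f2 (u - a.2) * f2 (u - b.2))) * s2
    apply mul_left_cancel₀ hnC
    rw [TZ_insert n ha, eA, Finset.sum_congr rfl eB, Finset.sum_congr rfl eD]
    have r0 := TZ_rec n S (fun u => g u * fac a u)
    have r1 := TZ_rec (n - 1) S (fun u => g u * en a u)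
    have r2 := TZ_rec (n - 2) S (fun u => g u * f2 (u - a.2))
    push_cast at r1 r2
    simp only [Finset.sum_add_distrib, ← Finset.mul_sum]
    linear_combination -r0 - rw a S g * r1 - ds a S g * r2

end NUP1

end
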