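import Pool.Agent.NUP1.Basic

/-!
# One step: a site receives a quantum
-/

set_option autoImplicit false

noncomputable section

open Complex MeasureTheory

namespace NUP1

variable {α β : ℝ} {S : Finset Site} {g : ℂ → ℂ}

theorem Gf_insert {a : Site} (ha : a ∉ S) (u : ℂ) : Gf (insert a S) g u = Gf S g u * fac a u := by
  unfold Gf
  rw [Finset.prod_insert ha]
  ring

theorem Gf_mul (h : ℂ → ℂ) (u : ℂ) : Gf S (fun u => g u * h u) u = Gf S g u * h u := by
  unfold Gf
  ring

/-- the factors at a generic height -/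
theorem fac_step {a : Site} {u : ℂ} (hu : u.im ≠ a.2.im) :
    fac a u * q (u - pole a) = match a.1 with
      | .R0 => f1 (u - a.2)
      | _ => ent a u := by
  have k1 : ∀ c : ℂ, c.im = 0 → sin (u - a.2 + c) ≠ 0 := fun c hc => by
    apply sin_ne_im
    simp only [add_im, sub_im, hc]
    intro h
    exact hu (by linarith)
  have h0 : sin (u - a.2) ≠ 0 := by simpa using k1 0 (by simp)
  have h1 : sin (u - a.2 + l) ≠ 0 := k1 l (by simp)
  have h2 : sin (u - a.2 - l) ≠ 0 := by simpa [sub_eq_add_neg] using k1 (-l) (by simp)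
  have h3 : sin (u - a.2 + 2 * l) ≠ 0 := k1 (2 * l) (by simp)
  have h4 : sin (u - a.2 - 2 * l) ≠ 0 := by simpa [sub_eq_add_neg] using k1 (-(2 * l)) (by simp)
  rcases a with ⟨_ | _ | _ | _, x⟩
  · exact f1_eq h0
  · show f1 (u - x) * q (u - (x - l)) = f2 (u - x)
    rw [show u - (x - l) = u - x + l by ring]
    exact f2_eq h0 h1 h2 h3
  · show q (u - x) * q (u - (x - l)) = q1 (u - x)
    rw [show u - (x - l) = u - x + l by ring]
    exact q1_eq h0 h1 h2 h3
  · show q (u - x) * q (u - (x + l)) = q1 (u - x - l)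
    rw [show u - (x + l) = u - x - l by ring, mul_comm]
    have e : u - x - l + l = u - x := by ring
    rw [← q1_eq (z := u - x - l) h2 (by rw [e]; exact h0) (by
      rw [show u - x - l - l = u - x - 2 * l by ring]; exact h4) (by
      rw [show u - x - l + 2 * l = u - x + l by ring]; exact h1), e]

/-- the one body function after one step -/
theorem Gf_nxt {a : Site} (ha : a ∉ S) (hn : a.1 = Kd.R0 → (Kd.R1, a.2) ∉ S) {u : ℂ}
    (hu : u.im ≠ a.2.im) :
    Gf (nxt a S) (fun u => g u * ent a u) u = Gf (insert a S) g u * q (u - pole a) := by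
  rw [Gf_insert ha, mul_assoc, fac_step hu, Gf_mul]
  rcases a with ⟨_ | _ | _ | _, x⟩
  · show Gf (insert (Kd.R1, x) S) g u * 1 = _
    rw [Gf_insert (hn rfl), mul_one]
    rfl
  · rfl
  · rfl
  · rfl

/-- generic heights -/
def Gen (S : Finset Site) (t : ℝ) : Prop := ∀ a ∈ S, t ≠ a.2.im

theorem gen_ae (S : Finset Site) : ∀ᵐ t : ℝ, Gen S t := by
  unfold Gen
  rw [Filter.eventually_all_finset]
  intro a _
  exact (Set.finite_singleton (a.2.im)).countable.ae_notMem volume |>.mono fun t ht h => ht h

theorem ent_diff (a : Site) (z : ℂ) : DifferentiableAt ℂ (ent a) z := by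
  rcases a with ⟨_ | _ | _ | _, x⟩
  · exact differentiableAt_const _
  · show DifferentiableAt ℂ (fun u => f2 (u - x)) z
    unfold f2
    fun_prop
  · show DifferentiableAt ℂ (fun u => q1 (u - x)) z
    unfold q1
    fun_prop
  · show DifferentiableAt ℂ (fun u => q1 (u - x - l)) z
    unfold q1
    fun_prop

theorem q1_diff (w z : ℂ) : DifferentiableAt ℂ (fun u => q1 (u - w)) z := by
  unfold q1
  fun_prop

theorem f2_diff (w z : ℂ) : DifferentiableAt ℂ (fun u => f2 (u - w)) z := by
  unfold f2
  fun_prop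

theorem Good.mul (h : Good α β S g) {k : ℂ → ℂ} (hk : ∀ z, DifferentiableAt ℂ k z) :
    Good α β S (fun u => g u * k u) :=
  ⟨h.ok, h.dis, fun z h1 h2 => (h.an z h1 h2).mul (hk z)⟩

theorem Good.erase (h : Good α β S g) (a : Site) : Good α β (S.erase a) g :=
  ⟨fun b hb => h.ok b (Finset.mem_of_mem_erase hb), fun b hb c hc =>
    h.dis b (Finset.mem_of_mem_erase hb) c (Finset.mem_of_mem_erase hc), h.an⟩

/-- the row with one quantum is not there -/
theorem Good.notMem (h : Good α β S g) {a : Site} (ha : a ∈ S) (hk : a.1 = Kd.R0) :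
    (Kd.R1, a.2) ∉ S := by
  intro h1
  obtain ⟨k, x⟩ := a
  simp only at hk
  subst hk
  have h2 := h.dis _ ha _ h1 (by simp)
  exact Finset.disjoint_left.1 h2 (show x - (l : ℂ) ∈ pts (Kd.R0, x) by simp [pts]) (by simp [pts])

theorem Good.nxt (h : Good α β S g) {a : Site} (ha : a ∈ S) :
    Good α β (nxt a (S.erase a)) (fun u => g u * ent a u) := by
  have h1 := (h.erase a).mul (k := ent a) (ent_diff a)
  rcases a with ⟨_ | _ | _ | _, x⟩
  · show Good α β (insert (Kd.R1, x) (S.erase (Kd.R0, x))) _
    have key : ∀ b ∈ S.erase (Kd.R0, x), Disjoint (pts (Kd.R1, x)) (pts b) := fun b hb => by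
      have h2 := h.dis _ ha b (Finset.mem_of_mem_erase hb) (Finset.ne_of_mem_erase hb).symm
      refine h2.mono_left ?_
      intro p hp
      simp only [pts, Finset.mem_singleton] at hp
      simp [pts, hp]
    refine ⟨?_, ?_, h1.an⟩
    · intro b hb
      rcases Finset.mem_insert.1 hb with rfl | hb'
      · exact h.ok (Kd.R0, x) ha
      · exact h1.ok b hb'
    · intro b hb c hc hbc
      rcases Finset.mem_insert.1 hb with h3 | h3 <;> rcases Finset.mem_insert.1 hc with h4 | h4
      · exact absurd (h3.trans h4.symm) hbc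
      · rw [h3]; exact key c h4
      · rw [h4]; exact (key b h3).symm
      · exact h1.dis b h3 c h4 hbc
  · exact h1
  · exact h1
  · exact h1

theorem Gen.erase {t : ℝ} (h : Gen S t) (a : Site) : Gen (S.erase a) t :=
  fun b hb => h b (Finset.mem_of_mem_erase hb)

theorem Gen.nxt {t : ℝ} (h : Gen S t) {a : Site} (ha : a ∈ S) : Gen (nxt a (S.erase a)) t := by
  have h1 := h.erase a
  rcases a with ⟨_ | _ | _ | _, x⟩
  · intro b hb
    rcases Finset.mem_insert.1 hb with h3 | h3
    · rw [h3]; exact h (Kd.R0, x) ha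
    · exact h1 b h3
  · exact h1
  · exact h1
  · exact h1

@[simp] theorem vlre (σ t : ℝ) : (vl σ t).re = σ := by simp [vl]

@[simp] theorem vlim (σ t : ℝ) : (vl σ t).im = t := by simp [vl]

/-- a new site on one of the lines at a generic height -/
theorem Good.add (h : Good α β S g) {s : Site} (hs : Ok α β s) (hg : Gen S s.2.im) :
    Good α β (insert s S) g := by
  have key : ∀ b ∈ S, Disjoint (pts s) (pts b) := fun b hb => by
    refine Finset.disjoint_left.2 fun p hp hq => ?_
    exact hg b hb (by rw [← pts_im hp, ← pts_im hq])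
  refine ⟨?_, ?_, h.an⟩
  · intro b hb
    rcases Finset.mem_insert.1 hb with h3 | h3
    · rw [h3]; exact hs
    · exact h.ok b h3
  · intro b hb c hc hbc
    rcases Finset.mem_insert.1 hb with h3 | h3 <;> rcases Finset.mem_insert.1 hc with h4 | h4
    · exact absurd (h3.trans h4.symm) hbc
    · rw [h3]; exact key c h4
    · rw [h4]; exact (key b h3).symm
    · exact h.dis b h3 c h4 hbc

theorem Gen.notMem {s : Site} (hg : Gen S s.2.im) : s ∉ S := fun h => hg s h rfl

end NUP1

end
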