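import Pool.Agent.NUP1.Inert

/-!
# The string line: from `Re w = β + l` to `Re w = α`
-/

set_option autoImplicit false

noncomputable section

open Complex MeasureTheory

namespace NUP1

variable {α β κ : ℝ} {S : Finset Site} {g : ℂ → ℂ}

/-- the product of the two one body factors of a string, without the removable poles -/
def cs : Site → ℂ → ℂ
  | (.R0, x), w => 1 / (sin (w - x) * sin (w - x - l))
  | (.R1, x), w => sin (w - x + 2 * l) * sin (w - x - 3 * l)
  | (.VA, v), w => q1 (w - v - l)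
  | (.VL, v), w => q1 (w - v - l)

/-- the same without the poles at the rows -/
def cn : Site → ℂ → ℂ
  | (.R0, x), w => 1 / sin (w - x - l)
  | (.R1, x), w => sin (w - x + 2 * l) * sin (w - x - 3 * l)
  | (.VA, v), w => q1 (w - v - l)
  | (.VL, v), w => q1 (w - v - l)

theorem cs_eq {b : Site} {w : ℂ} (h0 : sin (w - b.2) ≠ 0) (h1 : sin (w - b.2 + l) ≠ 0)
    (h2 : sin (w - b.2 - l) ≠ 0) (h3 : sin (w - b.2 - 2 * l) ≠ 0) :
    fac b w * fac b (w - l) = cs b w := by
  have key : ∀ v : ℂ, b.2 = v → q (w - v) * q (w - l - v) = q1 (w - v - l) := by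
    intro v hv
    subst hv
    have e1 : w - b.2 - l + l = w - b.2 := by ring
    have h := q1_eq (z := w - b.2 - l) h2 (by rw [e1]; exact h0)
      (by rw [show w - b.2 - l - l = w - b.2 - 2 * l by ring]; exact h3)
      (by rw [show w - b.2 - l + 2 * l = w - b.2 + l by ring]; exact h1)
    rw [e1] at h
    rw [← h, show w - l - b.2 = w - b.2 - l by ring, mul_comm]
  rcases b with ⟨_ | _ | _ | _, x⟩
  · show 1 / sin (w - x) * (1 / sin (w - l - x)) = 1 / (sin (w - x) * sin (w - x - l))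
    rw [show w - l - x = w - x - l by ring]
    simp only [one_div, mul_inv]
  · show f1 (w - x) * f1 (w - l - x) = _
    rw [show w - l - x = w - x - l by ring]
    exact f1_f1 h0 h1 h2 h3
  · exact key x rfl
  · exact key x rfl

theorem cs_cn (b : Site) (w : ℂ) :
    cs b w = cn b w * (if b.1 = Kd.R0 then (sin (w - b.2))⁻¹ else 1) := by
  rcases b with ⟨_ | _ | _ | _, x⟩
  · show 1 / (sin (w - x) * sin (w - x - l)) = 1 / sin (w - x - l) * (sin (w - x))⁻¹
    simp only [one_div, mul_inv]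
    ring
  · simp [cs, cn]
  · simp [cs, cn]
  · simp [cs, cn]

theorem prod_cs (S : Finset Site) (w : ℂ) :
    ∏ b ∈ S, cs b w = (∏ b ∈ S, cn b w) / ∏ b ∈ Z S, sin (w - b.2) := by
  rw [Finset.prod_congr rfl fun b _ => cs_cn b w, Finset.prod_mul_distrib, div_eq_mul_inv]
  congr 1
  unfold Z
  rw [← Finset.prod_inv_distrib, Finset.prod_filter]

/-- the regularised integrand of the strings -/
def Ph (n : ℕ) (S : Finset Site) (g : ℂ → ℂ) (w : ℂ) : ℂ :=
  g w * g (w - l) * (∏ b ∈ S, cs b w) * T n S (fun u => g u * q1 (u - w))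

/-- its numerator -/
def Hn (n : ℕ) (S : Finset Site) (g : ℂ → ℂ) (w : ℂ) : ℂ :=
  g w * g (w - l) * (∏ b ∈ S, cn b w) * T n S (fun u => g u * q1 (u - w))

theorem Ph_gen (n : ℕ) {w : ℂ} (hg : Gen S w.im) : FM n S g w = Ph n S g w := by
  unfold FM Ph Gf
  rw [← Finset.prod_congr rfl fun b hb => cs_eq (b := b) (w := w)
    (by simpa using hg.nes hb rfl 0 (by simp)) (hg.nes hb rfl l (by simp))
    (by simpa [sub_eq_add_neg] using hg.nes hb rfl (-l) (by simp))
    (by simpa [sub_eq_add_neg] using hg.nes hb rfl (-(2 * l)) (by simp)),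
    Finset.prod_mul_distrib]
  ring

theorem cn_diff (hw : Wd α β) {b : Site} (hb : Ok α β b) {w : ℂ} (h1 : β + l ≤ w.re)
    (h2 : w.re ≤ α) : DifferentiableAt ℂ (cn b) w := by
  have hl := lpos
  have h5 := hw.lo
  have h6 := hw.hi
  rcases b with ⟨_ | _ | _ | _, x⟩
  · obtain ⟨h7, h8, h9, h10⟩ := hb
    have hne : sin (w - x - l) ≠ 0 := by
      refine sin_ne_re' ?_ ?_ ?_ <;> simp <;> linarith
    show DifferentiableAt ℂ (fun w => 1 / sin (w - x - l)) w
    fun_prop (disch := exact hne)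
  · show DifferentiableAt ℂ (fun w => sin (w - x + 2 * l) * sin (w - x - 3 * l)) w
    fun_prop
  · show DifferentiableAt ℂ (fun w => q1 (w - x - l)) w
    unfold q1
    fun_prop
  · show DifferentiableAt ℂ (fun w => q1 (w - x - l)) w
    unfold q1
    fun_prop

theorem Hn_diff (hw : Wd α β) (h : Good α β S g) (n : ℕ) {w : ℂ} (h1 : β + l ≤ w.re)
    (h2 : w.re ≤ α) : DifferentiableAt ℂ (Hn n S g) w := by
  have hl := lpos
  unfold Hn
  have d1 : DifferentiableAt ℂ g w := h.an w (by linarith) h2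
  have d2 : DifferentiableAt ℂ (fun w => g (w - l)) w := by
    have d3 : DifferentiableAt ℂ g (w - l) :=
      h.an (w - l) (by simp; linarith) (by simp; linarith)
    exact d3.comp w (differentiableAt_id.sub_const (l : ℂ))
  have d4 := DifferentiableAt.fun_finsetProd (𝕜 := ℂ) (u := S) (f := fun b => cn b) (x := w)
    (fun b hb => cn_diff hw (h.ok b hb) h1 h2)
  exact ((d1.mul d2).mul d4).mul ((T_string n S g).1 w)

/-- growth of the integrand of the strings -/
theorem FM_gr (n : ℕ) (hG : Gr α β (-κ) (Gf S g)) :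
    Gr α (β + l) (-(2 * κ - 4 * n)) (FM n S g) := by
  have hl := lpos
  have h1 := ((hG.strip (β' := β + l) (α' := α) (by linarith) le_rfl).mul hG.shift).mul
    ((T_string n S g).2 α (β + l))
  exact h1.mono (le_of_eq (by ring))

theorem ph_ae (n : ℕ) (σ : ℝ) :
    (fun t : ℝ => FM n S g (vl σ t)) =ᵐ[volume] fun t : ℝ => Ph n S g (vl σ t) := by
  filter_upwards [gen_ae S] with t ht
  exact Ph_gen n (by simpa using ht)

/-- nonvanishing of the sines at the place of a row, in the cleaned product -/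
theorem cs_row (hw : Wd α β) (h : Good α β S g) {x : ℂ} (hx : (Kd.R0, x) ∈ S) {b : Site}
    (hb : b ∈ S) (hne : b ≠ (Kd.R0, x)) : cs b x = fac b x * fac b (x - l) := by
  have hl := lpos
  have h5 := hw.lo
  have h6 := hw.hi
  obtain ⟨x1, x2, x3, x4⟩ := h.ok _ hx
  have hbO := h.ok b hb
  have hd := h.dis _ hx _ hb hne.symm
  rcases b with ⟨_ | _ | _ | _, y⟩
  · show 1 / (sin (x - y) * sin (x - y - l)) = 1 / sin (x - y) * (1 / sin (x - l - y))
    rw [show x - l - y = x - y - l by ring]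
    simp only [one_div, mul_inv]
  · obtain ⟨y1, y2, y3, y4⟩ := hbO
    have hyx : y - l ≠ x := fun h' => Finset.disjoint_left.1 hd
      (show x ∈ pts (Kd.R0, x) by simp [pts]) (by simp [pts, h'])
    have hyx' : y ≠ x := fun h' => Finset.disjoint_left.1 hd
      (show x - l ∈ pts (Kd.R0, x) by simp [pts]) (by simp [pts, h'])
    refine (cs_eq ?_ ?_ ?_ ?_).symm
    · refine sin_ne_re ?_ ?_ (sub_ne_zero.2 hyx'.symm) <;> simp <;> linarith
    · refine sin_ne_re ?_ ?_ ?_
      · simp; linarith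
      · simp; linarith
      · intro h'
        apply hyx
        linear_combination -h'
    · refine sin_ne_re' ?_ ?_ ?_ <;> simp <;> linarith
    · refine sin_ne_re' ?_ ?_ ?_ <;> simp <;> linarith
  · have hv : y.re = α := hbO
    refine (cs_eq ?_ ?_ ?_ ?_).symm
    · refine sin_ne_re' ?_ ?_ ?_ <;> simp <;> linarith
    · refine sin_ne_re' ?_ ?_ ?_ <;> simp <;> linarith
    · refine sin_ne_re' ?_ ?_ ?_ <;> simp <;> linarith
    · refine sin_ne_re' ?_ ?_ ?_ <;> simp <;> linarith
  · have hv : y.re = β := hbO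
    refine (cs_eq ?_ ?_ ?_ ?_).symm
    · refine sin_ne_re' ?_ ?_ ?_ <;> simp <;> linarith
    · refine sin_ne_re' ?_ ?_ ?_ <;> simp <;> linarith
    · refine sin_ne_re' ?_ ?_ ?_ <;> simp <;> linarith
    · refine sin_ne_re' ?_ ?_ ?_ <;> simp <;> linarith

theorem Z_inj (S : Finset Site) : Set.InjOn Prod.snd (Z S : Set Site) := by
  intro a ha b hb hab
  rw [(Zmem ha).2, (Zmem hb).2, hab]

theorem Z_erase (a : Site) : Z (S.erase a) = (Z S).erase a := by
  unfold Z
  rw [Finset.filter_erase]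

/-- **the string line** -/
theorem string (hw : Wd α β) (h : Good α β S g) (n : ℕ) (hk : 2 * (n : ℝ) < κ)
    (hG : Gr α β (-κ) (Gf S g)) :
    Integrable (fun t : ℝ => FM n S g (vl α t)) ∧ Integrable (fun t : ℝ => FM n S g (vl (β + l) t)) ∧
      -rho * (LI α (FM n S g) - LI (β + l) (FM n S g)) =
        ∑ a ∈ Z S, dw a.2 (S.erase a) g * T n (S.erase a) (fun u => g u * f2 (u - a.2)) := by
  classical
  have hl := lpos
  have h5 := hw.lo
  have h6 := hw.hi
  obtain ⟨R1, hR1⟩ := exists_high S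
  have hP : Gr α (β + l) (-(2 * κ - 4 * n)) (Ph n S g) :=
    (FM_gr n hG).congr R1 fun z _ _ hz => (Ph_gen n fun a ha h' => by
      have := hR1 a ha
      rw [← h'] at this
      linarith).symm
  obtain ⟨C, R, hC, hb⟩ := hP
  have hN : ∀ u ∈ CS (β + l) α, DifferentiableAt ℂ (Hn n S g) u := fun u hu =>
    Hn_diff hw h n hu.1 hu.2
  have hB : ∀ p ∈ (Z S).image Prod.snd, p ∈ OS (β + l) α := by
    intro p hp
    obtain ⟨a, ha, rfl⟩ := Finset.mem_image.1 hp
    have := h.ok _ (Zmem ha).1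
    exact ⟨this.1, this.2.1⟩
  have key := line_shift (a := β + l) (b := α) (by linarith) (by
      have := hw.pi
      linarith) ((Z S).image Prod.snd) hB (f := Ph n S g) (H := Hn n S g)
    (fun u hu => (hN u hu).continuousAt.continuousWithinAt)
    (fun u hu => (hN u (OS_sub_CS _ _ hu)).differentiableWithinAt) (fun u _ _ => by
      rw [Finset.prod_image (fun a ha b hb hab => Z_inj S ha hb hab)]
      unfold Ph Hn
      rw [prod_cs]
      ring) (δ := 2 * κ - 4 * n) (by linarith) (C := C) (t₀ := R)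
    (fun s t h1 h2 h3 => by
      have := hb ((s : ℂ) + t * I) (by simpa using h1) (by simpa using h2) (by simpa using h3)
      simpa using this)
  obtain ⟨i1, i2, i3⟩ := key
  have i1' : Integrable (fun t : ℝ => FM n S g (vl (β + l) t)) := by
    have i0 : Integrable (fun t : ℝ => Ph n S g (vl (β + l) t)) := i1
    exact i0.congr (ph_ae n _).symm
  have i2' : Integrable (fun t : ℝ => FM n S g (vl α t)) := by
    have i0 : Integrable (fun t : ℝ => Ph n S g (vl α t)) := i2
    exact i0.congr (ph_ae n _).symm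
  refine ⟨i2', i1', ?_⟩
  have e0 : LI α (FM n S g) - LI (β + l) (FM n S g) =
      ∑ a ∈ Z S, res ((Z S).image Prod.snd) (Hn n S g) a.2 := by
    unfold LI
    rw [← mul_sub, integral_congr_ae (ph_ae n α), integral_congr_ae (ph_ae n (β + l))]
    have e : (∫ t : ℝ, Ph n S g (vl α t)) - (∫ t : ℝ, Ph n S g (vl (β + l) t)) =
      2 * Real.pi * ∑ p ∈ (Z S).image Prod.snd, res ((Z S).image Prod.snd) (Hn n S g) p := i3
    rw [e, ← mul_assoc, inv_mul_cancel₀ (by norm_num), one_mul,
      Finset.sum_image (fun a ha b hb hab => Z_inj S ha hb hab)]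
  rw [e0, Finset.mul_sum]
  refine Finset.sum_congr rfl fun a ha => ?_
  obtain ⟨ha1, ha2⟩ := Zmem ha
  have haS : a ∈ S := Finset.mem_of_mem_filter _ ha
  have e1 : ((Z S).image Prod.snd).erase a.2 = ((Z S).erase a).image Prod.snd := by
    ext p
    simp only [Finset.mem_erase, Finset.mem_image]
    constructor
    · rintro ⟨h1, b, hb, rfl⟩
      exact ⟨b, ⟨fun h2 => h1 (by rw [h2]), hb⟩, rfl⟩
    · rintro ⟨b, ⟨h1, hb⟩, rfl⟩
      exact ⟨fun h2 => h1 (Z_inj S hb ha h2), b, hb, rfl⟩
  have e2 : cn a a.2 = -(sin l)⁻¹ := by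
    rw [ha2]
    show 1 / sin (a.2 - a.2 - l) = _
    rw [sub_self, zero_sub, Complex.sin_neg, one_div, inv_neg]
  have e3 : (∏ b ∈ S.erase a, cn b a.2) / ∏ b ∈ (Z S).erase a, sin (a.2 - b.2) =
      ∏ b ∈ S.erase a, (fac b a.2 * fac b (a.2 - l)) := by
    rw [← Z_erase, ← prod_cs]
    refine Finset.prod_congr rfl fun b hb => ?_
    exact cs_row hw h ha1 (Finset.mem_of_mem_erase hb) (by
      rw [← ha2]
      exact Finset.ne_of_mem_erase hb)
  have e4 : T n S (fun u => g u * q1 (u - a.2)) =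
      T n (S.erase a) (fun u => g u * f2 (u - a.2)) := by
    have hx : (Kd.R0, a.2) ∉ S.erase a := by rw [← ha2]; exact Finset.notMem_erase _ _
    have hi : insert (Kd.R0, a.2) (S.erase a) = S := by
      rw [← ha2]; exact Finset.insert_erase haS
    have := inert hw n hx (g := g) (by rw [hi]; exact h)
    rw [hi] at this
    exact this
  unfold res Hn
  rw [e1, Finset.prod_image (fun b hb c hc hbc => Z_inj S (Finset.mem_of_mem_erase hb)
    (Finset.mem_of_mem_erase hc) hbc), ← Finset.mul_prod_erase S _ haS, e2, e4]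
  have e5 : g a.2 * g (a.2 - l) * (-(sin l)⁻¹ * ∏ x ∈ S.erase a, cn x a.2) *
      T n (S.erase a) (fun u => g u * f2 (u - a.2)) / ∏ x ∈ (Z S).erase a, sin (a.2 - x.2) =
      g a.2 * g (a.2 - l) * -(sin l)⁻¹ *
        ((∏ x ∈ S.erase a, cn x a.2) / ∏ x ∈ (Z S).erase a, sin (a.2 - x.2)) *
        T n (S.erase a) (fun u => g u * f2 (u - a.2)) := by ring
  rw [e5, e3, Finset.prod_mul_distrib]
  unfold dw Gf
  rw [div_eq_mul_inv]
  ring

end NUP1

end
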